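import Pool.Agent.U407.PF4

/-!
# Good monic polynomials: counting
-/

set_option autoImplicit false

namespace Pool.Agent.U407.PF

open Polynomial Pool.Agent.N867.AS Pool.Agent.N867.AS.LP UniqueFactorizationMonoid

variable {κ : Type} [Field κ] [Fintype κ]

theorem card_compl {A : Type} [Finite A] (Q : A → Prop) :
    Nat.card {x // Q x} + Nat.card {x // ¬ Q x} = Nat.card A := by
  classical
  have : Fintype A := Fintype.ofFinite A
  rw [Nat.card_eq_fintype_card, Nat.card_eq_fintype_card, Nat.card_eq_fintype_card,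
    Fintype.card_subtype, Fintype.card_subtype, Finset.card_filter_add_card_filter_not,
    Finset.card_univ]

theorem card_and_le {A : Type} [Finite A] (Q R : A → Prop) :
    Nat.card {x // Q x} ≤ Nat.card {x // Q x ∧ R x} + Nat.card {x // ¬ R x} := by
  classical
  have : Fintype A := Fintype.ofFinite A
  rw [Nat.card_eq_fintype_card, Nat.card_eq_fintype_card, Nat.card_eq_fintype_card,
    Fintype.card_subtype, Fintype.card_subtype, Fintype.card_subtype]
  refine (Finset.card_le_card ?_).trans (Finset.card_union_le _ _)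
  intro x hx
  rw [Finset.mem_filter] at hx
  rw [Finset.mem_union, Finset.mem_filter, Finset.mem_filter]
  by_cases h : R x
  · exact Or.inl ⟨hx.1, hx.2, h⟩
  · exact Or.inr ⟨hx.1, h⟩

omit [Field κ] [Fintype κ] in
theorem card_all (g : ℕ) : Nat.card (Fin g → κ) = Nat.card κ ^ g := by
  rw [Nat.card_fun, Nat.card_eq_fintype_card (α := Fin g), Fintype.card_fin]

theorem card_good_ge {p : ℕ} [CharP κ p] (hp : p.Prime) {a b g : ℕ} (ha : a ≠ 0) (hb : b ≠ 0)
    (hab : a.Coprime b) (hg : g ≠ 0) (hM : g * (a * b) ∣ p - 1) :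
    (Nat.card κ : ℚ) ^ g - (bnd p a b g + 2) * (Nat.card κ : ℚ) ^ (g - 1) ≤
      Nat.card {α : Fin g → κ // Squarefree (mon α) ∧ OrdP p a b g (mon α)} := by
  have h1 := card_compl (fun α : Fin g → κ => Squarefree (mon α))
  have h2 := card_and_le (fun α : Fin g → κ => Squarefree (mon α)) fun α => OrdP p a b g (mon α)
  have h3 := card_not_squarefree (κ := κ) (g := g) (Nat.one_le_iff_ne_zero.2 hg)
  have h4 := card_not_ordinary (κ := κ) hp ha hb hab hg hM
  rw [card_all] at h1
  have h5 : Nat.card κ ^ g ≤ Nat.card {α : Fin g → κ // Squarefree (mon α) ∧ OrdP p a b g (mon α)} +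
      (bnd p a b g + 2) * Nat.card κ ^ (g - 1) := by
    rw [add_mul]
    omega
  have h6 : (Nat.card κ : ℚ) ^ g ≤
      Nat.card {α : Fin g → κ // Squarefree (mon α) ∧ OrdP p a b g (mon α)} +
      (bnd p a b g + 2) * (Nat.card κ : ℚ) ^ (g - 1) := by
    exact_mod_cast h5
  linarith

theorem card_irr_good_ge {p : ℕ} [CharP κ p] (hp : p.Prime) {a b g : ℕ} (ha : a ≠ 0) (hb : b ≠ 0)
    (hab : a.Coprime b) (hg : g ≠ 0) (hM : g * (a * b) ∣ p - 1) :
    (Nat.card κ : ℚ) ^ g * (1 / g) - (bnd p a b g + 1) * (Nat.card κ : ℚ) ^ (g - 1) ≤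
      Nat.card {α : Fin g → κ // Irreducible (mon α) ∧ OrdP p a b g (mon α)} := by
  have h2 := card_and_le (fun α : Fin g → κ => Irreducible (mon α)) fun α => OrdP p a b g (mon α)
  have h3 := card_irreducible (κ := κ) (g := g) (Nat.one_le_iff_ne_zero.2 hg)
  have h4 := card_not_ordinary (κ := κ) hp ha hb hab hg hM
  have h5 : (Nat.card {α : Fin g → κ // Irreducible (mon α)} : ℚ) ≤
      Nat.card {α : Fin g → κ // Irreducible (mon α) ∧ OrdP p a b g (mon α)} +
      bnd p a b g * (Nat.card κ : ℚ) ^ (g - 1) := by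
    exact_mod_cast h2.trans (Nat.add_le_add_left h4 _)
  linarith

/-- the sum of the numbers of the irreducible factors over good polynomials -/
theorem sum_good_le (g : ℕ) (R : κ[X] → Prop) :
    ∑ᶠ α : {α : Fin g → κ // Squarefree (mon α) ∧ R (mon α)}, ((factors (mon α.1)).card : ℚ) ≤
      (Nat.card κ : ℚ) ^ g * ∑ k ∈ Finset.Icc 1 g, (1 : ℚ) / k := by
  classical
  refine le_trans ?_ (sum_factors_le (κ := κ) g)
  rw [Nat.cast_sum, finsum_eq_sum_of_fintype,
    ← Finset.sum_subtype (Finset.univ.filter fun α : Fin g → κ => Squarefree (mon α) ∧ R (mon α))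
      (by simp) fun α => ((factors (mon α)).card : ℚ)]
  refine (Finset.sum_le_sum (g := fun α : Fin g → κ =>
    ((∑ k ∈ Finset.Icc 1 g, ((irr κ k).filter fun P => P ∣ mon α).card : ℕ) : ℚ)) ?_).trans
    (Finset.sum_le_sum_of_subset_of_nonneg (Finset.subset_univ _) fun _ _ _ => Nat.cast_nonneg _)
  intro α hα
  rw [Finset.mem_filter] at hα
  rw [card_factors_squarefree (mon_monic α) (mon_natDegree α) hα.2.1]

end Pool.Agent.U407.PF
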