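import Mathlib

/-!
# The order of a polynomial at `1/q`, and irreducible polynomials have one factor
-/

set_option autoImplicit false

namespace Pool.Agent.U407.LF

open Polynomial

theorem exists_order {q : ℚ} (hq : q ≠ 0) {L : ℚ[X]} (hL0 : L ≠ 0) :
    ∃ (ρ : ℕ) (M : ℚ[X]), L = (1 - C q * X) ^ ρ * M ∧ M.eval (1 / q) ≠ 0 := by
  obtain ⟨M₀, hM₀, hM₀'⟩ := Polynomial.exists_eq_pow_rootMultiplicity_mul_and_not_dvd L hL0 (1 / q)
  obtain ⟨ρ, hρ⟩ : ∃ ρ, ρ = L.rootMultiplicity (1 / q) := ⟨_, rfl⟩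
  rw [← hρ] at hM₀
  have hlin : (X - C (1 / q) : ℚ[X]) = C (-1 / q) * (1 - C q * X) := by
    rw [mul_sub, mul_one, ← mul_assoc, ← C_mul, div_mul_cancel₀ _ hq, C_neg, C_1, neg_one_mul,
      neg_div, C_neg]
    ring
  refine ⟨ρ, C ((-1 / q) ^ ρ) * M₀, ?_, ?_⟩
  · conv_lhs => rw [hM₀, hlin, mul_pow, ← C_pow]
    ring
  · rw [eval_mul, eval_C]
    refine mul_ne_zero (pow_ne_zero _ (div_ne_zero (by norm_num) hq)) fun h0 => hM₀' ?_
    exact dvd_iff_isRoot.2 h0

theorem card_factors_eq_one {R : Type} [CommRing R] [IsDomain R] [UniqueFactorizationMonoid R]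
    {a : R} (ha : Irreducible a) : (UniqueFactorizationMonoid.factors a).card = 1 := by
  have h1 : UniqueFactorizationMonoid.factors a ≠ 0 := by
    intro h0
    have h2 := UniqueFactorizationMonoid.factors_prod ha.ne_zero
    rw [h0, Multiset.prod_zero] at h2
    exact ha.not_isUnit (h2.isUnit isUnit_one)
  have h2 := UniqueFactorizationMonoid.factors_prod ha.ne_zero
  obtain ⟨P, hP⟩ := Multiset.exists_mem_of_ne_zero h1
  obtain ⟨t, ht⟩ := Multiset.exists_cons_of_mem hP
  have hPirr : Irreducible P := UniqueFactorizationMonoid.irreducible_of_factor P hP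
  rw [ht, Multiset.card_cons]
  have ht0 : t = 0 := by
    by_contra htne
    obtain ⟨Q, hQ⟩ := Multiset.exists_mem_of_ne_zero htne
    obtain ⟨t', ht'⟩ := Multiset.exists_cons_of_mem hQ
    have hQirr : Irreducible Q := UniqueFactorizationMonoid.irreducible_of_factor Q (by
      rw [ht]
      exact Multiset.mem_cons_of_mem hQ)
    rw [ht, ht', Multiset.prod_cons, Multiset.prod_cons] at h2
    have h3 : Irreducible (P * (Q * t'.prod)) := h2.symm.irreducible ha
    rcases h3.isUnit_or_isUnit rfl with h4 | h4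
    · exact hPirr.not_isUnit h4
    · exact hQirr.not_isUnit (isUnit_of_mul_isUnit_left h4)
  rw [ht0, Multiset.card_zero]

end Pool.Agent.U407.LF
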