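import Pool.Agent.U407.CE1

/-!
# Mean and variance of `∑ w(deg P)` over the irreducible factors `P` of a monic polynomial
-/

set_option autoImplicit false
set_option linter.unusedSectionVars false

namespace Pool.Agent.U407.CE

open Polynomial UniqueFactorizationMonoid Pool.Agent.U407.PF

variable {κ : Type} [Field κ] [Fintype κ]

open Classical in
/-- the sum of the weights of the distinct monic irreducible factors -/
noncomputable def omw (w : ℕ → ℚ) {g : ℕ} (α : Fin g → κ) : ℚ :=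
  ∑ P ∈ small κ g, if P ∣ mon α then w P.natDegree else 0

variable (κ) in
/-- the expected value -/
noncomputable def exw (w : ℕ → ℚ) (g : ℕ) : ℚ :=
  ∑ P ∈ small κ g, w P.natDegree * (1 / (Nat.card κ : ℚ) ^ P.natDegree)

theorem sum_omw (w : ℕ → ℚ) (g : ℕ) :
    ∑ α : Fin g → κ, omw w α = (Nat.card κ : ℚ) ^ g * exw κ w g := by
  classical
  unfold omw exw
  rw [Finset.sum_comm, Finset.mul_sum]
  refine Finset.sum_congr rfl fun P hP => ?_
  rw [mem_small] at hP
  have h1 : ∀ α : Fin g → κ, (if P ∣ mon α then w P.natDegree else 0) =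
      w P.natDegree * if P ∣ mon α then 1 else 0 := fun α => by split_ifs <;> simp
  rw [Finset.sum_congr rfl fun α _ => h1 α, ← Finset.mul_sum, sum_ind, card_div hP.1 hP.2.2]
  ring

theorem sum_omw_sq (w : ℕ → ℚ) (hw : ∀ k, 0 ≤ w k) (g : ℕ) :
    ∑ α : Fin g → κ, omw w α ^ 2 ≤
      (Nat.card κ : ℚ) ^ g * (exw κ (fun k => w k ^ 2) g + exw κ w g ^ 2) := by
  classical
  have h1 : ∀ α : Fin g → κ, omw w α ^ 2 = ∑ P ∈ small κ g, ∑ Q ∈ small κ g,
      w P.natDegree * w Q.natDegree * if P ∣ mon α ∧ Q ∣ mon α then (1 : ℚ) else 0 := by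
    intro α
    unfold omw
    rw [sq, Finset.sum_mul_sum]
    refine Finset.sum_congr rfl fun P _ => Finset.sum_congr rfl fun Q _ => ?_
    by_cases h2 : P ∣ mon α
    · by_cases h3 : Q ∣ mon α
      · rw [if_pos h2, if_pos h3, if_pos ⟨h2, h3⟩, mul_one]
      · rw [if_neg h3, if_neg (fun h : P ∣ mon α ∧ Q ∣ mon α => h3 h.2), mul_zero, mul_zero]
    · rw [if_neg h2, if_neg (fun h : P ∣ mon α ∧ Q ∣ mon α => h2 h.1), zero_mul, mul_zero]
  rw [Finset.sum_congr rfl fun α _ => h1 α, Finset.sum_comm]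
  have h2 : ∀ P ∈ small κ g, ∑ α : Fin g → κ, ∑ Q ∈ small κ g,
      w P.natDegree * w Q.natDegree * (if P ∣ mon α ∧ Q ∣ mon α then (1 : ℚ) else 0) ≤
      (Nat.card κ : ℚ) ^ g * (w P.natDegree ^ 2 * (1 / (Nat.card κ : ℚ) ^ P.natDegree) +
        w P.natDegree * (1 / (Nat.card κ : ℚ) ^ P.natDegree) * exw κ w g) := by
    intro P hP
    have hP' := mem_small.1 hP
    rw [Finset.sum_comm, ← Finset.add_sum_erase _ _ hP, mul_add]
    refine add_le_add ?_ ?_
    · rw [← Finset.mul_sum, sum_ind]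
      have h3 : Nat.card {α : Fin g → κ // P ∣ mon α ∧ P ∣ mon α} =
          Nat.card {α : Fin g → κ // P ∣ mon α} :=
        Nat.card_congr (Equiv.subtypeEquivRight fun α => and_self_iff)
      rw [h3, card_div hP'.1 hP'.2.2]
      exact le_of_eq (by ring)
    · unfold exw
      rw [Finset.mul_sum, Finset.mul_sum]
      refine (Finset.sum_le_sum (g := fun Q => (Nat.card κ : ℚ) ^ g *
        (w P.natDegree * (1 / (Nat.card κ : ℚ) ^ P.natDegree) *
          (w Q.natDegree * (1 / (Nat.card κ : ℚ) ^ Q.natDegree))))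
        fun Q hQ => ?_).trans (Finset.sum_le_sum_of_subset_of_nonneg (Finset.erase_subset _ _)
          fun Q _ _ => by
            have := q_pos (κ := κ)
            have h4 := hw P.natDegree
            have h5 := hw Q.natDegree
            positivity)
      rw [Finset.mem_erase] at hQ
      have hQ' := mem_small.1 hQ.2
      rw [← Finset.mul_sum, sum_ind]
      have h6 := mul_le_mul_of_nonneg_left
        (card_two (g := g) hP'.1 hP'.2.1 hQ'.1 hQ'.2.1 hQ.1.symm)
        (mul_nonneg (hw P.natDegree) (hw Q.natDegree))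
      refine h6.trans (le_of_eq (by ring))
  refine (Finset.sum_le_sum h2).trans (le_of_eq ?_)
  rw [← Finset.mul_sum, Finset.sum_add_distrib, ← Finset.sum_mul]
  unfold exw
  ring

/-- the variance -/
theorem variancew (w : ℕ → ℚ) (hw : ∀ k, 0 ≤ w k) (g : ℕ) :
    ∑ α : Fin g → κ, (omw w α - exw κ w g) ^ 2 ≤
      (Nat.card κ : ℚ) ^ g * exw κ (fun k => w k ^ 2) g := by
  have h1 : ∑ α : Fin g → κ, (omw w α - exw κ w g) ^ 2 =
      ∑ α : Fin g → κ, omw w α ^ 2 - 2 * exw κ w g * ∑ α : Fin g → κ, omw w α +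
        (Nat.card κ : ℚ) ^ g * exw κ w g ^ 2 := by
    have h2 : ∀ α : Fin g → κ, (omw w α - exw κ w g) ^ 2 =
        omw w α ^ 2 - 2 * exw κ w g * omw w α + exw κ w g ^ 2 := fun α => by ring
    rw [Finset.sum_congr rfl fun α _ => h2 α, Finset.sum_add_distrib, Finset.sum_sub_distrib,
      ← Finset.mul_sum, Finset.sum_const, Finset.card_univ, nsmul_eq_mul, ← Nat.card_eq_fintype_card,
      Nat.card_fun, Nat.card_eq_fintype_card (α := Fin g), Fintype.card_fin, Nat.cast_pow]
  rw [h1, sum_omw]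
  have h3 := sum_omw_sq (κ := κ) w hw g
  linarith [h3, (by ring : (Nat.card κ : ℚ) ^ g * (exw κ (fun k => w k ^ 2) g + exw κ w g ^ 2) -
    2 * exw κ w g * ((Nat.card κ : ℚ) ^ g * exw κ w g) + (Nat.card κ : ℚ) ^ g * exw κ w g ^ 2 =
    (Nat.card κ : ℚ) ^ g * exw κ (fun k => w k ^ 2) g)]

theorem exw_le (w : ℕ → ℚ) (hw : ∀ k, 0 ≤ w k) (g : ℕ) :
    exw κ w g ≤ ∑ k ∈ Finset.Icc 1 g, w k / k := by
  classical
  unfold exw small
  rw [Finset.sum_biUnion]
  · refine Finset.sum_le_sum fun k hk => ?_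
    rw [Finset.mem_Icc] at hk
    have hk0 : k ≠ 0 := by omega
    have hk1 : (0 : ℚ) < k := by exact_mod_cast (show 0 < k by omega)
    have h1 : ∑ P ∈ irr κ k, w P.natDegree * (1 / (Nat.card κ : ℚ) ^ P.natDegree) =
        w k * ((irr κ k).card / (Nat.card κ : ℚ) ^ k) := by
      rw [Finset.sum_congr rfl fun P hP => by rw [((mem_irr hk0).1 hP).2.2], Finset.sum_const,
        nsmul_eq_mul]
      ring
    rw [h1, div_eq_mul_one_div (w k) (k : ℚ)]
    refine mul_le_mul_of_nonneg_left ?_ (hw k)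
    rw [div_le_div_iff₀ (pow_pos q_pos _) hk1, one_mul, mul_comm]
    exact_mod_cast card_irr_le (κ := κ) hk0
  · intro i hi j hj hij
    rw [Finset.mem_coe, Finset.mem_Icc] at hi hj
    rw [Function.onFun, Finset.disjoint_left]
    intro P hP hP'
    rw [mem_irr (by omega)] at hP hP'
    exact hij (hP.2.2.symm.trans hP'.2.2)

/-- Chebyshev's inequality -/
theorem chebyshevw (w : ℕ → ℚ) (hw : ∀ k, 0 ≤ w k) (g : ℕ) {t : ℚ} (ht : 0 < t) :
    (Nat.card {α : Fin g → κ // (∑ k ∈ Finset.Icc 1 g, w k / k) + t ≤ omw w α} : ℚ) ≤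
      (Nat.card κ : ℚ) ^ g * ((∑ k ∈ Finset.Icc 1 g, w k ^ 2 / k) / t ^ 2) := by
  classical
  obtain ⟨H, hH⟩ : ∃ H : ℚ, H = ∑ k ∈ Finset.Icc 1 g, w k / k := ⟨_, rfl⟩
  rw [← hH]
  have hex : exw κ w g ≤ H := by
    rw [hH]
    exact exw_le w hw g
  have h1 : (Nat.card {α : Fin g → κ // H + t ≤ omw w α} : ℚ) * t ^ 2 ≤
      (Nat.card κ : ℚ) ^ g * exw κ (fun k => w k ^ 2) g := by
    refine le_trans ?_ (variancew (κ := κ) w hw g)
    rw [Nat.card_eq_fintype_card, Fintype.card_subtype, ← nsmul_eq_mul, ← Finset.sum_const]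
    refine (Finset.sum_le_sum (g := fun α : Fin g → κ => (omw w α - exw κ w g) ^ 2) ?_).trans
      (Finset.sum_le_sum_of_subset_of_nonneg (Finset.subset_univ _) fun α _ _ => sq_nonneg _)
    intro α hα
    rw [Finset.mem_filter] at hα
    have h2 : t ≤ omw w α - exw κ w g := by linarith [hα.2]
    exact pow_le_pow_left₀ ht.le h2 2
  rw [← mul_div_assoc, le_div_iff₀ (by positivity)]
  refine h1.trans (mul_le_mul_of_nonneg_left (exw_le _ (fun k => sq_nonneg _) g) ?_)
  exact (pow_pos q_pos _).le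

theorem sum_weights {w : ℕ → ℚ} {g : ℕ} {Φ : κ[X]} (hΦ : Φ.Monic) (hg : Φ.natDegree = g)
    (hsq : Squarefree Φ) [∀ P : κ[X], Decidable (P ∣ Φ)] :
    ((factors Φ).map fun P => w P.natDegree).sum =
      ∑ P ∈ small κ g, if P ∣ Φ then w P.natDegree else 0 := by
  classical
  have h0 : Φ ≠ 0 := hΦ.ne_zero
  have hnd : (normalizedFactors Φ).Nodup := (squarefree_iff_nodup_normalizedFactors h0).1 hsq
  have h1 : ((factors Φ).map fun P => w P.natDegree).sum =
      ((normalizedFactors Φ).map fun P => w P.natDegree).sum := by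
    unfold normalizedFactors
    rw [Multiset.map_map]
    congr 1
    refine Multiset.map_congr rfl fun P hP => ?_
    rw [Function.comp_apply, natDegree_eq_of_degree_eq
      (degree_eq_degree_of_associated (normalize_associated P))]
  rw [h1, ← Finset.sum_filter]
  have h2 : (small κ g).filter (fun P => P ∣ Φ) = (normalizedFactors Φ).toFinset := by
    ext P
    rw [Multiset.mem_toFinset, Polynomial.mem_normalizedFactors_iff h0, Finset.mem_filter,
      mem_small]
    constructor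
    · rintro ⟨⟨h3, h4, -⟩, h5⟩
      exact ⟨h4, h3, h5⟩
    · rintro ⟨h3, h4, h5⟩
      exact ⟨⟨h4, h3, by rw [← hg]; exact natDegree_le_of_dvd h5 h0⟩, h5⟩
  rw [h2, Finset.sum_multiset_map_count]
  refine Finset.sum_congr rfl fun P hP => ?_
  rw [Multiset.count_eq_one_of_mem hnd (Multiset.mem_toFinset.1 hP), one_smul]

/-- for squarefree polynomials -/
theorem omw_eq (w : ℕ → ℚ) {g : ℕ} (α : Fin g → κ) (h : Squarefree (mon α)) :
    omw w α = ((factors (mon α)).map fun P => w P.natDegree).sum := by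
  classical
  rw [sum_weights (mon_monic α) (mon_natDegree α) h]
  unfold omw
  exact Finset.sum_congr rfl fun P _ => by congr

/-- the number of the squarefree polynomials with small weight -/
theorem card_feww (w : ℕ → ℚ) (hw : ∀ k, 0 ≤ w k) {g : ℕ} (hg : 1 ≤ g) {t : ℚ} (ht : 0 < t) :
    1 - (∑ k ∈ Finset.Icc 1 g, w k ^ 2 / k) / t ^ 2 - 2 / Nat.card κ ≤
      (Nat.card {α : Fin g → κ // Squarefree (mon α) ∧
        ((factors (mon α)).map fun P => w P.natDegree).sum <
          (∑ k ∈ Finset.Icc 1 g, w k / k) + t} : ℚ) / Nat.card (Fin g → κ) := by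
  classical
  obtain ⟨H, hH⟩ : ∃ H : ℚ, H = ∑ k ∈ Finset.Icc 1 g, w k / k := ⟨_, rfl⟩
  obtain ⟨V, hV⟩ : ∃ V : ℚ, V = ∑ k ∈ Finset.Icc 1 g, w k ^ 2 / k := ⟨_, rfl⟩
  have hch := chebyshevw (κ := κ) w hw g ht
  rw [← hH, ← hV] at hch
  rw [← hH, ← hV]
  have hsq := card_not_squarefree (κ := κ) hg
  have hq := q_pos (κ := κ)
  rw [card_vec, le_div_iff₀ (pow_pos hq _)]
  have hcount : Nat.card (Fin g → κ) ≤ Nat.card {α : Fin g → κ // Squarefree (mon α) ∧
        ((factors (mon α)).map fun P => w P.natDegree).sum < H + t} +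
        (Nat.card {α : Fin g → κ // H + t ≤ omw w α} +
        Nat.card {α : Fin g → κ // ¬ Squarefree (mon α)}) := by
    rw [Nat.card_eq_fintype_card, Nat.card_eq_fintype_card, Nat.card_eq_fintype_card,
      Nat.card_eq_fintype_card, Fintype.card_subtype, Fintype.card_subtype, Fintype.card_subtype,
      ← Finset.card_univ]
    refine (Finset.card_le_card ?_).trans ((Finset.card_union_le _ _).trans
      (Nat.add_le_add_left (Finset.card_union_le _ _) _))
    intro α _
    rw [Finset.mem_union, Finset.mem_union, Finset.mem_filter, Finset.mem_filter,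
      Finset.mem_filter]
    by_cases h1 : Squarefree (mon α)
    · by_cases h2 : H + t ≤ omw w α
      · exact Or.inr (Or.inl ⟨Finset.mem_univ _, h2⟩)
      · left
        refine ⟨Finset.mem_univ _, h1, ?_⟩
        rw [← omw_eq w α h1]
        exact not_le.1 h2
    · exact Or.inr (Or.inr ⟨Finset.mem_univ _, h1⟩)
  have hcount' : (Nat.card κ : ℚ) ^ g ≤ (Nat.card {α : Fin g → κ // Squarefree (mon α) ∧
        ((factors (mon α)).map fun P => w P.natDegree).sum < H + t} : ℚ) +
        ((Nat.card κ : ℚ) ^ g * (V / t ^ 2) + 2 * (Nat.card κ : ℚ) ^ (g - 1)) := by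
    have h3 : (Nat.card (Fin g → κ) : ℚ) ≤ (Nat.card {α : Fin g → κ // Squarefree (mon α) ∧
        ((factors (mon α)).map fun P => w P.natDegree).sum < H + t} : ℚ) +
        ((Nat.card {α : Fin g → κ // H + t ≤ omw w α} : ℚ)
        + (Nat.card {α : Fin g → κ // ¬ Squarefree (mon α)} : ℚ)) := by exact_mod_cast hcount
    have h4 : (Nat.card {α : Fin g → κ // ¬ Squarefree (mon α)} : ℚ) ≤
        2 * (Nat.card κ : ℚ) ^ (g - 1) := by exact_mod_cast hsq
    rw [card_vec] at h3
    linarith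
  have h2 : (Nat.card κ : ℚ) ^ g = (Nat.card κ : ℚ) ^ (g - 1) * Nat.card κ := by
    rw [← pow_succ, Nat.sub_add_cancel hg]
  have h5 : 2 / (Nat.card κ : ℚ) * (Nat.card κ : ℚ) ^ g = 2 * (Nat.card κ : ℚ) ^ (g - 1) := by
    rw [h2]
    field_simp
  calc (1 - V / t ^ 2 - 2 / (Nat.card κ : ℚ)) * (Nat.card κ : ℚ) ^ g =
        (Nat.card κ : ℚ) ^ g - (Nat.card κ : ℚ) ^ g * (V / t ^ 2) -
          2 / (Nat.card κ : ℚ) * (Nat.card κ : ℚ) ^ g := by ring
    _ ≤ _ := by
      rw [h5]
      linarith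

theorem sum_sqfw (w : ℕ → ℚ) (hw : ∀ k, 0 ≤ w k) (g : ℕ) :
    ∑ᶠ α : {α : Fin g → κ // Squarefree (mon α)},
      ((factors (mon α.1)).map fun P => w P.natDegree).sum ≤
        (Nat.card κ : ℚ) ^ g * ∑ k ∈ Finset.Icc 1 g, w k / k := by
  classical
  refine le_trans ?_ (mul_le_mul_of_nonneg_left (exw_le (κ := κ) w hw g) (pow_pos q_pos _).le)
  rw [← sum_omw, finsum_eq_sum_of_fintype,
    ← Finset.sum_subtype (Finset.univ.filter fun α : Fin g → κ => Squarefree (mon α))
      (by simp) fun α => ((factors (mon α)).map fun P => w P.natDegree).sum]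
  refine (Finset.sum_le_sum (g := fun α : Fin g → κ => omw w α) ?_).trans
    (Finset.sum_le_sum_of_subset_of_nonneg (Finset.subset_univ _) fun α _ _ => ?_)
  · intro α hα
    rw [Finset.mem_filter] at hα
    exact (omw_eq w α hα.2).ge
  · unfold omw
    exact Finset.sum_nonneg fun P _ => by
      split_ifs
      · exact hw _
      · exact le_rfl

end Pool.Agent.U407.CE
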