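import Pool.Agent.U407.PF7

/-!
# Families in which one datum is a monic polynomial of degree `g`
-/

set_option autoImplicit false

namespace Pool.Agent.U407.PF

open Polynomial UniqueFactorizationMonoid

section general

variable {A B E : Type}

/-- the number of the members with a property of the middle component -/
theorem card_mid (Q : E → Prop) :
    (Nat.card {m : A × E × B // Q m.2.1} : ℚ) =
      (Nat.card A * Nat.card B : ℕ) * Nat.card {α : E // Q α} := by
  have h1 : Nat.card {m : A × E × B // Q m.2.1} = Nat.card (A × {α : E // Q α} × B) :=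
    Nat.card_congr
      { toFun := fun m => (m.1.1, ⟨m.1.2.1, m.2⟩, m.1.2.2)
        invFun := fun m => ⟨(m.1, m.2.1.1, m.2.2), m.2.1.2⟩
        left_inv := fun m => rfl
        right_inv := fun m => rfl }
  rw [h1, Nat.card_prod, Nat.card_prod]
  push_cast
  ring

theorem sum_mid [Finite A] [Finite B] [Finite E] (Q : E → Prop) (F : E → ℚ) :
    ∑ᶠ m : {m : A × E × B // Q m.2.1}, F m.1.2.1 =
      (Nat.card A * Nat.card B : ℕ) * ∑ᶠ α : {α : E // Q α}, F α.1 := by
  classical
  have : Fintype A := Fintype.ofFinite A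
  have : Fintype B := Fintype.ofFinite B
  have : Fintype E := Fintype.ofFinite E
  have h1 : ∑ᶠ m : {m : A × E × B // Q m.2.1}, F m.1.2.1 =
      ∑ᶠ m : A × {α : E // Q α} × B, F m.2.1.1 := by
    refine finsum_eq_of_bijective (fun m : {m : A × E × B // Q m.2.1} =>
      ((m.1.1, ⟨m.1.2.1, m.2⟩, m.1.2.2) : A × {α : E // Q α} × B)) ?_ fun m => rfl
    exact ⟨fun x y h => Subtype.ext (Prod.ext (congrArg (fun z => z.1) h)
      (Prod.ext (congrArg (fun z => z.2.1.1) h) (congrArg (fun z => z.2.2) h))),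
      fun m => ⟨⟨(m.1, m.2.1.1, m.2.2), m.2.1.2⟩, rfl⟩⟩
  rw [h1, finsum_eq_sum_of_fintype, finsum_eq_sum_of_fintype, Fintype.sum_prod_type]
  simp only [Fintype.sum_prod_type]
  simp only [Finset.sum_const, nsmul_eq_mul]
  rw [← Finset.mul_sum, Finset.card_univ, Finset.card_univ, ← Nat.card_eq_fintype_card,
    ← Nat.card_eq_fintype_card]
  push_cast
  ring

/-- the average over the members with a property of the middle component -/
theorem average_mid [Finite A] [Finite B] [Finite E] [Nonempty A] [Nonempty B] (Q : E → Prop)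
    {N c H : ℚ} (hN : 0 < N) (hc : 0 < c) (hH : 0 ≤ H) (hQ : N * c ≤ Nat.card {α : E // Q α})
    (e : E → ℚ) (he : ∑ᶠ α : {α : E // Q α}, e α.1 ≤ N * H) {K : ℚ} (hK : 0 ≤ K)
    {ρ : A × E × B → ℚ} (hρ : ∀ m, Q m.2.1 → ρ m ≤ K * (e m.2.1 - 1)) :
    (∑ᶠ m : {m : A × E × B // Q m.2.1}, ρ m.1) / Nat.card {m : A × E × B // Q m.2.1} ≤
      K * (H / c - 1) := by
  classical
  have : Fintype A := Fintype.ofFinite A
  have : Fintype B := Fintype.ofFinite B
  have : Fintype E := Fintype.ofFinite E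
  obtain ⟨R, hR⟩ : ∃ R : ℚ, R = (Nat.card A * Nat.card B : ℕ) := ⟨_, rfl⟩
  have hR0 : 0 < R := by
    rw [hR]
    exact_mod_cast Nat.mul_pos Nat.card_pos Nat.card_pos
  obtain ⟨G, hG⟩ : ∃ G : ℚ, G = Nat.card {α : E // Q α} := ⟨_, rfl⟩
  rw [← hG] at hQ
  have hG0 : 0 < G := lt_of_lt_of_le (mul_pos hN hc) hQ
  have h1 : ∑ᶠ m : {m : A × E × B // Q m.2.1}, ρ m.1 ≤
      ∑ᶠ m : {m : A × E × B // Q m.2.1}, K * (e m.1.2.1 - 1) := by
    rw [finsum_eq_sum_of_fintype, finsum_eq_sum_of_fintype]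
    exact Finset.sum_le_sum fun m _ => hρ m.1 m.2
  have h2 : ∑ᶠ m : {m : A × E × B // Q m.2.1}, K * (e m.1.2.1 - 1) =
      R * ∑ᶠ α : {α : E // Q α}, K * (e α.1 - 1) := by
    rw [hR]
    exact sum_mid Q fun α => K * (e α - 1)
  have h3 : ∑ᶠ α : {α : E // Q α}, K * (e α.1 - 1) = K * ((∑ᶠ α : {α : E // Q α}, e α.1) - G) := by
    rw [finsum_eq_sum_of_fintype, finsum_eq_sum_of_fintype, ← Finset.mul_sum,
      Finset.sum_sub_distrib, Finset.sum_const, nsmul_eq_mul, mul_one, Finset.card_univ, hG,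
      Nat.card_eq_fintype_card]
  rw [h2, h3] at h1
  rw [card_mid, ← hR, ← hG, div_le_iff₀ (mul_pos hR0 hG0)]
  refine h1.trans ?_
  have h4 : N * H ≤ H / c * G := by
    rw [div_mul_eq_mul_div, le_div_iff₀ hc]
    nlinarith
  calc R * (K * ((∑ᶠ α : {α : E // Q α}, e α.1) - G))
      ≤ R * (K * (H / c * G - G)) :=
        mul_le_mul_of_nonneg_left (mul_le_mul_of_nonneg_left (sub_le_sub_right (he.trans h4) _) hK)
          hR0.le
    _ = K * (H / c - 1) * (R * G) := by ring

theorem proportion_mid [Finite A] [Finite B] [Finite E] [Nonempty A] [Nonempty B] [Nonempty E]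
    (Q : E → Prop) : (Nat.card {m : A × E × B // Q m.2.1} : ℚ) / Nat.card (A × E × B) =
      (Nat.card {α : E // Q α} : ℚ) / Nat.card E := by
  have hR0 : ((Nat.card A * Nat.card B : ℕ) : ℚ) ≠ 0 := by
    have : 0 < Nat.card A * Nat.card B := Nat.mul_pos Nat.card_pos Nat.card_pos
    exact_mod_cast this.ne'
  have h1 : (Nat.card (A × E × B) : ℚ) = (Nat.card A * Nat.card B : ℕ) * Nat.card E := by
    rw [Nat.card_prod, Nat.card_prod]
    push_cast
    ring
  rw [card_mid, h1, mul_div_mul_left _ _ hR0]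

theorem proportion_le [Finite E] {P Q : E → Prop} (h : ∀ m, P m → Q m) :
    (Nat.card {m : E // P m} : ℚ) / Nat.card E ≤ (Nat.card {m : E // Q m} : ℚ) / Nat.card E := by
  refine div_le_div_of_nonneg_right ?_ (Nat.cast_nonneg _)
  exact_mod_cast Nat.card_le_card_of_injective
    (fun m : {m // P m} => (⟨m.1, h m.1 m.2⟩ : {m // Q m})) fun x y hxy =>
      Subtype.ext (congrArg (fun z => z.1) hxy)

end general

variable {κ : Type} [Field κ] [Fintype κ]

omit [Field κ] [Fintype κ] in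
theorem card_vec (g : ℕ) : (Nat.card (Fin g → κ) : ℚ) = (Nat.card κ : ℚ) ^ g := by
  rw [Nat.card_fun, Nat.card_eq_fintype_card (α := Fin g), Fintype.card_fin, Nat.cast_pow]

/-- the number of the squarefree polynomials with few irreducible factors -/
theorem card_few {g : ℕ} (hg : 1 ≤ g) {t : ℚ} (ht : 0 < t) :
    1 - (∑ k ∈ Finset.Icc 1 g, (1 : ℚ) / k) / t ^ 2 - 2 / Nat.card κ ≤
      (Nat.card {α : Fin g → κ // Squarefree (mon α) ∧
        ((factors (mon α)).card : ℚ) < (∑ k ∈ Finset.Icc 1 g, (1 : ℚ) / k) + t} : ℚ) /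
        Nat.card (Fin g → κ) := by
  classical
  obtain ⟨H, hH⟩ : ∃ H : ℚ, H = ∑ k ∈ Finset.Icc 1 g, (1 : ℚ) / k := ⟨_, rfl⟩
  have hch := chebyshev (κ := κ) g ht
  rw [← hH] at hch ⊢
  have hsq := card_not_squarefree (κ := κ) hg
  have hq := q_pos (κ := κ)
  rw [card_vec, le_div_iff₀ (pow_pos hq _)]
  have hcount : Nat.card (Fin g → κ) ≤ Nat.card {α : Fin g → κ // Squarefree (mon α) ∧
        ((factors (mon α)).card : ℚ) < H + t} + (Nat.card {α : Fin g → κ // H + t ≤ om α} +
        Nat.card {α : Fin g → κ // ¬ Squarefree (mon α)}) := by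
    rw [Nat.card_eq_fintype_card, Nat.card_eq_fintype_card, Nat.card_eq_fintype_card,
      Nat.card_eq_fintype_card, Fintype.card_subtype, Fintype.card_subtype, Fintype.card_subtype,
      ← Finset.card_univ]
    refine (Finset.card_le_card ?_).trans ((Finset.card_union_le _ _).trans
      (Nat.add_le_add_left (Finset.card_union_le _ _) _))
    intro α _
    rw [Finset.mem_union, Finset.mem_union, Finset.mem_filter, Finset.mem_filter,
      Finset.mem_filter]
    by_cases h1 : Squarefree (mon α)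
    · by_cases h2 : H + t ≤ om α
      · exact Or.inr (Or.inl ⟨Finset.mem_univ _, h2⟩)
      · left
        refine ⟨Finset.mem_univ _, h1, ?_⟩
        rw [← om_eq α h1]
        exact not_le.1 h2
    · exact Or.inr (Or.inr ⟨Finset.mem_univ _, h1⟩)
  have hcount' : (Nat.card κ : ℚ) ^ g ≤ (Nat.card {α : Fin g → κ // Squarefree (mon α) ∧
        ((factors (mon α)).card : ℚ) < H + t} : ℚ) + ((Nat.card κ : ℚ) ^ g * (H / t ^ 2) +
        2 * (Nat.card κ : ℚ) ^ (g - 1)) := by
    have h3 : (Nat.card (Fin g → κ) : ℚ) ≤ (Nat.card {α : Fin g → κ // Squarefree (mon α) ∧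
        ((factors (mon α)).card : ℚ) < H + t} : ℚ) + ((Nat.card {α : Fin g → κ // H + t ≤ om α} : ℚ)
        + (Nat.card {α : Fin g → κ // ¬ Squarefree (mon α)} : ℚ)) := by exact_mod_cast hcount
    have h4 : (Nat.card {α : Fin g → κ // ¬ Squarefree (mon α)} : ℚ) ≤
        2 * (Nat.card κ : ℚ) ^ (g - 1) := by exact_mod_cast hsq
    rw [card_vec] at h3
    linarith
  have h2 : (Nat.card κ : ℚ) ^ g = (Nat.card κ : ℚ) ^ (g - 1) * Nat.card κ := by
    rw [← pow_succ, Nat.sub_add_cancel hg]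
  have h5 : 2 / (Nat.card κ : ℚ) * (Nat.card κ : ℚ) ^ g = 2 * (Nat.card κ : ℚ) ^ (g - 1) := by
    rw [h2]
    field_simp
  calc (1 - H / t ^ 2 - 2 / (Nat.card κ : ℚ)) * (Nat.card κ : ℚ) ^ g =
        (Nat.card κ : ℚ) ^ g - (Nat.card κ : ℚ) ^ g * (H / t ^ 2) -
          2 / (Nat.card κ : ℚ) * (Nat.card κ : ℚ) ^ g := by ring
    _ ≤ _ := by
      rw [h5]
      linarith

/-- the number of the squarefree polynomials -/
theorem card_sqf {g : ℕ} (hg : 1 ≤ g) : (Nat.card κ : ℚ) ^ g * (1 - 2 / Nat.card κ) ≤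
    (Nat.card {α : Fin g → κ // Squarefree (mon α)} : ℚ) := by
  classical
  have hsq := card_not_squarefree (κ := κ) hg
  have hq := q_pos (κ := κ)
  have h1 : (Nat.card {α : Fin g → κ // Squarefree (mon α)} : ℚ) +
      (Nat.card {α : Fin g → κ // ¬ Squarefree (mon α)} : ℚ) = (Nat.card κ : ℚ) ^ g := by
    rw [← card_vec, Nat.card_eq_fintype_card, Nat.card_eq_fintype_card, Nat.card_eq_fintype_card,
      Fintype.card_subtype, Fintype.card_subtype]
    exact_mod_cast Finset.card_filter_add_card_filter_not _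
  have h4 : (Nat.card {α : Fin g → κ // ¬ Squarefree (mon α)} : ℚ) ≤
      2 * (Nat.card κ : ℚ) ^ (g - 1) := by exact_mod_cast hsq
  have h2 : (Nat.card κ : ℚ) ^ g = (Nat.card κ : ℚ) ^ (g - 1) * Nat.card κ := by
    rw [← pow_succ, Nat.sub_add_cancel hg]
  have h5 : (Nat.card κ : ℚ) ^ g * (1 - 2 / Nat.card κ) =
      (Nat.card κ : ℚ) ^ g - 2 * (Nat.card κ : ℚ) ^ (g - 1) := by
    rw [h2]
    field_simp
  rw [h5]
  linarith

/-- the number of the irreducible polynomials -/
theorem card_irr_ge {g : ℕ} (hg : 1 ≤ g) : 1 / (g : ℚ) - 1 / Nat.card κ ≤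
    (Nat.card {α : Fin g → κ // Irreducible (mon α)} : ℚ) / Nat.card (Fin g → κ) := by
  have h1 := card_irreducible (κ := κ) hg
  have hq := q_pos (κ := κ)
  rw [card_vec, le_div_iff₀ (pow_pos hq _)]
  refine le_trans (le_of_eq ?_) h1
  have h2 : (Nat.card κ : ℚ) ^ g = (Nat.card κ : ℚ) ^ (g - 1) * Nat.card κ := by
    rw [← pow_succ, Nat.sub_add_cancel hg]
  rw [sub_mul, h2]
  field_simp

theorem sum_sqf (g : ℕ) : ∑ᶠ α : {α : Fin g → κ // Squarefree (mon α)},
    ((factors (mon α.1)).card : ℚ) ≤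
      (Nat.card κ : ℚ) ^ g * ∑ k ∈ Finset.Icc 1 g, (1 : ℚ) / k := by
  classical
  refine le_trans ?_ (mul_le_mul_of_nonneg_left (ex_le (κ := κ) g) (pow_pos q_pos _).le)
  rw [← sum_om, finsum_eq_sum_of_fintype,
    ← Finset.sum_subtype (Finset.univ.filter fun α : Fin g → κ => Squarefree (mon α))
      (by simp) fun α => ((factors (mon α)).card : ℚ)]
  refine (Finset.sum_le_sum (g := fun α : Fin g → κ => om α) ?_).trans
    (Finset.sum_le_sum_of_subset_of_nonneg (Finset.subset_univ _) fun α _ _ => ?_)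
  · intro α hα
    rw [Finset.mem_filter] at hα
    exact (om_eq α hα.2).ge
  · unfold om
    exact Finset.sum_nonneg fun P _ => by split_ifs <;> norm_num

end Pool.Agent.U407.PF
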