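import Pool.Agent.U407.SS1

/-!
Multiplicities of eigenvalues and reduction.
-/

set_option autoImplicit false
set_option maxHeartbeats 1000000

open Polynomial

namespace Pool.Agent.U407.SS

open Pool.Agent.TH639.SC

/-- a root of multiplicity `r` of a polynomial gives one of the reversed polynomial -/
theorem reverse_dvd {R : Type} [Field R] {x : R} (hx : x ≠ 0) (M : R[X]) (r : ℕ) :
    (X - C x⁻¹) ^ r ∣ ((X - C x) ^ r * M).reverse := by
  induction r with
  | zero => rw [pow_zero]; exact one_dvd _
  | succ r ih =>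
    rw [pow_succ' (X - C x), mul_assoc, reverse_mul_of_domain, pow_succ']
    refine mul_dvd_mul ?_ ih
    have h1 : (X - C x : R[X]).reverse = C (-x) * (X - C x⁻¹) := by
      have h2 : (X - C x : R[X]).natDegree = 1 := natDegree_X_sub_C x
      unfold reverse
      rw [h2, reflect_sub, reflect_one_X, reflect_C, pow_one, mul_sub, ← C_mul, neg_mul,
        mul_inv_cancel₀ hx, C_neg, C_neg, C_1]
      ring
    rw [h1]
    exact dvd_mul_left _ _

/-- the reduction -/
theorem exists_hom' (B : Type) [CommRing B] [CharZero B] [Algebra.IsIntegral ℤ B] {ℓ q : ℕ}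
    (hℓ : ℓ.Prime) (hq : 0 < q) (hd : ℓ ∣ q - 1) :
    ∃ (R : Type) (_ : Field R) (_ : CharP R ℓ) (_ : B →+* R), (q : R) = 1 := by
  obtain ⟨M, hM, hm⟩ := exists_red B hℓ
  letI : Field (B ⧸ M) := Ideal.Quotient.field M
  have h0 : ((ℓ : ℕ) : B ⧸ M) = 0 := by
    have := Ideal.Quotient.eq_zero_iff_mem.2 hm
    rwa [map_natCast] at this
  have hc := charP_of_mem (R := B ⧸ M) hℓ h0
  refine ⟨B ⧸ M, inferInstance, hc, Ideal.Quotient.mk M, ?_⟩
  have h1 := (CharP.cast_eq_zero_iff (B ⧸ M) ℓ (q - 1)).2 hd
  rw [Nat.cast_sub hq, Nat.cast_one, sub_eq_zero] at h1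
  exact h1

/-- **eigenvalues and the reduction of the characteristic polynomial** -/
theorem eig {A : Type} [CommRing A] [IsDomain A] [CharZero A] [Algebra.IsIntegral ℤ A]
    {E : Type} [Field E] [CharZero E] [Algebra A E] (hι : Function.Injective (algebraMap A E))
    {V : Type} [AddCommGroup V] [Module E V] [FiniteDimensional E V] (Φ : Module.End E V)
    (L : PowerSeries A)
    (h : ((Φ.charpoly.reverse : E[X]) : PowerSeries E) = PowerSeries.map (algebraMap A E) L)
    {q : ℕ} (hq : 0 < q)
    (hdet : ∃ (M : ℕ) (b : A), algebraMap A E b * LinearMap.det Φ = (q : E) ^ M)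
    {ℓ : ℕ} (hℓ : ℓ.Prime) (hd : ℓ ∣ q - 1) (α : E) {r : ℕ}
    (hr : Φ.charpoly.rootMultiplicity α = r) (hr0 : r ≠ 0) :
    ∃ (R : Type) (_ : Field R) (_ : CharP R ℓ) (ρ : A →+* R) (G : R[X]) (x : R),
      (q : R) = 1 ∧ (G : PowerSeries R) = PowerSeries.map ρ L ∧ G ≠ 0 ∧
      r ≤ G.rootMultiplicity x := by
  classical
  set P : E[X] := Φ.charpoly with hP
  have hPm : P.Monic := Φ.charpoly_monic
  set N := P.natDegree with hN
  set ι : A →+* E := algebraMap A E with hι'
  -- the polynomial over `A`
  set G : A[X] := PowerSeries.trunc (N + 1) L with hG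
  have hGL : (G : PowerSeries A) = L := by
    ext n
    rw [Polynomial.coeff_coe, hG, PowerSeries.coeff_trunc]
    split_ifs with hn
    · rfl
    · have h1 := congrArg (PowerSeries.coeff n) h
      rw [Polynomial.coeff_coe, PowerSeries.coeff_map,
        Polynomial.coeff_eq_zero_of_natDegree_lt
          (lt_of_le_of_lt (reverse_natDegree_le P) (by omega))] at h1
      rw [← map_zero ι] at h1
      exact hι h1
  have hGmap : G.map ι = P.reverse := by
    apply Polynomial.coe_injective E
    rw [Polynomial.polynomial_map_coe, hGL, ← h]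
  set F : A[X] := G.reflect N with hF
  have hFmap : F.map ι = P := by
    rw [hF, ← reflect_map, hGmap]
    exact reflect_reflect
  have hFm : F.Monic := Polynomial.monic_of_injective hι (by rw [hFmap]; exact hPm)
  -- the integral closure
  have hroot : P.IsRoot α := by
    by_contra hcon
    exact hr0 (by rw [← hr]; exact rootMultiplicity_eq_zero hcon)
  have hint : IsIntegral A α := ⟨F, hFm, by
    rw [← Polynomial.eval_map, hFmap]; exact hroot⟩
  let B := integralClosure A E
  let a : B := ⟨α, hint⟩
  have hBE : Function.Injective (algebraMap B E) := Subtype.val_injective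
  have hchar : CharZero B := charZero_of_injective_algebraMap (R := B) (A := E) hBE |> fun h => by
    exact ⟨fun m n hmn => by
      have h1 := congrArg (algebraMap B E) hmn
      rw [map_natCast, map_natCast] at h1
      exact_mod_cast h1⟩
  have hB : Algebra.IsIntegral ℤ B := Algebra.IsIntegral.trans A
  obtain ⟨R, _, _, ρ', hq1⟩ := exists_hom' B hℓ hq hd
  let ρ : A →+* R := ρ'.comp (algebraMap A B)
  have hdvdB : (X - C a) ^ r ∣ F.map (algebraMap A B) := by
    rw [← Polynomial.map_dvd_map (algebraMap B E) hBE ((monic_X_sub_C a).pow r),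
      Polynomial.map_map, Polynomial.map_pow, Polynomial.map_sub, Polynomial.map_X,
      Polynomial.map_C]
    have h1 : (algebraMap B E).comp (algebraMap A B) = ι := rfl
    have h2 : algebraMap B E a = α := rfl
    rw [h1, h2, hFmap, ← hr]
    exact pow_rootMultiplicity_dvd P α
  have hdvdR : (X - C (ρ' a)) ^ r ∣ F.map ρ := by
    have h1 := Polynomial.map_dvd ρ' hdvdB
    rw [Polynomial.map_map, Polynomial.map_pow, Polynomial.map_sub, Polynomial.map_X,
      Polynomial.map_C] at h1
    exact h1
  -- the constant coefficient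
  obtain ⟨M, b, hb⟩ := hdet
  have hc0 : (F.map ρ).coeff 0 ≠ 0 := by
    rw [Polynomial.coeff_map]
    intro h0
    have h1 : b * ((-1) ^ Module.finrank E V * F.coeff 0) = (q : A) ^ M := by
      apply hι
      rw [LinearMap.det_eq_sign_charpoly_coeff] at hb
      rw [map_mul, map_mul, map_pow, map_neg, map_one, map_pow, map_natCast, ← hb]
      congr 2
      rw [← Polynomial.coeff_map, hFmap]
    have h2 := congrArg ρ h1
    rw [map_mul, map_mul, h0, mul_zero, mul_zero, map_pow, map_natCast, hq1, one_pow] at h2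
    exact zero_ne_one h2
  have hx0 : ρ' a ≠ 0 := by
    intro h0
    rw [h0, C_0, sub_zero] at hdvdR
    obtain ⟨T, hT⟩ := (dvd_pow_self X hr0).trans hdvdR
    rw [hT] at hc0
    exact hc0 (by rw [mul_coeff_zero, coeff_X_zero, zero_mul])
  have hFmR : (F.map ρ).Monic := hFm.map ρ
  have hdegF : F.natDegree = N := by
    rw [hN, ← hFmap, Polynomial.natDegree_map_eq_of_injective hι]
  have hGR : G.map ρ = (F.map ρ).reverse := by
    have h1 : G = F.reflect N := by rw [hF]; exact reflect_reflect.symm
    unfold reverse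
    rw [hFm.natDegree_map ρ, hdegF, reflect_map, ← h1]
  have hGR0 : G.map ρ ≠ 0 := by
    rw [hGR, Ne, reverse_eq_zero]
    exact hFmR.ne_zero
  refine ⟨R, inferInstance, inferInstance, ρ, G.map ρ, (ρ' a)⁻¹, hq1, ?_, hGR0, ?_⟩
  · rw [Polynomial.polynomial_map_coe, hGL]
  · rw [le_rootMultiplicity_iff hGR0, hGR]
    obtain ⟨T, hT⟩ := hdvdR
    rw [hT]
    exact reverse_dvd hx0 T r

/-- an endomorphism whose characteristic polynomial has simple roots is semisimple -/
theorem semisimple {E : Type} [Field E] [IsAlgClosed E] {V : Type} [AddCommGroup V] [Module E V]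
    [FiniteDimensional E V] (Φ : Module.End E V)
    (h : ∀ α : E, Φ.charpoly.rootMultiplicity α ≤ 1) :
    Φ.charpoly.Separable ∧ Φ.IsSemisimple := by
  classical
  have hs : Φ.charpoly.Separable := by
    rw [← nodup_roots_iff_of_splits Φ.charpoly_monic.ne_zero (IsAlgClosed.splits _)]
    exact Multiset.nodup_iff_count_le_one.2 fun a => by
      rw [count_roots]
      exact h a
  exact ⟨hs, Module.End.isSemisimple_of_squarefree_aeval_eq_zero hs.squarefree
    (LinearMap.aeval_self_charpoly Φ)⟩

end Pool.Agent.U407.SS
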