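import Pool.Agent.U407.SS1

/-!
The surfaces `y ^ ℓ = D(t) v(x) ^ a (x ^ n - t)`: the multiplicities are at most one.
-/

set_option autoImplicit false
set_option maxHeartbeats 1000000

open Polynomial

namespace Pool.Agent.U407.SS

open Pool.Agent.TH639.SC

theorem val_of {n m d : ℕ} (hn : n.Prime) (hm : m ≠ 0) (hd : d ≠ 0) (h : m ∣ n * d)
    (h' : ¬ m ∣ d) : padicValNat n m = padicValNat n d + 1 := by
  rw [← Nat.factorization_def m hn, ← Nat.factorization_def d hn]
  have h1 := (Nat.factorization_le_iff_dvd hm (mul_ne_zero hn.ne_zero hd)).2 h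
  have h2 : ¬ m.factorization ≤ d.factorization :=
    fun h3 => h' ((Nat.factorization_le_iff_dvd hm hd).1 h3)
  rw [Finsupp.le_def] at h2
  push Not at h2
  obtain ⟨p, hp⟩ := h2
  have h4 := h1 p
  rw [Nat.factorization_mul hn.ne_zero hd, Finsupp.add_apply, hn.factorization] at h4
  rcases eq_or_ne p n with rfl | hpn
  · rw [Finsupp.single_eq_same] at h4
    omega
  · rw [Finsupp.single_apply, if_neg (Ne.symm hpn)] at h4
    omega

theorem gz_of_not {ℓ m j : ℕ} (h : ¬ ℓ ∣ j) : gz ℓ m j = if m ∣ j then 1 else 0 := by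
  unfold gz
  rw [padicValNat.eq_zero_of_not_dvd h, pow_zero]

variable {k : Type} [Field k]

theorem primes_irr {g : k[X]} (hm : g.Monic) (hi : Irreducible g) : primes g = {g} := by
  have := primes_pow hm hi one_ne_zero
  rwa [pow_one] at this

variable [Finite k]

open Classical in
theorem mlt_le_one {ℓ n : ℕ} (hℓ : ℓ.Prime) (hn : n.Prime) (ho : Odd n) (hnℓ : ¬ ℓ ∣ n)
    {v : k[X]} (hm : v.Monic) (hv : Irreducible v) (hvℓ : ¬ ℓ ∣ v.natDegree)
    (hvn : ¬ n ∣ v.natDegree) {a : ℕ} (ha : a ≠ 0)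
    {D : k[X]} (hD : D ≠ 0) (hD0 : D.coeff 0 ≠ 0)
    (hcop : ∀ P ∈ primes D, Nat.Coprime P.natDegree v.natDegree)
    (hPℓ : ∀ P ∈ primes D, ¬ ℓ ∣ P.natDegree)
    (hS : ∀ P ∈ primes D, ¬ Pool.Agent.TH943.CY.PowCoeff n P)
    (hpair : ∀ P ∈ primes D, ∀ Q ∈ primes D, P ≠ Q →
      v.natDegree = 1 ∧ padicValNat n P.natDegree ≠ padicValNat n Q.natDegree) (m : ℕ) :
    mlt ℓ (v ^ a) (X ^ n) D m ≤ 1 := by
  unfold mlt
  rw [primes_pow hm hv ha]
  simp only [Finset.sum_singleton]
  have h1ℓ : ¬ ℓ ∣ 1 := fun h => hℓ.one_lt.ne' (Nat.dvd_one.1 h)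
  rw [gz_of_not h1ℓ, gz_of_not hvℓ]
  set A : k[X] → ℤ := fun P => (if m ∣ n * P.natDegree then 1 else 0) -
    (if m ∣ P.natDegree then 1 else 0) with hA
  set B : k[X] → ℤ := fun P => (if m ∣ P.natDegree * v.natDegree then 1 else 0) -
    (if m ∣ P.natDegree then 1 else 0) with hB
  have hsum : ∑ P ∈ primes D, (∑ S ∈ primes (P.comp (X ^ n)), gz ℓ m S.natDegree +
      (Nat.gcd P.natDegree v.natDegree : ℤ) * gz ℓ m (Nat.lcm P.natDegree v.natDegree) -
      2 * gz ℓ m P.natDegree) = ∑ P ∈ primes D, (A P + B P) := by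
    refine Finset.sum_congr rfl fun P hP => ?_
    obtain ⟨p1, p2, p3⟩ := (mem_primes hD P).1 hP
    have hP0 : P.coeff 0 ≠ 0 := by
      intro h0
      obtain ⟨T, hT⟩ := p3
      apply hD0
      rw [hT, mul_coeff_zero, h0, zero_mul]
    have hirr := Pool.Agent.TH943.CY.irr_comp hn ho ⟨P, p1, p2⟩ hP0 (hS P hP)
    have hmon : (P.comp (X ^ n)).Monic := p1.comp (monic_X_pow n)
      (by rw [natDegree_X_pow]; exact hn.ne_zero)
    rw [primes_irr hmon hirr, Finset.sum_singleton, natDegree_comp, natDegree_X_pow,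
      (hcop P hP).gcd_eq_one, (hcop P hP).lcm_eq_mul, Nat.mul_comm P.natDegree n,
      gz_of_not (hPℓ P hP), gz_of_not (fun h => (hℓ.dvd_mul.1 h).elim hnℓ (hPℓ P hP)),
      gz_of_not (fun h => (hℓ.dvd_mul.1 h).elim (hPℓ P hP) hvℓ), hA, hB]
    push_cast
    ring
  rw [hsum]
  rcases eq_or_ne m 1 with rfl | hm1
  · have h0 : ∑ P ∈ primes D, (A P + B P) = 0 := by
      refine Finset.sum_eq_zero fun P _ => ?_
      simp [hA, hB]
    rw [h0]
    simp
  · have hm' : ¬ m ∣ 1 := fun h => hm1 (Nat.dvd_one.1 h)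
    rw [if_neg hm']
    have hnn : (0 : ℤ) ≤ (if m ∣ v.natDegree then 1 else 0) := by
      split_ifs <;> norm_num
    have hlast : (if ℓ ∣ D.natDegree + 1 then (0 : ℤ) -
        (if m ∣ v.natDegree then 1 else 0) else 0) ≤ 0 := by
      split_ifs <;> linarith
    have hone : ∀ P ∈ primes D, 0 < A P + B P → A P + B P = 1 ∧
        (v.natDegree = 1 → m ∣ n * P.natDegree ∧ ¬ m ∣ P.natDegree) := by
      intro P hP hpos
      rw [hA, hB] at hpos ⊢
      dsimp only at hpos ⊢
      by_cases h1 : m ∣ P.natDegree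
      · rw [if_pos h1, if_pos (h1.mul_left n), if_pos (h1.mul_right _)] at hpos
        norm_num at hpos
      · rw [if_neg h1] at hpos ⊢
        by_cases h2 : m ∣ n * P.natDegree
        · have h3 : ¬ m ∣ P.natDegree * v.natDegree := by
            intro h3
            apply h1
            have h4 : m ∣ Nat.gcd (n * P.natDegree) (v.natDegree * P.natDegree) :=
              Nat.dvd_gcd h2 (by rwa [Nat.mul_comm v.natDegree])
            rw [Nat.gcd_mul_right, ((Nat.Prime.coprime_iff_not_dvd hn).2 hvn).gcd_eq_one, one_mul] at h4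
            exact h4
          rw [if_pos h2, if_neg h3]
          exact ⟨by norm_num, fun _ => ⟨h2, h1⟩⟩
        · rw [if_neg h2] at hpos ⊢
          split_ifs at hpos ⊢ with h5
          · refine ⟨by norm_num, fun h6 => ?_⟩
            rw [h6, Nat.mul_one] at h5
            exact absurd h5 h1
          · norm_num at hpos
    have hle : ∑ P ∈ primes D, (A P + B P) ≤ 1 := by
      by_cases hex : ∃ P ∈ primes D, 0 < A P + B P
      · obtain ⟨P, hP, hpos⟩ := hex
        have h1 : ∑ Q ∈ primes D, (A Q + B Q) ≤ A P + B P := by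
          rw [← Finset.add_sum_erase _ _ hP]
          have h2 : ∑ Q ∈ (primes D).erase P, (A Q + B Q) ≤ 0 := by
            refine Finset.sum_nonpos fun Q hQ => ?_
            by_contra hcon
            push Not at hcon
            have hQP := Finset.ne_of_mem_erase hQ
            have hQD := Finset.mem_of_mem_erase hQ
            obtain ⟨hv1, hval⟩ := hpair P hP Q hQD hQP.symm
            obtain ⟨a1, a2⟩ := (hone P hP hpos).2 hv1
            obtain ⟨b1, b2⟩ := (hone Q hQD hcon).2 hv1
            have hPd : P.natDegree ≠ 0 := ((mem_primes hD P).1 hP).2.1.natDegree_pos.ne'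
            have hQd : Q.natDegree ≠ 0 := ((mem_primes hD Q).1 hQD).2.1.natDegree_pos.ne'
            have hm0 : m ≠ 0 := by
              rintro rfl
              exact mul_ne_zero hn.ne_zero hPd (Nat.eq_zero_of_zero_dvd a1)
            have e1 := val_of hn hm0 hPd a1 a2
            have e2 := val_of hn hm0 hQd b1 b2
            omega
          linarith
        rw [(hone P hP hpos).1] at h1
        exact h1
      · push Not at hex
        exact (Finset.sum_nonpos hex).trans zero_le_one
    linarith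

end Pool.Agent.U407.SS
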