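import Mathlib

/-!
# Abelian categories and biadjoint functors
-/

set_option autoImplicit false

open CategoryTheory

universe v u v' u'

namespace Pool.Agent.U407.AB

section defs

variable {C : Type u} [Category.{v} C] [Preadditive C]

/-- `i` is a kernel of `f`. -/
def IsKer {K X Y : C} (i : K ⟶ X) (f : X ⟶ Y) : Prop :=
  i ≫ f = 0 ∧ ∀ (T : C) (h : T ⟶ X), h ≫ f = 0 → ∃! l : T ⟶ K, l ≫ i = h

/-- `π` is a cokernel of `f`. -/
def IsCoker {X Y Q : C} (f : X ⟶ Y) (π : Y ⟶ Q) : Prop :=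
  f ≫ π = 0 ∧ ∀ (T : C) (h : Y ⟶ T), f ≫ h = 0 → ∃! l : Q ⟶ T, π ≫ l = h

/-- The morphism `f` has a kernel `i` and a cokernel `π`, and the canonical map from the coimage (the
cokernel of `i`) to the image (the kernel of `π`) is an isomorphism: `f = e ≫ m`, where `e` is a
cokernel of `i` and `m` is a kernel of `π`. -/
def Strict {X Y : C} (f : X ⟶ Y) : Prop :=
  ∃ (K I Q : C) (i : K ⟶ X) (e : X ⟶ I) (m : I ⟶ Y) (π : Y ⟶ Q),
    IsKer i f ∧ IsCoker f π ∧ IsCoker i e ∧ IsKer m π ∧ e ≫ m = f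

theorem IsKer.mono {K X Y : C} {i : K ⟶ X} {f : X ⟶ Y} (h : IsKer i f) {T : C} {a b : T ⟶ K}
    (hab : a ≫ i = b ≫ i) : a = b := by
  obtain ⟨l, _, hl⟩ := h.2 T (b ≫ i) (by rw [Category.assoc, h.1, Limits.comp_zero])
  rw [hl a hab, hl b rfl]

theorem IsCoker.epi {X Y Q : C} {f : X ⟶ Y} {π : Y ⟶ Q} (h : IsCoker f π) {T : C} {a b : Q ⟶ T}
    (hab : π ≫ a = π ≫ b) : a = b := by
  obtain ⟨l, _, hl⟩ := h.2 T (π ≫ b) (by rw [← Category.assoc, h.1, Limits.zero_comp])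
  rw [hl a hab, hl b rfl]

theorem ker_retract {X Y A B K K₀ : C} {f : X ⟶ Y} {g : A ⟶ B} {sX : X ⟶ A} {rX : A ⟶ X}
    {sY : Y ⟶ B} {rY : B ⟶ Y} (hX : sX ≫ rX = 𝟙 X) (hs : sX ≫ g = f ≫ sY)
    (hr : rX ≫ f = g ≫ rY) {i : K ⟶ A} (hi : IsKer i g) {t : K ⟶ K} (ht : t ≫ i = i ≫ rX ≫ sX)
    {b : K₀ ⟶ K} {a : K ⟶ K₀} (hba : b ≫ a = 𝟙 K₀) (hab : a ≫ b = t) :
    IsKer (b ≫ i ≫ rX) f := by
  have hbt : b ≫ t = b := by rw [← hab, ← Category.assoc, hba, Category.id_comp]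
  refine ⟨?_, fun T h hf => ?_⟩
  · rw [Category.assoc, Category.assoc, hr, ← Category.assoc i, hi.1, Limits.zero_comp,
      Limits.comp_zero]
  · obtain ⟨l, hl, hlu⟩ := hi.2 T (h ≫ sX) (by
      rw [Category.assoc, hs, ← Category.assoc, hf, Limits.zero_comp])
    refine ⟨l ≫ a, ?_, fun l' hl' => ?_⟩
    · change (l ≫ a) ≫ b ≫ i ≫ rX = h
      calc (l ≫ a) ≫ b ≫ i ≫ rX = l ≫ ((a ≫ b) ≫ i) ≫ rX := by simp only [Category.assoc]
        _ = l ≫ (i ≫ rX ≫ sX) ≫ rX := by rw [hab, ht]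
        _ = (l ≫ i) ≫ rX ≫ (sX ≫ rX) := by simp only [Category.assoc]
        _ = (h ≫ sX) ≫ rX := by rw [hX, Category.comp_id, hl]
        _ = h := by rw [Category.assoc, hX, Category.comp_id]
    · change l' ≫ b ≫ i ≫ rX = h at hl'
      have h1 : (l' ≫ b) ≫ i = h ≫ sX := by
        calc (l' ≫ b) ≫ i = l' ≫ (b ≫ t) ≫ i := by rw [hbt, Category.assoc]
          _ = l' ≫ b ≫ (t ≫ i) := by simp only [Category.assoc]
          _ = (l' ≫ b ≫ i ≫ rX) ≫ sX := by rw [ht]; simp only [Category.assoc]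
          _ = h ≫ sX := by rw [hl']
      have h2 := hlu (l' ≫ b) h1
      rw [← h2, Category.assoc, hba, Category.comp_id]

theorem coker_retract {X Y A B Q Q₀ : C} {f : X ⟶ Y} {g : A ⟶ B} {sX : X ⟶ A} {rX : A ⟶ X}
    {sY : Y ⟶ B} {rY : B ⟶ Y} (hY : sY ≫ rY = 𝟙 Y) (hs : sX ≫ g = f ≫ sY)
    (hr : rX ≫ f = g ≫ rY) {π : B ⟶ Q} (hπ : IsCoker g π) {t : Q ⟶ Q}
    (ht : π ≫ t = (rY ≫ sY) ≫ π) {b : Q₀ ⟶ Q} {a : Q ⟶ Q₀} (hba : b ≫ a = 𝟙 Q₀)
    (hab : a ≫ b = t) : IsCoker f (sY ≫ π ≫ a) := by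
  have hta : t ≫ a = a := by rw [← hab, Category.assoc, hba, Category.comp_id]
  refine ⟨?_, fun T h hf => ?_⟩
  · rw [← Category.assoc, ← hs, Category.assoc, ← Category.assoc g, hπ.1, Limits.zero_comp,
      Limits.comp_zero]
  · obtain ⟨l, hl, hlu⟩ := hπ.2 T (rY ≫ h) (by
      rw [← Category.assoc, ← hr, Category.assoc, hf, Limits.comp_zero])
    refine ⟨b ≫ l, ?_, fun l' hl' => ?_⟩
    · change (sY ≫ π ≫ a) ≫ b ≫ l = h
      calc (sY ≫ π ≫ a) ≫ b ≫ l = sY ≫ (π ≫ (a ≫ b)) ≫ l := by simp only [Category.assoc]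
        _ = (sY ≫ rY) ≫ sY ≫ π ≫ l := by rw [hab, ht]; simp only [Category.assoc]
        _ = (sY ≫ rY) ≫ h := by rw [hY, Category.id_comp, hl, ← Category.assoc, hY]
        _ = h := by rw [hY, Category.id_comp]
    · change (sY ≫ π ≫ a) ≫ l' = h at hl'
      have h1 : π ≫ (a ≫ l') = rY ≫ h := by
        calc π ≫ (a ≫ l') = (π ≫ t) ≫ a ≫ l' := by rw [Category.assoc, ← Category.assoc t, hta]
          _ = rY ≫ ((sY ≫ π ≫ a) ≫ l') := by rw [ht]; simp only [Category.assoc]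
          _ = rY ≫ h := by rw [hl']
      have h2 := hlu (a ≫ l') h1
      rw [← h2, ← Category.assoc, hba, Category.id_comp]

/-- a retract of a strict morphism is strict, if idempotents split -/
theorem strict_of_retract [IsIdempotentComplete C] {X Y A B : C} {f : X ⟶ Y} {g : A ⟶ B}
    {sX : X ⟶ A} {rX : A ⟶ X} {sY : Y ⟶ B} {rY : B ⟶ Y} (hX : sX ≫ rX = 𝟙 X)
    (hY : sY ≫ rY = 𝟙 Y) (hs : sX ≫ g = f ≫ sY) (hr : rX ≫ f = g ≫ rY) (hg : Strict g) :
    Strict f := by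
  obtain ⟨K, I, Q, i, e, m, π, hi, hπ, he, hm, hem⟩ := hg
  have hcomm : (rX ≫ sX) ≫ g = g ≫ rY ≫ sY := by
    rw [Category.assoc, hs, ← Category.assoc, hr, Category.assoc]
  have hXX : (rX ≫ sX) ≫ rX ≫ sX = rX ≫ sX := by
    rw [Category.assoc, ← Category.assoc sX, hX, Category.id_comp]
  have hYY : (rY ≫ sY) ≫ rY ≫ sY = rY ≫ sY := by
    rw [Category.assoc, ← Category.assoc sY, hY, Category.id_comp]
  obtain ⟨t, ht, -⟩ := hi.2 K (i ≫ rX ≫ sX) (by
    rw [Category.assoc, hcomm, ← Category.assoc, hi.1, Limits.zero_comp])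
  obtain ⟨w, hw, -⟩ := hπ.2 Q ((rY ≫ sY) ≫ π) (by
    rw [← Category.assoc, ← hcomm, Category.assoc, hπ.1, Limits.comp_zero])
  obtain ⟨u, hu, -⟩ := he.2 I ((rX ≫ sX) ≫ e) (by
    rw [← Category.assoc, ← ht, Category.assoc, he.1, Limits.comp_zero])
  obtain ⟨z, hz, -⟩ := hm.2 I (m ≫ rY ≫ sY) (by
    rw [Category.assoc, ← hw, ← Category.assoc, hm.1, Limits.zero_comp])
  change t ≫ i = i ≫ rX ≫ sX at ht
  change π ≫ w = (rY ≫ sY) ≫ π at hw
  change e ≫ u = (rX ≫ sX) ≫ e at hu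
  change z ≫ m = m ≫ rY ≫ sY at hz
  have huz : u = z := by
    apply hm.mono
    apply he.epi
    rw [hz, ← Category.assoc, hu, Category.assoc, hem, hcomm, ← Category.assoc, ← hem,
      Category.assoc, Category.assoc]
  have htt : t ≫ t = t := by
    apply hi.mono
    rw [Category.assoc, ht, ← Category.assoc, ht, Category.assoc, hXX]
  have huu : u ≫ u = u := by
    apply he.epi
    rw [← Category.assoc, hu, Category.assoc, hu, ← Category.assoc, hXX]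
  have hww : w ≫ w = w := by
    apply hπ.epi
    rw [← Category.assoc, hw, Category.assoc, hw, ← Category.assoc, hYY]
  obtain ⟨K₀, bK, aK, hK1, hK2⟩ := IsIdempotentComplete.idempotents_split K t htt
  obtain ⟨I₀, bI, aI, hI1, hI2⟩ := IsIdempotentComplete.idempotents_split I u huu
  obtain ⟨Q₀, bQ, aQ, hQ1, hQ2⟩ := IsIdempotentComplete.idempotents_split Q w hww
  refine ⟨K₀, I₀, Q₀, bK ≫ i ≫ rX, sX ≫ e ≫ aI, bI ≫ m ≫ rY, sY ≫ π ≫ aQ,
    ker_retract hX hs hr hi ht hK1 hK2, coker_retract hY hs hr hπ hw hQ1 hQ2, ?_, ?_, ?_⟩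
  · refine coker_retract (g := i) (sX := bK) (rX := aK) hX ?_ ?_ he hu hI1 hI2
    · calc bK ≫ i = (bK ≫ aK) ≫ bK ≫ i := by rw [hK1, Category.id_comp]
        _ = bK ≫ t ≫ i := by rw [← hK2]; simp only [Category.assoc]
        _ = (bK ≫ i ≫ rX) ≫ sX := by rw [ht]; simp only [Category.assoc]
    · calc aK ≫ bK ≫ i ≫ rX = (t ≫ i) ≫ rX := by rw [← hK2]; simp only [Category.assoc]
        _ = i ≫ rX ≫ (sX ≫ rX) := by rw [ht]; simp only [Category.assoc]
        _ = i ≫ rX := by rw [hX, Category.comp_id]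
  · refine ker_retract (g := π) (sY := bQ) (rY := aQ) hY ?_ ?_ hm (huz ▸ hz) hI1 hI2
    · calc sY ≫ π = (sY ≫ rY) ≫ sY ≫ π := by rw [hY, Category.id_comp]
        _ = sY ≫ π ≫ w := by rw [hw]; simp only [Category.assoc]
        _ = (sY ≫ π ≫ aQ) ≫ bQ := by rw [← hQ2]; simp only [Category.assoc]
    · calc rY ≫ sY ≫ π ≫ aQ = (π ≫ w) ≫ aQ := by rw [hw]; simp only [Category.assoc]
        _ = π ≫ aQ ≫ (bQ ≫ aQ) := by rw [← hQ2]; simp only [Category.assoc]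
        _ = π ≫ aQ := by rw [hQ1, Category.comp_id]
  · calc (sX ≫ e ≫ aI) ≫ bI ≫ m ≫ rY = sX ≫ (e ≫ (aI ≫ bI)) ≫ m ≫ rY := by
          simp only [Category.assoc]
      _ = (sX ≫ rX) ≫ sX ≫ (e ≫ m) ≫ rY := by rw [hI2, hu]; simp only [Category.assoc]
      _ = f := by rw [hX, Category.id_comp, hem, ← Category.assoc, hs, Category.assoc, hY,
          Category.comp_id]

end defs

section functors

variable {C : Type u} [Category.{v} C] [Preadditive C] {D : Type u'} [Category.{v'} D]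
  [Preadditive D] {F : C ⥤ D} {G : D ⥤ C}

theorem map_ker (adj : F ⊣ G) [F.Additive] [G.Additive] {K X Y : D} {i : K ⟶ X} {f : X ⟶ Y}
    (h : IsKer i f) : IsKer (G.map i) (G.map f) := by
  refine ⟨by rw [← G.map_comp, h.1, G.map_zero], fun T g hg => ?_⟩
  have h1 : (adj.homEquiv T X).symm g ≫ f = 0 := by
    rw [← adj.homEquiv_naturality_right_symm, hg, adj.homEquiv_counit, F.map_zero,
      Limits.zero_comp]
  obtain ⟨l, hl, hlu⟩ := h.2 (F.obj T) _ h1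
  refine ⟨adj.homEquiv T K l, ?_, fun l' hl' => ?_⟩
  · change adj.homEquiv T K l ≫ G.map i = g
    rw [← adj.homEquiv_naturality_right, hl, Equiv.apply_symm_apply]
  · have h2 : (adj.homEquiv T K).symm l' ≫ i = (adj.homEquiv T X).symm g := by
      rw [← adj.homEquiv_naturality_right_symm]
      exact congrArg _ hl'
    rw [← hlu _ h2, Equiv.apply_symm_apply]

theorem map_coker (adj : F ⊣ G) [F.Additive] [G.Additive] {X Y Q : C} {f : X ⟶ Y} {π : Y ⟶ Q}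
    (h : IsCoker f π) : IsCoker (F.map f) (F.map π) := by
  refine ⟨by rw [← F.map_comp, h.1, F.map_zero], fun T g hg => ?_⟩
  have h1 : f ≫ adj.homEquiv Y T g = 0 := by
    rw [← adj.homEquiv_naturality_left, hg, adj.homEquiv_unit, G.map_zero, Limits.comp_zero]
  obtain ⟨l, hl, hlu⟩ := h.2 (G.obj T) _ h1
  refine ⟨(adj.homEquiv Q T).symm l, ?_, fun l' hl' => ?_⟩
  · change F.map π ≫ (adj.homEquiv Q T).symm l = g
    rw [← adj.homEquiv_naturality_left_symm, hl, Equiv.symm_apply_apply]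
  · have h2 : π ≫ adj.homEquiv Q T l' = adj.homEquiv Y T g := by
      rw [← adj.homEquiv_naturality_left]
      exact congrArg _ hl'
    rw [← hlu _ h2, Equiv.symm_apply_apply]

theorem map_strict (adj₁ : F ⊣ G) (adj₂ : G ⊣ F) [F.Additive] [G.Additive] {X Y : D}
    {f : X ⟶ Y} (h : Strict f) : Strict (G.map f) := by
  obtain ⟨K, I, Q, i, e, m, π, hi, hπ, he, hm, hem⟩ := h
  exact ⟨_, _, _, G.map i, G.map e, G.map m, G.map π, map_ker adj₁ hi, map_coker adj₂ hπ,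
    map_coker adj₂ he, map_ker adj₁ hm, by rw [← G.map_comp, hem]⟩

/-- descent of abelianness along a functor with a two-sided adjoint and a split unit -/
theorem transfer [IsIdempotentComplete C] (adj₁ : F ⊣ G) (adj₂ : G ⊣ F) [F.Additive]
    [G.Additive] (s : 𝟭 C ⟶ F ⋙ G) (r : F ⋙ G ⟶ 𝟭 C) (h : s ≫ r = 𝟙 (𝟭 C))
    (hD : ∀ (X Y : D) (f : X ⟶ Y), Strict f) (X Y : C) (f : X ⟶ Y) : Strict f := by
  have h1 : ∀ X : C, s.app X ≫ r.app X = 𝟙 X := fun X => by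
    have h2 := congrArg (fun α => α.app X) h
    simpa using h2
  refine strict_of_retract (g := G.map (F.map f)) (h1 X) (h1 Y) (s.naturality f).symm
    (r.naturality f).symm (map_strict adj₁ adj₂ (hD _ _ _))

end functors

end Pool.Agent.U407.AB
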