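import Pool.Agent.U407.AB1

/-!
# Abelianness in a directed system and in its limit
-/

set_option autoImplicit false

open CategoryTheory

universe v u v' u'

namespace Pool.Agent.U407.AB

/-- An extension of scalars `ext : C ⥤ D` and the restriction of scalars `res : D ⥤ C`: additive
functors, adjoint on both sides, such that the identity functors are natural direct summands of the
two composites. -/
structure Extension (C : Type u) [Category.{v} C] [Preadditive C] (D : Type u') [Category.{v'} D]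
    [Preadditive D] where
  ext : C ⥤ D
  res : D ⥤ C
  ext_additive : ext.Additive
  res_additive : res.Additive
  adj : ext ⊣ res
  adj' : res ⊣ ext
  s : 𝟭 C ⟶ ext ⋙ res
  r : ext ⋙ res ⟶ 𝟭 C
  split : s ≫ r = 𝟙 (𝟭 C)
  s' : 𝟭 D ⟶ res ⋙ ext
  r' : res ⋙ ext ⟶ 𝟭 D
  split' : s' ≫ r' = 𝟙 (𝟭 D)

/-- every morphism is strict -/
def AllStrict (C : Type u) [Category.{v} C] [Preadditive C] : Prop :=
  ∀ (X Y : C) (f : X ⟶ Y), Strict f

section pair

variable {C : Type u} [Category.{v} C] [Preadditive C] {D : Type u'} [Category.{v'} D]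
  [Preadditive D] (E : Extension C D)

theorem Extension.split_app (X : C) : E.s.app X ≫ E.r.app X = 𝟙 X := by
  have h2 := congrArg (fun α => α.app X) E.split
  simpa using h2

theorem Extension.descend [IsIdempotentComplete C] {X Y : C} {f : X ⟶ Y}
    (h : Strict (E.ext.map f)) : Strict f := by
  have := E.ext_additive
  have := E.res_additive
  exact strict_of_retract (g := E.res.map (E.ext.map f)) (E.split_app X) (E.split_app Y)
    (E.s.naturality f).symm (E.r.naturality f).symm (map_strict E.adj E.adj' h)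

theorem Extension.allStrict_iff (E : Extension C D) [IsIdempotentComplete C]
    [IsIdempotentComplete D] : AllStrict C ↔ AllStrict D := by
  have := E.ext_additive
  have := E.res_additive
  exact ⟨fun h X Y f => transfer E.adj' E.adj E.s' E.r' E.split' h X Y f,
    fun h X Y f => transfer E.adj E.adj' E.s E.r E.split h X Y f⟩

/-- descent of a morphism along the split unit -/
theorem Extension.descend_hom {T K : C} (l : E.ext.obj T ⟶ E.ext.obj K) :
    ∃ l₀ : T ⟶ K, (∀ {X : C} (i : K ⟶ X) (h : T ⟶ X), l ≫ E.ext.map i = E.ext.map h →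
      l₀ ≫ i = h) ∧ (∀ {X : C} (i : X ⟶ T) (h : X ⟶ K), E.ext.map i ≫ l = E.ext.map h →
      i ≫ l₀ = h) := by
  refine ⟨E.s.app T ≫ E.res.map l ≫ E.r.app K, fun i h hl => ?_, fun i h hl => ?_⟩
  · have h1 : E.r.app K ≫ i = E.res.map (E.ext.map i) ≫ E.r.app _ := (E.r.naturality i).symm
    have h2 : h ≫ E.s.app _ = E.s.app T ≫ E.res.map (E.ext.map h) := E.s.naturality h
    rw [Category.assoc, Category.assoc, h1, ← Category.assoc (E.res.map l), ← E.res.map_comp, hl,
      ← Category.assoc, ← h2, Category.assoc, E.split_app, Category.comp_id]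
  · have h1 : i ≫ E.s.app T = E.s.app _ ≫ E.res.map (E.ext.map i) := E.s.naturality i
    have h2 : E.res.map (E.ext.map h) ≫ E.r.app K = E.r.app _ ≫ h := E.r.naturality h
    rw [← Category.assoc, h1, Category.assoc, ← Category.assoc (E.res.map (E.ext.map i)),
      ← E.res.map_comp, hl, h2, ← Category.assoc, E.split_app, Category.id_comp]

end pair

section system

variable {I : Type} {C : I → Type u} [∀ i, Category.{v} (C i)] [∀ i, Preadditive (C i)]
  {R : I → I → Prop} (E : ∀ i j, R i j → Extension (C i) (C j))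
  {L : Type u'} [Category.{v'} L] [Preadditive L]

/-- The category `L` is the directed union of the categories `C i`. -/
structure IsUnion (E : ∀ i j, R i j → Extension (C i) (C j)) (L : Type u') [Category.{v'} L]
    [Preadditive L] where
  U : ∀ i, C i ⥤ L
  additive : ∀ i, (U i).Additive
  faithful : ∀ i, (U i).Faithful
  comm : ∀ i j (h : R i j), (E i j h).ext ⋙ U j ≅ U i
  obj : ∀ (i : I) (n : ℕ) (X : Fin n → L), ∃ j, R i j ∧
    ∀ a, ∃ Y : C j, Nonempty (X a ≅ (U j).obj Y)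
  hom : ∀ (i : I) (n : ℕ) (X Y : Fin n → C i) (f : ∀ a, (U i).obj (X a) ⟶ (U i).obj (Y a)),
    ∃ (j : I) (h : R i j), ∀ a, ∃ g : (E i j h).ext.obj (X a) ⟶ (E i j h).ext.obj (Y a),
      (U j).map g = (comm i j h).hom.app (X a) ≫ f a ≫ (comm i j h).inv.app (Y a)

variable {E} (P : IsUnion E L)

include P

theorem IsUnion.hom₁ (i : I) (X Y : C i) (f : (P.U i).obj X ⟶ (P.U i).obj Y) :
    ∃ (j : I) (h : R i j) (g : (E i j h).ext.obj X ⟶ (E i j h).ext.obj Y),
      (P.U j).map g = (P.comm i j h).hom.app X ≫ f ≫ (P.comm i j h).inv.app Y := by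
  obtain ⟨j, h, hg⟩ := P.hom i 1 (fun _ => X) (fun _ => Y) (fun _ => f)
  obtain ⟨g, hg⟩ := hg 0
  exact ⟨j, h, g, hg⟩

theorem IsUnion.obj₁ (i : I) (X : L) : ∃ j, R i j ∧ ∃ Y : C j, Nonempty (X ≅ (P.U j).obj Y) := by
  obtain ⟨j, h, hY⟩ := P.obj i 1 (fun _ => X)
  exact ⟨j, h, hY 0⟩

theorem IsUnion.nat (i j : I) (h : R i j) {X Y : C i} (f : X ⟶ Y) :
    (P.U j).map ((E i j h).ext.map f) ≫ (P.comm i j h).hom.app Y =
      (P.comm i j h).hom.app X ≫ (P.U i).map f := (P.comm i j h).hom.naturality f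

theorem IsUnion.nat' (i j : I) (h : R i j) {X Y : C i} (f : X ⟶ Y) :
    (P.U i).map f ≫ (P.comm i j h).inv.app Y =
      (P.comm i j h).inv.app X ≫ (P.U j).map ((E i j h).ext.map f) :=
  (P.comm i j h).inv.naturality f

theorem IsUnion.hom_inv (i j : I) (h : R i j) (X : C i) :
    (P.comm i j h).hom.app X ≫ (P.comm i j h).inv.app X =
      𝟙 ((P.U j).obj ((E i j h).ext.obj X)) :=
  Iso.hom_inv_id_app _ _

theorem IsUnion.inv_hom (i j : I) (h : R i j) (X : C i) :
    (P.comm i j h).inv.app X ≫ (P.comm i j h).hom.app X = 𝟙 ((P.U i).obj X) :=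
  Iso.inv_hom_id_app _ _

theorem IsUnion.inj {i : I} {X Y : C i} {f g : X ⟶ Y} (h : (P.U i).map f = (P.U i).map g) :
    f = g := by
  have := P.faithful i
  exact (P.U i).map_injective h

/-- kernels descend from the union -/
theorem IsUnion.ker_down {i : I} {K X Y : C i} {ι : K ⟶ X} {f : X ⟶ Y}
    (h : IsKer ((P.U i).map ι) ((P.U i).map f)) : IsKer ι f := by
  have := P.additive i
  refine ⟨P.inj (by rw [Functor.map_comp, h.1, Functor.map_zero]), fun T g hg => ?_⟩
  obtain ⟨l, hl, -⟩ := h.2 _ ((P.U i).map g) (by rw [← Functor.map_comp, hg, Functor.map_zero])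
  change l ≫ (P.U i).map ι = (P.U i).map g at hl
  obtain ⟨j, hij, l', hl'⟩ := P.hom₁ i T K l
  obtain ⟨l₀, h1, -⟩ := (E i j hij).descend_hom l'
  refine ⟨l₀, h1 ι g (P.inj ?_), fun l₁ hl₁ => P.inj (h.mono ?_)⟩
  · rw [Functor.map_comp, hl', Category.assoc, Category.assoc, ← P.nat', ← Category.assoc l, hl,
      P.nat', ← Category.assoc, P.hom_inv, Category.id_comp]
  · rw [← Functor.map_comp, ← Functor.map_comp]
    have h2 : l₁ ≫ ι = g := hl₁
    have h3 : l₀ ≫ ι = g := h1 ι g (P.inj (by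
      rw [Functor.map_comp, hl', Category.assoc, Category.assoc, ← P.nat', ← Category.assoc l, hl,
        P.nat', ← Category.assoc, P.hom_inv, Category.id_comp]))
    rw [h2, h3]

theorem IsUnion.coker_down {i : I} {X Y Q : C i} {f : X ⟶ Y} {π : Y ⟶ Q}
    (h : IsCoker ((P.U i).map f) ((P.U i).map π)) : IsCoker f π := by
  have := P.additive i
  refine ⟨P.inj (by rw [Functor.map_comp, h.1, Functor.map_zero]), fun T g hg => ?_⟩
  obtain ⟨l, hl, -⟩ := h.2 _ ((P.U i).map g) (by rw [← Functor.map_comp, hg, Functor.map_zero])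
  change (P.U i).map π ≫ l = (P.U i).map g at hl
  obtain ⟨j, hij, l', hl'⟩ := P.hom₁ i Q T l
  obtain ⟨l₀, -, h1⟩ := (E i j hij).descend_hom l'
  have h3 : π ≫ l₀ = g := h1 π g (P.inj (by
    rw [Functor.map_comp, hl', ← Category.assoc, P.nat, Category.assoc,
      ← Category.assoc ((P.U i).map π), hl, P.nat', ← Category.assoc, P.hom_inv,
      Category.id_comp]))
  refine ⟨l₀, h3, fun l₁ hl₁ => P.inj (h.epi ?_)⟩
  have h2 : π ≫ l₁ = g := hl₁
  rw [← Functor.map_comp, ← Functor.map_comp, h2, h3]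

theorem IsUnion.lift (i : I) (T : L) (X : C i) (h : T ⟶ (P.U i).obj X) :
    ∃ (j k : I) (hij : R i j) (hjk : R j k) (T' : C j)
      (A : T ≅ (P.U k).obj ((E j k hjk).ext.obj T'))
      (g : (E j k hjk).ext.obj T' ⟶ (E j k hjk).ext.obj ((E i j hij).ext.obj X)),
      h = A.hom ≫ (P.U k).map g ≫ (P.comm j k hjk).hom.app _ ≫ (P.comm i j hij).hom.app X := by
  obtain ⟨j, hij, T', ⟨a⟩⟩ := P.obj₁ i T
  obtain ⟨k, hjk, g, hg⟩ := P.hom₁ j T' ((E i j hij).ext.obj X)
    (a.inv ≫ h ≫ (P.comm i j hij).inv.app X)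
  refine ⟨j, k, hij, hjk, T', a ≪≫ ((P.comm j k hjk).app T').symm, g, ?_⟩
  rw [hg]
  simp only [Iso.trans_hom, Iso.symm_hom, Iso.app_inv, Category.assoc]
  rw [← Category.assoc ((P.comm j k hjk).inv.app T'), P.inv_hom, Category.id_comp,
    ← Category.assoc a.hom, a.hom_inv_id, Category.id_comp,
    ← Category.assoc ((P.comm j k hjk).inv.app _), P.inv_hom, Category.id_comp, P.inv_hom,
    Category.comp_id]

theorem IsUnion.lift' (i : I) (T : L) (X : C i) (h : (P.U i).obj X ⟶ T) :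
    ∃ (j k : I) (hij : R i j) (hjk : R j k) (T' : C j)
      (A : (P.U k).obj ((E j k hjk).ext.obj T') ≅ T)
      (g : (E j k hjk).ext.obj ((E i j hij).ext.obj X) ⟶ (E j k hjk).ext.obj T'),
      h = (P.comm i j hij).inv.app X ≫ (P.comm j k hjk).inv.app _ ≫ (P.U k).map g ≫ A.hom := by
  obtain ⟨j, hij, T', ⟨a⟩⟩ := P.obj₁ i T
  obtain ⟨k, hjk, g, hg⟩ := P.hom₁ j ((E i j hij).ext.obj X) T'
    ((P.comm i j hij).hom.app X ≫ h ≫ a.hom)
  refine ⟨j, k, hij, hjk, T', ((P.comm j k hjk).app T') ≪≫ a.symm, g, ?_⟩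
  rw [hg]
  simp only [Iso.trans_hom, Iso.symm_hom, Iso.app_hom, Category.assoc]
  rw [← Category.assoc ((P.comm j k hjk).inv.app T'), P.inv_hom, Category.id_comp,
    a.hom_inv_id, Category.comp_id, ← Category.assoc ((P.comm j k hjk).inv.app _), P.inv_hom,
    Category.id_comp, ← Category.assoc ((P.comm i j hij).inv.app _), P.inv_hom, Category.id_comp]

theorem ker_up {i : I} {K X Y : C i} {ι : K ⟶ X} {f : X ⟶ Y} (h : IsKer ι f) :
    IsKer ((P.U i).map ι) ((P.U i).map f) := by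
  have := P.additive i
  have hzero : ∀ (T : L) (d : T ⟶ (P.U i).obj K), d ≫ (P.U i).map ι = 0 → d = 0 := by
    intro T d hd
    obtain ⟨j, k, hij, hjk, T', A, g, hg⟩ := P.lift i T K d
    have := (E i j hij).ext_additive
    have := (E i j hij).res_additive
    have := (E j k hjk).ext_additive
    have := (E j k hjk).res_additive
    have := P.additive k
    have h1 := map_ker (E j k hjk).adj' (map_ker (E i j hij).adj' h)
    have h2 : g ≫ (E j k hjk).ext.map ((E i j hij).ext.map ι) = 0 := by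
      apply P.inj
      rw [Functor.map_comp, Functor.map_zero]
      have h3 := hd
      rw [hg] at h3
      simp only [Category.assoc] at h3
      rw [← P.nat i j hij, ← Category.assoc ((P.comm j k hjk).hom.app _), ← P.nat j k hjk] at h3
      simp only [Category.assoc] at h3
      have h4 : (P.U k).map g ≫ (P.U k).map ((E j k hjk).ext.map ((E i j hij).ext.map ι)) ≫
          (P.comm j k hjk).hom.app _ ≫ (P.comm i j hij).hom.app X = 0 := by
        rw [← cancel_epi A.hom, h3, Limits.comp_zero]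
      rw [← cancel_mono ((P.comm j k hjk).hom.app _), ← cancel_mono ((P.comm i j hij).hom.app X)]
      simp only [Category.assoc, Limits.zero_comp]
      exact h4
    have h5 : g = 0 := h1.mono (by rw [h2, Limits.zero_comp])
    rw [hg, h5, Functor.map_zero, Limits.zero_comp, Limits.comp_zero]
  refine ⟨by rw [← Functor.map_comp, h.1, Functor.map_zero], fun T g hg => ?_⟩
  obtain ⟨j, k, hij, hjk, T', A, g', hg'⟩ := P.lift i T X g
  have := (E i j hij).ext_additive
  have := (E i j hij).res_additive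
  have := (E j k hjk).ext_additive
  have := (E j k hjk).res_additive
  have := P.additive k
  have h1 := map_ker (E j k hjk).adj' (map_ker (E i j hij).adj' h)
  have h2 : g' ≫ (E j k hjk).ext.map ((E i j hij).ext.map f) = 0 := by
    apply P.inj
    rw [Functor.map_comp, Functor.map_zero]
    have h3 := hg
    rw [hg'] at h3
    simp only [Category.assoc] at h3
    rw [← P.nat i j hij, ← Category.assoc ((P.comm j k hjk).hom.app _), ← P.nat j k hjk] at h3
    simp only [Category.assoc] at h3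
    have h4 : (P.U k).map g' ≫ (P.U k).map ((E j k hjk).ext.map ((E i j hij).ext.map f)) ≫
        (P.comm j k hjk).hom.app _ ≫ (P.comm i j hij).hom.app Y = 0 := by
      rw [← cancel_epi A.hom, h3, Limits.comp_zero]
    rw [← cancel_mono ((P.comm j k hjk).hom.app _), ← cancel_mono ((P.comm i j hij).hom.app Y)]
    simp only [Category.assoc, Limits.zero_comp]
    exact h4
  obtain ⟨l, hl, -⟩ := h1.2 _ g' h2
  change l ≫ (E j k hjk).ext.map ((E i j hij).ext.map ι) = g' at hl
  refine ⟨A.hom ≫ (P.U k).map l ≫ (P.comm j k hjk).hom.app _ ≫ (P.comm i j hij).hom.app K, ?_,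
    fun l' hl' => ?_⟩
  · simp only [Category.assoc]
    rw [← P.nat i j hij, ← Category.assoc ((P.comm j k hjk).hom.app _), ← P.nat j k hjk, hg',
      ← hl, Functor.map_comp]
    simp only [Category.assoc]
  · have h6 : (A.hom ≫ (P.U k).map l ≫ (P.comm j k hjk).hom.app _ ≫
        (P.comm i j hij).hom.app K) ≫ (P.U i).map ι = g := by
      simp only [Category.assoc]
      rw [← P.nat i j hij, ← Category.assoc ((P.comm j k hjk).hom.app _), ← P.nat j k hjk, hg',
        ← hl, Functor.map_comp]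
      simp only [Category.assoc]
    rw [← sub_eq_zero]
    apply hzero
    rw [Preadditive.sub_comp, h6, sub_eq_zero]
    exact hl'

theorem coker_up {i : I} {X Y Q : C i} {f : X ⟶ Y} {π : Y ⟶ Q} (h : IsCoker f π) :
    IsCoker ((P.U i).map f) ((P.U i).map π) := by
  have := P.additive i
  -- the key computation
  have key : ∀ (j k : I) (hij : R i j) (hjk : R j k) (T' : C j) (Z W : C i) (a : Z ⟶ W)
      (g : (E j k hjk).ext.obj ((E i j hij).ext.obj W) ⟶ (E j k hjk).ext.obj T'),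
      (P.U i).map a ≫ (P.comm i j hij).inv.app W ≫ (P.comm j k hjk).inv.app _ ≫ (P.U k).map g =
      (P.comm i j hij).inv.app Z ≫ (P.comm j k hjk).inv.app _ ≫
        (P.U k).map ((E j k hjk).ext.map ((E i j hij).ext.map a) ≫ g) := by
    intro j k hij hjk T' Z W a g
    rw [← Category.assoc, P.nat' i j hij, Category.assoc,
      ← Category.assoc ((P.U j).map ((E i j hij).ext.map a)), P.nat' j k hjk, Functor.map_comp]
    simp only [Category.assoc]
  have hzero : ∀ (T : L) (d : (P.U i).obj Q ⟶ T), (P.U i).map π ≫ d = 0 → d = 0 := by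
    intro T d hd
    obtain ⟨j, k, hij, hjk, T', A, g, hg⟩ := P.lift' i T Q d
    have := (E i j hij).ext_additive
    have := (E i j hij).res_additive
    have := (E j k hjk).ext_additive
    have := (E j k hjk).res_additive
    have := P.additive k
    have h1 := map_coker (E j k hjk).adj (map_coker (E i j hij).adj h)
    have h2 : (E j k hjk).ext.map ((E i j hij).ext.map π) ≫ g = 0 := by
      apply P.inj
      rw [Functor.map_zero]
      have h3 := hd
      rw [hg, ← Category.assoc ((P.comm j k hjk).inv.app _), ← Category.assoc ((P.comm i j hij).inv.app _),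
        ← Category.assoc ((P.U i).map π), key] at h3
      have h4 := congrArg (fun x => x ≫ A.inv) h3
      simp only [Category.assoc, A.hom_inv_id, Category.comp_id, Limits.zero_comp] at h4
      rw [← cancel_epi ((P.comm j k hjk).inv.app _), ← cancel_epi ((P.comm i j hij).inv.app _)]
      simp only [Limits.comp_zero]
      exact h4
    have h5 : g = 0 := h1.epi (by rw [h2, Limits.comp_zero])
    rw [hg, h5, Functor.map_zero, Limits.zero_comp, Limits.comp_zero, Limits.comp_zero]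
  refine ⟨by rw [← Functor.map_comp, h.1, Functor.map_zero], fun T g hg => ?_⟩
  obtain ⟨j, k, hij, hjk, T', A, g', hg'⟩ := P.lift' i T Y g
  have := (E i j hij).ext_additive
  have := (E i j hij).res_additive
  have := (E j k hjk).ext_additive
  have := (E j k hjk).res_additive
  have := P.additive k
  have h1 := map_coker (E j k hjk).adj (map_coker (E i j hij).adj h)
  have h2 : (E j k hjk).ext.map ((E i j hij).ext.map f) ≫ g' = 0 := by
    apply P.inj
    rw [Functor.map_zero]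
    have h3 := hg
    rw [hg', ← Category.assoc ((P.comm j k hjk).inv.app _), ← Category.assoc ((P.comm i j hij).inv.app _),
      ← Category.assoc ((P.U i).map f), key] at h3
    have h4 := congrArg (fun x => x ≫ A.inv) h3
    simp only [Category.assoc, A.hom_inv_id, Category.comp_id, Limits.zero_comp] at h4
    rw [← cancel_epi ((P.comm j k hjk).inv.app _), ← cancel_epi ((P.comm i j hij).inv.app _)]
    simp only [Limits.comp_zero]
    exact h4
  obtain ⟨l, hl, -⟩ := h1.2 _ g' h2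
  change (E j k hjk).ext.map ((E i j hij).ext.map π) ≫ l = g' at hl
  have h6 : (P.U i).map π ≫ ((P.comm i j hij).inv.app Q ≫ (P.comm j k hjk).inv.app _ ≫
      (P.U k).map l ≫ A.hom) = g := by
    rw [hg', ← hl, ← Category.assoc ((P.comm j k hjk).inv.app _),
      ← Category.assoc ((P.comm i j hij).inv.app _), ← Category.assoc ((P.U i).map π), key]
    simp only [Category.assoc]
  refine ⟨_, h6, fun l' hl' => ?_⟩
  rw [← sub_eq_zero]
  apply hzero
  rw [Preadditive.comp_sub, h6, sub_eq_zero]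
  exact hl'

theorem strict_up {i : I} {X Y : C i} {f : X ⟶ Y} (h : Strict f) : Strict ((P.U i).map f) := by
  obtain ⟨K, J, Q, ι, e, m, π, hi, hπ, he, hm, hem⟩ := h
  exact ⟨_, _, _, (P.U i).map ι, (P.U i).map e, (P.U i).map m, (P.U i).map π, ker_up P hi,
    coker_up P hπ, coker_up P he, ker_up P hm, by rw [← Functor.map_comp, hem]⟩

omit P in
theorem strict_iso [IsIdempotentComplete L] {X Y A B : L} {f : X ⟶ Y} {g : A ⟶ B} (a : X ≅ A)
    (b : Y ≅ B) (h : f = a.hom ≫ g ≫ b.inv) (hg : Strict g) : Strict f :=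
  strict_of_retract a.hom_inv_id b.hom_inv_id
    (by rw [h]; simp) (by rw [h]; simp) hg

/-- the union is abelian if the members are -/
theorem union_of_all [Nonempty I] [IsIdempotentComplete L] (h : ∀ i, AllStrict (C i)) :
    AllStrict L := by
  intro X Y f
  obtain ⟨i₀⟩ := ‹Nonempty I›
  obtain ⟨i, -, hobj⟩ := P.obj i₀ 2 ![X, Y]
  obtain ⟨X', ⟨a⟩⟩ := hobj 0
  obtain ⟨Y', ⟨b⟩⟩ := hobj 1
  change X ≅ (P.U i).obj X' at a
  change Y ≅ (P.U i).obj Y' at b
  obtain ⟨j, hij, g, hg⟩ := P.hom₁ i X' Y' (a.inv ≫ f ≫ b.hom)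
  refine strict_iso (a ≪≫ ((P.comm i j hij).app X').symm) (b ≪≫ ((P.comm i j hij).app Y').symm)
    ?_ (strict_up P (h j _ _ g))
  rw [hg]
  simp only [Iso.trans_hom, Iso.symm_hom, Iso.app_inv, Iso.trans_inv, Iso.symm_inv, Iso.app_hom,
    Category.assoc]
  rw [← Category.assoc ((P.comm i j hij).inv.app X'), P.inv_hom, Category.id_comp,
    ← Category.assoc ((P.comm i j hij).inv.app Y'), P.inv_hom, Category.id_comp, b.hom_inv_id,
    Category.comp_id, a.hom_inv_id_assoc]

omit P in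
theorem ker_conj {K X Y K₁ X₁ Y₁ : L} {i : K ⟶ X} {f : X ⟶ Y} (α : K₁ ≅ K) (β : X₁ ≅ X)
    (γ : Y₁ ≅ Y) (h : IsKer i f) : IsKer (α.hom ≫ i ≫ β.inv) (β.hom ≫ f ≫ γ.inv) :=
  ker_retract (sX := β.hom) (rX := β.inv) (sY := γ.hom) (rY := γ.inv) (t := 𝟙 K) β.hom_inv_id
    (by simp) (by simp) h (by simp) α.hom_inv_id α.inv_hom_id

omit P in
theorem coker_conj {X Y Q X₁ Y₁ Q₁ : L} {f : X ⟶ Y} {π : Y ⟶ Q} (β : X₁ ≅ X) (γ : Y₁ ≅ Y)
    (δ : Q₁ ≅ Q) (h : IsCoker f π) : IsCoker (β.hom ≫ f ≫ γ.inv) (γ.hom ≫ π ≫ δ.inv) :=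
  coker_retract (sX := β.hom) (rX := β.inv) (sY := γ.hom) (rY := γ.inv) (t := 𝟙 Q) γ.hom_inv_id
    (by simp) (by simp) h (by simp) δ.hom_inv_id δ.inv_hom_id

/-- strictness descends from the union -/
theorem strict_down [∀ i, IsIdempotentComplete (C i)] {i : I} {X Y : C i} {f : X ⟶ Y}
    (h : Strict ((P.U i).map f)) : Strict f := by
  obtain ⟨K, J, Q, ι, e, m, π, hi, hπ, he, hm, hem⟩ := h
  obtain ⟨j, hij, hobj⟩ := P.obj i 3 ![K, J, Q]
  obtain ⟨K', ⟨a⟩⟩ := hobj 0
  obtain ⟨J', ⟨b⟩⟩ := hobj 1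
  obtain ⟨Q', ⟨c⟩⟩ := hobj 2
  change K ≅ (P.U j).obj K' at a
  change J ≅ (P.U j).obj J' at b
  change Q ≅ (P.U j).obj Q' at c
  obtain ⟨X₁, hX₁⟩ : ∃ X₁, X₁ = (E i j hij).ext.obj X := ⟨_, rfl⟩
  obtain ⟨Y₁, hY₁⟩ : ∃ Y₁, Y₁ = (E i j hij).ext.obj Y := ⟨_, rfl⟩
  obtain ⟨f₁, cX, cY, hf₁⟩ : ∃ (f₁ : X₁ ⟶ Y₁) (cX : (P.U j).obj X₁ ≅ (P.U i).obj X)
      (cY : (P.U j).obj Y₁ ≅ (P.U i).obj Y),
      (P.U j).map f₁ = cX.hom ≫ (P.U i).map f ≫ cY.inv ∧ (Strict f₁ → Strict f) := by
    subst hX₁ hY₁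
    refine ⟨(E i j hij).ext.map f, (P.comm i j hij).app X, (P.comm i j hij).app Y, ?_,
      fun h => (E i j hij).descend h⟩
    rw [Iso.app_hom, Iso.app_inv, P.nat', ← Category.assoc, P.hom_inv, Category.id_comp]
  obtain ⟨k, hjk, hhom⟩ := P.hom j 4 ![K', X₁, J', Y₁] ![X₁, J', Y₁, Q']
    (fun x => match x with
      | 0 => a.inv ≫ ι ≫ cX.inv
      | 1 => cX.hom ≫ e ≫ b.hom
      | 2 => b.inv ≫ m ≫ cY.inv
      | 3 => cY.hom ≫ π ≫ c.hom)
  obtain ⟨ι₂, hι₂⟩ := hhom 0
  obtain ⟨e₂, he₂⟩ := hhom 1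
  obtain ⟨m₂, hm₂⟩ := hhom 2
  obtain ⟨π₂, hπ₂⟩ := hhom 3
  change (E j k hjk).ext.obj K' ⟶ (E j k hjk).ext.obj X₁ at ι₂
  change (E j k hjk).ext.obj X₁ ⟶ (E j k hjk).ext.obj J' at e₂
  change (E j k hjk).ext.obj J' ⟶ (E j k hjk).ext.obj Y₁ at m₂
  change (E j k hjk).ext.obj Y₁ ⟶ (E j k hjk).ext.obj Q' at π₂
  obtain ⟨α, hα⟩ : ∃ α, α = (P.comm j k hjk).app K' ≪≫ a.symm := ⟨_, rfl⟩
  obtain ⟨β, hβ⟩ : ∃ β, β = (P.comm j k hjk).app X₁ ≪≫ cX := ⟨_, rfl⟩
  obtain ⟨γ, hγ⟩ : ∃ γ, γ = (P.comm j k hjk).app Y₁ ≪≫ cY := ⟨_, rfl⟩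
  obtain ⟨δ, hδ⟩ : ∃ δ, δ = (P.comm j k hjk).app J' ≪≫ b.symm := ⟨_, rfl⟩
  obtain ⟨ε, hε⟩ : ∃ ε, ε = (P.comm j k hjk).app Q' ≪≫ c.symm := ⟨_, rfl⟩
  have h1 : (P.U k).map ι₂ = α.hom ≫ ι ≫ β.inv := by
    rw [hα, hβ]
    refine hι₂.trans ?_
    simp
  have h2 : (P.U k).map e₂ = β.hom ≫ e ≫ δ.inv := by
    rw [hβ, hδ]
    refine he₂.trans ?_
    simp
  have h3 : (P.U k).map m₂ = δ.hom ≫ m ≫ γ.inv := by
    rw [hδ, hγ]
    refine hm₂.trans ?_
    simp
  have h4 : (P.U k).map π₂ = γ.hom ≫ π ≫ ε.inv := by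
    rw [hγ, hε]
    refine hπ₂.trans ?_
    simp
  have h5 : (P.U k).map ((E j k hjk).ext.map f₁) = β.hom ≫ (P.U i).map f ≫ γ.inv := by
    have h6 : (P.U k).map ((E j k hjk).ext.map f₁) =
        (P.comm j k hjk).hom.app X₁ ≫ (P.U j).map f₁ ≫ (P.comm j k hjk).inv.app Y₁ := by
      rw [P.nat', ← Category.assoc, P.hom_inv]
      exact (Category.id_comp _).symm
    rw [h6, hf₁.1, hβ, hγ]
    simp
  refine hf₁.2 ((E j k hjk).descend ⟨_, _, _, ι₂, e₂, m₂, π₂, P.ker_down ?_, P.coker_down ?_,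
    P.coker_down ?_, P.ker_down ?_, P.inj ?_⟩)
  · rw [h1, h5]
    exact ker_conj α β γ hi
  · rw [h4, h5]
    exact coker_conj β γ ε hπ
  · rw [h1, h2]
    exact coker_conj α β δ he
  · rw [h3, h4]
    exact ker_conj δ γ ε hm
  · rw [Functor.map_comp, h2, h3, h5, ← hem]
    simp

/-- the members are abelian if the union is -/
theorem all_of_union [∀ i, IsIdempotentComplete (C i)] (h : AllStrict L) (i : I) :
    AllStrict (C i) := fun _ _ _ => strict_down P (h _ _ _)

/-- the members are abelian if the union is; the union is abelian if one member is -/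
theorem main_union [Nonempty I] [∀ i, IsIdempotentComplete (C i)] [IsIdempotentComplete L]
    (hdir : ∀ i j, ∃ k, R i k ∧ R j k) (i : I) : AllStrict L ↔ AllStrict (C i) := by
  constructor
  · exact fun h => all_of_union P h i
  · intro h
    refine union_of_all P fun j => ?_
    obtain ⟨k, hik, hjk⟩ := hdir i j
    exact (E j k hjk).allStrict_iff.2 ((E i k hik).allStrict_iff.1 h)

end system

end Pool.Agent.U407.AB
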