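import Pool.Agent.U407.AB1

/-!
# Reduction of abelianness to square-zero endomorphisms and to a nil ideal
-/

set_option autoImplicit false

open CategoryTheory Limits

universe v u

namespace Pool.Agent.U407.AB

variable {C : Type u} [Category.{v} C] [Preadditive C]

/-- if every object is a direct summand of an object in `𝒢`, then all morphisms are strict if the
endomorphisms with square zero of the objects in `𝒢` are strict -/
theorem strict_of_square_zero [IsIdempotentComplete C] [HasBinaryBiproducts C] {𝒢 : C → Prop}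
    (h𝒢 : ∀ A : C, ∃ (Z : C) (s : A ⟶ Z) (r : Z ⟶ A), 𝒢 Z ∧ s ≫ r = 𝟙 A)
    (h : ∀ (Z : C) (F : Z ⟶ Z), 𝒢 Z → F ≫ F = 0 → Strict F) {A B : C} (f : A ⟶ B) :
    Strict f := by
  obtain ⟨Z, s, r, hZ, hsr⟩ := h𝒢 (A ⊞ B)
  obtain ⟨F, hF⟩ : ∃ F : A ⊞ B ⟶ A ⊞ B, F = biprod.fst ≫ f ≫ biprod.inr := ⟨_, rfl⟩
  have hFF : F ≫ F = 0 := by
    rw [hF]
    simp
  have h1 : Strict (r ≫ F ≫ s) := by
    refine h Z _ hZ ?_
    calc (r ≫ F ≫ s) ≫ r ≫ F ≫ s = r ≫ F ≫ (s ≫ r) ≫ F ≫ s := by simp only [Category.assoc]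
      _ = r ≫ (F ≫ F) ≫ s := by rw [hsr]; simp
      _ = 0 := by rw [hFF]; simp
  refine strict_of_retract (g := r ≫ F ≫ s) (sX := biprod.inl ≫ s) (rX := r ≫ biprod.fst)
    (sY := biprod.inr ≫ s) (rY := r ≫ biprod.snd) ?_ ?_ ?_ ?_ h1
  · rw [Category.assoc, ← Category.assoc s, hsr]
    simp
  · rw [Category.assoc, ← Category.assoc s, hsr]
    simp
  · rw [Category.assoc, ← Category.assoc s, hsr, hF]
    simp
  · rw [Category.assoc, Category.assoc, Category.assoc, ← Category.assoc s, hsr, hF]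
    simp

/-- if `f` has a split monomorphism part with complement `f₀`, then `f` is strict if `f₀` is -/
theorem strict_of_part [HasBinaryBiproducts C] {A B A₁ A₀ B₀ : C} {f : A ⟶ B} {i₁ : A₁ ⟶ A}
    {p₁ : A ⟶ A₁} {i₀ : A₀ ⟶ A} {p₀ : A ⟶ A₀} (_h11 : i₁ ≫ p₁ = 𝟙 A₁) (h00 : i₀ ≫ p₀ = 𝟙 A₀)
    (h10 : i₁ ≫ p₀ = 0) (hsum : p₁ ≫ i₁ + p₀ ≫ i₀ = 𝟙 A) {h : B ⟶ A₁}
    (hh : (i₁ ≫ f) ≫ h = 𝟙 A₁) {j₀ : B₀ ⟶ B} {q₀ : B ⟶ B₀} (hjq : j₀ ≫ q₀ = 𝟙 B₀)
    (hqj : q₀ ≫ j₀ = 𝟙 B - h ≫ i₁ ≫ f) (hf₀ : Strict (i₀ ≫ f ≫ q₀)) : Strict f := by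
  obtain ⟨f₀, hf₀'⟩ : ∃ f₀, f₀ = i₀ ≫ f ≫ q₀ := ⟨_, rfl⟩
  rw [← hf₀'] at hf₀
  obtain ⟨K, I, Q, ι, e, m, π, hi, hπ, he, hm, hem⟩ := hf₀
  obtain ⟨i', hi'⟩ : ∃ i' : A₀ ⟶ A, i' = i₀ - i₀ ≫ f ≫ h ≫ i₁ := ⟨_, rfl⟩
  have hf1q : (i₁ ≫ f) ≫ q₀ = 0 := by
    have h1 : ((i₁ ≫ f) ≫ q₀) ≫ j₀ = 0 := by
      rw [Category.assoc, hqj, Preadditive.comp_sub, Category.comp_id, ← Category.assoc (i₁ ≫ f) h,
        hh, Category.id_comp, sub_self]
    calc (i₁ ≫ f) ≫ q₀ = (((i₁ ≫ f) ≫ q₀) ≫ j₀) ≫ q₀ := by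
          rw [Category.assoc _ j₀ q₀, hjq, Category.comp_id]
      _ = 0 := by rw [h1, zero_comp]
  have hjh : j₀ ≫ h = 0 := by
    have h1 : q₀ ≫ j₀ ≫ h = 0 := by
      rw [← Category.assoc, hqj, Preadditive.sub_comp, Category.id_comp, Category.assoc, hh,
        Category.comp_id, sub_self]
    calc j₀ ≫ h = j₀ ≫ q₀ ≫ j₀ ≫ h := by rw [← Category.assoc j₀, hjq, Category.id_comp]
      _ = 0 := by rw [h1, comp_zero]
  have hi'f : i' ≫ f = f₀ ≫ j₀ := by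
    rw [hi', hf₀', Preadditive.sub_comp]
    simp only [Category.assoc]
    rw [hqj]
    simp only [Preadditive.comp_sub, Category.comp_id]
  have hi'p : i' ≫ p₀ = 𝟙 A₀ := by
    rw [hi', Preadditive.sub_comp, h00]
    simp only [Category.assoc, h10, comp_zero, sub_zero]
  have hfq : f ≫ q₀ = p₀ ≫ f₀ := by
    have h1 : f = p₁ ≫ i₁ ≫ f + p₀ ≫ i₀ ≫ f := by
      rw [← Category.assoc, ← Category.assoc, ← Preadditive.add_comp, hsum, Category.id_comp]
    calc f ≫ q₀ = (p₁ ≫ i₁ ≫ f + p₀ ≫ i₀ ≫ f) ≫ q₀ := by rw [← h1]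
      _ = p₁ ≫ ((i₁ ≫ f) ≫ q₀) + p₀ ≫ i₀ ≫ f ≫ q₀ := by
          rw [Preadditive.add_comp]; simp only [Category.assoc]
      _ = p₀ ≫ f₀ := by rw [hf1q, comp_zero, zero_add, hf₀']
  have hone : f ≫ h ≫ i₁ + p₀ ≫ i' = 𝟙 A := by
    have h1 : f ≫ h ≫ i₁ = p₁ ≫ i₁ + p₀ ≫ i₀ ≫ f ≫ h ≫ i₁ := by
      calc f ≫ h ≫ i₁ = (p₁ ≫ i₁ + p₀ ≫ i₀) ≫ f ≫ h ≫ i₁ := by rw [hsum, Category.id_comp]
        _ = p₁ ≫ ((i₁ ≫ f) ≫ h) ≫ i₁ + p₀ ≫ i₀ ≫ f ≫ h ≫ i₁ := by
            rw [Preadditive.add_comp]; simp only [Category.assoc]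
        _ = _ := by rw [hh, Category.id_comp]
    rw [h1, hi', Preadditive.comp_sub, ← hsum]
    abel
  refine ⟨K, A₁ ⊞ I, Q, ι ≫ i', biprod.lift (f ≫ h) (p₀ ≫ e), biprod.desc (i₁ ≫ f) (m ≫ j₀),
    q₀ ≫ π, ⟨?_, fun T t ht => ?_⟩, ⟨?_, fun T t ht => ?_⟩, ⟨?_, fun T t ht => ?_⟩,
    ⟨?_, fun T t ht => ?_⟩, ?_⟩
  · rw [Category.assoc, hi'f, ← Category.assoc, hi.1, zero_comp]
  · obtain ⟨l, hl, -⟩ := hi.2 T (t ≫ p₀) (by
      rw [Category.assoc, ← hfq, ← Category.assoc, ht, zero_comp])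
    change l ≫ ι = t ≫ p₀ at hl
    have h1 : t = t ≫ p₀ ≫ i' := by
      calc t = t ≫ (f ≫ h ≫ i₁ + p₀ ≫ i') := by rw [hone, Category.comp_id]
        _ = (t ≫ f) ≫ h ≫ i₁ + t ≫ p₀ ≫ i' := by
            rw [Preadditive.comp_add]; simp only [Category.assoc]
        _ = t ≫ p₀ ≫ i' := by rw [ht, zero_comp, zero_add]
    refine ⟨l, ?_, fun l' hl' => hi.mono ?_⟩
    · change l ≫ ι ≫ i' = t
      rw [← Category.assoc, hl, Category.assoc, ← h1]
    · change l' ≫ ι ≫ i' = t at hl'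
      rw [hl, ← hl']
      simp only [Category.assoc, hi'p, Category.comp_id]
  · rw [← Category.assoc, hfq, Category.assoc, hπ.1, comp_zero]
  · obtain ⟨l, hl, -⟩ := hπ.2 T (j₀ ≫ t) (by
      rw [← Category.assoc, ← hi'f, Category.assoc, ht, comp_zero])
    change π ≫ l = j₀ ≫ t at hl
    have h1 : q₀ ≫ j₀ ≫ t = t := by
      rw [← Category.assoc, hqj, Preadditive.sub_comp, Category.id_comp]
      simp only [Category.assoc, ht, comp_zero, sub_zero]
    refine ⟨l, ?_, fun l' hl' => hπ.epi ?_⟩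
    · change (q₀ ≫ π) ≫ l = t
      rw [Category.assoc, hl, h1]
    · change (q₀ ≫ π) ≫ l' = t at hl'
      rw [hl, ← hl', Category.assoc, ← Category.assoc j₀, hjq, Category.id_comp]
  · ext
    · simp only [Category.assoc, biprod.lift_fst, zero_comp]
      rw [← Category.assoc i', hi'f, ← Category.assoc ι, ← Category.assoc ι, hi.1]
      simp
    · simp only [Category.assoc, biprod.lift_snd, zero_comp]
      rw [← Category.assoc i', hi'p, Category.id_comp, he.1]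
  · obtain ⟨l, hl, -⟩ := he.2 T (i' ≫ t) (by rw [← Category.assoc, ht])
    change e ≫ l = i' ≫ t at hl
    have h2 : i₁ ≫ biprod.lift (f ≫ h) (p₀ ≫ e) = biprod.inl := by
      ext
      · simp only [Category.assoc, biprod.lift_fst, biprod.inl_fst]
        rw [← Category.assoc, hh]
      · simp only [Category.assoc, biprod.lift_snd, biprod.inl_snd]
        rw [← Category.assoc, h10, zero_comp]
    have h3 : i' ≫ biprod.lift (f ≫ h) (p₀ ≫ e) = e ≫ biprod.inr := by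
      ext
      · simp only [Category.assoc, biprod.lift_fst, biprod.inr_fst, comp_zero]
        rw [← Category.assoc, hi'f, Category.assoc, hjh, comp_zero]
      · simp only [Category.assoc, biprod.lift_snd, biprod.inr_snd, Category.comp_id]
        rw [← Category.assoc, hi'p, Category.id_comp]
    refine ⟨biprod.desc (i₁ ≫ t) l, ?_, fun l' hl' => ?_⟩
    · change biprod.lift (f ≫ h) (p₀ ≫ e) ≫ biprod.desc (i₁ ≫ t) l = t
      rw [biprod.lift_desc, Category.assoc p₀, hl]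
      calc (f ≫ h) ≫ i₁ ≫ t + p₀ ≫ i' ≫ t = (f ≫ h ≫ i₁ + p₀ ≫ i') ≫ t := by
            rw [Preadditive.add_comp]; simp only [Category.assoc]
        _ = t := by rw [hone, Category.id_comp]
    · change biprod.lift (f ≫ h) (p₀ ≫ e) ≫ l' = t at hl'
      ext
      · rw [biprod.inl_desc, ← h2, Category.assoc, hl']
      · rw [biprod.inr_desc]
        apply he.epi
        rw [hl, ← Category.assoc, ← h3, Category.assoc, hl']
  · ext
    · simp only [← Category.assoc, biprod.inl_desc, comp_zero]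
      rw [hf1q, zero_comp]
    · simp only [← Category.assoc, biprod.inr_desc, comp_zero]
      rw [Category.assoc m, hjq, Category.comp_id, hm.1]
  · obtain ⟨l, hl, -⟩ := hm.2 T (t ≫ q₀) (by rw [Category.assoc, ht])
    change l ≫ m = t ≫ q₀ at hl
    have h2 : biprod.desc (i₁ ≫ f) (m ≫ j₀) ≫ h = biprod.fst := by
      ext
      · rw [← Category.assoc, biprod.inl_desc, hh, biprod.inl_fst]
      · rw [← Category.assoc, biprod.inr_desc, Category.assoc, hjh, comp_zero, biprod.inr_fst]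
    have h3 : biprod.desc (i₁ ≫ f) (m ≫ j₀) ≫ q₀ = biprod.snd ≫ m := by
      ext
      · rw [← Category.assoc, biprod.inl_desc, hf1q, ← Category.assoc, biprod.inl_snd, zero_comp]
      · rw [← Category.assoc, biprod.inr_desc, Category.assoc, hjq, Category.comp_id,
          ← Category.assoc, biprod.inr_snd, Category.id_comp]
    refine ⟨biprod.lift (t ≫ h) l, ?_, fun l' hl' => ?_⟩
    · change biprod.lift (t ≫ h) l ≫ biprod.desc (i₁ ≫ f) (m ≫ j₀) = t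
      rw [biprod.lift_desc, ← Category.assoc l, hl]
      calc (t ≫ h) ≫ i₁ ≫ f + (t ≫ q₀) ≫ j₀ = t ≫ (h ≫ i₁ ≫ f + q₀ ≫ j₀) := by
            rw [Preadditive.comp_add]; simp only [Category.assoc]
        _ = t := by rw [hqj, add_sub_cancel, Category.comp_id]
    · change l' ≫ biprod.desc (i₁ ≫ f) (m ≫ j₀) = t at hl'
      ext
      · rw [biprod.lift_fst, ← h2, ← Category.assoc, hl']
      · rw [biprod.lift_snd]
        apply hm.mono
        rw [hl, Category.assoc, ← h3, ← Category.assoc, hl']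
  · rw [biprod.lift_desc]
    calc (f ≫ h) ≫ i₁ ≫ f + (p₀ ≫ e) ≫ m ≫ j₀ = (f ≫ h) ≫ i₁ ≫ f + p₀ ≫ (e ≫ m) ≫ j₀ := by
          simp only [Category.assoc]
      _ = f ≫ (h ≫ i₁ ≫ f + q₀ ≫ j₀) := by
          rw [hem, Preadditive.comp_add, ← Category.assoc p₀, ← hfq]
          simp only [Category.assoc]
      _ = f := by rw [hqj, add_sub_cancel, Category.comp_id]

/-- An ideal of the preadditive category `C`: a set of morphisms which is closed under sums and under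
compositions with arbitrary morphisms on both sides. -/
structure IsIdeal (N : ∀ ⦃X Y : C⦄, (X ⟶ Y) → Prop) : Prop where
  add : ∀ {X Y : C} (f g : X ⟶ Y), N f → N g → N (f + g)
  left : ∀ {X Y Z : C} (f : X ⟶ Y) (g : Y ⟶ Z), N g → N (f ≫ g)
  right : ∀ {X Y Z : C} (f : X ⟶ Y) (g : Y ⟶ Z), N f → N (f ≫ g)

theorem ring_lift {R : Type*} [Ring R] (P : R → Prop) (hadd : ∀ a b, P a → P b → P (a + b))
    (hl : ∀ r a, P a → P (r * a)) (hr : ∀ a r, P a → P (a * r))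
    (nil : ∀ a, P a → IsNilpotent a) {x : R} (hx : P (x - x ^ 2)) :
    ∃ e : R, IsIdempotentElem e ∧ P (e - x) := by
  have hneg : ∀ a, P a → P (-a) := fun a ha => by
    have h := hl (-1) a ha
    rwa [neg_one_mul] at h
  have hsub : ∀ a b, P a → P b → P (a - b) := fun a b ha hb => by
    rw [sub_eq_add_neg]
    exact hadd _ _ ha (hneg _ hb)
  obtain ⟨n, hn⟩ := nil _ hx
  have hn' : (x - x ^ 2) ^ (n + 1) = 0 := by rw [pow_succ, hn, zero_mul]
  have hpow : ∀ a, P (a - a ^ 2) → ∀ k : ℕ, P (a - a ^ (k + 1)) := by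
    intro a ha k
    induction k with
    | zero =>
      have h0 := hl 0 _ ha
      rwa [zero_mul, show (0 : R) = a - a ^ (0 + 1) by rw [zero_add, pow_one, sub_self]] at h0
    | succ k ih =>
      have h1 : a - a ^ (k + 1 + 1) = (a - a ^ 2) + a * (a - a ^ (k + 1)) := by
        rw [mul_sub, ← pow_succ', sq]
        abel
      rw [h1]
      exact hadd _ _ ha (hl _ _ ih)
  have hcong : ∀ a b, P (a - b) → ∀ m : ℕ, P (a ^ m - b ^ m) := by
    intro a b hab m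
    induction m with
    | zero =>
      have h0 := hl 0 _ hab
      rwa [zero_mul, show (0 : R) = a ^ 0 - b ^ 0 by rw [pow_zero, pow_zero, sub_self]] at h0
    | succ m ih =>
      have h1 : a ^ (m + 1) - b ^ (m + 1) = a ^ m * (a - b) + (a ^ m - b ^ m) * b := by
        rw [mul_sub, sub_mul, ← pow_succ, ← pow_succ]
        abel
      rw [h1]
      exact hadd _ _ (hl _ _ hab) (hr _ _ ih)
  refine ⟨_, isIdempotentElem_one_sub_one_sub_pow_pow x (n + 1) hn', ?_⟩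
  have h1 : P ((1 - x) - (1 - x) ^ 2) := by
    have h2 : (1 - x) - (1 - x) ^ 2 = x - x ^ 2 := by
      noncomm_ring
    rw [h2]
    exact hx
  have h2 : P ((1 - x ^ (n + 1)) - (1 - x)) := by
    have h3 : (1 - x ^ (n + 1)) - (1 - x) = x - x ^ (n + 1) := by abel
    rw [h3]
    exact hpow x hx n
  have h4 : 1 - (1 - x ^ (n + 1)) ^ (n + 1) - x =
      ((1 - x) - (1 - x) ^ (n + 1)) - ((1 - x ^ (n + 1)) ^ (n + 1) - (1 - x) ^ (n + 1)) := by
    abel
  rw [h4]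
  exact hsub _ _ (hpow _ h1 n) (hcong _ _ h2 (n + 1))

/-- all morphisms are strict if those in a nil ideal with regular quotient are -/
theorem strict_of_nil_ideal [IsIdempotentComplete C] [HasBinaryBiproducts C]
    {N : ∀ ⦃X Y : C⦄, (X ⟶ Y) → Prop} (hN : IsIdeal N)
    (nil : ∀ (X : C) (f : X ⟶ X), N f → IsNilpotent (End.of f))
    (reg : ∀ {X Y : C} (f : X ⟶ Y), ∃ g : Y ⟶ X, N (f ≫ g ≫ f - f))
    (h : ∀ {X Y : C} (f : X ⟶ Y), N f → Strict f) {A B : C} (f : A ⟶ B) : Strict f := by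
  have hneg : ∀ {X Y : C} (a : X ⟶ Y), N a → N (-a) := fun a ha => by
    have h := hN.left (-𝟙 _) a ha
    rwa [Preadditive.neg_comp, Category.id_comp] at h
  obtain ⟨g, hg⟩ := reg f
  -- the idempotent
  obtain ⟨ε, hε, hεx⟩ := ring_lift (R := End A) (fun a => N (End.asHom a))
    (fun a b ha hb => hN.add _ _ ha hb) (fun r a ha => hN.right _ _ ha)
    (fun a r ha => hN.left _ _ ha) (fun a ha => nil A _ ha) (x := End.of (f ≫ g)) (by
      have h1 : End.asHom (End.of (f ≫ g) - End.of (f ≫ g) ^ 2) = -((f ≫ g ≫ f - f) ≫ g) := by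
        rw [sq]
        change f ≫ g - (f ≫ g) ≫ f ≫ g = _
        rw [Preadditive.sub_comp]
        simp only [Category.assoc, neg_sub]
      rw [h1]
      exact hneg _ (hN.right _ _ hg))
  obtain ⟨e, he⟩ : ∃ e : A ⟶ A, e = End.asHom ε := ⟨_, rfl⟩
  have hee : e ≫ e = e := by
    rw [he]
    exact hε
  have hex : N (e - f ≫ g) := by
    rw [he]
    exact hεx
  obtain ⟨A₁, i₁, p₁, h11, hpi1⟩ := IsIdempotentComplete.idempotents_split A e hee
  obtain ⟨A₀, i₀, p₀, h00, hpi0⟩ := IsIdempotentComplete.idempotents_split A (𝟙 A - e) (by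
    rw [Preadditive.comp_sub, Preadditive.sub_comp, Preadditive.sub_comp, hee, Category.comp_id,
      Category.id_comp, Category.comp_id, sub_self, sub_zero])
  have hi1e : i₁ ≫ e = i₁ := by
    rw [← hpi1, ← Category.assoc, h11, Category.id_comp]
  have hi0e : i₀ ≫ (𝟙 A - e) = i₀ := by
    rw [← hpi0, ← Category.assoc, h00, Category.id_comp]
  have h10 : i₁ ≫ p₀ = 0 := by
    calc i₁ ≫ p₀ = i₁ ≫ (p₀ ≫ i₀) ≫ p₀ := by
          rw [Category.assoc, h00, Category.comp_id]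
      _ = 0 := by
          rw [hpi0, Preadditive.sub_comp, Category.id_comp, Preadditive.comp_sub,
            ← Category.assoc i₁ e, hi1e, sub_self]
  have hsum : p₁ ≫ i₁ + p₀ ≫ i₀ = 𝟙 A := by rw [hpi1, hpi0, add_sub_cancel]
  -- the unit
  obtain ⟨u, hu⟩ : ∃ u : A₁ ⟶ A₁, u = i₁ ≫ f ≫ g ≫ p₁ := ⟨_, rfl⟩
  have hν : N (u - 𝟙 A₁) := by
    have h1 : u - 𝟙 A₁ = -(i₁ ≫ (e - f ≫ g) ≫ p₁) := by
      rw [Preadditive.sub_comp, Preadditive.comp_sub, ← Category.assoc i₁ e, hi1e, h11, hu,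
        neg_sub]
      simp only [Category.assoc]
    rw [h1]
    exact hneg _ (hN.left _ _ (hN.right _ _ hex))
  obtain ⟨u', hu'⟩ : ∃ u' : A₁ ⟶ A₁, u ≫ u' = 𝟙 A₁ := by
    have h1 := (nil A₁ _ hν).isUnit_one_add
    obtain ⟨v, hv⟩ := h1
    refine ⟨End.asHom (↑v⁻¹ : End A₁), ?_⟩
    have h2 : (↑v⁻¹ : End A₁) * (v : End A₁) = 1 := Units.inv_mul v
    have h3 : End.asHom (v : End A₁) = u := by
      rw [hv]
      change 𝟙 A₁ + (u - 𝟙 A₁) = u
      rw [add_sub_cancel]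
    have h4 : End.asHom (v : End A₁) ≫ End.asHom (↑v⁻¹ : End A₁) = 𝟙 A₁ := h2
    rwa [h3] at h4
  obtain ⟨k, hk⟩ : ∃ k : B ⟶ A₁, k = g ≫ p₁ ≫ u' := ⟨_, rfl⟩
  have hh : (i₁ ≫ f) ≫ k = 𝟙 A₁ := by
    rw [hk, ← hu', hu]
    simp only [Category.assoc]
  obtain ⟨B₀, j₀, q₀, hjq, hqj⟩ := IsIdempotentComplete.idempotents_split B
    (𝟙 B - k ≫ i₁ ≫ f) (by
      have h1 : (k ≫ i₁ ≫ f) ≫ k ≫ i₁ ≫ f = k ≫ i₁ ≫ f := by
        calc (k ≫ i₁ ≫ f) ≫ k ≫ i₁ ≫ f = k ≫ ((i₁ ≫ f) ≫ k) ≫ i₁ ≫ f := by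
              simp only [Category.assoc]
          _ = k ≫ i₁ ≫ f := by rw [hh, Category.id_comp]
      rw [Preadditive.comp_sub, Preadditive.sub_comp, Preadditive.sub_comp, h1, Category.comp_id,
        Category.id_comp, Category.comp_id, sub_self, sub_zero])
  refine strict_of_part h11 h00 h10 hsum hh hjq hqj (h _ ?_)
  have h5 : i₀ ≫ f ≫ q₀ = (i₀ ≫ (-(f ≫ g ≫ f - f) + (-(e - f ≫ g)) ≫ f)) ≫ q₀ := by
    have h6 : -(f ≫ g ≫ f - f) + (-(e - f ≫ g)) ≫ f = (𝟙 A - e) ≫ f := by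
      rw [Preadditive.neg_comp, Preadditive.sub_comp, Preadditive.sub_comp, Category.id_comp,
        Category.assoc]
      abel
    rw [h6, ← Category.assoc i₀ (𝟙 A - e), hi0e, Category.assoc]
  rw [h5]
  exact hN.right _ _ (hN.left _ _ (hN.add _ _ (hneg _ hg) (hN.right _ _ (hneg _ hex))))

end Pool.Agent.U407.AB
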