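import Pool.Agent.U226.AB.Abel
import Pool.Agent.U407.AB3

/-!
# Strictness of the numerically trivial morphisms in a rigid category with Frobenius data
-/

set_option autoImplicit false

open CategoryTheory MonoidalCategory BraidedCategory ExactPairing CategoryTheory.Limits

universe v u

namespace Pool.Agent.U407.AB

open U226.AB

section split

variable {A : Type u} [Category.{v} A] [Preadditive A] [MonoidalCategory A]
  [MonoidalPreadditive A] [SymmetricCategory A] [RightRigidCategory A]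

theorem IsCoker.colimit {X Y Q : A} {f : X ⟶ Y} {π : Y ⟶ Q} (h : IsCoker f π) :
    Nonempty (IsColimit (CokernelCofork.ofπ π h.1)) := by
  refine ⟨CokernelCofork.IsColimit.ofπ π h.1 (fun {Z} g hg => (h.2 Z g hg).choose) ?_ ?_⟩
  · intro Z g hg
    exact (h.2 Z g hg).choose_spec.1
  · intro Z g hg m hm
    exact (h.2 Z g hg).choose_spec.2 m hm

theorem IsKer.limit {K X Y : A} {i : K ⟶ X} {f : X ⟶ Y} (h : IsKer i f) :
    Nonempty (IsLimit (KernelFork.ofι i h.1)) := by
  refine ⟨KernelFork.IsLimit.ofι i h.1 (fun {Z} g hg => (h.2 Z g hg).choose) ?_ ?_⟩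
  · intro Z g hg
    exact (h.2 Z g hg).choose_spec.1
  · intro Z g hg m hm
    exact (h.2 Z g hg).choose_spec.2 m hm

/-- A morphism out of the unit which is a cokernel of its kernel splits. -/
theorem split_of_coker {X V : A} {i : X ⟶ 𝟙_ A} {p : 𝟙_ A ⟶ V} (hi : IsKer i p)
    (hp : IsCoker i p) : ∃ s : V ⟶ 𝟙_ A, s ≫ p = 𝟙 V := by
  have hpe : Epi p := ⟨fun a b hab => hp.epi hab⟩
  have him : Mono i := ⟨fun a b hab => hi.mono hab⟩
  obtain ⟨hc⟩ := hp.colimit
  have h0 : V ◁ i = 0 := by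
    rw [← cancel_epi (p ▷ X), ← whisker_exchange]
    have : i ≫ p = 0 := hi.1
    simp only [id_whiskerLeft, whiskerRight_id, Category.assoc]
    rw [unitors_inv_equal, Iso.inv_hom_id_assoc, ← Category.assoc i p, this]
    simp
  have h1 : IsZero (V ⊗ X) := IsZero.of_mono_eq_zero (V ◁ i) h0
  have h2 : IsZero (X ⊗ Vᘁ) := isZero_dual h1
  obtain ⟨q, hq⟩ := desc_tensor' (Z := Vᘁ) hi.1 hc (𝟙 _) (by
    rw [Category.comp_id]
    exact h2.eq_of_src _ _)
  have hiso : IsIso (p ▷ Vᘁ) := ⟨q, hq, by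
    rw [← cancel_epi (p ▷ Vᘁ), ← Category.assoc, hq, Category.id_comp, Category.comp_id]⟩
  set t : 𝟙_ A ⟶ 𝟙_ A ⊗ Vᘁ := η_ V Vᘁ ≫ inv (p ▷ Vᘁ) with ht
  set s' : 𝟙_ A ⊗ V ⟶ 𝟙_ A := (tensorRightHomEquiv (𝟙_ A) V Vᘁ (𝟙_ A)).symm t with hs'
  have hs : s' ≫ p = (λ_ V).hom := by
    apply (tensorRightHomEquiv (𝟙_ A) V Vᘁ V).injective
    rw [tensorRightHomEquiv_naturality, hs', Equiv.apply_symm_apply, ht, Category.assoc,
      IsIso.inv_hom_id, Category.comp_id]
    simp [tensorRightHomEquiv, ← unitors_inv_equal]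
  exact ⟨(λ_ V).inv ≫ s', by rw [Category.assoc, hs, Iso.inv_hom_id]⟩

end split

section normal

variable {A : Type u} [Category.{v} A] [Preadditive A] [Linear ℚ A] [MonoidalCategory A]
  [MonoidalPreadditive A] [MonoidalLinear ℚ A] [SymmetricCategory A] [RightRigidCategory A]

theorem normal_of_strict (hu : UnitRat A) {M : A} {x : 𝟙_ A ⟶ M} (hx : x ≠ 0) (h : Strict x) :
    ∃ (Q : A) (p : M ⟶ Q) (w : x ≫ p = 0),
      Nonempty (IsColimit (CokernelCofork.ofπ p w)) ∧ Nonempty (IsLimit (KernelFork.ofι x w)) := by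
  obtain ⟨X, V, Q, i, p, m, π, hi, hπ, hp, hm, hpm⟩ := h
  have hip : IsKer i p := by
    refine ⟨hp.1, fun T g hg => hi.2 T g ?_⟩
    rw [← hpm, ← Category.assoc, hg, zero_comp]
  obtain ⟨s, hs⟩ := split_of_coker hip hp
  obtain ⟨c, hc⟩ := hu.scalar (p ≫ s)
  have hid : (p ≫ s) ≫ (p ≫ s) = p ≫ s := by
    rw [Category.assoc, ← Category.assoc s p s, hs, Category.id_comp]
  have hps : p ≫ s = 𝟙 _ := by
    rw [hc, Linear.smul_comp, Category.id_comp, smul_smul, ← sub_eq_zero, ← sub_smul] at hid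
    rcases smul_eq_zero.mp hid with h | h
    · have h2 : c = 0 ∨ c = 1 := by
        have : c * (c - 1) = 0 := by linarith
        rcases mul_eq_zero.mp this with h | h
        · exact Or.inl h
        · exact Or.inr (by linarith)
      rcases h2 with h2 | h2
      · exfalso
        apply hx
        have h3 : p = 0 := by
          have : p = (p ≫ s) ≫ p := by rw [Category.assoc, hs, Category.comp_id]
          rw [this, hc, h2, zero_smul, zero_comp]
        rw [← hpm, h3, zero_comp]
      · rw [hc, h2, one_smul]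
    · exact absurd h hu.one_ne_zero
  have hxm : m = s ≫ x := by rw [← hpm, ← Category.assoc, hs, Category.id_comp]
  have hker : IsKer x π := by
    refine ⟨hπ.1, fun T g hg => ?_⟩
    obtain ⟨l, hl, hl'⟩ := hm.2 T g hg
    refine ⟨l ≫ s, ?_, fun l₁ h₁ => ?_⟩
    · change (l ≫ s) ≫ x = g
      rw [Category.assoc, ← hxm]
      exact hl
    · have h2 : l₁ ≫ x = g := h₁
      have h3 : (l₁ ≫ p) ≫ m = g := by rw [Category.assoc, hpm, h2]
      rw [← hl' _ h3, Category.assoc, hps, Category.comp_id]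
  exact ⟨Q, π, hπ.1, hπ.colimit, hker.limit⟩

theorem normal_of_pairing [IsIdempotentComplete A] (hu : UnitRat A) {M : A} {x : 𝟙_ A ⟶ M}
    {y : M ⟶ 𝟙_ A} (hy : x ≫ y ≠ 0) : ∃ (Q : A) (p : M ⟶ Q) (w : x ≫ p = 0),
      Nonempty (IsColimit (CokernelCofork.ofπ p w)) ∧ Nonempty (IsLimit (KernelFork.ofι x w)) := by
  obtain ⟨c, hc⟩ := hu.scalar (x ≫ y)
  have hc0 : c ≠ 0 := by
    rintro rfl
    rw [zero_smul] at hc
    exact hy hc
  set z : M ⟶ 𝟙_ A := c⁻¹ • y with hz
  have hxz : x ≫ z = 𝟙 _ := by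
    rw [hz, Linear.comp_smul, hc, smul_smul, inv_mul_cancel₀ hc0, one_smul]
  set e : M ⟶ M := 𝟙 M - z ≫ x with he
  have hee : e ≫ e = e := by
    rw [he]
    simp only [Preadditive.sub_comp, Preadditive.comp_sub, Category.id_comp, Category.comp_id,
      Category.assoc]
    rw [← Category.assoc x z x, hxz, Category.id_comp, sub_self, sub_zero]
  obtain ⟨Q, i, p, hip, hpi⟩ := IsIdempotentComplete.idempotents_split M e hee
  have hxe : x ≫ e = 0 := by
    rw [he, Preadditive.comp_sub, ← Category.assoc, hxz]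
    simp
  have w : x ≫ p = 0 := by
    have : x ≫ p = (x ≫ e) ≫ p := by
      rw [← hpi]
      simp only [Category.assoc]
      rw [hip, Category.comp_id]
    rw [this, hxe, zero_comp]
  refine ⟨Q, p, w, ⟨?_⟩, ⟨?_⟩⟩
  · refine CokernelCofork.IsColimit.ofπ p w (fun g _ => i ≫ g) ?_ ?_
    · intro W g hg
      rw [← Category.assoc, hpi, he, Preadditive.sub_comp, Category.assoc, hg]
      simp
    · intro W g hg m hm
      rw [← hm, ← Category.assoc, hip, Category.id_comp]
  · refine KernelFork.IsLimit.ofι x w (fun g _ => g ≫ z) ?_ ?_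
    · intro W g hg
      have h1 : g ≫ e = 0 := by rw [← hpi, ← Category.assoc, hg, zero_comp]
      rw [he, Preadditive.comp_sub, Category.comp_id, sub_eq_zero] at h1
      rw [Category.assoc, ← h1]
    · intro W g hg m hm
      rw [← hm, Category.assoc, hxz, Category.comp_id]

/-- numerically trivial morphisms -/
def Num {X Y : A} (f : X ⟶ Y) : Prop := ∀ g : Y ⟶ X, tr (f ≫ g) = 0

omit [Linear ℚ A] [MonoidalLinear ℚ A] in
theorem tr_zero (M : A) : tr (0 : M ⟶ M) = 0 := by
  unfold tr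
  simp

omit [Linear ℚ A] [MonoidalLinear ℚ A] in
theorem tr_add {M : A} (f g : M ⟶ M) : tr (f + g) = tr f + tr g := by
  unfold tr
  simp

omit [Linear ℚ A] [MonoidalLinear ℚ A] in
theorem isIdeal_num : IsIdeal (C := A) (fun X Y f => Num f) where
  add f g hf hg := fun h => by
    rw [Preadditive.add_comp, tr_add, hf h, hg h, add_zero]
  left f g hg := fun h => by
    rw [Category.assoc, tr_cyc, Category.assoc]
    exact hg (h ≫ f)
  right f g hf := fun h => by
    rw [Category.assoc]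
    exact hf (g ≫ h)

/-- if the numerically trivial morphisms out of the unit are strict, then the nonzero morphisms out
of the unit are normal -/
theorem unitNormal_of_strict [IsIdempotentComplete A] (hu : UnitRat A)
    (h : ∀ (M : A) (x : 𝟙_ A ⟶ M), Num x → Strict x) : UnitNormal A := by
  intro M x hx
  by_cases hy : ∀ y : M ⟶ 𝟙_ A, x ≫ y = 0
  · refine normal_of_strict hu hx (h M x fun g => ?_)
    rw [hy g, tr_zero]
  · push Not at hy
    obtain ⟨y, hy⟩ := hy
    exact normal_of_pairing hu hy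

variable {K : Type*} [Field K] [CharZero K]

/-- all morphisms are strict if the numerically trivial ones are -/
theorem strict_of_num [IsIdempotentComplete A] [HasBinaryBiproducts A] (D : FrobeniusData A K)
    (hu : UnitRat A) (reg : ∀ (X Y : A) (f : X ⟶ Y), ∃ g : Y ⟶ X, Num (f ≫ g ≫ f - f))
    (h : ∀ (X Y : A) (f : X ⟶ Y), Num f → Strict f) : ∀ (X Y : A) (f : X ⟶ Y), Strict f := by
  intro X Y f
  have hN : UnitNormal A := unitNormal_of_strict hu fun M x hx => h _ _ x hx
  refine strict_of_nil_ideal isIdeal_num (fun Z F hF => ?_) (fun f => reg _ _ f)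
    (fun f hf => h _ _ f hf) f
  obtain ⟨n, hn⟩ := D.nilpotent hu hN F hF
  exact ⟨n, by rw [← hn]; exact (iter_eq_pow (M := Z) (End.of F) n).symm⟩

end normal

end Pool.Agent.U407.AB
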