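import Pool.Agent.U407.AB2
import Pool.Agent.U407.AB4

/-!
# Square-zero numerically trivial endomorphisms suffice
-/

set_option autoImplicit false

open CategoryTheory MonoidalCategory BraidedCategory ExactPairing CategoryTheory.Limits

universe v u w v' u'

namespace Pool.Agent.U407.AB

open U226.AB

/-- for an ideal `N` the strictness of the morphisms in `N` follows from the strictness of the
endomorphisms in `N` with square zero of sufficiently many objects -/
theorem strict_of_square_zero_ideal {C : Type u} [Category.{v} C] [Preadditive C]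
    [IsIdempotentComplete C] [HasBinaryBiproducts C] {N : ∀ ⦃X Y : C⦄, (X ⟶ Y) → Prop}
    (hN : IsIdeal N) {𝒢 : C → Prop}
    (h𝒢 : ∀ A : C, ∃ (Z : C) (s : A ⟶ Z) (r : Z ⟶ A), 𝒢 Z ∧ s ≫ r = 𝟙 A)
    (h : ∀ (Z : C) (F : Z ⟶ Z), 𝒢 Z → N F → F ≫ F = 0 → Strict F) {A B : C} (f : A ⟶ B)
    (hf : N f) : Strict f := by
  obtain ⟨Z, s, r, hZ, hsr⟩ := h𝒢 (A ⊞ B)
  obtain ⟨F, hF⟩ : ∃ F : A ⊞ B ⟶ A ⊞ B, F = biprod.fst ≫ f ≫ biprod.inr := ⟨_, rfl⟩
  have hFF : F ≫ F = 0 := by
    rw [hF]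
    simp
  have hNF : N F := by
    rw [hF]
    exact hN.left _ _ (hN.right _ _ hf)
  have h1 : Strict (r ≫ F ≫ s) := by
    refine h Z _ hZ (hN.left _ _ (hN.right _ _ hNF)) ?_
    calc (r ≫ F ≫ s) ≫ r ≫ F ≫ s = r ≫ F ≫ (s ≫ r) ≫ F ≫ s := by simp only [Category.assoc]
      _ = r ≫ (F ≫ F) ≫ s := by rw [hsr]; simp
      _ = 0 := by rw [hFF]; simp
  refine strict_of_retract (g := r ≫ F ≫ s) (sX := biprod.inl ≫ s) (rX := r ≫ biprod.fst)
    (sY := biprod.inr ≫ s) (rY := r ≫ biprod.snd) ?_ ?_ ?_ ?_ h1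
  · rw [Category.assoc, ← Category.assoc s, hsr]
    simp
  · rw [Category.assoc, ← Category.assoc s, hsr]
    simp
  · rw [Category.assoc, ← Category.assoc s, hsr, hF]
    simp
  · rw [Category.assoc, Category.assoc, Category.assoc, ← Category.assoc s, hsr, hF]
    simp

/-- The numerically trivial endomorphisms with square zero of the objects in the class `𝒢` are
strict. -/
def SquareZeroStrict {A : Type u} [Category.{v} A] [Preadditive A] [MonoidalCategory A]
    [SymmetricCategory A] [RightRigidCategory A] (𝒢 : A → Prop) : Prop :=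
  ∀ (Z : A) (F : Z ⟶ Z), 𝒢 Z → Num F → F ≫ F = 0 → Strict F

theorem allStrict_iff_square_zero {A : Type u} [Category.{v} A] [Preadditive A] [Linear ℚ A]
    [MonoidalCategory A] [MonoidalPreadditive A] [MonoidalLinear ℚ A] [SymmetricCategory A]
    [RightRigidCategory A] [IsIdempotentComplete A] [HasBinaryBiproducts A] {K : Type w} [Field K]
    [CharZero K] (D : FrobeniusData A K) (hu : UnitRat A)
    (reg : ∀ (X Y : A) (f : X ⟶ Y), ∃ g : Y ⟶ X, Num (f ≫ g ≫ f - f)) {𝒢 : A → Prop}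
    (h𝒢 : ∀ M : A, ∃ (Z : A) (s : M ⟶ Z) (r : Z ⟶ M), 𝒢 Z ∧ s ≫ r = 𝟙 M) :
    AllStrict A ↔ SquareZeroStrict 𝒢 := by
  refine ⟨fun h Z F _ _ _ => h _ _ F, fun h => ?_⟩
  refine strict_of_num D hu reg fun X Y f hf => ?_
  exact strict_of_square_zero_ideal isIdeal_num h𝒢 h f hf

end Pool.Agent.U407.AB
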