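import Pool.Agent.U407.PF9

/-!
# Irreducible factors over extensions of a finite field
-/

set_option autoImplicit false
set_option linter.unusedSectionVars false

namespace Pool.Agent.U407.CE

open Polynomial UniqueFactorizationMonoid Pool.Agent.U407.PF

variable {k : Type} [Field k] [Fintype k] {k' : Type} [Field k'] [Fintype k'] [Algebra k k']

theorem nat_card_ext : Nat.card k' = Nat.card k ^ Module.finrank k k' := by
  rw [Nat.card_eq_fintype_card, Nat.card_eq_fintype_card]
  exact Module.card_eq_pow_finrank

/-- the degree of a factor over the extension -/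
theorem natDegree_factor {P : k[X]} (hP : Irreducible P) {Q : k'[X]} (hQ : Irreducible Q)
    (hdvd : Q ∣ P.map (algebraMap k k')) (m : ℕ) :
    Q.natDegree ∣ m ↔ P.natDegree ∣ Module.finrank k k' * m := by
  have h1 := hQ.natDegree_dvd_iff_dvd_X_pow_card_pow_sub_X (n := m)
  have h2 := hP.natDegree_dvd_iff_dvd_X_pow_card_pow_sub_X (n := Module.finrank k k' * m)
  have h3 : (X ^ Nat.card k' ^ m - X : k'[X]) =
      (X ^ Nat.card k ^ (Module.finrank k k' * m) - X : k[X]).map (algebraMap k k') := by
    rw [Polynomial.map_sub, Polynomial.map_pow, Polynomial.map_X, pow_mul, ← nat_card_ext]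
  rw [h1, h2, h3]
  constructor
  · intro h4
    by_contra h5
    have h6 : IsCoprime P (X ^ Nat.card k ^ (Module.finrank k k' * m) - X) :=
      (hP.coprime_iff_not_dvd).2 h5
    have h7 := h6.map (mapRingHom (algebraMap k k'))
    rw [coe_mapRingHom] at h7
    exact hQ.not_isUnit (h7.isUnit_of_dvd' hdvd h4)
  · intro h4
    exact hdvd.trans (Polynomial.map_dvd _ h4)

theorem order_gcd {e d n : ℕ} (hd : 0 < d) (h : ∀ m, e ∣ m ↔ d ∣ n * m) : e * Nat.gcd n d = d := by
  have hg : 0 < Nat.gcd n d := Nat.gcd_pos_of_pos_right _ hd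
  obtain ⟨g, hgd⟩ : ∃ g, g = Nat.gcd n d := ⟨_, rfl⟩
  obtain ⟨d', hd'⟩ := Nat.gcd_dvd_right n d
  obtain ⟨n', hn'⟩ := Nat.gcd_dvd_left n d
  have hcop : Nat.Coprime d' n' := by
    have h1 := Nat.coprime_div_gcd_div_gcd (m := n) (n := d) hg
    have h2 : d / Nat.gcd n d = d' := Nat.div_eq_of_eq_mul_right hg hd'
    have h3 : n / Nat.gcd n d = n' := Nat.div_eq_of_eq_mul_right hg hn'
    rw [h2, h3] at h1
    exact h1.symm
  rw [← hgd] at hd' hn' hg ⊢
  clear hgd
  subst hd' hn'
  have key : ∀ m, e ∣ m ↔ d' ∣ m := by
    intro m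
    rw [h m, mul_assoc, Nat.mul_dvd_mul_iff_left hg]
    exact ⟨fun h => hcop.dvd_of_dvd_mul_left h, fun h => Dvd.dvd.mul_left h _⟩
  have h4 : e = d' := Nat.dvd_antisymm ((key d').2 dvd_rfl) ((key e).1 dvd_rfl)
  rw [h4, mul_comm]

theorem natDegree_factor' {P : k[X]} (hP : Irreducible P) {Q : k'[X]} (hQ : Irreducible Q)
    (hdvd : Q ∣ P.map (algebraMap k k')) :
    Q.natDegree * Nat.gcd (Module.finrank k k') P.natDegree = P.natDegree :=
  order_gcd hP.natDegree_pos (natDegree_factor hP hQ hdvd)

theorem natDegree_multiset (S : Multiset k'[X]) (h : ∀ Q ∈ S, Q ≠ 0) :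
    S.prod.natDegree = (S.map natDegree).sum := by
  induction S using Multiset.induction_on with
  | empty => simp
  | cons a S ih =>
    have h1 : S.prod ≠ 0 := by
      intro h2
      exact h 0 (Multiset.mem_cons_of_mem (Multiset.prod_eq_zero_iff.1 h2)) rfl
    rw [Multiset.prod_cons, natDegree_mul (h a (Multiset.mem_cons_self a S)) h1,
      ih fun Q hQ => h Q (Multiset.mem_cons_of_mem hQ), Multiset.map_cons, Multiset.sum_cons]

/-- the number of the factors of an irreducible polynomial -/
theorem card_factors_irr {P : k[X]} (hP : Irreducible P) :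
    (factors (P.map (algebraMap k k'))).card = Nat.gcd (Module.finrank k k') P.natDegree := by
  have hinj : Function.Injective (algebraMap k k') := (algebraMap k k').injective
  have h0 : P.map (algebraMap k k') ≠ 0 := (Polynomial.map_ne_zero_iff hinj).2 hP.ne_zero
  have hd : 0 < P.natDegree := hP.natDegree_pos
  have hg : 0 < Nat.gcd (Module.finrank k k') P.natDegree := Nat.gcd_pos_of_pos_right _ hd
  have h1 := natDegree_eq_of_degree_eq (degree_eq_degree_of_associated (factors_prod h0))
  rw [natDegree_map, natDegree_multiset _ fun Q hQ => (irreducible_of_factor Q hQ).ne_zero] at h1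
  have h2 : ∀ Q ∈ factors (P.map (algebraMap k k')),
      Q.natDegree * Nat.gcd (Module.finrank k k') P.natDegree = P.natDegree := fun Q hQ =>
    natDegree_factor' hP (irreducible_of_factor Q hQ) (dvd_of_mem_factors hQ)
  have h3 : ((factors (P.map (algebraMap k k'))).map natDegree).sum *
      Nat.gcd (Module.finrank k k') P.natDegree =
      (factors (P.map (algebraMap k k'))).card * P.natDegree := by
    rw [← Multiset.sum_map_mul_right, Multiset.map_congr rfl h2, Multiset.map_const',
      Multiset.sum_replicate, smul_eq_mul]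
  rw [h1, mul_comm] at h3
  exact (Nat.eq_of_mul_eq_mul_right hd h3).symm

theorem card_factors_of_associated {a b : k'[X]} (h : Associated a b) :
    (factors a).card = (factors b).card :=
  Multiset.card_eq_card_of_rel (factors_rel_of_associated h)

theorem card_factors_mul {a b : k'[X]} (ha : a ≠ 0) (hb : b ≠ 0) :
    (factors (a * b)).card = (factors a).card + (factors b).card := by
  rw [Multiset.card_eq_card_of_rel (factors_mul ha hb), Multiset.card_add]

theorem card_factors_prod (S : Multiset k[X]) (h : ∀ P ∈ S, Irreducible P) :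
    (factors (S.prod.map (algebraMap k k'))).card =
      (S.map fun P => Nat.gcd (Module.finrank k k') P.natDegree).sum := by
  have hinj : Function.Injective (algebraMap k k') := (algebraMap k k').injective
  induction S using Multiset.induction_on with
  | empty => simp
  | cons a S ih =>
    have ha := h a (Multiset.mem_cons_self a S)
    have hS : ∀ P ∈ S, Irreducible P := fun P hP => h P (Multiset.mem_cons_of_mem hP)
    have h1 : S.prod ≠ 0 := by
      intro h2
      exact (hS 0 (Multiset.prod_eq_zero_iff.1 h2)).ne_zero rfl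
    rw [Multiset.prod_cons, Polynomial.map_mul, card_factors_mul
      ((Polynomial.map_ne_zero_iff hinj).2 ha.ne_zero) ((Polynomial.map_ne_zero_iff hinj).2 h1),
      card_factors_irr ha, ih hS, Multiset.map_cons, Multiset.sum_cons]

/-- **The number of the irreducible factors over the extension.** -/
theorem card_factors_map {Φ : k[X]} (h0 : Φ ≠ 0) :
    (factors (Φ.map (algebraMap k k'))).card =
      ((factors Φ).map fun P => Nat.gcd (Module.finrank k k') P.natDegree).sum := by
  rw [← card_factors_prod (factors Φ) irreducible_of_factor]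
  refine card_factors_of_associated ?_
  exact ((factors_prod h0).symm.map (mapRingHom (algebraMap k k')))

end Pool.Agent.U407.CE
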