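import Pool.Agent.U407.NP8

/-!
# Generalized eigenspaces on tensor products
-/

set_option autoImplicit false
set_option maxHeartbeats 1000000

namespace Pool.Agent.U407.NP

open Polynomial Module TensorProduct

section la

variable {H : Type} [AddCommGroup H] [Module ℂ H] [FiniteDimensional ℂ H]

theorem aeval_X_sub (T : Module.End ℂ H) (μ : ℂ) :
    aeval T (X - C μ) = T - μ • (1 : Module.End ℂ H) := by
  rw [map_sub, aeval_X, aeval_C, Algebra.algebraMap_eq_smul_one]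

/-- the projection on a generalized eigenspace is a polynomial -/
theorem exists_proj (T : Module.End ℂ H) (μ : ℂ) : ∃ P : ℂ[X],
    (∀ x ∈ T.maxGenEigenspace μ, aeval T P x = x) ∧
    ∀ x, aeval T P x ∈ T.maxGenEigenspace μ := by
  classical
  obtain ⟨R, hR, hnd⟩ := exists_eq_pow_rootMultiplicity_mul_and_not_dvd (minpoly ℂ T)
    (minpoly.ne_zero (Algebra.IsIntegral.isIntegral T)) μ
  obtain ⟨n, hn⟩ : ∃ n, n = finrank ℂ H + rootMultiplicity μ (minpoly ℂ T) := ⟨_, rfl⟩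
  have hcop : IsCoprime ((X - C μ) ^ n) R :=
    ((irreducible_X_sub_C μ).coprime_iff_not_dvd.2 hnd).pow_left
  obtain ⟨u, v, huv⟩ := hcop
  refine ⟨v * R, fun x hx => ?_, fun x => ?_⟩
  · have h1 : (aeval T (X - C μ) ^ n) x = 0 := by
      rw [aeval_X_sub]
      rw [Module.End.maxGenEigenspace_eq_genEigenspace_finrank,
        Module.End.mem_genEigenspace_nat, LinearMap.mem_ker] at hx
      rw [hn, add_comm, pow_add, Module.End.mul_apply, hx, map_zero]
    have h2 : v * R = 1 - u * (X - C μ) ^ n := by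
      rw [← huv]
      ring
    rw [h2, map_sub, map_one, map_mul, map_pow, LinearMap.sub_apply, Module.End.mul_apply, h1,
      map_zero, sub_zero]
    rfl
  · rw [Module.End.mem_maxGenEigenspace]
    refine ⟨n, ?_⟩
    rw [← aeval_X_sub, ← map_pow, ← Module.End.mul_apply, ← map_mul]
    have h1 : (X - C μ) ^ n * (v * R) = (v * (X - C μ) ^ finrank ℂ H) * minpoly ℂ T := by
      rw [hn, pow_add]
      conv_rhs => rw [hR]
      ring
    rw [h1, map_mul, minpoly.aeval, mul_zero]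
    rfl

theorem aeval_mem {T : Module.End ℂ H} {A : Submodule ℂ H} (hA : ∀ x ∈ A, T x ∈ A) (P : ℂ[X])
    {x : H} (hx : x ∈ A) : aeval T P x ∈ A := by
  induction P using Polynomial.induction_on' with
  | add P Q hP hQ =>
    rw [map_add, LinearMap.add_apply]
    exact A.add_mem hP hQ
  | monomial n c =>
    rw [aeval_monomial, Module.End.mul_apply, Module.algebraMap_end_apply]
    refine A.smul_mem c ?_
    induction n with
    | zero => exact hx
    | succ n ih =>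
      rw [pow_succ', Module.End.mul_apply]
      exact hA _ ih

theorem iSup_inf_le {ι : Type*} (T : Module.End ℂ H) (μ : ℂ) (A : ι → Submodule ℂ H)
    (hA : ∀ j, ∀ x ∈ A j, T x ∈ A j) :
    (⨆ j, A j) ⊓ T.maxGenEigenspace μ ≤ ⨆ j, (A j ⊓ T.maxGenEigenspace μ) := by
  obtain ⟨P, h1, h2⟩ := exists_proj T μ
  rintro x ⟨hx, hxG⟩
  rw [← h1 x hxG]
  have h3 : (⨆ j, A j) ≤ Submodule.comap (aeval T P) (⨆ j, (A j ⊓ T.maxGenEigenspace μ)) :=
    iSup_le fun j y hy => Submodule.mem_iSup_of_mem j ⟨aeval_mem (hA j) P hy, h2 y⟩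
  exact h3 hx

theorem maxGen_pow (T : Module.End ℂ H) (μ : ℂ) (N : ℕ) :
    T.maxGenEigenspace μ ≤ (T ^ N).maxGenEigenspace (μ ^ N) := by
  intro x hx
  rw [Module.End.mem_maxGenEigenspace] at hx ⊢
  obtain ⟨k, hk⟩ := hx
  refine ⟨k, ?_⟩
  have h1 : T ^ N - μ ^ N • (1 : Module.End ℂ H) = aeval T (X ^ N - C (μ ^ N)) := by
    rw [map_sub, map_pow, aeval_X, aeval_C, Algebra.algebraMap_eq_smul_one]
  obtain ⟨Q, hQ⟩ : (X - C μ : ℂ[X]) ∣ X ^ N - C (μ ^ N) := by
    rw [C_pow]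
    exact sub_dvd_pow_sub_pow _ _ _
  rw [h1, hQ, mul_comm, ← map_pow, mul_pow, map_mul, Module.End.mul_apply, map_pow _ (X - C μ),
    aeval_X_sub, hk, map_zero]

theorem hasEigenvalue_of_mem {T : Module.End ℂ H} {μ : ℂ} {x : H}
    (hx : x ∈ T.maxGenEigenspace μ) (h0 : x ≠ 0) : T.HasEigenvalue μ := by
  rw [Module.End.mem_maxGenEigenspace] at hx
  obtain ⟨k, hk⟩ := hx
  refine Module.End.hasEigenvalue_of_hasGenEigenvalue (k := k) ?_
  intro h
  apply h0
  have h1 : x ∈ T.genEigenspace μ k := by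
    rw [Module.End.mem_genEigenspace_nat, LinearMap.mem_ker]
    exact hk
  rw [h] at h1
  exact (Submodule.mem_bot ℂ).1 h1

variable {Z : Type} [AddCommGroup Z] [Module ℂ Z] [FiniteDimensional ℂ Z]

theorem tmul_mem (Φ : Module.End ℂ H) (Ψ : Module.End ℂ Z) {α β : ℂ} {v : H} {z : Z}
    (hv : v ∈ Φ.maxGenEigenspace α) (hz : z ∈ Ψ.maxGenEigenspace β) :
    v ⊗ₜ[ℂ] z ∈ Module.End.maxGenEigenspace (TensorProduct.map Φ Ψ) (α * β) := by
  rw [Module.End.mem_maxGenEigenspace] at hv hz ⊢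
  obtain ⟨k, hk⟩ := hv
  obtain ⟨l, hl⟩ := hz
  obtain ⟨X1, hX1⟩ : ∃ X1 : Module.End ℂ (H ⊗[ℂ] Z),
    X1 = TensorProduct.map (Φ - α • (1 : Module.End ℂ H)) Ψ := ⟨_, rfl⟩
  obtain ⟨X2, hX2⟩ : ∃ X2 : Module.End ℂ (H ⊗[ℂ] Z),
    X2 = TensorProduct.map (α • (1 : Module.End ℂ H)) (Ψ - β • (1 : Module.End ℂ Z)) := ⟨_, rfl⟩
  have hsum : TensorProduct.map Φ Ψ - (α * β) • (1 : Module.End ℂ (H ⊗[ℂ] Z)) = X1 + X2 := by
    rw [hX1, hX2]
    refine TensorProduct.ext' fun x y => ?_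
    simp only [LinearMap.sub_apply, LinearMap.add_apply, TensorProduct.map_tmul,
      LinearMap.smul_apply, Module.End.one_apply, sub_tmul, tmul_sub, smul_tmul', tmul_smul,
      mul_smul]
    rw [smul_comm β α]
    abel
  have hcomm : Commute X1 X2 := by
    rw [hX1, hX2]
    refine TensorProduct.ext' fun x y => ?_
    simp only [Module.End.mul_apply, TensorProduct.map_tmul, LinearMap.sub_apply,
      LinearMap.smul_apply, Module.End.one_apply, map_sub, map_smul, smul_sub]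
  have hpow1 : ∀ n, k ≤ n → (X1 ^ n) (v ⊗ₜ[ℂ] z) = 0 := by
    intro n hn
    rw [hX1, TensorProduct.map_pow, TensorProduct.map_tmul]
    obtain ⟨d, rfl⟩ := Nat.exists_eq_add_of_le' hn
    rw [pow_add (Φ - α • (1 : Module.End ℂ H)), Module.End.mul_apply, hk, map_zero, zero_tmul]
  have hpow2 : ∀ n, l ≤ n → (X2 ^ n) (v ⊗ₜ[ℂ] z) = 0 := by
    intro n hn
    rw [hX2, TensorProduct.map_pow, TensorProduct.map_tmul]
    obtain ⟨d, rfl⟩ := Nat.exists_eq_add_of_le' hn
    rw [pow_add (Ψ - β • (1 : Module.End ℂ Z)), Module.End.mul_apply, hl, map_zero, tmul_zero]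
  refine ⟨k + l, ?_⟩
  rw [hsum, hcomm.add_pow, LinearMap.sum_apply]
  refine Finset.sum_eq_zero fun i hi => ?_
  rw [Finset.mem_range] at hi
  have h1 : X1 ^ i * X2 ^ (k + l - i) * (((k + l).choose i : ℕ) : Module.End ℂ (H ⊗[ℂ] Z)) =
      (((k + l).choose i : ℕ) : Module.End ℂ (H ⊗[ℂ] Z)) * (X1 ^ i * X2 ^ (k + l - i)) :=
    (Nat.cast_commute _ _).symm.eq
  rw [h1, Module.End.mul_apply]
  have h2 : (X1 ^ i * X2 ^ (k + l - i)) (v ⊗ₜ[ℂ] z) = 0 := by
    rcases Nat.lt_or_ge i k with h | h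
    · rw [Module.End.mul_apply, hpow2 _ (by omega), map_zero]
    · rw [(hcomm.pow_pow i (k + l - i)).eq, Module.End.mul_apply, hpow1 _ h, map_zero]
  rw [h2, map_zero]

/-- the generalized eigenspaces of a tensor product -/
theorem eigenvalue_tensor (Φ : Module.End ℂ H) (Ψ : Module.End ℂ Z) {μ : ℂ}
    (h : Module.End.HasEigenvalue (TensorProduct.map Φ Ψ) μ) :
    ∃ α β, Φ.HasEigenvalue α ∧ Ψ.HasEigenvalue β ∧ μ = α * β := by
  by_contra hcon
  push Not at hcon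
  obtain ⟨A, hA⟩ : ∃ A : {x : ℂ × ℂ // Φ.HasEigenvalue x.1 ∧ Ψ.HasEigenvalue x.2} →
    Submodule ℂ (H ⊗[ℂ] Z), A = fun x =>
      Module.End.maxGenEigenspace (TensorProduct.map Φ Ψ) (x.1.1 * x.1.2) := ⟨_, rfl⟩
  have htop : (⊤ : Submodule ℂ (H ⊗[ℂ] Z)) ≤ ⨆ x, A x := by
    rw [← TensorProduct.map₂_mk_top_top_eq_top, ← Module.End.iSup_maxGenEigenspace_eq_top Φ,
      ← Module.End.iSup_maxGenEigenspace_eq_top Ψ, Submodule.map₂_iSup_left]
    refine iSup_le fun α => ?_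
    rw [Submodule.map₂_iSup_right]
    refine iSup_le fun β => ?_
    rw [Submodule.map₂_le]
    intro v hv z hz
    rw [TensorProduct.mk_apply]
    by_cases hv0 : v = 0
    · rw [hv0, zero_tmul]
      exact Submodule.zero_mem _
    by_cases hz0 : z = 0
    · rw [hz0, tmul_zero]
      exact Submodule.zero_mem _
    refine Submodule.mem_iSup_of_mem
      (⟨(α, β), hasEigenvalue_of_mem hv hv0, hasEigenvalue_of_mem hz hz0⟩) ?_
    rw [hA]
    exact tmul_mem Φ Ψ hv hz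
  obtain ⟨x, hx⟩ := h.exists_hasEigenvector
  have hxG : x ∈ Module.End.maxGenEigenspace (TensorProduct.map Φ Ψ) μ :=
    Module.End.eigenspace_le_maxGenEigenspace hx.1
  have h1 := iSup_inf_le (TensorProduct.map Φ Ψ) μ A (by
    intro y x hx
    rw [hA] at hx ⊢
    exact Module.End.mapsTo_maxGenEigenspace_of_comm (Commute.refl _) _ hx) ⟨htop
      Submodule.mem_top, hxG⟩
  have h2 : ∀ y, A y ⊓ Module.End.maxGenEigenspace (TensorProduct.map Φ Ψ) μ = ⊥ := by
    intro y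
    rw [hA]
    exact (Module.End.disjoint_genEigenspace _ (fun h3 => hcon y.1.1 y.1.2 y.2.1 y.2.2 h3.symm)
      ⊤ ⊤).eq_bot
  simp only [h2, iSup_bot, Submodule.mem_bot] at h1
  exact hx.2 h1

end la

end Pool.Agent.U407.NP
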