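import Pool.Agent.U407.NP7
import Pool.Agent.U407.NP9

/-!
# Tate classes on products with the surfaces `y ^ p - y = f(x, t)`
-/

set_option autoImplicit false
set_option maxHeartbeats 1000000

namespace Pool.Agent.U407.NP

open Polynomial Module TensorProduct

/-- an abstract embedding of `ℂ` in the algebraic closure of `ℚ_p` (as in
`Pool.Agent.H936R2.Crit2`) -/
theorem exists_emb (p : ℕ) [hp : Fact p.Prime] : Nonempty (ℂ →+* PadicAlgCl p) := by
  have h1 : Cardinal.mk ℂ = Cardinal.continuum := Cardinal.mk_complex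
  have h2 : Cardinal.continuum ≤ Cardinal.mk ℚ_[p] :=
    continuum_le_cardinal_of_nontriviallyNormedField ℚ_[p]
  have h3 : Cardinal.mk ℚ_[p] ≤ Cardinal.continuum := by
    have h4 : Cardinal.mk ℚ_[p] ≤ Cardinal.mk (CauSeq ℚ (padicNorm p)) :=
      Cardinal.mk_le_of_surjective (f := fun x => (Quotient.mk _ x : ℚ_[p])) (by
        intro y
        exact Quotient.exists_rep y)
    refine h4.trans ?_
    have h5 : Cardinal.mk (CauSeq ℚ (padicNorm p)) ≤ Cardinal.mk (ℕ → ℚ) :=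
      Cardinal.mk_le_of_injective (f := fun x => (x : ℕ → ℚ)) (by
        intro x y hxy
        exact Subtype.ext hxy)
    refine h5.trans ?_
    simp
  have h6 : Cardinal.mk ℚ_[p] = Cardinal.continuum := le_antisymm h3 h2
  have h7 : Cardinal.mk (PadicAlgCl p) = Cardinal.continuum := by
    apply le_antisymm
    · have := Algebra.IsAlgebraic.cardinalMk_le_max ℚ_[p] (PadicAlgCl p)
      rw [h6, max_eq_left Cardinal.aleph0_le_continuum] at this
      exact this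
    · rw [← h6]
      exact Cardinal.mk_le_of_injective (algebraMap ℚ_[p] (PadicAlgCl p)).injective
  obtain ⟨e⟩ := IsAlgClosed.ringEquiv_of_equiv_of_charZero (K := ℂ) (L := PadicAlgCl p)
    (by rw [h1]; exact Cardinal.aleph0_lt_continuum) (Cardinal.eq.1 (by rw [h1, h7]))
  exact ⟨e.toRingHom⟩

section la

variable {V H Z : Type} [AddCommGroup V] [Module ℂ V] [FiniteDimensional ℂ V]
  [AddCommGroup H] [Module ℂ H] [FiniteDimensional ℂ H]
  [AddCommGroup Z] [Module ℂ Z] [FiniteDimensional ℂ Z]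
  {Φ : Module.End ℂ V} {F : Module.End ℂ H} {G : Module.End ℂ Z} {ι : V →ₗ[ℂ] H}
  {W : ℕ → Submodule ℂ H} {W' : ℤ → Submodule ℂ Z} {q : ℂ}

/-- the eigenvalues of the powers -/
theorem eigenvalue_pow {T : Module.End ℂ H} {M : ℕ} (hM : M ≠ 0) {α : ℂ}
    (h : (T ^ M).HasEigenvalue α) : ∃ β, T.HasEigenvalue β ∧ β ^ M = α := by
  have h1 : α ∈ (T ^ M).charpoly.roots := by
    rw [mem_roots (LinearMap.charpoly_monic _).ne_zero]
    exact (Module.End.hasEigenvalue_iff_isRoot_charpoly _ _).1 h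
  rw [charpoly_pow' T M hM, Multiset.mem_map] at h1
  obtain ⟨β, hβ, rfl⟩ := h1
  exact ⟨β, (Module.End.hasEigenvalue_iff_isRoot_charpoly _ _).2 (mem_roots'.1 hβ).2, rfl⟩

/-- if `μ` is not an eigenvalue of `S`, there are no generalized eigenvectors for `μ` in the
image of an equivariant map -/
theorem range_inf_eq_bot {V' H' : Type} [AddCommGroup V'] [Module ℂ V'] [FiniteDimensional ℂ V']
    [AddCommGroup H'] [Module ℂ H'] [FiniteDimensional ℂ H'] {S : Module.End ℂ V'}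
    {T : Module.End ℂ H'} {j : V' →ₗ[ℂ] H'} (hj : ∀ v, j (S v) = T (j v)) {μ : ℂ}
    (hμ : ¬ S.HasEigenvalue μ) : LinearMap.range j ⊓ T.maxGenEigenspace μ = ⊥ := by
  rw [eq_bot_iff]
  rintro _ ⟨⟨v, rfl⟩, hx⟩
  rw [SetLike.mem_coe, Module.End.mem_maxGenEigenspace] at hx
  obtain ⟨k, hk⟩ := hx
  have hcop : IsCoprime ((X - C μ) ^ k) (minpoly ℂ S) := by
    refine IsCoprime.pow_left ?_
    rw [(irreducible_X_sub_C μ).coprime_iff_not_dvd, dvd_iff_isRoot]
    exact fun h => hμ (Module.End.hasEigenvalue_of_isRoot h)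
  obtain ⟨a, b, hab⟩ := hcop
  have h1 : v = aeval S (a * (X - C μ) ^ k) v := by
    have h2 : a * (X - C μ) ^ k = 1 - b * minpoly ℂ S := by
      rw [← hab]
      ring
    rw [h2, map_sub, map_one, map_mul, minpoly.aeval, mul_zero, sub_zero, Module.End.one_apply]
  rw [h1, comm_aeval hj, map_mul, Module.End.mul_apply, map_pow, aeval_X_sub, hk, map_zero]
  exact Submodule.zero_mem _

theorem tate_prod_aux {M : ℕ} (hcomm : ∀ v, ι (Φ v) = F (ι v))
    (hq : q ≠ 0) (hW : ∀ j, ∀ w ∈ W j, (F ^ M) w = (q ^ j) ^ M • w)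
    (hspan : (⨆ j, W j) ⊔ LinearMap.range ι = ⊤)
    (hT : ∀ r : ℤ, (G ^ M).maxGenEigenspace (q ^ ((M : ℤ) * r)) ≤ W' r) (r : ℤ)
    (hno : ¬ Module.End.HasEigenvalue (TensorProduct.map (Φ ^ M) (G ^ M))
      (q ^ ((M : ℤ) * r))) :
    Module.End.maxGenEigenspace (TensorProduct.map (F ^ M) (G ^ M)) (q ^ ((M : ℤ) * r)) ≤
      ⨆ j : ℕ, Submodule.map₂ (TensorProduct.mk ℂ H Z) (W j) (W' (r - j)) := by
  obtain ⟨T, hTdef⟩ : ∃ T : Module.End ℂ (H ⊗[ℂ] Z), T = TensorProduct.map (F ^ M) (G ^ M) :=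
    ⟨_, rfl⟩
  obtain ⟨μ, hμ⟩ : ∃ μ : ℂ, μ = q ^ ((M : ℤ) * r) := ⟨_, rfl⟩
  rw [← hTdef, ← hμ]
  rw [← hμ] at hno
  obtain ⟨J, hJ⟩ : ∃ J : V ⊗[ℂ] Z →ₗ[ℂ] H ⊗[ℂ] Z, J = TensorProduct.map ι LinearMap.id :=
    ⟨_, rfl⟩
  have hJcomm : ∀ v, J ((TensorProduct.map (Φ ^ M) (G ^ M)) v) = T (J v) := by
    intro v
    have h1 : J ∘ₗ (TensorProduct.map (Φ ^ M) (G ^ M)) = T ∘ₗ J := by
      rw [hJ, hTdef]
      refine TensorProduct.ext' fun x y => ?_
      simp only [LinearMap.comp_apply, TensorProduct.map_tmul, LinearMap.id_apply]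
      rw [comm_pow hcomm]
    exact LinearMap.congr_fun h1 v
  obtain ⟨A, hA⟩ : ∃ A : Option (ℕ × ℂ) → Submodule ℂ (H ⊗[ℂ] Z), A = fun x =>
      match x with
      | none => LinearMap.range J
      | some y => Submodule.map₂ (TensorProduct.mk ℂ H Z) (W y.1)
          ((G ^ M).maxGenEigenspace y.2) := ⟨_, rfl⟩
  have hAnone : A none = LinearMap.range J := by rw [hA]
  have hAsome : ∀ j l, A (some (j, l)) = Submodule.map₂ (TensorProduct.mk ℂ H Z) (W j)
      ((G ^ M).maxGenEigenspace l) := by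
    intro j l
    rw [hA]
  have htop : (⊤ : Submodule ℂ (H ⊗[ℂ] Z)) ≤ ⨆ x, A x := by
    rw [← TensorProduct.map₂_mk_top_top_eq_top, ← hspan, Submodule.map₂_sup_left, sup_le_iff]
    constructor
    · rw [← Module.End.iSup_maxGenEigenspace_eq_top (G ^ M), Submodule.map₂_iSup_left]
      refine iSup_le fun j => ?_
      rw [Submodule.map₂_iSup_right]
      refine iSup_le fun l => ?_
      rw [← hAsome]
      exact le_iSup A (some (j, l))
    · refine le_trans ?_ (le_iSup A none)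
      rw [hAnone, Submodule.map₂_le]
      rintro _ ⟨v, rfl⟩ z _
      refine ⟨v ⊗ₜ z, ?_⟩
      rw [hJ, TensorProduct.map_tmul]
      rfl
  have hgen : ∀ j l, A (some (j, l)) ≤ T.maxGenEigenspace ((q ^ j) ^ M * l) := by
    intro j l
    rw [hAsome, Submodule.map₂_le]
    intro w hw z hz
    rw [TensorProduct.mk_apply, hTdef]
    refine tmul_mem _ _ ?_ hz
    exact Module.End.eigenspace_le_maxGenEigenspace (Module.End.mem_eigenspace_iff.2 (hW j w hw))
  have hinv : ∀ x, ∀ y ∈ A x, T y ∈ A x := by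
    rintro (_ | ⟨j, l⟩) y hy
    · rw [hAnone] at hy ⊢
      obtain ⟨v, rfl⟩ := hy
      exact ⟨_, hJcomm v⟩
    · rw [hAsome] at hy ⊢
      have h1 : Submodule.map₂ (TensorProduct.mk ℂ H Z) (W j) ((G ^ M).maxGenEigenspace l) ≤
          Submodule.comap T (Submodule.map₂ (TensorProduct.mk ℂ H Z) (W j)
            ((G ^ M).maxGenEigenspace l)) := by
        rw [Submodule.map₂_le]
        intro w hw z hz
        rw [Submodule.mem_comap, TensorProduct.mk_apply, hTdef, TensorProduct.map_tmul, hW j w hw]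
        exact Submodule.apply_mem_map₂ _ ((W j).smul_mem _ hw)
          (Module.End.mapsTo_maxGenEigenspace_of_comm (Commute.refl _) _ hz)
      exact h1 hy
  have h1 := iSup_inf_le T μ A hinv
  intro x hx
  have h2 := h1 ⟨htop Submodule.mem_top, hx⟩
  refine (iSup_le ?_ : (⨆ j, (A j ⊓ T.maxGenEigenspace μ)) ≤ _) h2
  rintro (_ | ⟨j, l⟩)
  · rw [hAnone, range_inf_eq_bot hJcomm hno]
    exact bot_le
  · by_cases h : (q ^ j) ^ M * l = μ
    · refine inf_le_left.trans ?_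
      rw [hAsome]
      refine le_trans ?_ (le_iSup _ j)
      refine Submodule.map₂_le_map₂_right ?_
      have h3 : l = q ^ ((M : ℤ) * (r - j)) := by
        have h4 : (q ^ j) ^ M ≠ 0 := pow_ne_zero _ (pow_ne_zero _ hq)
        rw [mul_sub, zpow_sub₀ hq, ← hμ, ← h, eq_div_iff (zpow_ne_zero _ hq), mul_comm l]
        congr 1
        rw [← pow_mul, mul_comm j M, ← zpow_natCast]
        push_cast
        rfl
      rw [h3]
      exact hT (r - j)
    · refine le_trans (inf_le_inf_right _ (hgen j l)) ?_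
      rw [(Module.End.disjoint_genEigenspace T h ⊤ ⊤).eq_bot]
      exact bot_le

theorem tate_prod (hq : q ≠ 0) (hcomm : ∀ v, ι (Φ v) = F (ι v))
    (hW : ∃ N : ℕ, N ≠ 0 ∧ ∀ j, ∀ w ∈ W j, (F ^ N) w = (q ^ j) ^ N • w)
    (hspan : (⨆ j, W j) ⊔ LinearMap.range ι = ⊤)
    (hT : ∀ m : ℕ, m ≠ 0 → ∀ r : ℤ, (G ^ m).maxGenEigenspace (q ^ ((m : ℤ) * r)) ≤ W' r)
    (hno : ∀ M : ℕ, M ≠ 0 → ∀ r : ℤ, ∀ α β : ℂ, Φ.HasEigenvalue α → G.HasEigenvalue β →
      (α * β) ^ M ≠ q ^ ((M : ℤ) * r)) {m : ℕ} (hm : m ≠ 0) (r : ℤ) :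
    Module.End.maxGenEigenspace (TensorProduct.map F G ^ m : Module.End ℂ (H ⊗[ℂ] Z))
      (q ^ ((m : ℤ) * r)) ≤
      ⨆ j : ℕ, Submodule.map₂ (TensorProduct.mk ℂ H Z) (W j) (W' (r - j)) := by
  obtain ⟨N, hN, hWN⟩ := hW
  have hM : m * N ≠ 0 := mul_ne_zero hm hN
  refine (maxGen_pow _ _ N).trans ?_
  have h1 : (q ^ ((m : ℤ) * r)) ^ N = q ^ (((m * N : ℕ) : ℤ) * r) := by
    rw [← zpow_natCast, ← zpow_mul]
    congr 1
    push_cast
    ring
  rw [h1, ← pow_mul, TensorProduct.map_pow]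
  refine tate_prod_aux hcomm hq ?_ hspan (fun r => hT _ hM r) r ?_
  · intro j w hw
    have h2 : ∀ k : ℕ, (F ^ (N * k)) w = (q ^ j) ^ (N * k) • w := by
      intro k
      induction k with
      | zero => rw [mul_zero, pow_zero, pow_zero, one_smul]; rfl
      | succ k ih =>
        rw [mul_add, mul_one, pow_add, pow_add, Module.End.mul_apply, hWN j w hw, map_smul, ih,
          smul_smul, mul_comm]
    rw [mul_comm m N]
    exact h2 m
  · intro h
    obtain ⟨α, β, hα, hβ, hαβ⟩ := eigenvalue_tensor _ _ h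
    obtain ⟨α', hα', rfl⟩ := eigenvalue_pow hM hα
    obtain ⟨β', hβ', rfl⟩ := eigenvalue_pow hM hβ
    refine hno _ hM r α' β' hα' hβ' ?_
    rw [mul_pow, hαβ]

/-- the eigenvalues of Frobenius on the whole cohomology -/
theorem eigenvalue_span (hcomm : ∀ v, ι (Φ v) = F (ι v))
    (hW : ∃ N : ℕ, N ≠ 0 ∧ ∀ j, ∀ w ∈ W j, (F ^ N) w = (q ^ j) ^ N • w)
    (hspan : (⨆ j, W j) ⊔ LinearMap.range ι = ⊤) :
    ∃ N : ℕ, N ≠ 0 ∧ ∀ α : ℂ, F.HasEigenvalue α →
      (∃ β, Φ.HasEigenvalue β ∧ α ^ N = β ^ N) ∨ ∃ j : ℕ, α ^ N = (q ^ j) ^ N := by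
  obtain ⟨N, hN, hWN⟩ := hW
  refine ⟨N, hN, fun α hα => ?_⟩
  by_contra hcon
  push Not at hcon
  obtain ⟨h1, h2⟩ := hcon
  have hno : ¬ (Φ ^ N).HasEigenvalue (α ^ N) := by
    intro h
    obtain ⟨β, hβ, hβα⟩ := eigenvalue_pow hN h
    exact h1 β hβ hβα.symm
  have hcommN : ∀ v, ι ((Φ ^ N) v) = (F ^ N) (ι v) := comm_pow hcomm N
  obtain ⟨A, hA⟩ : ∃ A : Option ℕ → Submodule ℂ H, A = fun x =>
      match x with
      | none => LinearMap.range ι
      | some j => W j := ⟨_, rfl⟩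
  have hAnone : A none = LinearMap.range ι := by rw [hA]
  have hAsome : ∀ j, A (some j) = W j := by
    intro j
    rw [hA]
  have htop : (⊤ : Submodule ℂ H) ≤ ⨆ x, A x := by
    rw [← hspan, sup_le_iff]
    constructor
    · refine iSup_le fun j => ?_
      rw [← hAsome]
      exact le_iSup A (some j)
    · rw [← hAnone]
      exact le_iSup A none
  have hinv : ∀ x, ∀ y ∈ A x, (F ^ N) y ∈ A x := by
    rintro (_ | j) y hy
    · rw [hAnone] at hy ⊢
      obtain ⟨v, rfl⟩ := hy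
      exact ⟨_, hcommN v⟩
    · rw [hAsome] at hy ⊢
      rw [hWN j y hy]
      exact (W j).smul_mem _ hy
  obtain ⟨x, hx⟩ := hα.exists_hasEigenvector
  have hxG : x ∈ (F ^ N).maxGenEigenspace (α ^ N) :=
    maxGen_pow F α N (Module.End.eigenspace_le_maxGenEigenspace hx.1)
  have h3 := iSup_inf_le (F ^ N) (α ^ N) A hinv ⟨htop Submodule.mem_top, hxG⟩
  have h4 : ∀ y, A y ⊓ (F ^ N).maxGenEigenspace (α ^ N) = ⊥ := by
    rintro (_ | j)
    · rw [hAnone]
      exact range_inf_eq_bot hcommN hno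
    · rw [hAsome, eq_bot_iff]
      have h5 : W j ≤ (F ^ N).maxGenEigenspace ((q ^ j) ^ N) := fun w hw =>
        Module.End.eigenspace_le_maxGenEigenspace (Module.End.mem_eigenspace_iff.2 (hWN j w hw))
      refine le_trans (inf_le_inf_right _ h5) ?_
      rw [(Module.End.disjoint_genEigenspace (F ^ N) (h2 j).symm ⊤ ⊤).eq_bot]
  simp only [h4, iSup_bot, Submodule.mem_bot] at h3
  exact hx.2 h3

end la

end Pool.Agent.U407.NP
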