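import Pool.Agent.U407.NP10

/-!
# The strong Tate conjecture for products with the surfaces `y ^ p - y = f(x, t)`
-/

set_option autoImplicit false
set_option maxHeartbeats 1000000

namespace Pool.Agent.U407.NP

open Polynomial Pool.Agent.N867.AS Pool.Agent.N867.AS.Trans Pool.Agent.N867.AS.Bd Module
  TensorProduct

/-- the slope -/
noncomputable def sl (p : ℕ) [Fact p.Prime] (q : ℕ) (τ : ℂ →+* PadicAlgCl p) (β : ℂ) : ℝ :=
  Real.log ‖τ β‖ / Real.log ‖(q : PadicAlgCl p)‖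

section basic

variable {p : ℕ} [hp : Fact p.Prime] {s : ℕ}

theorem norm_q (p : ℕ) [hp : Fact p.Prime] (s : ℕ) :
    ‖((p ^ s : ℕ) : PadicAlgCl p)‖ = ‖(p : PadicAlgCl p)‖ ^ s := by
  rw [Nat.cast_pow, norm_pow]

theorem log_q_ne (hs : s ≠ 0) : Real.log ‖((p ^ s : ℕ) : PadicAlgCl p)‖ ≠ 0 := by
  have hpn : ‖(p : PadicAlgCl p)‖ < 1 := Res.norm_p_lt p
  have hpne : (p : PadicAlgCl p) ≠ 0 := Nat.cast_ne_zero.2 hp.1.ne_zero
  have hpn0 : 0 < ‖(p : PadicAlgCl p)‖ := norm_pos_iff.2 hpne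
  rw [norm_q]
  exact (Real.log_neg (pow_pos hpn0 s) (pow_lt_one₀ hpn0.le hpn hs)).ne

theorem sl_mul (q : ℕ) (τ : ℂ →+* PadicAlgCl p) {α β : ℂ} (hα : α ≠ 0) (hβ : β ≠ 0) :
    sl p q τ (α * β) = sl p q τ α + sl p q τ β := by
  unfold sl
  rw [map_mul, norm_mul, Real.log_mul (norm_ne_zero_iff.2 ((map_ne_zero τ).2 hα))
    (norm_ne_zero_iff.2 ((map_ne_zero τ).2 hβ)), add_div]

theorem sl_pow (q : ℕ) (τ : ℂ →+* PadicAlgCl p) (α : ℂ) (N : ℕ) :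
    sl p q τ (α ^ N) = N * sl p q τ α := by
  unfold sl
  rw [map_pow, norm_pow, Real.log_pow, mul_div_assoc]

theorem sl_zpow (hs : s ≠ 0) (τ : ℂ →+* PadicAlgCl p) (n : ℤ) :
    sl p (p ^ s) τ (((p ^ s : ℕ) : ℂ) ^ n) = n := by
  unfold sl
  rw [map_zpow₀, map_natCast, norm_zpow, Real.log_zpow, mul_div_assoc, div_self (log_q_ne hs),
    mul_one]

end basic

section main

variable {κ : Type} [Field κ] [Fintype κ] {p : ℕ} [hp : Fact p.Prime] [CharP κ p]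
  {V : Type} [AddCommGroup V] [Module ℂ V] [FiniteDimensional ℂ V] {Φ : Module.End ℂ V}

/-- the slopes of the eigenvalues on the interesting part -/
theorem sl_eigenvalue {a b s : ℕ} {f : κ[X][X]} (hf : Dg a b f) (hap : a ∣ p - 1)
    (hbp : b ∣ p - 1) (hs : Fintype.card κ = p ^ s)
    (htr : ∀ m, m ≠ 0 → LinearMap.trace ℂ V (Φ ^ m) =
      (Npts p f (Fintype.card κ ^ m) : ℂ) - ((Fintype.card κ : ℂ) ^ m) ^ 2)
    (hpure : ∀ α, Φ.HasEigenvalue α → ‖α‖ = (Fintype.card κ : ℝ))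
    (τ : ℂ →+* PadicAlgCl p) {α : ℂ} (hα : Φ.HasEigenvalue α) :
    ∃ i j : ℕ, 0 < i ∧ i < a ∧ 0 < j ∧ j < b ∧ sl p (p ^ s) τ α = i / a + j / b := by
  have hs0 : s ≠ 0 := by
    rintro rfl
    rw [pow_zero] at hs
    exact absurd hs (Fintype.one_lt_card (α := κ)).ne'
  have hα' : α ∈ Φ.charpoly.roots := by
    rw [mem_roots (LinearMap.charpoly_monic _).ne_zero]
    exact (Module.End.hasEigenvalue_iff_isRoot_charpoly _ _).1 hα
  obtain ⟨i, j, hi0, hia, hj0, hjb, h⟩ := slopes hf hap hbp hs Φ.charpoly.roots (by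
      intro m hm
      rw [← trace_pow', htr m hm, hs]
      push_cast
      rw [pow_mul (p : ℂ) s m, pow_mul p s m]) (by
      intro β hβ
      have h1 := hpure β ((Module.End.hasEigenvalue_iff_isRoot_charpoly _ _).2
        (mem_roots'.1 hβ).2)
      rw [h1, hs]
      push_cast
      rfl) τ hα'
  refine ⟨i, j, hi0, hia, hj0, hjb, ?_⟩
  have ha : (a : ℝ) ≠ 0 := by
    rw [Nat.cast_ne_zero]
    omega
  have hb : (b : ℝ) ≠ 0 := by
    rw [Nat.cast_ne_zero]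
    omega
  have h2 := congrArg Real.log h
  rw [Real.log_pow, ← norm_q, Real.log_pow] at h2
  unfold sl
  rw [div_eq_iff (log_q_ne hs0)]
  have h3 : (a : ℝ) * b * Real.log ‖τ α‖ =
      (a : ℝ) * b * ((i / a + j / b) * Real.log ‖((p ^ s : ℕ) : PadicAlgCl p)‖) := by
    push_cast at h2 ⊢
    rw [h2]
    field_simp
  exact mul_left_cancel₀ (mul_ne_zero ha hb) h3

variable {H Z : Type} [AddCommGroup H] [Module ℂ H] [FiniteDimensional ℂ H]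
  [AddCommGroup Z] [Module ℂ Z] [FiniteDimensional ℂ Z]
  {F : Module.End ℂ H} {G : Module.End ℂ Z} {ι : V →ₗ[ℂ] H}
  {W : ℕ → Submodule ℂ H} {W' : ℤ → Submodule ℂ Z}

/-- **the product theorem** -/
theorem product {a b : ℕ} {f : κ[X][X]} (hf : Dg a b f) (hap : a ∣ p - 1) (hbp : b ∣ p - 1)
    (htr : ∀ m, m ≠ 0 → LinearMap.trace ℂ V (Φ ^ m) =
      (Npts p f (Fintype.card κ ^ m) : ℂ) - ((Fintype.card κ : ℂ) ^ m) ^ 2)
    (hpure : ∀ α, Φ.HasEigenvalue α → ‖α‖ = (Fintype.card κ : ℝ))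
    (hcomm : ∀ v, ι (Φ v) = F (ι v))
    (hW : ∃ N : ℕ, N ≠ 0 ∧ ∀ j, ∀ w ∈ W j, (F ^ N) w = ((Fintype.card κ : ℂ) ^ j) ^ N • w)
    (hspan : (⨆ j, W j) ⊔ LinearMap.range ι = ⊤)
    (hT : ∀ m : ℕ, m ≠ 0 → ∀ r : ℤ,
      (G ^ m).maxGenEigenspace ((Fintype.card κ : ℂ) ^ ((m : ℤ) * r)) ≤ W' r)
    (hgood : ∀ β, G.HasEigenvalue β → ∃ τ : ℂ →+* PadicAlgCl p, ∀ (r : ℤ) (i j : ℕ),
      0 < i → i < a → 0 < j → j < b → sl p (Fintype.card κ) τ β ≠ r + i / a + j / b)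
    {m : ℕ} (hm : m ≠ 0) (r : ℤ) :
    Module.End.maxGenEigenspace (TensorProduct.map F G ^ m : Module.End ℂ (H ⊗[ℂ] Z))
      ((Fintype.card κ : ℂ) ^ ((m : ℤ) * r)) ≤
      ⨆ j : ℕ, Submodule.map₂ (TensorProduct.mk ℂ H Z) (W j) (W' (r - j)) := by
  obtain ⟨s, hs⟩ : ∃ s : ℕ, Fintype.card κ = p ^ s := by
    obtain ⟨s, _, hs⟩ := FiniteField.card κ p
    exact ⟨s, hs⟩
  have hs0 : s ≠ 0 := by
    rintro rfl
    rw [pow_zero] at hs
    exact absurd hs (Fintype.one_lt_card (α := κ)).ne'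
  have hq : (Fintype.card κ : ℂ) ≠ 0 := Nat.cast_ne_zero.2 Fintype.card_ne_zero
  refine tate_prod hq hcomm hW hspan hT ?_ hm r
  intro M hM r α β hα hβ h
  obtain ⟨τ, hτ⟩ := hgood β hβ
  obtain ⟨i, j, hi0, hia, hj0, hjb, hsl⟩ := sl_eigenvalue hf hap hbp hs htr hpure τ hα
  have hne : α * β ≠ 0 := by
    intro h0
    rw [h0, zero_pow hM] at h
    exact zpow_ne_zero _ hq h.symm
  have h1 := congrArg (sl p (p ^ s) τ) h
  rw [sl_pow, sl_mul _ _ (left_ne_zero_of_mul hne) (right_ne_zero_of_mul hne), hs,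
    sl_zpow hs0, hsl] at h1
  push_cast at h1
  have hM' : (M : ℝ) ≠ 0 := Nat.cast_ne_zero.2 hM
  have h2 := mul_left_cancel₀ hM' h1
  refine hτ (r - 2) (a - i) (b - j) (by omega) (by omega) (by omega) (by omega) ?_
  have ha : (a : ℝ) ≠ 0 := by
    rw [Nat.cast_ne_zero]
    omega
  have hb : (b : ℝ) ≠ 0 := by
    rw [Nat.cast_ne_zero]
    omega
  rw [hs, Nat.cast_sub hia.le, Nat.cast_sub hjb.le, sub_div, sub_div, div_self ha, div_self hb]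
  push_cast
  linarith

/-- **the slopes of a product** -/
theorem product_slopes {a b : ℕ} {f : κ[X][X]} (hf : Dg a b f) (hap : a ∣ p - 1)
    (hbp : b ∣ p - 1)
    (htr : ∀ m, m ≠ 0 → LinearMap.trace ℂ V (Φ ^ m) =
      (Npts p f (Fintype.card κ ^ m) : ℂ) - ((Fintype.card κ : ℂ) ^ m) ^ 2)
    (hpure : ∀ α, Φ.HasEigenvalue α → ‖α‖ = (Fintype.card κ : ℝ))
    (hcomm : ∀ v, ι (Φ v) = F (ι v))
    (hW : ∃ N : ℕ, N ≠ 0 ∧ ∀ j, ∀ w ∈ W j, (F ^ N) w = ((Fintype.card κ : ℂ) ^ j) ^ N • w)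
    (hspan : (⨆ j, W j) ⊔ LinearMap.range ι = ⊤) {γ : ℂ}
    (hγ : Module.End.HasEigenvalue (TensorProduct.map F G) γ) :
    ∃ β, G.HasEigenvalue β ∧ ∀ τ : ℂ →+* PadicAlgCl p, ∃ k : ℤ,
      sl p (Fintype.card κ) τ γ = sl p (Fintype.card κ) τ β + k / (a * b) := by
  obtain ⟨s, hs⟩ : ∃ s : ℕ, Fintype.card κ = p ^ s := by
    obtain ⟨s, _, hs⟩ := FiniteField.card κ p
    exact ⟨s, hs⟩
  have hs0 : s ≠ 0 := by
    rintro rfl
    rw [pow_zero] at hs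
    exact absurd hs (Fintype.one_lt_card (α := κ)).ne'
  have hq : (Fintype.card κ : ℂ) ≠ 0 := Nat.cast_ne_zero.2 Fintype.card_ne_zero
  have ha : (a : ℝ) ≠ 0 := Nat.cast_ne_zero.2 hf.ha
  have hb : (b : ℝ) ≠ 0 := Nat.cast_ne_zero.2 hf.hb
  obtain ⟨α, β, hα, hβ, rfl⟩ := eigenvalue_tensor _ _ hγ
  refine ⟨β, hβ, fun τ => ?_⟩
  by_cases hβ0 : β = 0
  · refine ⟨0, ?_⟩
    rw [hβ0, mul_zero]
    simp
  obtain ⟨N, hN, hNα⟩ := eigenvalue_span hcomm hW hspan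
  have hN' : (N : ℝ) ≠ 0 := Nat.cast_ne_zero.2 hN
  rcases hNα α hα with ⟨α', hα', h⟩ | ⟨j, h⟩
  · obtain ⟨i, j, hi0, hia, hj0, hjb, hsl⟩ := sl_eigenvalue hf hap hbp hs htr hpure τ hα'
    have hα'0 : α' ≠ 0 := by
      rintro rfl
      have h1 := hpure 0 hα'
      rw [norm_zero] at h1
      exact (Nat.cast_ne_zero.2 Fintype.card_ne_zero) h1.symm
    have hα0 : α ≠ 0 := by
      rintro rfl
      rw [zero_pow hN] at h
      exact pow_ne_zero _ hα'0 h.symm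
    have h1 := congrArg (sl p (p ^ s) τ) h
    rw [sl_pow, sl_pow] at h1
    have h2 := mul_left_cancel₀ hN' h1
    refine ⟨(b * i + a * j : ℕ), ?_⟩
    rw [hs, sl_mul _ _ hα0 hβ0, h2, hsl, add_comm]
    congr 1
    push_cast
    field_simp
  · have hα0 : α ≠ 0 := by
      rintro rfl
      rw [zero_pow hN] at h
      exact pow_ne_zero _ (pow_ne_zero _ hq) h.symm
    have h1 := congrArg (sl p (p ^ s) τ) h
    rw [sl_pow, sl_pow] at h1
    have h2 := mul_left_cancel₀ hN' h1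
    have h3 : ((Fintype.card κ : ℂ) ^ j) = (((p ^ s : ℕ) : ℂ)) ^ (j : ℤ) := by
      rw [hs, zpow_natCast]
    rw [h3, sl_zpow hs0] at h2
    refine ⟨(a * b * j : ℕ), ?_⟩
    rw [hs, sl_mul _ _ hα0 hβ0, h2, add_comm]
    congr 1
    push_cast
    field_simp

end main

end Pool.Agent.U407.NP
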