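import Pool.Agent.U407.NP11

/-!
# The Tate classes on products with the surfaces `y ^ p - y = f(x, t)`: the exact form
-/

set_option autoImplicit false
set_option maxHeartbeats 1000000

namespace Pool.Agent.U407.NP

open Polynomial Pool.Agent.N867.AS Pool.Agent.N867.AS.Trans Pool.Agent.N867.AS.Bd Module
  TensorProduct

/-- the Tate classes over all finite extensions -/
noncomputable def tc {Z : Type} [AddCommGroup Z] [Module ℂ Z] (q : ℂ) (T : Module.End ℂ Z) (r : ℤ) :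
    Submodule ℂ Z :=
  ⨆ (m : ℕ) (_ : m ≠ 0), (T ^ m).maxGenEigenspace (q ^ ((m : ℤ) * r))

theorem le_tc {Z : Type} [AddCommGroup Z] [Module ℂ Z] (q : ℂ) (T : Module.End ℂ Z) (r : ℤ)
    {m : ℕ} (hm : m ≠ 0) : (T ^ m).maxGenEigenspace (q ^ ((m : ℤ) * r)) ≤ tc q T r := by
  unfold tc
  exact le_iSup₂_of_le m hm le_rfl

section la

variable {V H Z : Type} [AddCommGroup V] [Module ℂ V] [FiniteDimensional ℂ V]
  [AddCommGroup H] [Module ℂ H] [FiniteDimensional ℂ H]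
  [AddCommGroup Z] [Module ℂ Z] [FiniteDimensional ℂ Z]
  {Φ : Module.End ℂ V} {F : Module.End ℂ H} {G : Module.End ℂ Z} {ι : V →ₗ[ℂ] H}
  {W : ℤ → Submodule ℂ H} {q : ℂ}

theorem pow_scalar {N : ℕ} {w : H} {c : ℂ} (h : (F ^ N) w = c ^ N • w) (k : ℕ) :
    (F ^ (N * k)) w = c ^ (N * k) • w := by
  induction k with
  | zero => rw [mul_zero, pow_zero, pow_zero, one_smul]; rfl
  | succ k ih =>
    rw [mul_add, mul_one, pow_add, pow_add, Module.End.mul_apply, h, map_smul, ih,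
      smul_smul, mul_comm]

theorem zpow_split (hq : q ≠ 0) (M : ℕ) (j r : ℤ) :
    (q ^ j) ^ M * q ^ ((M : ℤ) * (r - j)) = q ^ ((M : ℤ) * r) := by
  rw [← zpow_natCast, ← zpow_mul, ← zpow_add₀ hq]
  congr 1
  ring

theorem tate_aux {M : ℕ} (hcomm : ∀ v, ι (Φ v) = F (ι v))
    (hq : q ≠ 0) (hW : ∀ j : ℤ, ∀ w ∈ W j, (F ^ M) w = (q ^ j) ^ M • w)
    (hspan : (⨆ j, W j) ⊔ LinearMap.range ι = ⊤) (r : ℤ)
    (hno : ¬ Module.End.HasEigenvalue (TensorProduct.map (Φ ^ M) (G ^ M))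
      (q ^ ((M : ℤ) * r))) :
    Module.End.maxGenEigenspace (TensorProduct.map (F ^ M) (G ^ M)) (q ^ ((M : ℤ) * r)) ≤
      ⨆ j : ℤ, Submodule.map₂ (TensorProduct.mk ℂ H Z) (W j)
        ((G ^ M).maxGenEigenspace (q ^ ((M : ℤ) * (r - j)))) := by
  obtain ⟨T, hTdef⟩ : ∃ T : Module.End ℂ (H ⊗[ℂ] Z), T = TensorProduct.map (F ^ M) (G ^ M) :=
    ⟨_, rfl⟩
  obtain ⟨μ, hμ⟩ : ∃ μ : ℂ, μ = q ^ ((M : ℤ) * r) := ⟨_, rfl⟩
  rw [← hTdef, ← hμ]
  rw [← hμ] at hno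
  obtain ⟨J, hJ⟩ : ∃ J : V ⊗[ℂ] Z →ₗ[ℂ] H ⊗[ℂ] Z, J = TensorProduct.map ι LinearMap.id :=
    ⟨_, rfl⟩
  have hJcomm : ∀ v, J ((TensorProduct.map (Φ ^ M) (G ^ M)) v) = T (J v) := by
    intro v
    have h1 : J ∘ₗ (TensorProduct.map (Φ ^ M) (G ^ M)) = T ∘ₗ J := by
      rw [hJ, hTdef]
      refine TensorProduct.ext' fun x y => ?_
      simp only [LinearMap.comp_apply, TensorProduct.map_tmul, LinearMap.id_apply]
      rw [comm_pow hcomm]
    exact LinearMap.congr_fun h1 v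
  obtain ⟨A, hA⟩ : ∃ A : Option (ℤ × ℂ) → Submodule ℂ (H ⊗[ℂ] Z), A = fun x =>
      match x with
      | none => LinearMap.range J
      | some y => Submodule.map₂ (TensorProduct.mk ℂ H Z) (W y.1)
          ((G ^ M).maxGenEigenspace y.2) := ⟨_, rfl⟩
  have hAnone : A none = LinearMap.range J := by rw [hA]
  have hAsome : ∀ j l, A (some (j, l)) = Submodule.map₂ (TensorProduct.mk ℂ H Z) (W j)
      ((G ^ M).maxGenEigenspace l) := by
    intro j l
    rw [hA]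
  have htop : (⊤ : Submodule ℂ (H ⊗[ℂ] Z)) ≤ ⨆ x, A x := by
    rw [← TensorProduct.map₂_mk_top_top_eq_top, ← hspan, Submodule.map₂_sup_left, sup_le_iff]
    constructor
    · rw [← Module.End.iSup_maxGenEigenspace_eq_top (G ^ M), Submodule.map₂_iSup_left]
      refine iSup_le fun j => ?_
      rw [Submodule.map₂_iSup_right]
      refine iSup_le fun l => ?_
      rw [← hAsome]
      exact le_iSup A (some (j, l))
    · refine le_trans ?_ (le_iSup A none)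
      rw [hAnone, Submodule.map₂_le]
      rintro _ ⟨v, rfl⟩ z _
      refine ⟨v ⊗ₜ z, ?_⟩
      rw [hJ, TensorProduct.map_tmul]
      rfl
  have hgen : ∀ j l, A (some (j, l)) ≤ T.maxGenEigenspace ((q ^ j) ^ M * l) := by
    intro j l
    rw [hAsome, Submodule.map₂_le]
    intro w hw z hz
    rw [TensorProduct.mk_apply, hTdef]
    refine tmul_mem _ _ ?_ hz
    exact Module.End.eigenspace_le_maxGenEigenspace (Module.End.mem_eigenspace_iff.2 (hW j w hw))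
  have hinv : ∀ x, ∀ y ∈ A x, T y ∈ A x := by
    rintro (_ | ⟨j, l⟩) y hy
    · rw [hAnone] at hy ⊢
      obtain ⟨v, rfl⟩ := hy
      exact ⟨_, hJcomm v⟩
    · rw [hAsome] at hy ⊢
      have h1 : Submodule.map₂ (TensorProduct.mk ℂ H Z) (W j) ((G ^ M).maxGenEigenspace l) ≤
          Submodule.comap T (Submodule.map₂ (TensorProduct.mk ℂ H Z) (W j)
            ((G ^ M).maxGenEigenspace l)) := by
        rw [Submodule.map₂_le]
        intro w hw z hz
        rw [Submodule.mem_comap, TensorProduct.mk_apply, hTdef, TensorProduct.map_tmul, hW j w hw]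
        exact Submodule.apply_mem_map₂ _ ((W j).smul_mem _ hw)
          (Module.End.mapsTo_maxGenEigenspace_of_comm (Commute.refl _) _ hz)
      exact h1 hy
  have h1 := iSup_inf_le T μ A hinv
  intro x hx
  have h2 := h1 ⟨htop Submodule.mem_top, hx⟩
  refine (iSup_le ?_ : (⨆ j, (A j ⊓ T.maxGenEigenspace μ)) ≤ _) h2
  rintro (_ | ⟨j, l⟩)
  · rw [hAnone, range_inf_eq_bot hJcomm hno]
    exact bot_le
  · by_cases h : (q ^ j) ^ M * l = μ
    · refine inf_le_left.trans ?_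
      rw [hAsome]
      refine le_trans ?_ (le_iSup _ j)
      refine Submodule.map₂_le_map₂_right ?_
      have h3 : l = q ^ ((M : ℤ) * (r - j)) := by
        have h4 : (q ^ j) ^ M ≠ 0 := pow_ne_zero _ (zpow_ne_zero _ hq)
        refine mul_left_cancel₀ h4 ?_
        rw [h, zpow_split hq, hμ]
      rw [h3]
    · refine le_trans (inf_le_inf_right _ (hgen j l)) ?_
      rw [(Module.End.disjoint_genEigenspace T h ⊤ ⊤).eq_bot]
      exact bot_le

/-- the Tate classes of codimension `r` on a product -/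
theorem tc_eq (hq : q ≠ 0) (hcomm : ∀ v, ι (Φ v) = F (ι v))
    (hW : ∃ N : ℕ, N ≠ 0 ∧ ∀ j : ℤ, ∀ w ∈ W j, (F ^ N) w = (q ^ j) ^ N • w)
    (hspan : (⨆ j, W j) ⊔ LinearMap.range ι = ⊤) (r : ℤ)
    (hno : ∀ M : ℕ, M ≠ 0 → ∀ α β : ℂ, Φ.HasEigenvalue α → G.HasEigenvalue β →
      (α * β) ^ M ≠ q ^ ((M : ℤ) * r)) :
    tc q (TensorProduct.map F G) r =
      ⨆ j : ℤ, Submodule.map₂ (TensorProduct.mk ℂ H Z) (W j) (tc q G (r - j)) := by
  obtain ⟨N, hN, hWN⟩ := hW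
  have hpow : ∀ m : ℕ, ∀ j : ℤ, ∀ w ∈ W j, (F ^ (m * N)) w = (q ^ j) ^ (m * N) • w := by
    intro m j w hw
    rw [mul_comm m N]
    exact pow_scalar (hWN j w hw) m
  have hzp : ∀ (m : ℕ) (i : ℤ), (q ^ ((m : ℤ) * i)) ^ N = q ^ (((m * N : ℕ) : ℤ) * i) := by
    intro m i
    rw [← zpow_natCast, ← zpow_mul]
    congr 1
    push_cast
    ring
  apply le_antisymm
  · unfold tc
    refine iSup₂_le fun m hm => ?_
    have hM : m * N ≠ 0 := mul_ne_zero hm hN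
    refine (maxGen_pow _ _ N).trans ?_
    rw [hzp, ← pow_mul, TensorProduct.map_pow]
    refine (tate_aux hcomm hq (hpow m) hspan r ?_).trans ?_
    · intro h
      obtain ⟨α, β, hα, hβ, hαβ⟩ := eigenvalue_tensor _ _ h
      obtain ⟨α', hα', rfl⟩ := eigenvalue_pow hM hα
      obtain ⟨β', hβ', rfl⟩ := eigenvalue_pow hM hβ
      refine hno _ hM α' β' hα' hβ' ?_
      rw [mul_pow, hαβ]
    · refine iSup_mono fun j => Submodule.map₂_le_map₂_right ?_
      exact le_tc q G (r - j) hM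
  · refine iSup_le fun j => ?_
    unfold tc
    rw [Submodule.map₂_iSup_right]
    refine iSup_le fun m => ?_
    rw [Submodule.map₂_iSup_right]
    refine iSup_le fun hm => ?_
    have hM : m * N ≠ 0 := mul_ne_zero hm hN
    refine le_trans ?_ (le_tc q (TensorProduct.map F G) r hM)
    rw [Submodule.map₂_le]
    intro w hw z hz
    rw [TensorProduct.mk_apply, TensorProduct.map_pow, ← zpow_split hq (m * N) j r]
    refine tmul_mem _ _ ?_ ?_
    · exact Module.End.eigenspace_le_maxGenEigenspace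
        (Module.End.mem_eigenspace_iff.2 (hpow m j w hw))
    · have h1 := maxGen_pow (G ^ m) (q ^ ((m : ℤ) * (r - j))) N hz
      rw [hzp, ← pow_mul] at h1
      exact h1

end la

section main

variable {κ : Type} [Field κ] [Fintype κ] {p : ℕ} [hp : Fact p.Prime] [CharP κ p]
  {V : Type} [AddCommGroup V] [Module ℂ V] [FiniteDimensional ℂ V] {Φ : Module.End ℂ V}
  {Z : Type} [AddCommGroup Z] [Module ℂ Z] [FiniteDimensional ℂ Z] {G : Module.End ℂ Z}

/-- no Tate classes in the interesting part -/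
theorem no_tate {a b : ℕ} {f : κ[X][X]} (hf : Dg a b f) (hap : a ∣ p - 1) (hbp : b ∣ p - 1)
    (htr : ∀ m, m ≠ 0 → LinearMap.trace ℂ V (Φ ^ m) =
      (Npts p f (Fintype.card κ ^ m) : ℂ) - ((Fintype.card κ : ℂ) ^ m) ^ 2)
    (hpure : ∀ α, Φ.HasEigenvalue α → ‖α‖ = (Fintype.card κ : ℝ)) (r : ℤ)
    (hgood : ∀ β, G.HasEigenvalue β → ‖β‖ = (Fintype.card κ : ℝ) ^ (r - 1) →
      ∃ τ : ℂ →+* PadicAlgCl p, ∀ (r : ℤ) (i j : ℕ),
        0 < i → i < a → 0 < j → j < b → sl p (Fintype.card κ) τ β ≠ r + i / a + j / b)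
    (M : ℕ) (hM : M ≠ 0) (α β : ℂ) (hα : Φ.HasEigenvalue α) (hβ : G.HasEigenvalue β) :
    (α * β) ^ M ≠ (Fintype.card κ : ℂ) ^ ((M : ℤ) * r) := by
  intro h
  obtain ⟨s, hs⟩ : ∃ s : ℕ, Fintype.card κ = p ^ s := by
    obtain ⟨s, _, hs⟩ := FiniteField.card κ p
    exact ⟨s, hs⟩
  have hs0 : s ≠ 0 := by
    rintro rfl
    rw [pow_zero] at hs
    exact absurd hs (Fintype.one_lt_card (α := κ)).ne'
  have hq : (Fintype.card κ : ℂ) ≠ 0 := Nat.cast_ne_zero.2 Fintype.card_ne_zero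
  have hq' : (0 : ℝ) < (Fintype.card κ : ℝ) := Nat.cast_pos.2 Fintype.card_pos
  have hβn : ‖β‖ = (Fintype.card κ : ℝ) ^ (r - 1) := by
    have h1 := congrArg norm h
    rw [norm_pow, norm_mul, hpure α hα, norm_zpow, Complex.norm_natCast, mul_comm (M : ℤ) r,
      zpow_mul, zpow_natCast] at h1
    have h2 := (pow_left_inj₀ (by positivity) (by positivity) hM).1 h1
    rw [zpow_sub₀ hq'.ne', zpow_one, ← h2]
    field_simp
  obtain ⟨τ, hτ⟩ := hgood β hβ hβn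
  obtain ⟨i, j, hi0, hia, hj0, hjb, hsl⟩ := sl_eigenvalue hf hap hbp hs htr hpure τ hα
  have hne : α * β ≠ 0 := by
    intro h0
    rw [h0, zero_pow hM] at h
    exact zpow_ne_zero _ hq h.symm
  have h1 := congrArg (sl p (p ^ s) τ) h
  rw [sl_pow, sl_mul _ _ (left_ne_zero_of_mul hne) (right_ne_zero_of_mul hne), hs,
    sl_zpow hs0, hsl] at h1
  push_cast at h1
  have hM' : (M : ℝ) ≠ 0 := Nat.cast_ne_zero.2 hM
  have h2 := mul_left_cancel₀ hM' h1
  refine hτ (r - 2) (a - i) (b - j) (by omega) (by omega) (by omega) (by omega) ?_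
  have ha : (a : ℝ) ≠ 0 := by
    rw [Nat.cast_ne_zero]
    omega
  have hb : (b : ℝ) ≠ 0 := by
    rw [Nat.cast_ne_zero]
    omega
  rw [hs, Nat.cast_sub hia.le, Nat.cast_sub hjb.le, sub_div, sub_div, div_self ha, div_self hb]
  push_cast
  linarith

variable {H : Type} [AddCommGroup H] [Module ℂ H] [FiniteDimensional ℂ H]
  {F : Module.End ℂ H} {ι : V →ₗ[ℂ] H} {W : ℤ → Submodule ℂ H}

/-- **the Tate classes on the product** -/
theorem tc_product {a b : ℕ} {f : κ[X][X]} (hf : Dg a b f) (hap : a ∣ p - 1) (hbp : b ∣ p - 1)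
    (htr : ∀ m, m ≠ 0 → LinearMap.trace ℂ V (Φ ^ m) =
      (Npts p f (Fintype.card κ ^ m) : ℂ) - ((Fintype.card κ : ℂ) ^ m) ^ 2)
    (hpure : ∀ α, Φ.HasEigenvalue α → ‖α‖ = (Fintype.card κ : ℝ))
    (hcomm : ∀ v, ι (Φ v) = F (ι v))
    (hW : ∃ N : ℕ, N ≠ 0 ∧ ∀ j : ℤ, ∀ w ∈ W j,
      (F ^ N) w = ((Fintype.card κ : ℂ) ^ j) ^ N • w)
    (hspan : (⨆ j, W j) ⊔ LinearMap.range ι = ⊤) (r : ℤ)
    (hgood : ∀ β, G.HasEigenvalue β → ‖β‖ = (Fintype.card κ : ℝ) ^ (r - 1) →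
      ∃ τ : ℂ →+* PadicAlgCl p, ∀ (r : ℤ) (i j : ℕ),
        0 < i → i < a → 0 < j → j < b → sl p (Fintype.card κ) τ β ≠ r + i / a + j / b) :
    tc (Fintype.card κ : ℂ) (TensorProduct.map F G) r =
      ⨆ j : ℤ, Submodule.map₂ (TensorProduct.mk ℂ H Z) (W j)
        (tc (Fintype.card κ : ℂ) G (r - j)) :=
  tc_eq (Nat.cast_ne_zero.2 Fintype.card_ne_zero) hcomm hW hspan r
    (no_tate hf hap hbp htr hpure r hgood)

/-- the eigenvalues of Frobenius on the whole cohomology -/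
theorem eigenvalue_span' {q : ℂ} (hcomm : ∀ v, ι (Φ v) = F (ι v))
    (hW : ∃ N : ℕ, N ≠ 0 ∧ ∀ j : ℤ, ∀ w ∈ W j, (F ^ N) w = (q ^ j) ^ N • w)
    (hspan : (⨆ j, W j) ⊔ LinearMap.range ι = ⊤) :
    ∃ N : ℕ, N ≠ 0 ∧ ∀ α : ℂ, F.HasEigenvalue α →
      (∃ β, Φ.HasEigenvalue β ∧ α ^ N = β ^ N) ∨ ∃ j : ℤ, α ^ N = (q ^ j) ^ N := by
  obtain ⟨N, hN, hWN⟩ := hW
  refine ⟨N, hN, fun α hα => ?_⟩
  by_contra hcon
  push Not at hcon
  obtain ⟨h1, h2⟩ := hcon
  have hno : ¬ (Φ ^ N).HasEigenvalue (α ^ N) := by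
    intro h
    obtain ⟨β, hβ, hβα⟩ := eigenvalue_pow hN h
    exact h1 β hβ hβα.symm
  have hcommN : ∀ v, ι ((Φ ^ N) v) = (F ^ N) (ι v) := comm_pow hcomm N
  obtain ⟨A, hA⟩ : ∃ A : Option ℤ → Submodule ℂ H, A = fun x =>
      match x with
      | none => LinearMap.range ι
      | some j => W j := ⟨_, rfl⟩
  have hAnone : A none = LinearMap.range ι := by rw [hA]
  have hAsome : ∀ j, A (some j) = W j := by
    intro j
    rw [hA]
  have htop : (⊤ : Submodule ℂ H) ≤ ⨆ x, A x := by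
    rw [← hspan, sup_le_iff]
    constructor
    · refine iSup_le fun j => ?_
      rw [← hAsome]
      exact le_iSup A (some j)
    · rw [← hAnone]
      exact le_iSup A none
  have hinv : ∀ x, ∀ y ∈ A x, (F ^ N) y ∈ A x := by
    rintro (_ | j) y hy
    · rw [hAnone] at hy ⊢
      obtain ⟨v, rfl⟩ := hy
      exact ⟨_, hcommN v⟩
    · rw [hAsome] at hy ⊢
      rw [hWN j y hy]
      exact (W j).smul_mem _ hy
  obtain ⟨x, hx⟩ := hα.exists_hasEigenvector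
  have hxG : x ∈ (F ^ N).maxGenEigenspace (α ^ N) :=
    maxGen_pow F α N (Module.End.eigenspace_le_maxGenEigenspace hx.1)
  have h3 := iSup_inf_le (F ^ N) (α ^ N) A hinv ⟨htop Submodule.mem_top, hxG⟩
  have h4 : ∀ y, A y ⊓ (F ^ N).maxGenEigenspace (α ^ N) = ⊥ := by
    rintro (_ | j)
    · rw [hAnone]
      exact range_inf_eq_bot hcommN hno
    · rw [hAsome, eq_bot_iff]
      have h5 : W j ≤ (F ^ N).maxGenEigenspace ((q ^ j) ^ N) := fun w hw =>
        Module.End.eigenspace_le_maxGenEigenspace (Module.End.mem_eigenspace_iff.2 (hWN j w hw))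
      refine le_trans (inf_le_inf_right _ h5) ?_
      rw [(Module.End.disjoint_genEigenspace (F ^ N) (h2 j).symm ⊤ ⊤).eq_bot]
  simp only [h4, iSup_bot, Submodule.mem_bot] at h3
  exact hx.2 h3

/-- **the slopes of a product** -/
theorem product_slopes' {a b : ℕ} {f : κ[X][X]} (hf : Dg a b f) (hap : a ∣ p - 1)
    (hbp : b ∣ p - 1)
    (htr : ∀ m, m ≠ 0 → LinearMap.trace ℂ V (Φ ^ m) =
      (Npts p f (Fintype.card κ ^ m) : ℂ) - ((Fintype.card κ : ℂ) ^ m) ^ 2)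
    (hpure : ∀ α, Φ.HasEigenvalue α → ‖α‖ = (Fintype.card κ : ℝ))
    (hcomm : ∀ v, ι (Φ v) = F (ι v))
    (hW : ∃ N : ℕ, N ≠ 0 ∧ ∀ j : ℤ, ∀ w ∈ W j,
      (F ^ N) w = ((Fintype.card κ : ℂ) ^ j) ^ N • w)
    (hspan : (⨆ j, W j) ⊔ LinearMap.range ι = ⊤) {γ : ℂ}
    (hγ : Module.End.HasEigenvalue (TensorProduct.map F G) γ) :
    ∃ β, G.HasEigenvalue β ∧ (∃ k : ℤ, ‖γ‖ = (Fintype.card κ : ℝ) ^ k * ‖β‖) ∧
      ∀ τ : ℂ →+* PadicAlgCl p, ∃ k : ℤ,
      sl p (Fintype.card κ) τ γ = sl p (Fintype.card κ) τ β + k / (a * b) := by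
  obtain ⟨s, hs⟩ : ∃ s : ℕ, Fintype.card κ = p ^ s := by
    obtain ⟨s, _, hs⟩ := FiniteField.card κ p
    exact ⟨s, hs⟩
  have hs0 : s ≠ 0 := by
    rintro rfl
    rw [pow_zero] at hs
    exact absurd hs (Fintype.one_lt_card (α := κ)).ne'
  have hq : (Fintype.card κ : ℂ) ≠ 0 := Nat.cast_ne_zero.2 Fintype.card_ne_zero
  have ha : (a : ℝ) ≠ 0 := Nat.cast_ne_zero.2 hf.ha
  have hb : (b : ℝ) ≠ 0 := Nat.cast_ne_zero.2 hf.hb
  obtain ⟨α, β, hα, hβ, rfl⟩ := eigenvalue_tensor _ _ hγ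
  obtain ⟨N, hN, hNα⟩ := eigenvalue_span' hcomm hW hspan
  have hN' : (N : ℝ) ≠ 0 := Nat.cast_ne_zero.2 hN
  have hqn : (0 : ℝ) < (Fintype.card κ : ℝ) := Nat.cast_pos.2 Fintype.card_pos
  refine ⟨β, hβ, ?_, fun τ => ?_⟩
  · rcases hNα α hα with ⟨α', hα', h⟩ | ⟨j, h⟩
    · refine ⟨1, ?_⟩
      have h1 := congrArg norm h
      rw [norm_pow, norm_pow] at h1
      rw [norm_mul, (pow_left_inj₀ (norm_nonneg _) (norm_nonneg _) hN).1 h1, hpure α' hα',
        zpow_one]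
    · refine ⟨j, ?_⟩
      have h1 := congrArg norm h
      rw [norm_pow, norm_pow] at h1
      rw [norm_mul, (pow_left_inj₀ (norm_nonneg _) (norm_nonneg _) hN).1 h1, norm_zpow,
        Complex.norm_natCast]
  by_cases hβ0 : β = 0
  · refine ⟨0, ?_⟩
    rw [hβ0, mul_zero]
    simp
  rcases hNα α hα with ⟨α', hα', h⟩ | ⟨j, h⟩
  · obtain ⟨i, j, hi0, hia, hj0, hjb, hsl⟩ := sl_eigenvalue hf hap hbp hs htr hpure τ hα'
    have hα'0 : α' ≠ 0 := by
      rintro rfl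
      have h1 := hpure 0 hα'
      rw [norm_zero] at h1
      exact (Nat.cast_ne_zero.2 Fintype.card_ne_zero) h1.symm
    have hα0 : α ≠ 0 := by
      rintro rfl
      rw [zero_pow hN] at h
      exact pow_ne_zero _ hα'0 h.symm
    have h1 := congrArg (sl p (p ^ s) τ) h
    rw [sl_pow, sl_pow] at h1
    have h2 := mul_left_cancel₀ hN' h1
    refine ⟨(b * i + a * j : ℕ), ?_⟩
    rw [hs, sl_mul _ _ hα0 hβ0, h2, hsl, add_comm]
    congr 1
    push_cast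
    field_simp
  · have hα0 : α ≠ 0 := by
      rintro rfl
      rw [zero_pow hN] at h
      exact pow_ne_zero _ (zpow_ne_zero _ hq) h.symm
    have h1 := congrArg (sl p (p ^ s) τ) h
    rw [sl_pow, sl_pow] at h1
    have h2 := mul_left_cancel₀ hN' h1
    have h3 : ((Fintype.card κ : ℂ) ^ j) = (((p ^ s : ℕ) : ℂ)) ^ j := by
      rw [hs]
    rw [h3, sl_zpow hs0] at h2
    refine ⟨a * b * j, ?_⟩
    rw [hs, sl_mul _ _ hα0 hβ0, h2, add_comm]
    congr 1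
    push_cast
    field_simp

end main

end Pool.Agent.U407.NP
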