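import Pool.Agent.U407.NP12

/-!
# Homological and numerical equivalence on products with the surfaces `y ^ p - y = f(x, t)`
-/

set_option autoImplicit false
set_option maxHeartbeats 1000000

namespace Pool.Agent.U407.NP

open Polynomial Pool.Agent.N867.AS Pool.Agent.N867.AS.Trans Pool.Agent.N867.AS.Bd Module
  TensorProduct

section la

variable {H Z : Type} [AddCommGroup H] [Module ℂ H] [FiniteDimensional ℂ H]
  [AddCommGroup Z] [Module ℂ Z] [FiniteDimensional ℂ Z]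

/-- the contraction with `w`: direct image of the product with `w` -/
noncomputable def push (Z : Type) [AddCommGroup Z] [Module ℂ Z] (BX : H →ₗ[ℂ] H →ₗ[ℂ] ℂ)
    (w : H) : H ⊗[ℂ] Z →ₗ[ℂ] Z :=
  (TensorProduct.lid ℂ Z).toLinearMap ∘ₗ LinearMap.rTensor Z (BX w)

theorem push_tmul (BX : H →ₗ[ℂ] H →ₗ[ℂ] ℂ) (w h : H) (z : Z) :
    push Z BX w (h ⊗ₜ z) = BX w h • z := by
  unfold push
  rw [LinearMap.comp_apply, LinearMap.rTensor_tmul]
  exact TensorProduct.lid_tmul _ _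

/-- the product form -/
noncomputable def prodForm (BX : H →ₗ[ℂ] H →ₗ[ℂ] ℂ) (BZ : Z →ₗ[ℂ] Z →ₗ[ℂ] ℂ) :
    H ⊗[ℂ] Z →ₗ[ℂ] H ⊗[ℂ] Z →ₗ[ℂ] ℂ :=
  TensorProduct.lift (LinearMap.mk₂ ℂ (fun h z => (BZ z) ∘ₗ (push Z BX h))
    (by
      intro h h' z
      refine TensorProduct.ext' fun x y => ?_
      simp only [LinearMap.comp_apply, LinearMap.add_apply, push_tmul, map_add, add_smul])
    (by
      intro c h z
      refine TensorProduct.ext' fun x y => ?_
      simp only [LinearMap.comp_apply, LinearMap.smul_apply, push_tmul, map_smul, smul_assoc])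
    (by
      intro h z z'
      refine TensorProduct.ext' fun x y => ?_
      simp only [LinearMap.comp_apply, LinearMap.add_apply, map_add])
    (by
      intro c h z
      refine TensorProduct.ext' fun x y => ?_
      simp only [LinearMap.comp_apply, LinearMap.smul_apply, map_smul]))

theorem prodForm_tmul_left (BX : H →ₗ[ℂ] H →ₗ[ℂ] ℂ) (BZ : Z →ₗ[ℂ] Z →ₗ[ℂ] ℂ) (h : H) (z : Z)
    (c : H ⊗[ℂ] Z) : prodForm BX BZ (h ⊗ₜ z) c = BZ z (push Z BX h c) := by
  unfold prodForm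
  rw [TensorProduct.lift.tmul, LinearMap.mk₂_apply, LinearMap.comp_apply]

theorem prodForm_tmul_right (BX : H →ₗ[ℂ] H →ₗ[ℂ] ℂ) (hsymm : ∀ x y, BX x y = BX y x)
    (BZ : Z →ₗ[ℂ] Z →ₗ[ℂ] ℂ) (h : H) (z : Z)
    (c : H ⊗[ℂ] Z) : prodForm BX BZ c (h ⊗ₜ z) = BZ (push Z BX h c) z := by
  induction c using TensorProduct.induction_on with
  | zero => simp
  | tmul x y =>
    rw [prodForm_tmul_left, push_tmul, push_tmul, hsymm x h]
    simp
  | add x y hx hy =>
    rw [map_add, LinearMap.add_apply, hx, hy, map_add, map_add, LinearMap.add_apply]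

theorem tmul_eq (BX : LinearMap.BilinForm ℂ H) (BZ : LinearMap.BilinForm ℂ Z) :
    BX.tmul BZ = prodForm BX BZ := by
  refine TensorProduct.ext' fun x y => ?_
  refine TensorProduct.ext' fun x' y' => ?_
  rw [prodForm_tmul_left, push_tmul]
  simp [mul_comm]

variable {BX : H →ₗ[ℂ] H →ₗ[ℂ] ℂ} {W : ℤ → Submodule ℂ H}

/-- dual bases -/
theorem exists_dual (hnd : ∀ j, ∀ x ∈ W j, (∀ y ∈ W (2 - j), BX x y = 0) → x = 0) (j : ℤ)
    (φ : W j →ₗ[ℂ] ℂ) : ∃ y ∈ W (2 - j), ∀ x : W j, BX y x = φ x := by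
  have key : ∀ i k : ℤ, i + k = 2 → ∃ L : W i →ₗ[ℂ] Dual ℂ (W k),
      Function.Injective L ∧ ∀ x y, L x y = BX x y := by
    intro i k hik
    refine ⟨LinearMap.mk₂ ℂ (fun x y => BX (x : H) (y : H)) (by simp) (by simp) (by simp)
      (by simp), ?_, ?_⟩
    · rw [injective_iff_map_eq_zero]
      intro x hx
      have hk : k = 2 - i := by omega
      subst hk
      refine Subtype.ext (hnd i x x.2 fun y hy => ?_)
      exact LinearMap.congr_fun hx ⟨y, hy⟩
    · intro x y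
      rfl
  obtain ⟨L, hL, hLa⟩ := key (2 - j) j (by omega)
  obtain ⟨L', hL', _⟩ := key j (2 - j) (by omega)
  have h1 := LinearMap.finrank_le_finrank_of_injective hL
  have h2 := LinearMap.finrank_le_finrank_of_injective hL'
  rw [Subspace.dual_finrank_eq] at h1 h2
  have h3 : finrank ℂ (W (2 - j)) = finrank ℂ (Dual ℂ (W j)) := by
    rw [Subspace.dual_finrank_eq]
    exact le_antisymm h1 h2
  have hsurj := (LinearMap.injective_iff_surjective_of_finrank_eq_finrank h3).1 hL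
  obtain ⟨y, hy⟩ := hsurj φ
  exact ⟨y, y.2, fun x => by rw [← hLa, hy]⟩

theorem mem_single (hnd : ∀ j, ∀ x ∈ W j, (∀ y ∈ W (2 - j), BX x y = 0) → x = 0) {j : ℤ}
    {A : Submodule ℂ Z} {e : H ⊗[ℂ] Z}
    (he : e ∈ Submodule.map₂ (TensorProduct.mk ℂ H Z) (W j) ⊤)
    (hA : ∀ y ∈ W (2 - j), push Z BX y e ∈ A) :
    e ∈ Submodule.map₂ (TensorProduct.mk ℂ H Z) (W j) A := by
  classical
  obtain ⟨n, b, _⟩ : ∃ (n : ℕ) (b : Basis (Fin n) ℂ (W j)), True :=
    ⟨_, Module.finBasis ℂ (W j), trivial⟩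
  have h1 : ∃ z : Fin n → Z, e = ∑ k, (b k : H) ⊗ₜ[ℂ] z k := by
    have h2 : Submodule.map₂ (TensorProduct.mk ℂ H Z) (W j) ⊤ ≤
        LinearMap.range (∑ k, (TensorProduct.mk ℂ H Z (b k : H)) ∘ₗ
          (LinearMap.proj k : (Fin n → Z) →ₗ[ℂ] Z)) := by
      rw [Submodule.map₂_le]
      intro w hw z _
      refine ⟨fun k => b.repr ⟨w, hw⟩ k • z, ?_⟩
      rw [LinearMap.sum_apply]
      have h3 : w = ∑ k, b.repr ⟨w, hw⟩ k • (b k : H) := by
        have h4 := congrArg Subtype.val (b.sum_repr ⟨w, hw⟩)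
        refine Eq.trans h4.symm ?_
        rw [Submodule.coe_sum]
        rfl
      rw [TensorProduct.mk_apply]
      conv_rhs => rw [h3, TensorProduct.sum_tmul]
      refine Finset.sum_congr rfl fun k _ => ?_
      rw [LinearMap.comp_apply, LinearMap.proj_apply, TensorProduct.mk_apply, tmul_smul,
        smul_tmul']
    obtain ⟨z, hz⟩ := h2 he
    refine ⟨z, ?_⟩
    rw [← hz, LinearMap.sum_apply]
    rfl
  obtain ⟨z, rfl⟩ := h1
  refine Submodule.sum_mem _ fun k _ => ?_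
  refine Submodule.apply_mem_map₂ _ (b k).2 ?_
  obtain ⟨y, hy, hyx⟩ := exists_dual hnd j (b.coord k)
  have h2 := hA y hy
  rw [map_sum] at h2
  have h3 : ∑ l, push Z BX y ((b l : H) ⊗ₜ[ℂ] z l) = z k := by
    rw [Finset.sum_eq_single k]
    · rw [push_tmul, hyx, Basis.coord_apply, Basis.repr_self, Finsupp.single_eq_same, one_smul]
    · intro l _ hl
      rw [push_tmul, hyx, Basis.coord_apply, Basis.repr_self, Finsupp.single_eq_of_ne hl.symm,
        zero_smul]
    · intro h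
      exact absurd (Finset.mem_univ k) h
  rw [h3] at h2
  exact h2

/-- an element whose contractions are in `A j` -/
theorem mem_of_push (horth : ∀ i j, i + j ≠ 2 → ∀ x ∈ W i, ∀ y ∈ W j, BX x y = 0)
    (hnd : ∀ j, ∀ x ∈ W j, (∀ y ∈ W (2 - j), BX x y = 0) → x = 0)
    {A : ℤ → Submodule ℂ Z} {e : H ⊗[ℂ] Z}
    (he : e ∈ ⨆ j, Submodule.map₂ (TensorProduct.mk ℂ H Z) (W j) ⊤)
    (hA : ∀ j, ∀ y ∈ W (2 - j), push Z BX y e ∈ A j) :
    e ∈ ⨆ j, Submodule.map₂ (TensorProduct.mk ℂ H Z) (W j) (A j) := by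
  classical
  obtain ⟨f, hf, hsum⟩ := (Submodule.mem_iSup_iff_exists_finsupp _ _).1 he
  rw [← hsum]
  refine Submodule.sum_mem _ fun j hj => ?_
  refine Submodule.mem_iSup_of_mem j ?_
  refine mem_single hnd (hf j) fun y hy => ?_
  have h1 : push Z BX y e = push Z BX y (f j) := by
    rw [← hsum, Finsupp.sum, map_sum]
    refine Finset.sum_eq_single j (fun i _ hij => ?_) fun h => absurd hj h
    have h2 : Submodule.map₂ (TensorProduct.mk ℂ H Z) (W i) ⊤ ≤
        LinearMap.ker (push Z BX y) := by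
      rw [Submodule.map₂_le]
      intro w hw z _
      rw [TensorProduct.mk_apply, LinearMap.mem_ker, push_tmul,
        horth (2 - j) i (by omega) y hy w hw, zero_smul]
    exact h2 (hf i)
  rw [← h1]
  exact hA j y hy

/-- the property that homologically and numerically trivial classes of codimension `r` agree -/
def HN (B : Z →ₗ[ℂ] Z →ₗ[ℂ] ℂ) (A : ℤ → Submodule ℂ Z) (d r : ℤ) : Prop :=
  ∀ x ∈ A r, (∀ y ∈ A (d - r), B y x = 0) → x = 0

/-- homological and numerical equivalence on the product -/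
theorem hn_iff (hsymm : ∀ x y, BX x y = BX y x)
    (horth : ∀ i j, i + j ≠ 2 → ∀ x ∈ W i, ∀ y ∈ W j, BX x y = 0)
    (hnd : ∀ j, ∀ x ∈ W j, (∀ y ∈ W (2 - j), BX x y = 0) → x = 0)
    (BZ : Z →ₗ[ℂ] Z →ₗ[ℂ] ℂ) {A : ℤ → Submodule ℂ Z} {C : ℤ → Submodule ℂ (H ⊗[ℂ] Z)}
    (hprod : ∀ i j, ∀ w ∈ W i, ∀ z ∈ A j, w ⊗ₜ[ℂ] z ∈ C (i + j))
    (hpush : ∀ r j, ∀ c ∈ C r, ∀ w ∈ W j, push Z BX w c ∈ A (r + j - 2)) (d r : ℤ)
    (hC : C r ≤ ⨆ j, Submodule.map₂ (TensorProduct.mk ℂ H Z) (W j) ⊤) :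
    C r = (⨆ j, Submodule.map₂ (TensorProduct.mk ℂ H Z) (W j) (A (r - j))) ∧
    (HN (prodForm BX BZ) C (d + 2) r ↔ ∀ j, W j ≠ ⊥ → HN BZ A d (r - j)) := by
  refine ⟨le_antisymm ?_ ?_, ?_, ?_⟩
  · intro c hc
    refine mem_of_push horth hnd (A := fun j => A (r - j)) (hC hc) fun j y hy => ?_
    have h1 := hpush r (2 - j) c hc y hy
    have h2 : r + (2 - j) - 2 = r - j := by ring
    rw [h2] at h1
    exact h1
  · refine iSup_le fun j => ?_
    rw [Submodule.map₂_le]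
    intro w hw z hz
    have h1 := hprod j (r - j) w hw z hz
    have h2 : j + (r - j) = r := by ring
    rw [h2] at h1
    exact h1
  · intro hHN j hj z hz hz0
    obtain ⟨w, hw, hw0⟩ := (Submodule.ne_bot_iff _).1 hj
    have h1 : w ⊗ₜ[ℂ] z ∈ C r := by
      have h1 := hprod j (r - j) w hw z hz
      have h2 : j + (r - j) = r := by ring
      rw [h2] at h1
      exact h1
    have h2 := hHN (w ⊗ₜ z) h1 fun c hc => by
      rw [prodForm_tmul_right BX hsymm]
      refine hz0 _ ?_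
      have h3 := hpush (d + 2 - r) j c hc w hw
      have h4 : d + 2 - r + j - 2 = d - (r - j) := by ring
      rw [h4] at h3
      exact h3
    -- the second factor is zero
    have h3 : ∃ y ∈ W (2 - j), BX y w ≠ 0 := by
      by_contra h
      push Not at h
      refine hw0 (hnd j w hw fun y hy => ?_)
      rw [hsymm]
      exact h y hy
    obtain ⟨y, hy, hyw⟩ := h3
    have h4 := congrArg (push Z BX y) h2
    rw [push_tmul, map_zero] at h4
    exact (smul_eq_zero.1 h4).resolve_left hyw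
  · intro hHN c hc hc0
    have h1 : c ∈ ⨆ j, Submodule.map₂ (TensorProduct.mk ℂ H Z) (W j) (⊥ : Submodule ℂ Z) := by
      refine mem_of_push horth hnd (A := fun _ => ⊥) (hC hc) fun j y hy => ?_
      rw [Submodule.mem_bot]
      by_cases hj : W j = ⊥
      · -- then `W (2 - j) = ⊥` as well
        have hy0 : y = 0 := by
          refine hnd (2 - j) y hy fun x hx => ?_
          have h2 : 2 - (2 - j) = j := by ring
          rw [h2, hj, Submodule.mem_bot] at hx
          rw [hx, map_zero]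
        rw [hy0]
        unfold push
        simp
      · refine hHN j hj _ ?_ fun z hz => ?_
        · have h1 := hpush r (2 - j) c hc y hy
          have h2 : r + (2 - j) - 2 = r - j := by ring
          rw [h2] at h1
          exact h1
        · rw [← prodForm_tmul_left]
          refine hc0 _ ?_
          have h1 := hprod (2 - j) (d - (r - j)) y hy z hz
          have h2 : 2 - j + (d - (r - j)) = d + 2 - r := by ring
          rw [h2] at h1
          exact h1
    simp only [Submodule.map₂_bot_right, iSup_bot, Submodule.mem_bot] at h1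
    exact h1

end la

section main

variable {κ : Type} [Field κ] [Fintype κ] {p : ℕ} [hp : Fact p.Prime] [CharP κ p]
  {V : Type} [AddCommGroup V] [Module ℂ V] [FiniteDimensional ℂ V] {Φ : Module.End ℂ V}
  {Z : Type} [AddCommGroup Z] [Module ℂ Z] [FiniteDimensional ℂ Z] {G : Module.End ℂ Z}
  {H : Type} [AddCommGroup H] [Module ℂ H] [FiniteDimensional ℂ H]
  {F : Module.End ℂ H} {ι : V →ₗ[ℂ] H} {W : ℤ → Submodule ℂ H}

/-- **cycles on the product** -/
theorem cycles {a b : ℕ} {f : κ[X][X]} (hf : Dg a b f) (hap : a ∣ p - 1) (hbp : b ∣ p - 1)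
    (htr : ∀ m, m ≠ 0 → LinearMap.trace ℂ V (Φ ^ m) =
      (Npts p f (Fintype.card κ ^ m) : ℂ) - ((Fintype.card κ : ℂ) ^ m) ^ 2)
    (hpure : ∀ α, Φ.HasEigenvalue α → ‖α‖ = (Fintype.card κ : ℝ))
    (hcomm : ∀ v, ι (Φ v) = F (ι v))
    (hW : ∃ N : ℕ, N ≠ 0 ∧ ∀ j : ℤ, ∀ w ∈ W j,
      (F ^ N) w = ((Fintype.card κ : ℂ) ^ j) ^ N • w)
    (hspan : (⨆ j, W j) ⊔ LinearMap.range ι = ⊤) (r : ℤ)
    (hgood : ∀ β, G.HasEigenvalue β → ‖β‖ = (Fintype.card κ : ℝ) ^ (r - 1) →
      ∃ τ : ℂ →+* PadicAlgCl p, ∀ (r : ℤ) (i j : ℕ),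
        0 < i → i < a → 0 < j → j < b → sl p (Fintype.card κ) τ β ≠ r + i / a + j / b)
    {C : Submodule ℂ (H ⊗[ℂ] Z)}
    (hC : ∃ N : ℕ, N ≠ 0 ∧ ∀ c ∈ C, ((TensorProduct.map F G : Module.End ℂ (H ⊗[ℂ] Z)) ^ N) c =
      ((Fintype.card κ : ℂ) ^ r) ^ N • c) :
    C ≤ ⨆ j, Submodule.map₂ (TensorProduct.mk ℂ H Z) (W j) ⊤ := by
  obtain ⟨N, hN, hCN⟩ := hC
  intro c hc
  have h1 : c ∈ tc (Fintype.card κ : ℂ) (TensorProduct.map F G) r := by
    refine le_tc _ _ r hN ?_
    refine Module.End.eigenspace_le_maxGenEigenspace (Module.End.mem_eigenspace_iff.2 ?_)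
    rw [hCN c hc]
    congr 1
    rw [← zpow_natCast, ← zpow_mul, mul_comm]
  rw [tc_product hf hap hbp htr hpure hcomm hW hspan r hgood] at h1
  exact (iSup_mono fun j => Submodule.map₂_le_map₂_right le_top) h1

end main

end Pool.Agent.U407.NP
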