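import Pool.Agent.U407.NP13

/-!
# Orders of poles and numerical ranks on products with the surfaces `y ^ p - y = f(x, t)`
-/

set_option autoImplicit false
set_option maxHeartbeats 1000000

namespace Pool.Agent.U407.NP

open Polynomial Pool.Agent.N867.AS Pool.Agent.N867.AS.Trans Pool.Agent.N867.AS.Bd Module
  TensorProduct

section la

variable {H Z : Type} [AddCommGroup H] [Module ℂ H] [FiniteDimensional ℂ H]
  [AddCommGroup Z] [Module ℂ Z] [FiniteDimensional ℂ Z]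

/-- the intersection pairing as a linear map in the dual space -/
noncomputable def pr (B : Z →ₗ[ℂ] Z →ₗ[ℂ] ℂ) (A : ℤ → Submodule ℂ Z) (d i : ℤ) :
    A i →ₗ[ℂ] Dual ℂ (A (d - i)) :=
  (LinearMap.lcomp ℂ ℂ (A (d - i)).subtype) ∘ₗ B.flip ∘ₗ (A i).subtype

theorem pr_apply (B : Z →ₗ[ℂ] Z →ₗ[ℂ] ℂ) (A : ℤ → Submodule ℂ Z) (d i : ℤ) (x : A i)
    (y : A (d - i)) : pr B A d i x y = B y x := rfl

theorem ker_pr (B : Z →ₗ[ℂ] Z →ₗ[ℂ] ℂ) (A : ℤ → Submodule ℂ Z) (d i : ℤ) :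
    LinearMap.ker (pr B A d i) = ⊥ ↔ HN B A d i := by
  rw [LinearMap.ker_eq_bot']
  constructor
  · intro h x hx hy
    have h1 := h ⟨x, hx⟩ (LinearMap.ext fun y => by
      rw [pr_apply]
      exact hy y y.2)
    exact congrArg Subtype.val h1
  · intro h x hx
    refine Subtype.ext (h x x.2 fun y hy => ?_)
    exact LinearMap.congr_fun hx ⟨y, hy⟩

theorem pole_iff {G : Module.End ℂ Z} {q : ℂ} (B : Z →ₗ[ℂ] Z →ₗ[ℂ] ℂ)
    (A : ℤ → Submodule ℂ Z) (d i : ℤ) (hA : A i ≤ G.maxGenEigenspace (q ^ i)) :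
    finrank ℂ (G.maxGenEigenspace (q ^ i)) = finrank ℂ (LinearMap.range (pr B A d i)) ↔
      A i = G.maxGenEigenspace (q ^ i) ∧ HN B A d i := by
  rw [← ker_pr]
  have h1 := LinearMap.finrank_range_add_finrank_ker (pr B A d i)
  have h2 := Submodule.finrank_mono hA
  constructor
  · intro h
    have h3 : finrank ℂ (LinearMap.ker (pr B A d i)) = 0 := by omega
    refine ⟨Submodule.eq_of_le_of_finrank_eq hA (by omega), Submodule.finrank_eq_zero.1 h3⟩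
  · rintro ⟨h3, h4⟩
    rw [h4, finrank_bot] at h1
    rw [← h3]
    omega

variable {BX : H →ₗ[ℂ] H →ₗ[ℂ] ℂ} {W : ℤ → Submodule ℂ H}

/-- contractions of elements of a sum -/
theorem push_mem (horth : ∀ i j, i + j ≠ 2 → ∀ x ∈ W i, ∀ y ∈ W j, BX x y = 0)
    {A : ℤ → Submodule ℂ Z} {e : H ⊗[ℂ] Z}
    (he : e ∈ ⨆ j, Submodule.map₂ (TensorProduct.mk ℂ H Z) (W j) (A j)) {j : ℤ} {y : H}
    (hy : y ∈ W (2 - j)) : push Z BX y e ∈ A j := by
  have h1 : (⨆ j, Submodule.map₂ (TensorProduct.mk ℂ H Z) (W j) (A j)) ≤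
      Submodule.comap (push Z BX y) (A j) := by
    refine iSup_le fun i => ?_
    rw [Submodule.map₂_le]
    intro w hw z hz
    rw [Submodule.mem_comap, TensorProduct.mk_apply, push_tmul]
    by_cases hij : i = j
    · subst hij
      exact (A i).smul_mem _ hz
    · rw [horth (2 - j) i (by omega) y hy w hw, zero_smul]
      exact Submodule.zero_mem _
  exact h1 he

theorem cancel (hsymm : ∀ x y, BX x y = BX y x)
    (horth : ∀ i j, i + j ≠ 2 → ∀ x ∈ W i, ∀ y ∈ W j, BX x y = 0)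
    (hnd : ∀ j, ∀ x ∈ W j, (∀ y ∈ W (2 - j), BX x y = 0) → x = 0)
    {A M : ℤ → Submodule ℂ Z} (hAM : ∀ j, A j ≤ M j) :
    (⨆ j, Submodule.map₂ (TensorProduct.mk ℂ H Z) (W j) (A j)) =
      (⨆ j, Submodule.map₂ (TensorProduct.mk ℂ H Z) (W j) (M j)) ↔
    ∀ j, W j ≠ ⊥ → A j = M j := by
  constructor
  · intro h j hj
    refine le_antisymm (hAM j) fun z hz => ?_
    obtain ⟨w, hw, hw0⟩ := (Submodule.ne_bot_iff _).1 hj
    have h1 : w ⊗ₜ[ℂ] z ∈ ⨆ j, Submodule.map₂ (TensorProduct.mk ℂ H Z) (W j) (A j) := by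
      rw [h]
      exact Submodule.mem_iSup_of_mem j (Submodule.apply_mem_map₂ _ hw hz)
    have h3 : ∃ y ∈ W (2 - j), BX y w ≠ 0 := by
      by_contra h
      push Not at h
      refine hw0 (hnd j w hw fun y hy => ?_)
      rw [hsymm]
      exact h y hy
    obtain ⟨y, hy, hyw⟩ := h3
    have h4 := push_mem horth h1 hy
    rw [push_tmul] at h4
    have h5 := (A j).smul_mem (BX y w)⁻¹ h4
    rwa [smul_smul, inv_mul_cancel₀ hyw, one_smul] at h5
  · intro h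
    refine iSup_congr fun j => ?_
    by_cases hj : W j = ⊥
    · rw [hj, Submodule.map₂_bot_left, Submodule.map₂_bot_left]
    · rw [h j hj]

end la

section main

variable {κ : Type} [Field κ] [Fintype κ] {p : ℕ} [hp : Fact p.Prime] [CharP κ p]
  {V : Type} [AddCommGroup V] [Module ℂ V] [FiniteDimensional ℂ V] {Φ : Module.End ℂ V}
  {Z : Type} [AddCommGroup Z] [Module ℂ Z] [FiniteDimensional ℂ Z] {G : Module.End ℂ Z}
  {H : Type} [AddCommGroup H] [Module ℂ H] [FiniteDimensional ℂ H]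
  {F : Module.End ℂ H} {ι : V →ₗ[ℂ] H} {W : ℤ → Submodule ℂ H}
  {BX : H →ₗ[ℂ] H →ₗ[ℂ] ℂ}

/-- generalized Tate classes over the ground field -/
theorem gen_eq {a b : ℕ} {f : κ[X][X]} (hf : Dg a b f) (hap : a ∣ p - 1) (hbp : b ∣ p - 1)
    (htr : ∀ m, m ≠ 0 → LinearMap.trace ℂ V (Φ ^ m) =
      (Npts p f (Fintype.card κ ^ m) : ℂ) - ((Fintype.card κ : ℂ) ^ m) ^ 2)
    (hpure : ∀ α, Φ.HasEigenvalue α → ‖α‖ = (Fintype.card κ : ℝ))
    (hcomm : ∀ v, ι (Φ v) = F (ι v))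
    (hW : ∀ j : ℤ, ∀ w ∈ W j, F w = (Fintype.card κ : ℂ) ^ j • w)
    (hspan : (⨆ j, W j) ⊔ LinearMap.range ι = ⊤) (r : ℤ)
    (hgood : ∀ β, G.HasEigenvalue β → ‖β‖ = (Fintype.card κ : ℝ) ^ (r - 1) →
      ∃ τ : ℂ →+* PadicAlgCl p, ∀ (r : ℤ) (i j : ℕ),
        0 < i → i < a → 0 < j → j < b → sl p (Fintype.card κ) τ β ≠ r + i / a + j / b) :
    Module.End.maxGenEigenspace (TensorProduct.map F G) ((Fintype.card κ : ℂ) ^ r) =
      ⨆ j : ℤ, Submodule.map₂ (TensorProduct.mk ℂ H Z) (W j)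
        (G.maxGenEigenspace ((Fintype.card κ : ℂ) ^ (r - j))) := by
  have hq : (Fintype.card κ : ℂ) ≠ 0 := Nat.cast_ne_zero.2 Fintype.card_ne_zero
  apply le_antisymm
  · have h1 := tate_aux (Φ := Φ) (F := F) (G := G) (ι := ι) (W := W) (M := 1) hcomm hq
      (fun j w hw => by rw [pow_one, pow_one]; exact hW j w hw) hspan r (by
        intro h
        obtain ⟨α, β, hα, hβ, hαβ⟩ := eigenvalue_tensor _ _ h
        rw [pow_one] at hα hβ
        refine no_tate hf hap hbp htr hpure r hgood 1 one_ne_zero α β hα hβ ?_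
        rw [pow_one, hαβ])
    simp only [pow_one, Nat.cast_one, one_mul] at h1
    exact h1
  · refine iSup_le fun j => ?_
    rw [Submodule.map₂_le]
    intro w hw z hz
    rw [TensorProduct.mk_apply]
    have h2 : (Fintype.card κ : ℂ) ^ r = (Fintype.card κ : ℂ) ^ j *
        (Fintype.card κ : ℂ) ^ (r - j) := by
      rw [← zpow_add₀ hq]
      congr 1
      ring
    rw [h2]
    refine tmul_mem _ _ ?_ hz
    exact Module.End.eigenspace_le_maxGenEigenspace (Module.End.mem_eigenspace_iff.2 (hW j w hw))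

/-- **the order of the pole and the numerical rank** -/
theorem pole {a b : ℕ} {f : κ[X][X]} (hf : Dg a b f) (hap : a ∣ p - 1) (hbp : b ∣ p - 1)
    (htr : ∀ m, m ≠ 0 → LinearMap.trace ℂ V (Φ ^ m) =
      (Npts p f (Fintype.card κ ^ m) : ℂ) - ((Fintype.card κ : ℂ) ^ m) ^ 2)
    (hpure : ∀ α, Φ.HasEigenvalue α → ‖α‖ = (Fintype.card κ : ℝ))
    (hcomm : ∀ v, ι (Φ v) = F (ι v))
    (hW : ∀ j : ℤ, ∀ w ∈ W j, F w = (Fintype.card κ : ℂ) ^ j • w)
    (hspan : (⨆ j, W j) ⊔ LinearMap.range ι = ⊤)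
    (hsymm : ∀ x y, BX x y = BX y x)
    (horth : ∀ i j, i + j ≠ 2 → ∀ x ∈ W i, ∀ y ∈ W j, BX x y = 0)
    (hnd : ∀ j, ∀ x ∈ W j, (∀ y ∈ W (2 - j), BX x y = 0) → x = 0)
    (BZ : Z →ₗ[ℂ] Z →ₗ[ℂ] ℂ) {A : ℤ → Submodule ℂ Z} {C : ℤ → Submodule ℂ (H ⊗[ℂ] Z)}
    (hA : ∀ j : ℤ, ∀ z ∈ A j, G z = (Fintype.card κ : ℂ) ^ j • z)
    (hC : ∀ r : ℤ, ∀ c ∈ C r, (TensorProduct.map F G) c = (Fintype.card κ : ℂ) ^ r • c)
    (hprod : ∀ i j, ∀ w ∈ W i, ∀ z ∈ A j, w ⊗ₜ[ℂ] z ∈ C (i + j))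
    (hpush : ∀ r j, ∀ c ∈ C r, ∀ w ∈ W j, push Z BX w c ∈ A (r + j - 2)) (d r : ℤ)
    (hgood : ∀ β, G.HasEigenvalue β → ‖β‖ = (Fintype.card κ : ℝ) ^ (r - 1) →
      ∃ τ : ℂ →+* PadicAlgCl p, ∀ (r : ℤ) (i j : ℕ),
        0 < i → i < a → 0 < j → j < b → sl p (Fintype.card κ) τ β ≠ r + i / a + j / b) :
    finrank ℂ (Module.End.maxGenEigenspace (TensorProduct.map F G)
        ((Fintype.card κ : ℂ) ^ r)) =
      finrank ℂ (LinearMap.range (pr (prodForm BX BZ) C (d + 2) r)) ↔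
    ∀ j, W j ≠ ⊥ → finrank ℂ (G.maxGenEigenspace ((Fintype.card κ : ℂ) ^ (r - j))) =
      finrank ℂ (LinearMap.range (pr BZ A d (r - j))) := by
  have hAle : ∀ i, A i ≤ G.maxGenEigenspace ((Fintype.card κ : ℂ) ^ i) := fun i z hz =>
    Module.End.eigenspace_le_maxGenEigenspace (Module.End.mem_eigenspace_iff.2 (hA i z hz))
  have hCle : C r ≤ Module.End.maxGenEigenspace (TensorProduct.map F G)
      ((Fintype.card κ : ℂ) ^ r) := fun c hc =>
    Module.End.eigenspace_le_maxGenEigenspace (Module.End.mem_eigenspace_iff.2 (hC r c hc))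
  have hgen := gen_eq hf hap hbp htr hpure hcomm hW hspan r hgood
  have hCtop : C r ≤ ⨆ j, Submodule.map₂ (TensorProduct.mk ℂ H Z) (W j) ⊤ := by
    refine hCle.trans ?_
    rw [hgen]
    exact iSup_mono fun j => Submodule.map₂_le_map₂_right le_top
  obtain ⟨hCr, hHN⟩ := hn_iff hsymm horth hnd BZ hprod hpush d r hCtop
  rw [pole_iff _ _ _ _ hCle, hHN, hCr, hgen,
    cancel hsymm horth hnd (A := fun j => A (r - j))
      (M := fun j => G.maxGenEigenspace ((Fintype.card κ : ℂ) ^ (r - j))) (fun j => hAle (r - j))]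
  constructor
  · rintro ⟨h1, h2⟩ j hj
    rw [pole_iff _ _ _ _ (hAle (r - j))]
    exact ⟨h1 j hj, h2 j hj⟩
  · intro h
    have h1 : ∀ j, W j ≠ ⊥ → A (r - j) = G.maxGenEigenspace ((Fintype.card κ : ℂ) ^ (r - j)) ∧
        HN BZ A d (r - j) := fun j hj => (pole_iff _ _ _ _ (hAle (r - j))).1 (h j hj)
    exact ⟨fun j hj => (h1 j hj).1, fun j hj => (h1 j hj).2⟩

end main

end Pool.Agent.U407.NP
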