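import Pool.Agent.U407.NP14

/-!
# Orders of poles over finitely generated fields, representation theory
-/

set_option autoImplicit false
set_option maxHeartbeats 1000000
set_option linter.unusedSectionVars false

namespace Pool.Agent.U407.NP

open Polynomial Pool.Agent.N867.AS Pool.Agent.N867.AS.Trans Module TensorProduct

section rep

variable {Γ : Type} [Group Γ] {M : Type} [AddCommGroup M] [Module ℂ M]
  [FiniteDimensional ℂ M]

/-- the dual of the generalized eigenspace of the coinvariants -/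
noncomputable def poleSpace (ρ : Representation ℂ Γ M) (N : Subgroup Γ) (φ : Γ) (c : ℂ) :
    Submodule ℂ (Dual ℂ M) :=
  (⨅ ν : N, Module.End.eigenspace (ρ (ν : Γ)).dualMap 1) ⊓
    Module.End.maxGenEigenspace (ρ φ).dualMap c

theorem mem_pole {ρ : Representation ℂ Γ M} {N : Subgroup Γ} {φ : Γ} {c : ℂ} {l : Dual ℂ M} :
    l ∈ poleSpace ρ N φ c ↔ (∀ ν ∈ N, ∀ x, l (ρ ν x) = l x) ∧
      l ∈ Module.End.maxGenEigenspace (ρ φ).dualMap c := by
  unfold poleSpace
  rw [Submodule.mem_inf, Submodule.mem_iInf]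
  refine and_congr_left fun _ => ?_
  constructor
  · intro h ν hν x
    have h1 := Module.End.mem_eigenspace_iff.1 (h ⟨ν, hν⟩)
    rw [one_smul] at h1
    exact LinearMap.congr_fun h1 x
  · intro h ν
    refine Module.End.mem_eigenspace_iff.2 (LinearMap.ext fun x => ?_)
    rw [one_smul]
    exact h ν ν.2 x

theorem intertwine {A B : Type} [AddCommGroup A] [Module ℂ A] [AddCommGroup B] [Module ℂ B]
    {T : Module.End ℂ A} {S : Module.End ℂ B} (L : A →ₗ[ℂ] B) {c x y : ℂ}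
    (h : ∀ a, S (L a) = c • L (T a)) (hxy : y = c * x) {a : A}
    (ha : a ∈ T.maxGenEigenspace x) : L a ∈ S.maxGenEigenspace y := by
  rw [Module.End.mem_maxGenEigenspace] at ha ⊢
  obtain ⟨k, hk⟩ := ha
  refine ⟨k, ?_⟩
  have h1 : ∀ m (a : A), ((S - y • (1 : Module.End ℂ B)) ^ m) (L a) =
      c ^ m • L (((T - x • (1 : Module.End ℂ A)) ^ m) a) := by
    intro m
    induction m with
    | zero =>
      intro a
      rw [pow_zero, pow_zero, pow_zero, one_smul]
      rfl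
    | succ m ih =>
      intro a
      rw [pow_succ, Module.End.mul_apply]
      have h2 : (S - y • (1 : Module.End ℂ B)) (L a) =
          L (c • (T - x • (1 : Module.End ℂ A)) a) := by
        rw [LinearMap.sub_apply, h, hxy, LinearMap.sub_apply, smul_sub, map_sub, map_smul]
        congr 1
        change (c * x) • L a = L (c • x • a)
        rw [map_smul, map_smul, smul_smul]
      rw [h2, ih, map_smul, map_smul, smul_smul, pow_succ (T - x • (1 : Module.End ℂ A)),
        Module.End.mul_apply, pow_succ]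
  rw [h1, hk, map_zero, smul_zero]

theorem no_pole {ρ : Representation ℂ Γ M} {N : Subgroup Γ} (hN : N.Normal) {φ σ : Γ} {n : ℕ}
    (hσ : ∃ ν ∈ N, σ = φ ^ n * ν) {c : ℂ} (hno : ¬ Module.End.HasEigenvalue (ρ σ) (c ^ n)) :
    poleSpace ρ N φ c = ⊥ := by
  by_contra hne
  have hmaps : ∀ l ∈ poleSpace ρ N φ c, (ρ φ).dualMap l ∈ poleSpace ρ N φ c := by
    intro l hl
    rw [mem_pole] at hl ⊢
    refine ⟨fun ν hν x => ?_, ?_⟩
    · change l (ρ φ (ρ ν x)) = l (ρ φ x)
      have h1 : φ * ν = (φ * ν * φ⁻¹) * φ := by group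
      rw [← Module.End.mul_apply, ← map_mul, h1, map_mul, Module.End.mul_apply]
      exact hl.1 _ (hN.conj_mem ν hν φ) _
    · exact Module.End.mapsTo_maxGenEigenspace_of_comm (Commute.refl _) c hl.2
  have hnt : Nontrivial (poleSpace ρ N φ c) := Submodule.nontrivial_iff_ne_bot.2 hne
  obtain ⟨μ, hμ⟩ := Module.End.exists_eigenvalue (LinearMap.restrict _ hmaps)
  obtain ⟨l, hl⟩ := hμ.exists_hasEigenvector
  have hl0 : (l : Dual ℂ M) ≠ 0 := fun h => hl.2 (Subtype.ext h)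
  have hle : (ρ φ).dualMap (l : Dual ℂ M) = μ • (l : Dual ℂ M) :=
    congrArg Subtype.val (Module.End.mem_eigenspace_iff.1 hl.1)
  obtain ⟨hl1, hl2⟩ := mem_pole.1 l.2
  have hμc : μ = c := by
    obtain ⟨k, hk⟩ := (Module.End.mem_maxGenEigenspace _ _ _).1 hl2
    have h1 : ∀ m : ℕ, (((ρ φ).dualMap - c • (1 : Module.End ℂ (Dual ℂ M))) ^ m)
        (l : Dual ℂ M) = (μ - c) ^ m • (l : Dual ℂ M) := by
      intro m
      induction m with
      | zero => rw [pow_zero, pow_zero, one_smul]; rfl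
      | succ m ih =>
        rw [pow_succ, Module.End.mul_apply, LinearMap.sub_apply, hle]
        have h2 : μ • (l : Dual ℂ M) - (c • (1 : Module.End ℂ (Dual ℂ M))) (l : Dual ℂ M) =
            (μ - c) • (l : Dual ℂ M) := by
          rw [sub_smul]
          rfl
        rw [h2, map_smul, ih, smul_smul, pow_succ']
    rw [h1] at hk
    rcases smul_eq_zero.1 hk with h3 | h3
    · exact sub_eq_zero.1 (eq_zero_of_pow_eq_zero h3)
    · exact absurd h3 hl0
  subst hμc
  obtain ⟨ν, hν, rfl⟩ := hσ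
  have h3 : ∀ m x, (l : Dual ℂ M) (ρ (φ ^ m) x) = μ ^ m * (l : Dual ℂ M) x := by
    intro m
    induction m with
    | zero => intro x; rw [pow_zero, map_one, pow_zero, one_mul]; rfl
    | succ m ih =>
      intro x
      rw [pow_succ, map_mul, Module.End.mul_apply, ih]
      have h4 : (l : Dual ℂ M) (ρ φ x) = μ * (l : Dual ℂ M) x := LinearMap.congr_fun hle x
      rw [h4, pow_succ]
      ring
  have h5 : ∀ x, (l : Dual ℂ M) (ρ (φ ^ n * ν) x) = μ ^ n * (l : Dual ℂ M) x := by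
    intro x
    rw [map_mul, Module.End.mul_apply, h3, hl1 ν hν]
  apply hno
  by_contra hev
  have hinj : Function.Injective (ρ (φ ^ n * ν) - μ ^ n • (1 : Module.End ℂ M)) := by
    rw [← LinearMap.ker_eq_bot, LinearMap.ker_eq_bot']
    intro x hx
    by_contra hx0
    refine hev (Module.End.hasEigenvalue_of_hasEigenvector (x := x) ⟨?_, hx0⟩)
    rw [Module.End.mem_eigenspace_iff]
    rw [LinearMap.sub_apply, sub_eq_zero] at hx
    exact hx
  have hsurj := (LinearMap.injective_iff_surjective).1 hinj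
  refine hl0 (LinearMap.ext fun y => ?_)
  obtain ⟨x, rfl⟩ := hsurj y
  rw [LinearMap.sub_apply, map_sub, h5]
  change μ ^ n * (l : Dual ℂ M) x - (l : Dual ℂ M) (μ ^ n • x) = 0
  rw [map_smul, smul_eq_mul, sub_self]

end rep

section prod

variable {Γ : Type} [Group Γ] {H V Z : Type} [AddCommGroup H] [Module ℂ H]
  [FiniteDimensional ℂ H] [AddCommGroup V] [Module ℂ V] [FiniteDimensional ℂ V]
  [AddCommGroup Z] [Module ℂ Z] [FiniteDimensional ℂ Z]
  {ρH : Representation ℂ Γ H} {ρV : Representation ℂ Γ V} {ρZ : Representation ℂ Γ Z}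
  {n : ℕ} {w ws : Fin n → H} {j : Fin n → ℤ} {BX : H →ₗ[ℂ] H →ₗ[ℂ] ℂ} {i : V →ₗ[ℂ] H}
  {χ : Γ →* ℂˣ}

/-- the coordinate functions are equivariant -/
theorem coord_equiv (hi : ∀ γ v, i (ρV γ v) = ρH γ (i v))
    (hw : ∀ γ k, ρH γ (w k) = ((χ γ : ℂˣ) : ℂ) ^ (j k) • w k)
    (hspan : Submodule.span ℂ (Set.range w) ⊔ LinearMap.range i = ⊤)
    (hdual : ∀ k l, BX (ws k) (w l) = if k = l then 1 else 0)
    (horth : ∀ k v, BX (ws k) (i v) = 0) (γ : Γ) (k : Fin n) (h : H) :
    BX (ws k) (ρH γ h) = ((χ γ : ℂˣ) : ℂ) ^ (j k) * BX (ws k) h := by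
  have h1 : Submodule.span ℂ (Set.range w) ⊔ LinearMap.range i ≤
      LinearMap.ker (BX (ws k) ∘ₗ ρH γ - ((χ γ : ℂˣ) : ℂ) ^ (j k) • BX (ws k)) := by
    refine sup_le (Submodule.span_le.2 ?_) ?_
    · rintro _ ⟨l, rfl⟩
      rw [SetLike.mem_coe, LinearMap.mem_ker, LinearMap.sub_apply, LinearMap.comp_apply, hw,
        map_smul, LinearMap.smul_apply, hdual]
      by_cases hkl : k = l
      · rw [hkl, sub_self]
      · rw [if_neg hkl, smul_zero, smul_zero, sub_zero]
    · rintro _ ⟨v, rfl⟩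
      rw [LinearMap.mem_ker, LinearMap.sub_apply, LinearMap.comp_apply, ← hi, horth,
        LinearMap.smul_apply, horth, smul_zero, sub_zero]
  have h2 := h1 (hspan ▸ Submodule.mem_top : h ∈ _)
  rw [LinearMap.mem_ker, LinearMap.sub_apply, sub_eq_zero] at h2
  exact h2

theorem push_equiv (hi : ∀ γ v, i (ρV γ v) = ρH γ (i v))
    (hw : ∀ γ k, ρH γ (w k) = ((χ γ : ℂˣ) : ℂ) ^ (j k) • w k)
    (hspan : Submodule.span ℂ (Set.range w) ⊔ LinearMap.range i = ⊤)
    (hdual : ∀ k l, BX (ws k) (w l) = if k = l then 1 else 0)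
    (horth : ∀ k v, BX (ws k) (i v) = 0) (γ : Γ) (k : Fin n) (e : H ⊗[ℂ] Z) :
    push Z BX (ws k) (ρH.tprod ρZ γ e) =
      ((χ γ : ℂˣ) : ℂ) ^ (j k) • ρZ γ (push Z BX (ws k) e) := by
  induction e using TensorProduct.induction_on with
  | zero => simp
  | tmul h z =>
    rw [Representation.tprod_apply, TensorProduct.map_tmul, push_tmul, push_tmul,
      coord_equiv hi hw hspan hdual horth, map_smul, smul_smul]
  | add x y hx hy =>
    rw [map_add, map_add, hx, hy, map_add, map_add, smul_add]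

theorem finrank_pole {N : Subgroup Γ} {φ : Γ} {q : ℂ} (hq : q ≠ 0)
    (hχN : ∀ ν ∈ N, χ ν = 1) (hχφ : ((χ φ : ℂˣ) : ℂ) = q)
    (hi : ∀ γ v, i (ρV γ v) = ρH γ (i v))
    (hw : ∀ γ k, ρH γ (w k) = ((χ γ : ℂˣ) : ℂ) ^ (j k) • w k)
    (hspan : Submodule.span ℂ (Set.range w) ⊔ LinearMap.range i = ⊤)
    (hdual : ∀ k l, BX (ws k) (w l) = if k = l then 1 else 0)
    (horth : ∀ k v, BX (ws k) (i v) = 0) (r : ℤ)
    (hV : poleSpace (ρV.tprod ρZ) N φ (q ^ r) = ⊥) :
    finrank ℂ (poleSpace (ρH.tprod ρZ) N φ (q ^ r)) =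
      ∑ k, finrank ℂ (poleSpace ρZ N φ (q ^ (r - j k))) := by
  classical
  have hpush := push_equiv (Z := Z) (ρZ := ρZ) hi hw hspan hdual horth
  have hmk : ∀ γ k z, ρH.tprod ρZ γ (w k ⊗ₜ[ℂ] z) =
      ((χ γ : ℂˣ) : ℂ) ^ (j k) • (w k ⊗ₜ[ℂ] ρZ γ z) := by
    intro γ k z
    rw [Representation.tprod_apply, TensorProduct.map_tmul, hw, smul_tmul']
  -- restriction
  have h1 : ∀ k, ∀ l ∈ poleSpace (ρH.tprod ρZ) N φ (q ^ r),
      (TensorProduct.mk ℂ H Z (w k)).dualMap l ∈ poleSpace ρZ N φ (q ^ (r - j k)) := by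
    intro k l hl
    rw [mem_pole] at hl ⊢
    refine ⟨fun ν hν z => ?_, ?_⟩
    · change l (w k ⊗ₜ[ℂ] ρZ ν z) = l (w k ⊗ₜ[ℂ] z)
      have h2 := hl.1 ν hν (w k ⊗ₜ[ℂ] z)
      rw [hmk, hχN ν hν, Units.val_one, one_zpow, one_smul] at h2
      exact h2
    · refine intertwine (TensorProduct.mk ℂ H Z (w k)).dualMap
        (T := (ρH.tprod ρZ φ).dualMap) (S := (ρZ φ).dualMap) (c := (q ^ (j k))⁻¹)
        (x := q ^ r) ?_ ?_ hl.2
      · intro l'
        refine LinearMap.ext fun z => ?_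
        change l' (w k ⊗ₜ[ℂ] ρZ φ z) = (q ^ (j k))⁻¹ * l' (ρH.tprod ρZ φ (w k ⊗ₜ[ℂ] z))
        rw [hmk, hχφ, map_smul, smul_eq_mul, inv_mul_cancel_left₀ (zpow_ne_zero _ hq)]
      · rw [zpow_sub₀ hq, div_eq_inv_mul]
  -- extension
  have h2 : ∀ k, ∀ m ∈ poleSpace ρZ N φ (q ^ (r - j k)),
      (push Z BX (ws k)).dualMap m ∈ poleSpace (ρH.tprod ρZ) N φ (q ^ r) := by
    intro k m hm
    rw [mem_pole] at hm ⊢
    refine ⟨fun ν hν e => ?_, ?_⟩
    · change m (push Z BX (ws k) (ρH.tprod ρZ ν e)) = m (push Z BX (ws k) e)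
      rw [hpush, hχN ν hν, Units.val_one, one_zpow, one_smul, hm.1 ν hν]
    · refine intertwine (push Z BX (ws k)).dualMap
        (T := (ρZ φ).dualMap) (S := (ρH.tprod ρZ φ).dualMap) (c := q ^ (j k))
        (x := q ^ (r - j k)) ?_ ?_ hm.2
      · intro m'
        refine LinearMap.ext fun e => ?_
        change m' (push Z BX (ws k) (ρH.tprod ρZ φ e)) =
          q ^ (j k) * m' (ρZ φ (push Z BX (ws k) e))
        rw [hpush, hχφ, map_smul, smul_eq_mul]
      · rw [zpow_sub₀ hq, mul_div_cancel₀ _ (zpow_ne_zero _ hq)]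
  -- the linear map
  let L : poleSpace (ρH.tprod ρZ) N φ (q ^ r) →ₗ[ℂ]
      ((k : Fin n) → poleSpace ρZ N φ (q ^ (r - j k))) :=
    LinearMap.pi fun k => (TensorProduct.mk ℂ H Z (w k)).dualMap.restrict (h1 k)
  have hL : ∀ l k z, ((L l k : poleSpace ρZ N φ (q ^ (r - j k))) : Dual ℂ Z) z =
      (l : Dual ℂ (H ⊗[ℂ] Z)) (w k ⊗ₜ[ℂ] z) := fun l k z => rfl
  have hinj : Function.Injective L := by
    rw [injective_iff_map_eq_zero]
    intro l hl
    have h3 : ∀ k z, (l : Dual ℂ (H ⊗[ℂ] Z)) (w k ⊗ₜ[ℂ] z) = 0 := by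
      intro k z
      rw [← hL, hl]
      rfl
    have h4 : (LinearMap.rTensor Z i).dualMap (l : Dual ℂ (H ⊗[ℂ] Z)) = 0 := by
      have hint : ∀ γ (u : V ⊗[ℂ] Z), LinearMap.rTensor Z i (ρV.tprod ρZ γ u) =
          ρH.tprod ρZ γ (LinearMap.rTensor Z i u) := by
        intro γ u
        induction u using TensorProduct.induction_on with
        | zero => simp
        | tmul v z =>
          rw [Representation.tprod_apply, TensorProduct.map_tmul, LinearMap.rTensor_tmul,
            LinearMap.rTensor_tmul, Representation.tprod_apply, TensorProduct.map_tmul, hi]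
        | add x y hx hy => rw [map_add, map_add, hx, hy, map_add, map_add]
      have h5 : (LinearMap.rTensor Z i).dualMap (l : Dual ℂ (H ⊗[ℂ] Z)) ∈
          poleSpace (ρV.tprod ρZ) N φ (q ^ r) := by
        obtain ⟨h6, h7⟩ := mem_pole.1 l.2
        rw [mem_pole]
        refine ⟨fun ν hν u => ?_, ?_⟩
        · change (l : Dual ℂ (H ⊗[ℂ] Z)) (LinearMap.rTensor Z i (ρV.tprod ρZ ν u)) =
            (l : Dual ℂ (H ⊗[ℂ] Z)) (LinearMap.rTensor Z i u)
          rw [hint, h6 ν hν]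
        · refine intertwine (LinearMap.rTensor Z i).dualMap
            (T := (ρH.tprod ρZ φ).dualMap) (S := (ρV.tprod ρZ φ).dualMap) (c := 1)
            (x := q ^ r) ?_ (one_mul _).symm h7
          intro l'
          rw [one_smul]
          refine LinearMap.ext fun u => ?_
          change l' (LinearMap.rTensor Z i (ρV.tprod ρZ φ u)) =
            l' (ρH.tprod ρZ φ (LinearMap.rTensor Z i u))
          rw [hint]
      rw [hV] at h5
      exact (Submodule.mem_bot ℂ).1 h5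
    refine Subtype.ext (TensorProduct.ext' fun h z => ?_)
    rw [Submodule.coe_zero, LinearMap.zero_apply]
    have h6 : Submodule.span ℂ (Set.range w) ⊔ LinearMap.range i ≤
        LinearMap.ker ((l : Dual ℂ (H ⊗[ℂ] Z)) ∘ₗ (TensorProduct.mk ℂ H Z).flip z) := by
      refine sup_le (Submodule.span_le.2 ?_) ?_
      · rintro _ ⟨k, rfl⟩
        exact h3 k z
      · rintro _ ⟨v, rfl⟩
        exact LinearMap.congr_fun h4 (v ⊗ₜ[ℂ] z)
    exact h6 (hspan ▸ Submodule.mem_top : h ∈ _)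
  have hsurj : Function.Surjective L := by
    intro m
    refine ⟨⟨∑ k, (push Z BX (ws k)).dualMap (m k : Dual ℂ Z),
      Submodule.sum_mem _ fun k _ => h2 k _ (m k).2⟩, ?_⟩
    funext k
    refine Subtype.ext (LinearMap.ext fun z => ?_)
    rw [hL]
    change (∑ l, (push Z BX (ws l)).dualMap (m l : Dual ℂ Z)) (w k ⊗ₜ[ℂ] z) =
      (m k : Dual ℂ Z) z
    rw [LinearMap.sum_apply, Finset.sum_eq_single k]
    · change (m k : Dual ℂ Z) (push Z BX (ws k) (w k ⊗ₜ[ℂ] z)) = (m k : Dual ℂ Z) z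
      rw [push_tmul, hdual, if_pos rfl, one_smul]
    · intro l _ hl
      change (m l : Dual ℂ Z) (push Z BX (ws l) (w k ⊗ₜ[ℂ] z)) = 0
      rw [push_tmul, hdual, if_neg hl, zero_smul, map_zero]
    · intro h
      exact absurd (Finset.mem_univ k) h
  rw [(LinearEquiv.ofBijective L ⟨hinj, hsurj⟩).finrank_eq, Module.finrank_pi_fintype]

end prod

end Pool.Agent.U407.NP
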