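import Pool.Agent.U407.NP1

/-!
# Counting eigenvalues of all slopes at most one
-/

set_option autoImplicit false
set_option linter.unusedSectionVars false

namespace Pool.Agent.U407.NP

open MvPolynomial Pool.Agent.N867.AS Pool.Agent.N867.AS.Bd Res Tr

variable {σ : Type} [Fintype σ] [DecidableEq σ]

variable {p : ℕ} [hp : Fact p.Prime] {ω : σ → ℕ} {f : MvPolynomial σ (k p)} {a : σ → ℕ}
  {M s : ℕ}

theorem coeff_smul_rev {ι : Type*} [Fintype ι] [DecidableEq ι] (A : Matrix ι ι (PadicAlgCl p))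
    (c : PadicAlgCl p) (n : ℕ) :
    (c • A).charpolyRev.coeff n = c ^ n * A.charpolyRev.coeff n := by
  have h := congrArg (PowerSeries.coeff n) (rescale_charpolyRev A c)
  rw [PowerSeries.coeff_rescale, Polynomial.coeff_coe, Polynomial.coeff_coe] at h
  exact h.symm

theorem count_at (hf : Diag f a ω M) (hap : ∀ i, a i ∣ p - 1) (hσ : 2 ≤ Fintype.card σ)
    (hσe : Even (Fintype.card σ)) {c : PadicAlgCl p} (hc0 : c ≠ 0)
    (hc : ‖c‖ ≤ ‖(p : PadicAlgCl p)⁻¹‖) (hs : s ≠ 0) (hfs : ∀ μ, coeff μ f ^ p ^ s = coeff μ f)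
    (P : Polynomial (PadicAlgCl p))
    (hP : HasPS (P : PowerSeries (PadicAlgCl p)) (fun m => (npts f (p ^ (s * m)) : PadicAlgCl p) -
      ((p ^ (s * m) : ℕ) : PadicAlgCl p) ^ Fintype.card σ)) [DecidableEq ℝ] :
    P.roots.countP (fun ρ => ‖ρ‖ = ‖c ^ s‖) =
      (p - 1) * Nat.card {v : σ →₀ ℕ // (∀ i, v i ≠ 0) ∧
        ‖(p : PadicAlgCl p)‖ ^ wt ω v * ‖c‖ ^ M = 1} := by
  classical
  have : NeZero s := ⟨hs⟩
  have hp2 := hp.1.two_le
  have hpne : (p : PadicAlgCl p) ≠ 0 := Nat.cast_ne_zero.2 hp.1.ne_zero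
  have hpn : ‖(p : PadicAlgCl p)‖ < 1 := norm_p_lt p
  have hpn0 : 0 < ‖(p : PadicAlgCl p)‖ := norm_pos_iff.2 hpne
  have hωpos := ω_pos hf
  -- the root of unity
  have : NeZero (p : PadicAlgCl p) := ⟨hpne⟩
  obtain ⟨ζ, hζ⟩ := HasEnoughRootsOfUnity.exists_primitiveRoot (PadicAlgCl p) p
  have hζ1 : ζ ≠ 1 := hζ.ne_one hp.1.one_lt
  have hζp := Split.norm_zeta_sub_one hζ
  have hζlt : ‖ζ - 1‖ < 1 := by
    by_contra h
    push Not at h
    have h1 := one_le_pow₀ h (n := p - 1)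
    rw [hζp] at h1
    exact absurd hpn (not_lt.2 h1)
  have hζpos : 0 < ‖ζ - 1‖ := norm_pos_iff.2 (sub_ne_zero.2 hζ1)
  -- the polynomial `P`
  have hP0 : P.coeff 0 = 1 := by
    have h1 := hP.1
    rwa [← PowerSeries.coeff_zero_eq_constantCoeff_apply, Polynomial.coeff_coe] at h1
  obtain ⟨Λ, hΛ⟩ : ∃ Λ : Multiset (PadicAlgCl p),
    Λ = P.roots.map (fun ρ => ρ⁻¹ * c ^ s) := ⟨_, rfl⟩
  have hPs : PowerSeries.rescale c
      (PowerSeries.expand s hs (P : PowerSeries (PadicAlgCl p))) =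
      (Λ.map fun l => (1 - PowerSeries.C l * PowerSeries.X ^ s : PowerSeries _)).prod := by
    conv_lhs => rw [poly_eq_prod P hP0]
    rw [hΛ, Multiset.map_map, ← Polynomial.coeToPowerSeries.ringHom_apply, map_multiset_prod,
      Multiset.map_map, map_multiset_prod, Multiset.map_map, map_multiset_prod, Multiset.map_map]
    congr 1
    refine Multiset.map_congr rfl fun ρ _ => ?_
    simp only [Function.comp_apply, map_sub, map_one, map_mul,
      Polynomial.coeToPowerSeries.ringHom_apply, Polynomial.coe_C, Polynomial.coe_X,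
      PowerSeries.expand_C, PowerSeries.expand_X, map_pow, PowerSeries.rescale_X]
    have h1 : PowerSeries.rescale c (PowerSeries.C ρ⁻¹) =
        (PowerSeries.C ρ⁻¹ : PowerSeries (PadicAlgCl p)) := by
      ext n
      rw [PowerSeries.coeff_rescale, PowerSeries.coeff_C]
      split_ifs with h
      · rw [h, pow_zero, one_mul]
      · rw [mul_zero]
    rw [h1, mul_pow]
    ring
  obtain ⟨RP, hRP⟩ := Minor.np_multiset s hs Λ
  rw [← hPs] at hRP
  obtain ⟨nm, hnm⟩ : ∃ nm, nm = s * Λ.countP (fun l => 1 < ‖l‖) := ⟨_, rfl⟩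
  obtain ⟨np, hnp⟩ : ∃ np, np = s * Λ.countP (fun l => 1 ≤ ‖l‖) := ⟨_, rfl⟩
  rw [← hnm, ← hnp] at hRP
  -- the conditions on the weights
  have hcn : 0 < ‖c‖ := norm_pos_iff.2 hc0
  have hQM : ∀ w : ℕ, 1 ≤ ‖(p : PadicAlgCl p)‖ ^ w * ‖c‖ ^ M → w ≤ M := by
    intro w hw
    have h1 : 1 ≤ ‖(p : PadicAlgCl p)‖ ^ w * ‖(p : PadicAlgCl p)⁻¹‖ ^ M :=
      hw.trans (mul_le_mul_of_nonneg_left (pow_le_pow_left₀ hcn.le hc M) (by positivity))
    rw [norm_inv, inv_pow, ← div_eq_mul_inv, one_le_div (by positivity),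
      pow_le_pow_iff_right_of_lt_one₀ hpn0 hpn] at h1
    exact h1
  -- the bound `n₀`
  obtain ⟨Klt, hKlt⟩ : ∃ K, K = Fintype.card (Fin (p - 1) × ZMod s) *
    Nat.card {v : σ →₀ ℕ // (∀ i, v i ≠ 0) ∧
      1 < ‖(p : PadicAlgCl p)‖ ^ wt ω v * ‖c‖ ^ M} := ⟨_, rfl⟩
  obtain ⟨Kle, hKle⟩ : ∃ K, K = Fintype.card (Fin (p - 1) × ZMod s) *
    Nat.card {v : σ →₀ ℕ // (∀ i, v i ≠ 0) ∧
      1 ≤ ‖(p : PadicAlgCl p)‖ ^ wt ω v * ‖c‖ ^ M} := ⟨_, rfl⟩
  obtain ⟨n₀, hn₀⟩ : ∃ n₀, n₀ = nm + np + Klt + Kle := ⟨_, rfl⟩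
  -- the truncation level
  have hεpos : 0 < ‖(p : PadicAlgCl p)‖ ^ n₀ * ‖((n₀.factorial : ℕ) : PadicAlgCl p)‖ := by
    have : ((n₀.factorial : ℕ) : PadicAlgCl p) ≠ 0 := Nat.cast_ne_zero.2 n₀.factorial_ne_zero
    have := norm_pos_iff.2 this
    positivity
  obtain ⟨N₁, hN₁⟩ := exists_pow_lt_of_lt_one hεpos hζlt
  obtain ⟨N, hNdef⟩ : ∃ N, N = N₁ + p := ⟨_, rfl⟩
  have hN2 : 2 ≤ N := by omega
  have hNp : p ≤ N := by omega
  have hNε : ‖ζ - 1‖ ^ N < ‖(p : PadicAlgCl p)‖ ^ n₀ * ‖((n₀.factorial : ℕ) : PadicAlgCl p)‖ :=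
    lt_of_le_of_lt (pow_le_pow_of_le_one hζpos.le hζlt.le (by omega)) hN₁
  obtain ⟨γ, hγn, hγζ⟩ := Split.exists_gamma hp.1.one_lt hE hN2 hζ1 hζlt
  have hγ0 : γ ≠ 0 := by
    rintro rfl
    rw [norm_zero] at hγn
    exact hζpos.ne hγn
  have hγ1 : ‖γ‖ ≤ 1 := by rw [hγn]; exact hζlt.le
  obtain ⟨r, hr⟩ : ∃ r : ℝ, r = ‖γ‖ ^ ((M : ℝ)⁻¹) := ⟨_, rfl⟩
  have hγpos : 0 < ‖γ‖ := norm_pos_iff.2 hγ0
  have hr0 : 0 < r := by rw [hr]; exact Real.rpow_pos_of_pos hγpos _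
  have hrM : ‖γ‖ = r ^ M := by rw [hr, Real.rpow_inv_natCast_pow hγpos.le hf.hM]
  have hr1 : r < 1 := by
    by_contra h
    push Not at h
    have h1 := one_le_pow₀ h (n := M)
    rw [← hrM, hγn] at h1
    exact absurd hζlt (not_lt.2 h1)
  have hpγ : ‖(p : PadicAlgCl p)‖ = ‖γ‖ ^ (p - 1) := by rw [hγn, hζp]
  have hQiff : ∀ w : ℕ, (1 < r ^ ((p - 1) * w) * ‖c‖ ↔
      1 < ‖(p : PadicAlgCl p)‖ ^ w * ‖c‖ ^ M) ∧ (1 ≤ r ^ ((p - 1) * w) * ‖c‖ ↔
      1 ≤ ‖(p : PadicAlgCl p)‖ ^ w * ‖c‖ ^ M) := by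
    intro w
    have h1 : ‖(p : PadicAlgCl p)‖ ^ w * ‖c‖ ^ M = (r ^ ((p - 1) * w) * ‖c‖) ^ M := by
      rw [hpγ, hrM, mul_pow, ← pow_mul, ← pow_mul, ← pow_mul]
      congr 2
      ring
    rw [h1]
    have h2 : 0 ≤ r ^ ((p - 1) * w) * ‖c‖ := by positivity
    exact ⟨(one_lt_pow_iff_of_nonneg h2 hf.hM).symm, (one_le_pow_iff_of_nonneg h2 hf.hM).symm⟩
  -- lifts and box
  obtain ⟨D⟩ := exists_lifts hs hfs
  obtain ⟨B, hMB, hB⟩ : ∃ B, M ≤ B ∧ ∀ g, ∀ v ∈ (Gf D N γ g).support, ∀ i, v i ≤ B := by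
    refine ⟨M + ∑ g, ∑ v ∈ (Gf D N γ g).support, ∑ i, v i, by omega, fun g v hv i => ?_⟩
    have h1 : v i ≤ ∑ i, v i := Finset.single_le_sum (f := fun i => v i)
      (fun _ _ => Nat.zero_le _) (Finset.mem_univ i)
    have h2 : ∑ i, v i ≤ ∑ v ∈ (Gf D N γ g).support, ∑ i, v i :=
      Finset.single_le_sum (f := fun v : σ →₀ ℕ => ∑ i, v i) (fun _ _ => Nat.zero_le _) hv
    have h3 : ∑ v ∈ (Gf D N γ g).support, ∑ i, v i ≤
        ∑ g, ∑ v ∈ (Gf D N γ g).support, ∑ i, v i :=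
      Finset.single_le_sum (f := fun g => ∑ v ∈ (Gf D N γ g).support, ∑ i, v i)
        (fun _ _ => Nat.zero_le _) (Finset.mem_univ g)
    omega
  obtain ⟨C, hC⟩ : ∃ C : (T : Finset σ) → Matrix ((Fin (p - 1) × ZMod s) × Idx T B)
      ((Fin (p - 1) × ZMod s) × Idx T B) (PadicAlgCl p),
    ∀ T, C T = Cmat p (Gf D N γ) (rho p s) T B := ⟨_, fun _ => rfl⟩
  have happ := fun L (hL : L ≠ 0) => approx D (s := s) hζ hγ0 hγ1 hγζ hB hL
  simp only [← hC] at happ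
  obtain ⟨n, hn⟩ : ∃ n, n = Fintype.card σ := ⟨_, rfl⟩
  rw [← hn] at hσ hσe hP happ
  -- the power series
  obtain ⟨F, hF⟩ : ∃ F : Finset σ → PowerSeries (PadicAlgCl p),
    ∀ T, F T = PowerSeries.rescale ((p : PadicAlgCl p) ^ (n - T.card))
      ((C T).charpolyRev : PowerSeries (PadicAlgCl p)) := ⟨_, fun _ => rfl⟩
  have hFps : ∀ T, HasPS (F T) (fun m => ((p : PadicAlgCl p) ^ (n - T.card)) ^ m *
      ((C T) ^ m).trace) := by
    intro T
    rw [hF]
    exact (hasPS_charpolyRev (C T)).rescale _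
  obtain ⟨Ev, hEv⟩ : ∃ Ev : Finset (Finset σ), Ev = Finset.univ.filter (fun T => Even T.card) :=
    ⟨_, rfl⟩
  obtain ⟨Od, hOd⟩ : ∃ Od : Finset (Finset σ), Od = Finset.univ.filter (fun T => ¬ Even T.card) :=
    ⟨_, rfl⟩
  obtain ⟨U, hU⟩ : ∃ U : PowerSeries (PadicAlgCl p), U =
    PowerSeries.expand s hs (P : PowerSeries (PadicAlgCl p)) * ∏ T ∈ Od, F T := ⟨_, rfl⟩
  obtain ⟨V, hV⟩ : ∃ V : PowerSeries (PadicAlgCl p), V = ∏ T ∈ Ev, F T := ⟨_, rfl⟩
  have hUps := (hP.expand s hs).mul (HasPS.prod Od fun T _ => hFps T)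
  rw [← hU] at hUps
  have hVps := HasPS.prod Ev fun T _ => hFps T
  rw [← hV] at hVps
  have hV0 : PowerSeries.constantCoeff V ≠ 0 := by rw [hVps.1]; exact one_ne_zero
  obtain ⟨Z, hZ⟩ : ∃ Z : PowerSeries (PadicAlgCl p), Z = U * V⁻¹ := ⟨_, rfl⟩
  have hUVZ : U = V * Z := by
    rw [hZ, mul_comm U, ← mul_assoc, PowerSeries.mul_inv_cancel V hV0, one_mul]
  have hZps := hUps.mul hVps.inv
  rw [← hZ] at hZps
  -- the power sums of `Z` are small
  have hδ : ∀ m, m ≠ 0 → ‖((if s ∣ m then (s : PadicAlgCl p) *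
      ((npts f (p ^ (s * (m / s))) : PadicAlgCl p) -
        ((p ^ (s * (m / s)) : ℕ) : PadicAlgCl p) ^ n) else 0) +
      ∑ T ∈ Od, ((p : PadicAlgCl p) ^ (n - T.card)) ^ m * ((C T) ^ m).trace) +
      -∑ T ∈ Ev, ((p : PadicAlgCl p) ^ (n - T.card)) ^ m * ((C T) ^ m).trace‖ ≤ ‖γ‖ ^ N := by
    intro m hm
    have h1 := happ m hm
    have h2 : (if s ∣ m then (s : PadicAlgCl p) *
        ((npts f (p ^ m) : PadicAlgCl p) - ((p ^ m : ℕ) : PadicAlgCl p) ^ n) else 0) =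
        (if s ∣ m then (s : PadicAlgCl p) *
        ((npts f (p ^ (s * (m / s))) : PadicAlgCl p) -
          ((p ^ (s * (m / s)) : ℕ) : PadicAlgCl p) ^ n) else 0) := by
      split_ifs with h
      · rw [Nat.mul_div_cancel' h]
      · rfl
    have h3 : ∑ T : Finset σ, (-1) ^ T.card * ((p ^ m : ℕ) : PadicAlgCl p) ^ (n - T.card) *
        ((C T) ^ m).trace =
        ∑ T ∈ Ev, ((p : PadicAlgCl p) ^ (n - T.card)) ^ m * ((C T) ^ m).trace -
        ∑ T ∈ Od, ((p : PadicAlgCl p) ^ (n - T.card)) ^ m * ((C T) ^ m).trace := by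
      rw [← Finset.sum_filter_add_sum_filter_not Finset.univ (fun T : Finset σ => Even T.card),
        ← hEv, ← hOd, sub_eq_add_neg, ← Finset.sum_neg_distrib]
      congr 1
      · refine Finset.sum_congr rfl fun T hT => ?_
        rw [hEv, Finset.mem_filter] at hT
        rw [hT.2.neg_one_pow, one_mul, Nat.cast_pow, ← pow_mul, ← pow_mul, mul_comm m]
      · refine Finset.sum_congr rfl fun T hT => ?_
        rw [hOd, Finset.mem_filter] at hT
        rw [(Nat.not_even_iff_odd.1 hT.2).neg_one_pow, Nat.cast_pow, ← pow_mul, ← pow_mul,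
          mul_comm m]
        ring
    rw [h2, h3] at h1
    convert h1 using 2
    ring
  have hγN1 : ‖γ‖ ^ N ≤ 1 := pow_le_one₀ hγpos.le hγ1
  have hZsmall := fun m hm => Minor.small_of_ps hZps (by positivity) hγN1 hδ m hm
  -- rescaling by `c`
  obtain ⟨φ, hφ⟩ : ∃ φ : PowerSeries (PadicAlgCl p) →+* PowerSeries (PadicAlgCl p),
    φ = PowerSeries.rescale c := ⟨_, rfl⟩
  have hφF : ∀ T, φ (F T) = (((c * (p : PadicAlgCl p) ^ (n - T.card)) •
      (C T)).charpolyRev : PowerSeries (PadicAlgCl p)) := by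
    intro T
    rw [hφ, hF, PowerSeries.rescale_rescale, rescale_charpolyRev, mul_comm]
  have hnear : ∀ T : Finset σ, T ≠ Finset.univ → PowerSeries.coeff 0 (φ (F T)) = 1 ∧
      ∀ m, m ≠ 0 → ‖PowerSeries.coeff m (φ (F T))‖ < 1 := by
    intro T hT
    have hTcard : T.card < n := by
      rw [hn]
      exact (Finset.card_lt_iff_ne_univ T).2 hT
    obtain ⟨e, he⟩ : ∃ e, T.card + e + 1 = n := ⟨n - T.card - 1, by omega⟩
    have h1 : ‖c * (p : PadicAlgCl p) ^ (n - T.card)‖ ≤ ‖(p : PadicAlgCl p) ^ e‖ := by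
      have h2 : n - T.card = e + 1 := by omega
      rw [h2, norm_mul, norm_pow, norm_pow, pow_succ]
      calc ‖c‖ * (‖(p : PadicAlgCl p)‖ ^ e * ‖(p : PadicAlgCl p)‖) ≤
          ‖(p : PadicAlgCl p)⁻¹‖ * (‖(p : PadicAlgCl p)‖ ^ e * ‖(p : PadicAlgCl p)‖) :=
            mul_le_mul_of_nonneg_right hc (by positivity)
        _ = ‖(p : PadicAlgCl p)‖ ^ e := by
            rw [norm_inv]
            field_simp
    rw [hφF]
    constructor
    · rw [PowerSeries.coeff_zero_eq_constantCoeff_apply]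
      exact (hasPS_charpolyRev _).1
    · intro m hm
      have h3 := small_T hf D hs hr0 hr1 hrM (N := N) (T := T) B (e := e) (by omega) (by omega)
        m hm
      rw [coeff_smul_rev, norm_mul, norm_pow] at h3
      rw [Polynomial.coeff_coe, hC, coeff_smul_rev, norm_mul, norm_pow]
      exact lt_of_le_of_lt (mul_le_mul_of_nonneg_right
        (pow_le_pow_left₀ (norm_nonneg _) h1 m) (norm_nonneg _)) h3
  have hunivE : (Finset.univ : Finset σ) ∈ Ev := by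
    rw [hEv, Finset.mem_filter]
    refine ⟨Finset.mem_univ _, ?_⟩
    rw [Finset.card_univ, ← hn]
    exact hσe
  have hOdne : ∀ T ∈ Od, T ≠ Finset.univ := by
    rintro T hT rfl
    rw [hOd, Finset.mem_filter, Finset.card_univ, ← hn] at hT
    exact hT.2 hσe
  have hUNP : Minor.NP (fun m => PowerSeries.coeff m (φ U)) nm np RP := by
    rw [hU, map_mul, map_prod]
    have h1 := Minor.near_prod' Od (fun T hT => (hnear T (hOdne T hT)).1)
      (fun T hT => (hnear T (hOdne T hT)).2)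
    refine Minor.NP.mul_near ?_ h1.1 h1.2
    rw [hφ]
    exact hRP
  obtain ⟨RV, hVNP⟩ : ∃ RV, Minor.NP (fun m => PowerSeries.coeff m (φ V)) Klt Kle RV := by
    rw [hV, ← Finset.mul_prod_erase _ _ hunivE, map_mul, map_prod]
    have h1 := Minor.near_prod' (Ev.erase Finset.univ)
      (fun T hT => (hnear T (Finset.mem_erase.1 hT).1).1)
      (fun T hT => (hnear T (Finset.mem_erase.1 hT).1).2)
    obtain ⟨R, hR⟩ := np_univ hf D hs hr0 hr1 hrM hpγ hNp hap (by omega) B hc0 hc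
    rw [cardW hωpos hMB (fun w => 1 < r ^ ((p - 1) * w) * ‖c‖)
        (fun w hw => hQM w (le_of_lt ((hQiff w).1.1 hw))),
      cardW hωpos hMB (fun w => 1 ≤ r ^ ((p - 1) * w) * ‖c‖)
        (fun w hw => hQM w ((hQiff w).2.1 hw))] at hR
    simp only [(hQiff _).1, (hQiff _).2] at hR
    rw [← hKlt, ← hKle] at hR
    refine ⟨R, Minor.NP.mul_near ?_ h1.1 h1.2⟩
    rw [hφF]
    have h2 : c * (p : PadicAlgCl p) ^ (n - (Finset.univ : Finset σ).card) = c := by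
      rw [Finset.card_univ, ← hn, Nat.sub_self, pow_zero, mul_one]
    rw [h2, hC]
    simpa only [Polynomial.coeff_coe] using hR
  have hcmp := Minor.np_compare (n₀ := n₀) hUNP hVNP (Z := φ Z) (by rw [hUVZ, map_mul])
    (by
      rw [hφ, PowerSeries.coeff_rescale, pow_zero, one_mul,
        PowerSeries.coeff_zero_eq_constantCoeff_apply]
      exact hZps.1)
    (by
      intro m hm hmn
      rw [hφ, PowerSeries.coeff_rescale, norm_mul, norm_pow]
      refine lt_of_le_of_lt (mul_le_mul_of_nonneg_right (pow_le_pow_left₀ hcn.le hc m)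
        (norm_nonneg _)) ?_
      rw [norm_inv, inv_pow, inv_mul_lt_iff₀ (by positivity), mul_one]
      have h1 := hZsmall m hm
      have hfac : 0 < ‖((m.factorial : ℕ) : PadicAlgCl p)‖ :=
        norm_pos_iff.2 (Nat.cast_ne_zero.2 m.factorial_ne_zero)
      have h2 : ‖((n₀.factorial : ℕ) : PadicAlgCl p)‖ ≤ ‖((m.factorial : ℕ) : PadicAlgCl p)‖ := by
        obtain ⟨c, hc⟩ := Nat.factorial_dvd_factorial hmn
        rw [hc, Nat.cast_mul, norm_mul]
        exact mul_le_of_le_one_right (norm_nonneg _) (IsUltrametricDist.norm_natCast_le_one _ _)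
      have h3 : ‖((m.factorial : ℕ) : PadicAlgCl p)‖ * ‖PowerSeries.coeff m Z‖ <
          ‖((m.factorial : ℕ) : PadicAlgCl p)‖ * ‖(p : PadicAlgCl p)‖ ^ m := by
        refine lt_of_le_of_lt h1 ?_
        rw [hγn]
        refine lt_of_lt_of_le hNε ?_
        rw [mul_comm]
        exact mul_le_mul h2 (pow_le_pow_of_le_one hpn0.le hpn.le hmn) (by positivity)
          (norm_nonneg _)
      exact lt_of_mul_lt_mul_left h3 hfac.le)
    (by omega) (by omega) (by omega) (by omega)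
  -- conclusion
  obtain ⟨h1, h2⟩ := hcmp
  have hsplitΛ : Λ.countP (fun l => 1 ≤ ‖l‖) =
      Λ.countP (fun l => 1 < ‖l‖) + Λ.countP (fun l => ‖l‖ = 1) := by
    have : ∀ S : Multiset (PadicAlgCl p), S.countP (fun l => 1 ≤ ‖l‖) =
        S.countP (fun l => 1 < ‖l‖) + S.countP (fun l => ‖l‖ = 1) := by
      intro S
      induction S using Multiset.induction_on with
      | empty => simp
      | cons l S ih =>
        rw [Multiset.countP_cons, Multiset.countP_cons, Multiset.countP_cons, ih]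
        rcases lt_trichotomy ‖l‖ 1 with h | h | h
        · rw [if_neg (not_le.2 h), if_neg (not_lt.2 h.le), if_neg h.ne]
          ring
        · rw [if_pos h.ge, if_neg (not_lt.2 h.le), if_pos h]
          ring
        · rw [if_pos h.le, if_pos h, if_neg h.ne']
          ring
    exact this Λ
  have hKsplit : Kle = Klt + Fintype.card (Fin (p - 1) × ZMod s) *
      Nat.card {v : σ →₀ ℕ // (∀ i, v i ≠ 0) ∧
        ‖(p : PadicAlgCl p)‖ ^ wt ω v * ‖c‖ ^ M = 1} := by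
    rw [hKle, hKlt, ← cardW (Γ := Fin (p - 1) × ZMod s) hωpos hMB
      (fun w => 1 < ‖(p : PadicAlgCl p)‖ ^ w * ‖c‖ ^ M) (fun w hw => hQM w hw.le),
      ← cardW (Γ := Fin (p - 1) × ZMod s) hωpos hMB
      (fun w => 1 ≤ ‖(p : PadicAlgCl p)‖ ^ w * ‖c‖ ^ M) (fun w hw => hQM w hw),
      ← cardW (Γ := Fin (p - 1) × ZMod s) hωpos hMB
      (fun w => ‖(p : PadicAlgCl p)‖ ^ w * ‖c‖ ^ M = 1) (fun w hw => hQM w hw.ge),
      ← Finset.card_union_of_disjoint]
    · congr 1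
      ext x
      simp only [Finset.mem_filter, Finset.mem_univ, true_and, Finset.mem_union]
      rw [le_iff_lt_or_eq]
      exact or_congr Iff.rfl eq_comm
    · rw [Finset.disjoint_filter]
      intro x _ h h'
      exact h.ne' h'
  have hcardΓ : Fintype.card (Fin (p - 1) × ZMod s) = (p - 1) * s := by
    rw [Fintype.card_prod, Fintype.card_fin, ZMod.card]
  have hfinal : s * Λ.countP (fun l => ‖l‖ = 1) = s * ((p - 1) *
      Nat.card {v : σ →₀ ℕ // (∀ i, v i ≠ 0) ∧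
        ‖(p : PadicAlgCl p)‖ ^ wt ω v * ‖c‖ ^ M = 1}) := by
    rw [hcardΓ] at hKsplit
    have h3 : s * Λ.countP (fun l => 1 ≤ ‖l‖) =
      s * Λ.countP (fun l => 1 < ‖l‖) + s * Λ.countP (fun l => ‖l‖ = 1) := by
      rw [hsplitΛ]
      ring
    rw [← hnm, ← hnp, h1, h2, hKsplit] at h3
    have h4 := add_left_cancel h3
    rw [← h4]
    ring
  have hcount := Nat.eq_of_mul_eq_mul_left (Nat.pos_of_ne_zero hs) hfinal
  rw [← hcount, hΛ, Multiset.countP_map, ← Multiset.countP_eq_card_filter]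
  refine Multiset.countP_congr rfl fun ρ hρ => ?_
  rw [eq_iff_iff]
  have hρ0 : ρ ≠ 0 := by
    intro h0
    have h1 := (Polynomial.mem_roots'.1 hρ).2
    rw [h0, Polynomial.IsRoot, ← Polynomial.coeff_zero_eq_eval_zero, hP0] at h1
    exact one_ne_zero h1
  have hρn : 0 < ‖ρ‖ := norm_pos_iff.2 hρ0
  rw [norm_mul, norm_inv, inv_mul_eq_one₀ hρn.ne']

end Pool.Agent.U407.NP
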