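import Pool.Agent.U407.NP19

/-!
# Orders of poles over finitely generated fields, groups of cycle classes
-/

set_option autoImplicit false
set_option maxHeartbeats 1000000
set_option linter.unusedSectionVars false

namespace Pool.Agent.U407.NP

open Polynomial Pool.Agent.N867.AS Pool.Agent.N867.AS.Trans Module TensorProduct

section cycles

variable {Γ : Type} [Group Γ] {H V Z : Type} [AddCommGroup H] [Module ℂ H]
  [FiniteDimensional ℂ H] [AddCommGroup V] [Module ℂ V] [FiniteDimensional ℂ V]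
  [AddCommGroup Z] [Module ℂ Z] [FiniteDimensional ℂ Z]
  {ρH : Representation ℂ Γ H} {ρV : Representation ℂ Γ V} {ρZ : Representation ℂ Γ Z}
  {n : ℕ} {w ws : Fin n → H} {j : Fin n → ℤ} {BX : H →ₗ[ℂ] H →ₗ[ℂ] ℂ} {i : V →ₗ[ℂ] H}
  {χ : Γ →* ℂˣ}

/-- a class without component in the interesting part -/
theorem recover (hinj : Function.Injective i) (hi : ∀ γ v, i (ρV γ v) = ρH γ (i v))
    (hw : ∀ γ k, ρH γ (w k) = ((χ γ : ℂˣ) : ℂ) ^ (j k) • w k)
    (hspan : Submodule.span ℂ (Set.range w) ⊔ LinearMap.range i = ⊤)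
    (hdual : ∀ k l, BX (ws k) (w l) = if k = l then 1 else 0)
    (horth : ∀ k v, BX (ws k) (i v) = 0) {σ : Γ} {x : ℂ}
    (hno : ¬ Module.End.HasEigenvalue (ρV.tprod ρZ σ) x) {c : H ⊗[ℂ] Z}
    (hc : ρH.tprod ρZ σ c = x • c) : c = ∑ k, w k ⊗ₜ[ℂ] push Z BX (ws k) c := by
  classical
  have hpush := push_equiv (Z := Z) (ρZ := ρZ) hi hw hspan hdual horth
  obtain ⟨R, hR⟩ : ∃ R : Module.End ℂ (H ⊗[ℂ] Z), R = LinearMap.id -
      ∑ k, (TensorProduct.mk ℂ H Z (w k)) ∘ₗ push Z BX (ws k) := ⟨_, rfl⟩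
  have hRa : ∀ c, R c = c - ∑ k, w k ⊗ₜ[ℂ] push Z BX (ws k) c := by
    intro c
    rw [hR, LinearMap.sub_apply, LinearMap.sum_apply]
    rfl
  have hrange : ∀ c, R c ∈ LinearMap.range (LinearMap.rTensor Z i) := by
    intro c
    induction c using TensorProduct.induction_on with
    | zero => rw [map_zero]; exact Submodule.zero_mem _
    | tmul h z =>
      have h6 : Submodule.span ℂ (Set.range w) ⊔ LinearMap.range i ≤
          Submodule.comap (R ∘ₗ (TensorProduct.mk ℂ H Z).flip z)
            (LinearMap.range (LinearMap.rTensor Z i)) := by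
        refine sup_le (Submodule.span_le.2 ?_) ?_
        · rintro _ ⟨k, rfl⟩
          change R (w k ⊗ₜ[ℂ] z) ∈ LinearMap.range (LinearMap.rTensor Z i)
          have h7 : R (w k ⊗ₜ[ℂ] z) = 0 := by
            rw [hRa, Finset.sum_eq_single k]
            · rw [push_tmul, hdual, if_pos rfl, one_smul, sub_self]
            · intro l _ hl
              rw [push_tmul, hdual, if_neg hl, zero_smul, tmul_zero]
            · intro h
              exact absurd (Finset.mem_univ k) h
          rw [h7]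
          exact Submodule.zero_mem _
        · rintro _ ⟨v, rfl⟩
          change R (i v ⊗ₜ[ℂ] z) ∈ LinearMap.range (LinearMap.rTensor Z i)
          have h7 : R (i v ⊗ₜ[ℂ] z) = i v ⊗ₜ[ℂ] z := by
            rw [hRa, Finset.sum_eq_zero, sub_zero]
            intro k _
            rw [push_tmul, horth, zero_smul, tmul_zero]
          rw [h7]
          exact ⟨v ⊗ₜ[ℂ] z, LinearMap.rTensor_tmul _ _ _ _⟩
      exact h6 (hspan ▸ Submodule.mem_top : h ∈ _)
    | add x y hx hy =>
      rw [map_add]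
      exact Submodule.add_mem _ hx hy
  have hcomm : R (ρH.tprod ρZ σ c) = ρH.tprod ρZ σ (R c) := by
    rw [hRa, hRa, map_sub, map_sum]
    congr 1
    refine Finset.sum_congr rfl fun k _ => ?_
    rw [hpush, Representation.tprod_apply, TensorProduct.map_tmul, hw, smul_tmul]
  obtain ⟨u, hu⟩ := hrange c
  have hint : ∀ γ (u : V ⊗[ℂ] Z), LinearMap.rTensor Z i (ρV.tprod ρZ γ u) =
      ρH.tprod ρZ γ (LinearMap.rTensor Z i u) := by
    intro γ u
    induction u using TensorProduct.induction_on with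
    | zero => simp
    | tmul v z =>
      rw [Representation.tprod_apply, TensorProduct.map_tmul, LinearMap.rTensor_tmul,
        LinearMap.rTensor_tmul, Representation.tprod_apply, TensorProduct.map_tmul, hi]
    | add x y hx hy => rw [map_add, map_add, hx, hy, map_add, map_add]
  have hinj' : Function.Injective (LinearMap.rTensor Z i) :=
    Module.Flat.rTensor_preserves_injective_linearMap i hinj
  have hu0 : u = 0 := by
    by_contra h0
    refine hno (Module.End.hasEigenvalue_of_hasEigenvector (x := u)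
      ⟨Module.End.mem_eigenspace_iff.2 (hinj' ?_), h0⟩)
    rw [hint, hu, ← hcomm, hc, map_smul, map_smul, hu]
  rw [hu0, map_zero] at hu
  rw [hRa] at hu
  exact sub_eq_zero.1 hu.symm

variable [Module ℚ H] [Module ℚ Z] {A : ℤ → Submodule ℚ Z} {C : ℤ → Submodule ℚ (H ⊗[ℂ] Z)}

theorem cycles_equiv (hinj : Function.Injective i) (hi : ∀ γ v, i (ρV γ v) = ρH γ (i v))
    (hw : ∀ γ k, ρH γ (w k) = ((χ γ : ℂˣ) : ℂ) ^ (j k) • w k)
    (hspan : Submodule.span ℂ (Set.range w) ⊔ LinearMap.range i = ⊤)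
    (hdual : ∀ k l, BX (ws k) (w l) = if k = l then 1 else 0)
    (horth : ∀ k v, BX (ws k) (i v) = 0) {σ : Γ} {x : ℂ} {r : ℤ}
    (hno : ¬ Module.End.HasEigenvalue (ρV.tprod ρZ σ) x)
    (hgal : ∀ c ∈ C r, ρH.tprod ρZ σ c = x • c)
    (hprod : ∀ k, ∀ z ∈ A (r - j k), w k ⊗ₜ[ℂ] z ∈ C r)
    (hpush : ∀ k, ∀ c ∈ C r, push Z BX (ws k) c ∈ A (r - j k)) :
    Nonempty (C r ≃ₗ[ℚ] ((k : Fin n) → A (r - j k))) := by
  classical
  let P : ∀ k : Fin n, C r →ₗ[ℚ] A (r - j k) := fun k =>
    ((push Z BX (ws k)).restrictScalars ℚ).restrict (hpush k)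
  have hP : ∀ k c, ((P k c : A (r - j k)) : Z) = push Z BX (ws k) (c : H ⊗[ℂ] Z) :=
    fun k c => rfl
  refine ⟨LinearEquiv.ofBijective (LinearMap.pi P) ⟨?_, ?_⟩⟩
  · rw [injective_iff_map_eq_zero]
    intro c hc
    refine Subtype.ext ?_
    rw [recover hinj hi hw hspan hdual horth hno (hgal c c.2), Submodule.coe_zero]
    refine Finset.sum_eq_zero fun k _ => ?_
    rw [← hP]
    have h1 : P k c = 0 := congrFun hc k
    rw [h1, Submodule.coe_zero, tmul_zero]
  · intro z
    refine ⟨⟨∑ k, w k ⊗ₜ[ℂ] (z k : Z), Submodule.sum_mem _ fun k _ => hprod k _ (z k).2⟩, ?_⟩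
    funext k
    refine Subtype.ext ?_
    change push Z BX (ws k) (∑ l, w l ⊗ₜ[ℂ] (z l : Z)) = (z k : Z)
    rw [map_sum, Finset.sum_eq_single k]
    · rw [push_tmul, hdual, if_pos rfl, one_smul]
    · intro l _ hl
      rw [push_tmul, hdual, if_neg (Ne.symm hl), zero_smul]
    · intro h
      exact absurd (Finset.mem_univ k) h

end cycles

section ranks

variable {Z Y : Type} [AddCommGroup Z] [Module ℚ Z] [AddCommGroup Y] [Module ℚ Y]

theorem rank_iff (A : Submodule ℚ Z) (d : ℕ) :
    Module.rank ℚ A = d ↔ Module.Finite ℚ A ∧ finrank ℚ A = d := by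
  constructor
  · intro h
    have h1 : Module.Finite ℚ A := Module.finite_of_rank_eq_nat h
    exact ⟨h1, Module.finrank_eq_of_rank_eq h⟩
  · rintro ⟨h1, h2⟩
    rw [← h2, Module.finrank_eq_rank]

theorem main_iff {n : ℕ} {j : Fin n → ℤ} (k0 : Fin n) (hk0 : j k0 = 0)
    (hk : ∀ k, k ≠ k0 → 1 ≤ j k) {A : ℤ → Submodule ℚ Z} {C : ℤ → Submodule ℚ Y}
    (e : ∀ r, Nonempty (C r ≃ₗ[ℚ] ((k : Fin n) → A (r - j k)))) (oZ oX : ℤ → ℕ)
    (ho : ∀ r, oX r = ∑ k, oZ (r - j k)) (hneg : ∀ r < 0, A r = ⊥ ∧ oZ r = 0) :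
    (∀ r, Module.rank ℚ (C r) = oX r) ↔ ∀ r, Module.rank ℚ (A r) = oZ r := by
  classical
  simp only [rank_iff]
  constructor
  · intro h
    have key : ∀ m : ℕ, ∀ r : ℤ, r < m → (Module.Finite ℚ (A r) ∧ finrank ℚ (A r) = oZ r) := by
      intro m
      induction m with
      | zero =>
        intro r hr
        obtain ⟨h1, h2⟩ := hneg r (by simpa using hr)
        rw [h1, h2]
        exact ⟨inferInstance, finrank_bot ℚ Z⟩
      | succ m ih =>
        intro r hr
        obtain ⟨E⟩ := e r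
        obtain ⟨hf, hd⟩ := h r
        have hfin : Module.Finite ℚ ((k : Fin n) → A (r - j k)) := Module.Finite.equiv E
        have hfk : ∀ k, Module.Finite ℚ (A (r - j k)) := fun k =>
          Module.Finite.of_surjective (LinearMap.proj k :
            ((k : Fin n) → A (r - j k)) →ₗ[ℚ] A (r - j k)) (LinearMap.proj_surjective k)
        rw [E.finrank_eq, Module.finrank_pi_fintype, ho,
          ← Finset.add_sum_erase Finset.univ _ (Finset.mem_univ k0),
          ← Finset.add_sum_erase Finset.univ (fun k => oZ (r - j k)) (Finset.mem_univ k0)] at hd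
        have h1 : ∑ k ∈ Finset.univ.erase k0, finrank ℚ (A (r - j k)) =
            ∑ k ∈ Finset.univ.erase k0, oZ (r - j k) := by
          refine Finset.sum_congr rfl fun k hk' => ?_
          have h2 := hk k (Finset.ne_of_mem_erase hk')
          exact (ih (r - j k) (by push_cast at hr; omega)).2
        rw [h1] at hd
        have h3 := hfk k0
        have h4 := Nat.add_right_cancel hd
        rw [hk0, sub_zero] at h3 h4
        exact ⟨h3, h4⟩
    intro r
    refine key (r.toNat + 1) r ?_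
    push_cast
    have := Int.self_le_toNat r
    omega
  · intro h r
    obtain ⟨E⟩ := e r
    have hfk : ∀ k, Module.Finite ℚ (A (r - j k)) := fun k => (h _).1
    refine ⟨Module.Finite.equiv E.symm, ?_⟩
    rw [E.finrank_eq, Module.finrank_pi_fintype, ho]
    exact Finset.sum_congr rfl fun k _ => (h _).2

end ranks

end Pool.Agent.U407.NP
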