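import Pool.Agent.U407.NP20

/-!
# Products with noncommutative motives
-/

set_option autoImplicit false
set_option maxHeartbeats 1000000
set_option linter.unusedSectionVars false

namespace Pool.Agent.U407.NP

open Polynomial Pool.Agent.N867.AS Pool.Agent.N867.AS.Trans Module TensorProduct

section lin

variable {H V T : Type} [AddCommGroup H] [Module ℂ H] [FiniteDimensional ℂ H]
  [AddCommGroup V] [Module ℂ V] [FiniteDimensional ℂ V] [AddCommGroup T] [Module ℂ T]
  [FiniteDimensional ℂ T] {F : Module.End ℂ H} {Ψ : Module.End ℂ V} {G : Module.End ℂ T}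
  {n : ℕ} {w ws : Fin n → H} {BX : H →ₗ[ℂ] H →ₗ[ℂ] ℂ} {i : V →ₗ[ℂ] H}

theorem push_end (hi : ∀ v, i (Ψ v) = F (i v)) (hw : ∀ k, F (w k) = w k)
    (hspan : Submodule.span ℂ (Set.range w) ⊔ LinearMap.range i = ⊤)
    (hdual : ∀ k l, BX (ws k) (w l) = if k = l then 1 else 0)
    (horth : ∀ k v, BX (ws k) (i v) = 0) (k : Fin n) (c : H ⊗[ℂ] T) :
    push T BX (ws k) (TensorProduct.map F G c) = G (push T BX (ws k) c) := by
  have h1 : ∀ h : H, BX (ws k) (F h) = BX (ws k) h := by
    intro h
    have h2 : Submodule.span ℂ (Set.range w) ⊔ LinearMap.range i ≤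
        LinearMap.ker ((BX (ws k)) ∘ₗ F - BX (ws k)) := by
      refine sup_le (Submodule.span_le.2 ?_) ?_
      · rintro _ ⟨l, rfl⟩
        change (BX (ws k) ∘ₗ F - BX (ws k)) (w l) = 0
        rw [LinearMap.sub_apply, LinearMap.comp_apply, hw, sub_self]
      · rintro _ ⟨v, rfl⟩
        change (BX (ws k) ∘ₗ F - BX (ws k)) (i v) = 0
        rw [LinearMap.sub_apply, LinearMap.comp_apply, ← hi, horth, horth, sub_self]
    have h3 : h ∈ LinearMap.ker ((BX (ws k)) ∘ₗ F - BX (ws k)) :=
      h2 (hspan ▸ Submodule.mem_top)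
    rw [LinearMap.mem_ker, LinearMap.sub_apply, LinearMap.comp_apply, sub_eq_zero] at h3
    exact h3
  induction c using TensorProduct.induction_on with
  | zero => simp
  | tmul h z => rw [TensorProduct.map_tmul, push_tmul, push_tmul, h1, map_smul]
  | add x y hx hy => rw [map_add, map_add, hx, hy, map_add, map_add]

theorem recover_end (hinj : Function.Injective i) (hi : ∀ v, i (Ψ v) = F (i v))
    (hw : ∀ k, F (w k) = w k)
    (hspan : Submodule.span ℂ (Set.range w) ⊔ LinearMap.range i = ⊤)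
    (hdual : ∀ k l, BX (ws k) (w l) = if k = l then 1 else 0)
    (horth : ∀ k v, BX (ws k) (i v) = 0)
    (hno : ¬ Module.End.HasEigenvalue (TensorProduct.map Ψ G) 1) {c : H ⊗[ℂ] T}
    (hc : TensorProduct.map F G c = c) : c = ∑ k, w k ⊗ₜ[ℂ] push T BX (ws k) c := by
  classical
  obtain ⟨R, hR⟩ : ∃ R : Module.End ℂ (H ⊗[ℂ] T), R = LinearMap.id -
      ∑ k, (TensorProduct.mk ℂ H T (w k)) ∘ₗ push T BX (ws k) := ⟨_, rfl⟩
  have hRa : ∀ c, R c = c - ∑ k, w k ⊗ₜ[ℂ] push T BX (ws k) c := by
    intro c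
    rw [hR, LinearMap.sub_apply, LinearMap.sum_apply]
    rfl
  have hrange : ∀ c, R c ∈ LinearMap.range (LinearMap.rTensor T i) := by
    intro c
    induction c using TensorProduct.induction_on with
    | zero => rw [map_zero]; exact Submodule.zero_mem _
    | tmul h z =>
      have h6 : Submodule.span ℂ (Set.range w) ⊔ LinearMap.range i ≤
          Submodule.comap (R ∘ₗ (TensorProduct.mk ℂ H T).flip z)
            (LinearMap.range (LinearMap.rTensor T i)) := by
        refine sup_le (Submodule.span_le.2 ?_) ?_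
        · rintro _ ⟨k, rfl⟩
          change R (w k ⊗ₜ[ℂ] z) ∈ LinearMap.range (LinearMap.rTensor T i)
          have h7 : R (w k ⊗ₜ[ℂ] z) = 0 := by
            rw [hRa, Finset.sum_eq_single k]
            · rw [push_tmul, hdual, if_pos rfl, one_smul, sub_self]
            · intro l _ hl
              rw [push_tmul, hdual, if_neg hl, zero_smul, tmul_zero]
            · intro h
              exact absurd (Finset.mem_univ k) h
          rw [h7]
          exact Submodule.zero_mem _
        · rintro _ ⟨v, rfl⟩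
          change R (i v ⊗ₜ[ℂ] z) ∈ LinearMap.range (LinearMap.rTensor T i)
          have h7 : R (i v ⊗ₜ[ℂ] z) = i v ⊗ₜ[ℂ] z := by
            rw [hRa, Finset.sum_eq_zero, sub_zero]
            intro k _
            rw [push_tmul, horth, zero_smul, tmul_zero]
          rw [h7]
          exact ⟨v ⊗ₜ[ℂ] z, LinearMap.rTensor_tmul _ _ _ _⟩
      exact h6 (hspan ▸ Submodule.mem_top : h ∈ _)
    | add x y hx hy =>
      rw [map_add]
      exact Submodule.add_mem _ hx hy
  have hcomm : R (TensorProduct.map F G c) = TensorProduct.map F G (R c) := by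
    rw [hRa, hRa, map_sub, map_sum]
    congr 1
    refine Finset.sum_congr rfl fun k _ => ?_
    rw [push_end hi hw hspan hdual horth, TensorProduct.map_tmul, hw]
  obtain ⟨u, hu⟩ := hrange c
  have hint : ∀ (u : V ⊗[ℂ] T), LinearMap.rTensor T i (TensorProduct.map Ψ G u) =
      TensorProduct.map F G (LinearMap.rTensor T i u) := by
    intro u
    induction u using TensorProduct.induction_on with
    | zero => simp
    | tmul v z =>
      rw [TensorProduct.map_tmul, LinearMap.rTensor_tmul, LinearMap.rTensor_tmul,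
        TensorProduct.map_tmul, hi]
    | add x y hx hy => rw [map_add, map_add, hx, hy, map_add, map_add]
  have hinj' : Function.Injective (LinearMap.rTensor T i) :=
    Module.Flat.rTensor_preserves_injective_linearMap i hinj
  have hu0 : u = 0 := by
    by_contra h0
    refine hno (Module.End.hasEigenvalue_of_hasEigenvector (x := u)
      ⟨Module.End.mem_eigenspace_iff.2 (hinj' ?_), h0⟩)
    rw [hint, hu, ← hcomm, hc, one_smul, hu]
  rw [hu0, map_zero] at hu
  rw [hRa] at hu
  exact sub_eq_zero.1 hu.symm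

/-- invariants over all finite extensions -/
noncomputable def inv {T : Type} [AddCommGroup T] [Module ℂ T] (G : Module.End ℂ T) :
    Submodule ℂ T := ⨆ (m : ℕ) (_ : m ≠ 0), (G ^ m).eigenspace 1

theorem map_pow' (m : ℕ) : (TensorProduct.map F G) ^ m = TensorProduct.map (F ^ m) (G ^ m) := by
  induction m with
  | zero => rw [pow_zero, pow_zero, pow_zero]; exact (TensorProduct.map_one).symm
  | succ m ih => rw [pow_succ, ih, ← TensorProduct.map_mul, ← pow_succ, ← pow_succ]

theorem pow_fix {T : Type} [AddCommGroup T] [Module ℂ T] {G : Module.End ℂ T} {z : T} {m : ℕ}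
    (h : (G ^ m) z = z) (k : ℕ) : (G ^ (m * k)) z = z := by
  rw [pow_mul]
  induction k with
  | zero => rw [pow_zero]; rfl
  | succ k ih => rw [pow_succ, Module.End.mul_apply, h, ih]

theorem mem_inv_of {T : Type} [AddCommGroup T] [Module ℂ T] {G : Module.End ℂ T} {z : T} {m : ℕ}
    (hm : m ≠ 0) (h : (G ^ m) z = z) : z ∈ inv G :=
  Submodule.mem_iSup_of_mem m (Submodule.mem_iSup_of_mem hm (Module.End.mem_eigenspace_iff.2
    (by rw [h, one_smul])))

/-- decomposition of a class which is invariant over a finite extension -/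
theorem split_fix (hinj : Function.Injective i) (hi : ∀ v, i (Ψ v) = F (i v))
    {N : ℕ} (hN : N ≠ 0) (hw : ∀ k, (F ^ N) (w k) = w k)
    (hspan : Submodule.span ℂ (Set.range w) ⊔ LinearMap.range i = ⊤)
    (hdual : ∀ k l, BX (ws k) (w l) = if k = l then 1 else 0)
    (horth : ∀ k v, BX (ws k) (i v) = 0)
    (hno : ∀ M : ℕ, M ≠ 0 → ¬ Module.End.HasEigenvalue (TensorProduct.map (Ψ ^ M) (G ^ M)) 1)
    {c : H ⊗[ℂ] T} {m : ℕ} (hm : m ≠ 0) (hc : (TensorProduct.map F G ^ m) c = c) :
    c = ∑ k, w k ⊗ₜ[ℂ] push T BX (ws k) c ∧ ∀ k, push T BX (ws k) c ∈ inv G := by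
  have h1 : TensorProduct.map (F ^ (m * N)) (G ^ (m * N)) c = c := by
    rw [← map_pow']
    exact pow_fix hc N
  have h2 : ∀ k, (F ^ (m * N)) (w k) = w k := by
    intro k
    rw [mul_comm]
    exact pow_fix (hw k) m
  have h3 := comm_pow hi (m * N)
  refine ⟨recover_end hinj h3 h2 hspan hdual horth (hno _ (mul_ne_zero hm hN)) h1, fun k => ?_⟩
  refine mem_inv_of (mul_ne_zero hm hN) ?_
  rw [← push_end (G := G ^ (m * N)) h3 h2 hspan hdual horth, h1]

theorem inv_product (hinj : Function.Injective i) (hi : ∀ v, i (Ψ v) = F (i v))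
    {N : ℕ} (hN : N ≠ 0) (hw : ∀ k, (F ^ N) (w k) = w k)
    (hspan : Submodule.span ℂ (Set.range w) ⊔ LinearMap.range i = ⊤)
    (hdual : ∀ k l, BX (ws k) (w l) = if k = l then 1 else 0)
    (horth : ∀ k v, BX (ws k) (i v) = 0)
    (hno : ∀ M : ℕ, M ≠ 0 → ¬ Module.End.HasEigenvalue (TensorProduct.map (Ψ ^ M) (G ^ M)) 1) :
    inv (TensorProduct.map F G) =
      ⨆ k, Submodule.map (TensorProduct.mk ℂ H T (w k)) (inv G) := by
  apply le_antisymm
  · refine iSup_le fun m => iSup_le fun hm => ?_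
    intro c hc
    rw [Module.End.mem_eigenspace_iff, one_smul] at hc
    obtain ⟨h1, h2⟩ := split_fix hinj hi hN hw hspan hdual horth hno hm hc
    rw [h1]
    exact Submodule.sum_mem _ fun k _ => Submodule.mem_iSup_of_mem k ⟨_, h2 k, rfl⟩
  · refine iSup_le fun k => ?_
    rw [Submodule.map_le_iff_le_comap]
    refine iSup_le fun m => iSup_le fun hm => ?_
    intro z hz
    rw [Module.End.mem_eigenspace_iff, one_smul] at hz
    refine mem_inv_of (m := m * N) (mul_ne_zero hm hN) ?_
    rw [map_pow']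
    change TensorProduct.map (F ^ (m * N)) (G ^ (m * N)) (w k ⊗ₜ[ℂ] z) = w k ⊗ₜ[ℂ] z
    rw [TensorProduct.map_tmul, pow_fix hz N, mul_comm, pow_fix (hw k) m]

theorem classes_product (hinj : Function.Injective i) (hi : ∀ v, i (Ψ v) = F (i v))
    {N : ℕ} (hN : N ≠ 0) (hw : ∀ k, (F ^ N) (w k) = w k)
    (hspan : Submodule.span ℂ (Set.range w) ⊔ LinearMap.range i = ⊤)
    (hdual : ∀ k l, BX (ws k) (w l) = if k = l then 1 else 0)
    (horth : ∀ k v, BX (ws k) (i v) = 0)
    (hno : ∀ M : ℕ, M ≠ 0 → ¬ Module.End.HasEigenvalue (TensorProduct.map (Ψ ^ M) (G ^ M)) 1)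
    {A : Submodule ℂ T} {C : Submodule ℂ (H ⊗[ℂ] T)}
    (hC : C ≤ inv (TensorProduct.map F G))
    (hprod : ∀ k, ∀ z ∈ A, w k ⊗ₜ[ℂ] z ∈ C)
    (hpush : ∀ k, ∀ c ∈ C, push T BX (ws k) c ∈ A) :
    C = ⨆ k, Submodule.map (TensorProduct.mk ℂ H T (w k)) A := by
  classical
  apply le_antisymm
  · intro c hc
    have h1 : c = ∑ k, w k ⊗ₜ[ℂ] push T BX (ws k) c := by
      have h2 := hC hc
      have h3 : inv (TensorProduct.map F G) ≤ LinearMap.ker (LinearMap.id -
          ∑ k, (TensorProduct.mk ℂ H T (w k)) ∘ₗ push T BX (ws k)) := by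
        refine iSup_le fun m => iSup_le fun hm => ?_
        intro d hd
        rw [Module.End.mem_eigenspace_iff, one_smul] at hd
        have h4 := (split_fix hinj hi hN hw hspan hdual horth hno hm hd).1
        rw [LinearMap.mem_ker, LinearMap.sub_apply, LinearMap.sum_apply, sub_eq_zero]
        exact h4
      have h5 := h3 h2
      rw [LinearMap.mem_ker, LinearMap.sub_apply, LinearMap.sum_apply, sub_eq_zero] at h5
      exact h5
    rw [h1]
    exact Submodule.sum_mem _ fun k _ => Submodule.mem_iSup_of_mem k ⟨_, hpush k c hc, rfl⟩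
  · refine iSup_le fun k => ?_
    rw [Submodule.map_le_iff_le_comap]
    exact fun z hz => hprod k z hz

theorem classes_iff (hinj : Function.Injective i) (hi : ∀ v, i (Ψ v) = F (i v))
    {N : ℕ} (hN : N ≠ 0) (hw : ∀ k, (F ^ N) (w k) = w k)
    (hspan : Submodule.span ℂ (Set.range w) ⊔ LinearMap.range i = ⊤)
    (hdual : ∀ k l, BX (ws k) (w l) = if k = l then 1 else 0)
    (horth : ∀ k v, BX (ws k) (i v) = 0)
    (hno : ∀ M : ℕ, M ≠ 0 → ¬ Module.End.HasEigenvalue (TensorProduct.map (Ψ ^ M) (G ^ M)) 1)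
    (k₀ : Fin n) {A : Submodule ℂ T} {C : Submodule ℂ (H ⊗[ℂ] T)}
    (hA : A ≤ inv G) (hC : C ≤ inv (TensorProduct.map F G))
    (hprod : ∀ k, ∀ z ∈ A, w k ⊗ₜ[ℂ] z ∈ C)
    (hpush : ∀ k, ∀ c ∈ C, push T BX (ws k) c ∈ A) :
    C = inv (TensorProduct.map F G) ↔ A = inv G := by
  have h1 := inv_product hinj hi hN hw hspan hdual horth hno
  have h2 := classes_product hinj hi hN hw hspan hdual horth hno hC hprod hpush
  constructor
  · intro h
    refine le_antisymm hA fun z hz => ?_
    have h3 : w k₀ ⊗ₜ[ℂ] z ∈ C := by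
      rw [h, h1]
      exact Submodule.mem_iSup_of_mem k₀ ⟨z, hz, rfl⟩
    have h4 := hpush k₀ _ h3
    rwa [push_tmul, hdual, if_pos rfl, one_smul] at h4
  · intro h
    rw [h2, h, ← h1]

end lin

end Pool.Agent.U407.NP
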