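import Pool.Agent.U407.NP21

/-!
# Products with noncommutative motives: surfaces `y ^ p - y = f(x, t)`
-/

set_option autoImplicit false
set_option maxHeartbeats 1000000
set_option linter.unusedSectionVars false

namespace Pool.Agent.U407.NP

open Polynomial Pool.Agent.N867.AS Pool.Agent.N867.AS.Trans Module TensorProduct

variable {κ : Type} [Field κ] [Fintype κ] {p : ℕ} [hp : Fact p.Prime] [CharP κ p]
  {H V T : Type} [AddCommGroup H] [Module ℂ H] [FiniteDimensional ℂ H]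
  [AddCommGroup V] [Module ℂ V] [FiniteDimensional ℂ V] [AddCommGroup T] [Module ℂ T]
  [FiniteDimensional ℂ T] {F : Module.End ℂ H} {Φ : Module.End ℂ V} {G : Module.End ℂ T}
  {n : ℕ} {w ws : Fin n → H} {BX : H →ₗ[ℂ] H →ₗ[ℂ] ℂ} {i : V →ₗ[ℂ] H}

theorem smul_pow_end (c : ℂ) (M : ℕ) : (c • Φ) ^ M = c ^ M • Φ ^ M := smul_pow _ _ _

theorem eigenvalue_smul {c : ℂ} (hc : c ≠ 0) {μ : ℂ} (h : (c • Φ).HasEigenvalue μ) :
    Φ.HasEigenvalue (c⁻¹ * μ) := by
  obtain ⟨v, hv⟩ := h.exists_hasEigenvector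
  refine Module.End.hasEigenvalue_of_hasEigenvector (x := v)
    ⟨Module.End.mem_eigenspace_iff.2 ?_, hv.2⟩
  have h1 := Module.End.mem_eigenspace_iff.1 hv.1
  rw [LinearMap.smul_apply] at h1
  rw [mul_smul, ← h1, smul_smul, inv_mul_cancel₀ hc, one_smul]

/-- no invariants in the interesting part -/
theorem nc_no {a b : ℕ} {f : κ[X][X]} (hf : Dg a b f) (hap : a ∣ p - 1) (hbp : b ∣ p - 1)
    (htr : ∀ m, m ≠ 0 → LinearMap.trace ℂ V (Φ ^ m) =
      (Npts p f (Fintype.card κ ^ m) : ℂ) - ((Fintype.card κ : ℂ) ^ m) ^ 2)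
    (hpure : ∀ α, Φ.HasEigenvalue α → ‖α‖ = (Fintype.card κ : ℝ))
    (hgood : ∀ β, G.HasEigenvalue β → ‖β‖ = 1 →
      ∃ τ : ℂ →+* PadicAlgCl p, ∀ (r : ℤ) (i j : ℕ),
        0 < i → i < a → 0 < j → j < b → sl p (Fintype.card κ) τ β ≠ r + i / a + j / b)
    (M : ℕ) (hM : M ≠ 0) :
    ¬ Module.End.HasEigenvalue
      (TensorProduct.map (((Fintype.card κ : ℂ)⁻¹ • Φ) ^ M) (G ^ M)) 1 := by
  intro h
  have hq : (Fintype.card κ : ℂ) ≠ 0 := Nat.cast_ne_zero.2 Fintype.card_ne_zero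
  obtain ⟨α, β, hα, hβ, hαβ⟩ := eigenvalue_tensor _ _ h
  obtain ⟨α', hα', rfl⟩ := eigenvalue_pow hM hα
  obtain ⟨β', hβ', rfl⟩ := eigenvalue_pow hM hβ
  have h1 := eigenvalue_smul (inv_ne_zero hq) hα'
  rw [inv_inv] at h1
  refine no_tate hf hap hbp htr hpure 1 (fun β hβ hn => hgood β hβ ?_) M hM _ β' h1 hβ' ?_
  · rw [hn, sub_self, zpow_zero]
  · rw [mul_assoc, mul_pow, mul_pow, ← hαβ, mul_one, mul_one, zpow_natCast]

/-- the slopes of the product -/
theorem nc_slopes {a b : ℕ} {f : κ[X][X]} (hf : Dg a b f) (hap : a ∣ p - 1) (hbp : b ∣ p - 1)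
    (htr : ∀ m, m ≠ 0 → LinearMap.trace ℂ V (Φ ^ m) =
      (Npts p f (Fintype.card κ ^ m) : ℂ) - ((Fintype.card κ : ℂ) ^ m) ^ 2)
    (hpure : ∀ α, Φ.HasEigenvalue α → ‖α‖ = (Fintype.card κ : ℝ))
    (hi : ∀ v, i ((((Fintype.card κ : ℂ)⁻¹) • Φ) v) = F (i v))
    {N : ℕ} (hN : N ≠ 0) (hw : ∀ k, (F ^ N) (w k) = w k)
    (hspan : Submodule.span ℂ (Set.range w) ⊔ LinearMap.range i = ⊤) {γ : ℂ}
    (hγ : Module.End.HasEigenvalue (TensorProduct.map F G) γ) :
    ∃ β, G.HasEigenvalue β ∧ ‖γ‖ = ‖β‖ ∧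
      ∀ τ : ℂ →+* PadicAlgCl p, ∃ k : ℤ,
      sl p (Fintype.card κ) τ γ = sl p (Fintype.card κ) τ β + k / (a * b) := by
  classical
  obtain ⟨s, hs⟩ : ∃ s : ℕ, Fintype.card κ = p ^ s := by
    obtain ⟨s, _, hs⟩ := FiniteField.card κ p
    exact ⟨s, hs⟩
  have hs0 : s ≠ 0 := by
    rintro rfl
    rw [pow_zero] at hs
    exact absurd hs (Fintype.one_lt_card (α := κ)).ne'
  have hq : (Fintype.card κ : ℂ) ≠ 0 := Nat.cast_ne_zero.2 Fintype.card_ne_zero
  have hqr : (Fintype.card κ : ℝ) ≠ 0 := Nat.cast_ne_zero.2 Fintype.card_ne_zero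
  have ha : (a : ℝ) ≠ 0 := Nat.cast_ne_zero.2 hf.ha
  have hb : (b : ℝ) ≠ 0 := Nat.cast_ne_zero.2 hf.hb
  obtain ⟨α, β, hα, hβ, rfl⟩ := eigenvalue_tensor _ _ hγ
  obtain ⟨W, hW⟩ : ∃ W : ℤ → Submodule ℂ H, W = fun _ => Submodule.span ℂ (Set.range w) :=
    ⟨_, rfl⟩
  obtain ⟨N', hN', hNα⟩ := eigenvalue_span' (q := 1) (W := W) hi
    ⟨N, hN, fun j y hy => by
      rw [one_zpow, one_pow, one_smul]
      rw [hW] at hy
      have h1 : Submodule.span ℂ (Set.range w) ≤ LinearMap.ker (F ^ N - 1) := by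
        refine Submodule.span_le.2 ?_
        rintro _ ⟨k, rfl⟩
        change (F ^ N - 1) (w k) = 0
        rw [LinearMap.sub_apply, hw]
        exact sub_self _
      have h2 := h1 hy
      rw [LinearMap.mem_ker, LinearMap.sub_apply, sub_eq_zero] at h2
      exact h2⟩
    (by
      rw [hW, iSup_const]
      exact hspan)
  have hN'' : (N' : ℝ) ≠ 0 := Nat.cast_ne_zero.2 hN'
  -- the eigenvalues on the interesting part
  have hpart : ∀ α' : ℂ, (((Fintype.card κ : ℂ)⁻¹) • Φ).HasEigenvalue α' →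
      Φ.HasEigenvalue ((Fintype.card κ : ℂ) * α') := by
    intro α' h
    have h1 := eigenvalue_smul (inv_ne_zero hq) h
    rwa [inv_inv] at h1
  refine ⟨β, hβ, ?_, fun τ => ?_⟩
  · rw [norm_mul]
    have h1 : ‖α‖ = 1 := by
      rcases hNα α hα with ⟨α', hα', h⟩ | ⟨j, h⟩
      · have h2 := congrArg norm h
        rw [norm_pow, norm_pow] at h2
        have h3 := hpure _ (hpart α' hα')
        rw [norm_mul, Complex.norm_natCast] at h3
        have h4 : ‖α'‖ = 1 := by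
          have h5 : (Fintype.card κ : ℝ) * ‖α'‖ = (Fintype.card κ : ℝ) * 1 := by
            rw [h3, mul_one]
          exact mul_left_cancel₀ hqr h5
        rw [(pow_left_inj₀ (norm_nonneg _) (norm_nonneg _) hN').1 h2, h4]
      · rw [one_zpow, one_pow] at h
        have h2 := congrArg norm h
        rw [norm_pow, norm_one] at h2
        exact (pow_eq_one_iff_of_nonneg (norm_nonneg _) hN').1 h2
    rw [h1, one_mul]
  by_cases hβ0 : β = 0
  · refine ⟨0, ?_⟩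
    rw [hβ0, mul_zero]
    simp
  rcases hNα α hα with ⟨α', hα', h⟩ | ⟨j, h⟩
  · obtain ⟨i', j', hi0, hia, hj0, hjb, hsl⟩ := sl_eigenvalue hf hap hbp hs htr hpure τ
      (hpart α' hα')
    have hα'0 : α' ≠ 0 := by
      rintro rfl
      have h1 := hpure _ (hpart 0 hα')
      rw [mul_zero, norm_zero] at h1
      exact hqr h1.symm
    have hα0 : α ≠ 0 := by
      rintro rfl
      rw [zero_pow hN'] at h
      exact pow_ne_zero _ hα'0 h.symm
    have h1 := congrArg (sl p (p ^ s) τ) h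
    rw [sl_pow, sl_pow] at h1
    have h2 := mul_left_cancel₀ hN'' h1
    rw [sl_mul _ _ hq hα'0] at hsl
    have h3 : sl p (p ^ s) τ (Fintype.card κ : ℂ) = 1 := by
      have h4 := sl_zpow (p := p) hs0 τ 1
      rw [zpow_one, Int.cast_one] at h4
      rw [hs]
      exact h4
    rw [h3] at hsl
    have h5 : sl p (p ^ s) τ α' = i' / a + j' / b - 1 := by linarith
    refine ⟨(b * i' + a * j' : ℕ) - a * b, ?_⟩
    rw [hs, sl_mul _ _ hα0 hβ0, h2, h5, add_comm]
    congr 1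
    push_cast
    field_simp
  · rw [one_zpow, one_pow] at h
    have hα0 : α ≠ 0 := by
      rintro rfl
      rw [zero_pow hN'] at h
      exact zero_ne_one h
    have h1 := congrArg (sl p (p ^ s) τ) h
    rw [sl_pow] at h1
    have h2 : sl p (p ^ s) τ 1 = 0 := by
      unfold sl
      rw [map_one, norm_one, Real.log_one, zero_div]
    rw [h2] at h1
    have h3 : sl p (p ^ s) τ α = 0 := by
      rcases mul_eq_zero.1 h1 with h4 | h4
      · exact absurd h4 hN''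
      · exact h4
    refine ⟨0, ?_⟩
    rw [hs, sl_mul _ _ hα0 hβ0, h3]
    simp

end Pool.Agent.U407.NP
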