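import Pool.Agent.U407.PF5
import Pool.Agent.U407.PF6

/-!
# Multiplicity of an eigenvalue and order of vanishing
-/

set_option autoImplicit false
set_option maxHeartbeats 1000000

namespace Pool.Agent.U407.SG

open Polynomial Module

theorem dvd_reverse {P : ℂ[X]} {q : ℂ} {μ : ℕ} (h : (X - C q) ^ μ ∣ P) :
    (1 - C q * X) ^ μ ∣ P.reverse := by
  obtain ⟨g, rfl⟩ := h
  rw [reverse_mul_of_domain]
  refine Dvd.dvd.mul_right ?_ _
  have h1 : ((X - C q) ^ μ : ℂ[X]).reverse = (1 - C q * X) ^ μ := by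
    have h2 : (X - C q : ℂ[X]).reverse = 1 - C q * X := by
      have h3 : (X - C q : ℂ[X]) = 1 * X + C (-q) := by
        rw [one_mul, C_neg, sub_eq_add_neg]
      have h4 : (1 * X + C (-q) : ℂ[X]).reverse = reverse (1 : ℂ[X]) + C (-q) * X ^ (1 + natDegree (1 : ℂ[X])) := by
        · rw [one_mul, natDegree_one, add_zero, pow_one]
          have h5 : natDegree (X + C (-q) : ℂ[X]) = 1 := natDegree_X_add_C _
          ext n
          rw [coeff_reverse, h5, coeff_add, coeff_add, coeff_C_mul_X]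
          have h6 : reverse (1 : ℂ[X]) = 1 := by
            have := reverse_C (R := ℂ) 1
            rwa [C_1] at this
          rw [h6]
          rcases n with _ | _ | n
          · rw [show Polynomial.revAt 1 0 = 1 from by rw [revAt_le (by omega)]]
            simp
          · rw [show Polynomial.revAt 1 1 = 0 from by rw [revAt_le (by omega)]]
            simp [coeff_one]
          · rw [show Polynomial.revAt 1 (n + 1 + 1) = n + 1 + 1 from
              revAt_eq_self_of_lt (by omega)]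
            simp [coeff_X, coeff_one]
      rw [h3, h4]
      have h6 : reverse (1 : ℂ[X]) = 1 := by
        have := reverse_C (R := ℂ) 1
        rwa [C_1] at this
      rw [h6, natDegree_one, add_zero, pow_one, C_neg]
      ring
    induction μ with
    | zero =>
      have := reverse_C (R := ℂ) 1
      rw [pow_zero, pow_zero]
      rwa [C_1] at this
    | succ n ih => rw [pow_succ, reverse_mul_of_domain, ih, h2, pow_succ]
  rw [h1]

/-- the multiplicity of the eigenvalue `q` is at most the order of vanishing at `1 / q` -/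
theorem mult_le {V : Type} [AddCommGroup V] [Module ℂ V] [FiniteDimensional ℂ V]
    (T : Module.End ℂ V) (L : ℚ[X]) (hL : L.map (algebraMap ℚ ℂ) = T.charpoly.reverse) {q : ℕ}
    (hq : q ≠ 0) {ρ : ℕ} {M : ℚ[X]} (hLM : L = (1 - C (q : ℚ) * X) ^ ρ * M)
    (hM : M.eval (1 / (q : ℚ)) ≠ 0) : finrank ℂ (T.eigenspace (q : ℂ)) ≤ ρ := by
  obtain ⟨μ, hμ⟩ : ∃ μ, μ = T.charpoly.rootMultiplicity (q : ℂ) := ⟨_, rfl⟩
  have h1 : finrank ℂ (T.eigenspace (q : ℂ)) ≤ μ := by
    have h2 : T.eigenspace (q : ℂ) ≤ T.maxGenEigenspace (q : ℂ) :=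
      Module.End.eigenspace_le_maxGenEigenspace
    have h3 := Submodule.finrank_mono h2
    rwa [LinearMap.finrank_maxGenEigenspace_eq, ← hμ] at h3
  refine h1.trans ?_
  have h2 : (X - C (q : ℂ)) ^ μ ∣ T.charpoly := by
    rw [hμ]
    exact pow_rootMultiplicity_dvd _ _
  have h3 := dvd_reverse h2
  rw [← hL] at h3
  have h4 : ((1 - C (q : ℚ) * X) ^ μ : ℚ[X]).map (algebraMap ℚ ℂ) ∣ L.map (algebraMap ℚ ℂ) := by
    have h5 : ((1 - C (q : ℚ) * X) ^ μ : ℚ[X]).map (algebraMap ℚ ℂ) = (1 - C (q : ℂ) * X) ^ μ := by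
      rw [Polynomial.map_pow, Polynomial.map_sub, Polynomial.map_mul, Polynomial.map_one,
        Polynomial.map_C, Polynomial.map_X]
      simp
    rw [h5]
    exact h3
  rw [Polynomial.map_dvd_map'] at h4
  by_contra hlt
  push Not at hlt
  obtain ⟨g, hg⟩ := h4
  have hne : (1 - C (q : ℚ) * X : ℚ[X]) ≠ 0 := by
    intro h0
    have h5 := congrArg (fun P => P.coeff 0) h0
    simp at h5
  have h5 : M = (1 - C (q : ℚ) * X) ^ (μ - ρ) * g := by
    have h6 : (1 - C (q : ℚ) * X) ^ ρ * M = (1 - C (q : ℚ) * X) ^ ρ *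
        ((1 - C (q : ℚ) * X) ^ (μ - ρ) * g) := by
      rw [← hLM, ← mul_assoc, ← pow_add, Nat.add_sub_cancel' hlt.le]
      exact hg
    exact mul_left_cancel₀ (pow_ne_zero _ hne) h6
  apply hM
  rw [h5, eval_mul, eval_pow, eval_sub, eval_mul, eval_C, eval_X, eval_one]
  have h6 : (1 : ℚ) - (q : ℚ) * (1 / (q : ℚ)) = 0 := by
    have : (q : ℚ) ≠ 0 := Nat.cast_ne_zero.2 hq
    field_simp
    ring
  rw [h6, zero_pow (by omega), zero_mul]

/-- dimensions in a short exact sequence which embeds in an eigenspace -/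
theorem dims {A S T V : Type} [AddCommGroup A] [Module ℂ A] [AddCommGroup S] [Module ℂ S]
    [AddCommGroup T] [Module ℂ T] [AddCommGroup V] [Module ℂ V] [FiniteDimensional ℂ V]
    {j : A →ₗ[ℂ] S} {π : S →ₗ[ℂ] T} {ι : S →ₗ[ℂ] V} (hj : Function.Injective j)
    (hex : LinearMap.range j = LinearMap.ker π) (hπ : Function.Surjective π)
    (hι : Function.Injective ι) {E : Submodule ℂ V} (hE : ∀ s, ι s ∈ E) :
    Module.Finite ℂ A ∧ Module.Finite ℂ S ∧ Module.Finite ℂ T ∧
      finrank ℂ A + finrank ℂ T ≤ finrank ℂ E := by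
  have hS : Module.Finite ℂ S := Module.Finite.of_injective ι hι
  have hA : Module.Finite ℂ A := Module.Finite.of_injective j hj
  have hT : Module.Finite ℂ T := Module.Finite.of_surjective π hπ
  refine ⟨hA, hS, hT, ?_⟩
  have h1 : finrank ℂ (LinearMap.range π) + finrank ℂ (LinearMap.ker π) = finrank ℂ S :=
    LinearMap.finrank_range_add_finrank_ker π
  rw [LinearMap.range_eq_top.2 hπ, finrank_top, ← hex, LinearMap.finrank_range_of_inj hj] at h1
  have h2 : finrank ℂ S ≤ finrank ℂ E := by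
    have h3 : Function.Injective (ι.codRestrict E hE) := by
      intro x y hxy
      exact hι (congrArg Subtype.val hxy)
    exact LinearMap.finrank_le_finrank_of_injective h3
  omega

/-- in every finite field with enough elements there is a good irreducible form -/
theorem exists_good {κ : Type} [Field κ] [Finite κ] {p : ℕ} [CharP κ p] (hp : p.Prime)
    {a b g : ℕ} (ha : a ≠ 0) (hb : b ≠ 0) (hab : a.Coprime b) (hg : g ≠ 0)
    (hM : g * (a * b) ∣ p - 1) (hκ : g * (PF.bnd p a b g + 1) < Nat.card κ) :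
    ∃ α : Fin g → κ, Irreducible (PF.mon α) ∧ Pool.Agent.N867.AS.LP.OrdP p a b g (PF.mon α) := by
  have : Fintype κ := Fintype.ofFinite κ
  have h1 := PF.card_irr_good_ge (κ := κ) hp ha hb hab hg hM
  by_contra hcon
  push Not at hcon
  have h2 : Nat.card {α : Fin g → κ // Irreducible (PF.mon α) ∧
      Pool.Agent.N867.AS.LP.OrdP p a b g (PF.mon α)} = 0 := by
    rw [Nat.card_eq_zero]
    left
    exact ⟨fun x => hcon x.1 x.2.1 x.2.2⟩
  rw [h2, Nat.cast_zero] at h1
  have hg' : (0 : ℚ) < g := by exact_mod_cast Nat.pos_of_ne_zero hg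
  have hκ' : (g : ℚ) * (PF.bnd p a b g + 1) < Nat.card κ := by exact_mod_cast hκ
  have hq : (0 : ℚ) < Nat.card κ := by exact_mod_cast Nat.card_pos
  have h3 : (Nat.card κ : ℚ) ^ g = (Nat.card κ : ℚ) ^ (g - 1) * Nat.card κ := by
    rw [← pow_succ, Nat.sub_add_cancel (Nat.one_le_iff_ne_zero.2 hg)]
  have h4 : (0 : ℚ) < (Nat.card κ : ℚ) ^ (g - 1) * (Nat.card κ * (1 / g) -
      (PF.bnd p a b g + 1)) := by
    refine mul_pos (pow_pos hq _) (sub_pos.2 ?_)
    rw [mul_one_div, lt_div_iff₀ hg', mul_comm]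
    exact hκ'
  rw [h3] at h1
  linarith

end Pool.Agent.U407.SG
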