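import Pool.Agent.U407.NP22

/-!
# Products with graded representations: invariants and evaluations
-/

set_option autoImplicit false
set_option maxHeartbeats 1000000
set_option linter.unusedSectionVars false

namespace Pool.Agent.U407.NP

open Polynomial Pool.Agent.N867.AS Pool.Agent.N867.AS.Trans Module TensorProduct

section lin

variable {H V T S : Type} [AddCommGroup H] [Module ℂ H] [FiniteDimensional ℂ H]
  [AddCommGroup V] [Module ℂ V] [FiniteDimensional ℂ V] [AddCommGroup T] [Module ℂ T]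
  [FiniteDimensional ℂ T] [AddCommGroup S] [Module ℂ S] [FiniteDimensional ℂ S]
  {F : Module.End ℂ H} {Ψ : Module.End ℂ V} {G : Module.End ℂ T}
  {n : ℕ} {w ws : Fin n → H} {BX : H →ₗ[ℂ] H →ₗ[ℂ] ℂ} {i : V →ₗ[ℂ] H}

/-- an intertwiner between spaces without common eigenvalues is zero -/
theorem intertwiner_zero {M : Type} [AddCommGroup M] [Module ℂ M] [FiniteDimensional ℂ M]
    {g : Module.End ℂ S} {h : Module.End ℂ M} (u : S →ₗ[ℂ] M) (hu : ∀ s, u (g s) = h (u s))
    (hno : ∀ μ, g.HasEigenvalue μ → ¬ h.HasEigenvalue μ) : u = 0 := by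
  by_contra h0
  have hP : ∀ (P : ℂ[X]) (s : S), u (aeval g P s) = aeval h P (u s) := by
    intro P s
    induction P using Polynomial.induction_on' generalizing s with
    | add P Q hP hQ => rw [map_add, map_add, LinearMap.add_apply, LinearMap.add_apply, map_add, hP, hQ]
    | monomial k c =>
      rw [aeval_monomial, aeval_monomial]
      have h1 : ∀ (k : ℕ) (s : S), u ((g ^ k) s) = (h ^ k) (u s) := by
        intro k
        induction k with
        | zero => intro s; rfl
        | succ k ih => intro s; rw [pow_succ, pow_succ, Module.End.mul_apply, Module.End.mul_apply, ih, hu]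
      change u (c • (g ^ k) s) = c • (h ^ k) (u s)
      rw [map_smul, h1]
  obtain ⟨N, hN⟩ : ∃ N : Submodule ℂ M, N = LinearMap.range u := ⟨_, rfl⟩
  have hNs : ∀ x ∈ N, h x ∈ N := by
    intro x hx
    rw [hN] at hx ⊢
    obtain ⟨s, rfl⟩ := hx
    exact ⟨g s, hu s⟩
  have hnt : Nontrivial N := by
    rw [Submodule.nontrivial_iff_ne_bot, hN]
    intro hb
    exact h0 (LinearMap.range_eq_bot.1 hb)
  obtain ⟨μ, hμ⟩ := Module.End.exists_eigenvalue (h.restrict hNs)
  obtain ⟨x, hx⟩ := hμ.exists_hasEigenvector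
  have hx1 : h (x : M) = μ • (x : M) := by
    have h1 := Module.End.mem_eigenspace_iff.1 hx.1
    have h2 := congrArg Subtype.val h1
    simpa using h2
  have hx0 : (x : M) ≠ 0 := fun h => hx.2 (Subtype.ext h)
  have hx2 : (x : M) ∈ LinearMap.range u := hN ▸ x.2
  obtain ⟨s, hs⟩ := hx2
  have h3 := hP (minpoly ℂ g) s
  rw [minpoly.aeval, LinearMap.zero_apply, map_zero, hs] at h3
  have h4 : aeval h (minpoly ℂ g) (x : M) = (minpoly ℂ g).eval μ • (x : M) :=
    Module.End.aeval_apply_of_hasEigenvector ⟨Module.End.mem_eigenspace_iff.2 hx1, hx0⟩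
  rw [h4] at h3
  have h5 : (minpoly ℂ g).eval μ = 0 := (smul_eq_zero.1 h3.symm).resolve_right hx0
  refine hno μ ?_ (Module.End.hasEigenvalue_of_hasEigenvector (x := (x : M))
    ⟨Module.End.mem_eigenspace_iff.2 hx1, hx0⟩)
  exact Module.End.hasEigenvalue_iff_isRoot.2 h5

/-- what remains after the removal of the algebraic part -/
noncomputable def rest (T : Type) [AddCommGroup T] [Module ℂ T] (BX : H →ₗ[ℂ] H →ₗ[ℂ] ℂ)
    (w ws : Fin n → H) : Module.End ℂ (H ⊗[ℂ] T) :=
  LinearMap.id - ∑ k, (TensorProduct.mk ℂ H T (w k)) ∘ₗ push T BX (ws k)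

theorem rest_apply (c : H ⊗[ℂ] T) :
    rest T BX w ws c = c - ∑ k, w k ⊗ₜ[ℂ] push T BX (ws k) c := by
  rw [rest, LinearMap.sub_apply, LinearMap.sum_apply]
  rfl

theorem rest_alg (hdual : ∀ k l, BX (ws k) (w l) = if k = l then 1 else 0) (k : Fin n) (z : T) :
    rest T BX w ws (w k ⊗ₜ[ℂ] z) = 0 := by
  classical
  rw [rest_apply, Finset.sum_eq_single k]
  · rw [push_tmul, hdual, if_pos rfl, one_smul, sub_self]
  · intro l _ hl
    rw [push_tmul, hdual, if_neg hl, zero_smul, tmul_zero]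
  · intro h
    exact absurd (Finset.mem_univ k) h

theorem rest_i (horth : ∀ k v, BX (ws k) (i v) = 0) (v : V) (z : T) :
    rest T BX w ws (i v ⊗ₜ[ℂ] z) = i v ⊗ₜ[ℂ] z := by
  rw [rest_apply, Finset.sum_eq_zero, sub_zero]
  intro k _
  rw [push_tmul, horth, zero_smul, tmul_zero]

theorem rest_comm (hi : ∀ v, i (Ψ v) = F (i v)) (hw : ∀ k, F (w k) = w k)
    (hspan : Submodule.span ℂ (Set.range w) ⊔ LinearMap.range i = ⊤)
    (hdual : ∀ k l, BX (ws k) (w l) = if k = l then 1 else 0)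
    (horth : ∀ k v, BX (ws k) (i v) = 0) (c : H ⊗[ℂ] T) :
    rest T BX w ws (TensorProduct.map F G c) = TensorProduct.map F G (rest T BX w ws c) := by
  rw [rest_apply, rest_apply, map_sub, map_sum]
  congr 1
  refine Finset.sum_congr rfl fun k _ => ?_
  rw [push_end hi hw hspan hdual horth, TensorProduct.map_tmul, hw]

/-- the graded piece of degree `r` of the product -/
noncomputable def piece (w : Fin n → H) (d : Fin n → ℤ) (i : V →ₗ[ℂ] H)
    (gr : ℤ → Submodule ℂ T) (r : ℤ) : Submodule ℂ (H ⊗[ℂ] T) :=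
  (⨆ k, Submodule.map (TensorProduct.mk ℂ H T (w k)) (gr (r - d k))) ⊔
    LinearMap.range (TensorProduct.map i (gr (r - 1)).subtype)

variable {d : Fin n → ℤ} {gr : ℤ → Submodule ℂ T}

theorem push_piece (hdual : ∀ k l, BX (ws k) (w l) = if k = l then 1 else 0)
    (horth : ∀ k v, BX (ws k) (i v) = 0) (r : ℤ) (k : Fin n) {c : H ⊗[ℂ] T}
    (hc : c ∈ piece w d i gr r) : push T BX (ws k) c ∈ gr (r - d k) := by
  classical
  have h1 : piece w d i gr r ≤ Submodule.comap (push T BX (ws k)) (gr (r - d k)) := by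
    refine sup_le (iSup_le fun l => ?_) ?_
    · rw [Submodule.map_le_iff_le_comap]
      intro z hz
      change push T BX (ws k) (w l ⊗ₜ[ℂ] z) ∈ gr (r - d k)
      rw [push_tmul, hdual]
      by_cases h : k = l
      · rw [if_pos h, one_smul, h]
        exact hz
      · rw [if_neg h, zero_smul]
        exact Submodule.zero_mem _
    · rintro _ ⟨u, rfl⟩
      rw [Submodule.mem_comap]
      induction u using TensorProduct.induction_on with
      | zero => rw [map_zero, map_zero]; exact Submodule.zero_mem _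
      | tmul v z =>
        rw [TensorProduct.map_tmul, push_tmul, horth, zero_smul]
        exact Submodule.zero_mem _
      | add x y hx hy =>
        rw [map_add, map_add]
        exact Submodule.add_mem _ hx hy
  exact h1 hc

theorem rest_piece (hdual : ∀ k l, BX (ws k) (w l) = if k = l then 1 else 0)
    (horth : ∀ k v, BX (ws k) (i v) = 0) (r : ℤ) {c : H ⊗[ℂ] T}
    (hc : c ∈ piece w d i gr r) :
    rest T BX w ws c ∈ LinearMap.range (TensorProduct.map i (gr (r - 1)).subtype) := by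
  have h1 : piece w d i gr r ≤ Submodule.comap (rest T BX w ws)
      (LinearMap.range (TensorProduct.map i (gr (r - 1)).subtype)) := by
    refine sup_le (iSup_le fun l => ?_) ?_
    · rw [Submodule.map_le_iff_le_comap]
      intro z _
      rw [Submodule.mem_comap]
      have h2 : rest T BX w ws (TensorProduct.mk ℂ H T (w l) z) = 0 := rest_alg hdual l z
      rw [Submodule.mem_comap, h2]
      exact Submodule.zero_mem _
    · rintro _ ⟨u, rfl⟩
      rw [Submodule.mem_comap]
      induction u using TensorProduct.induction_on with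
      | zero => rw [map_zero, map_zero]; exact Submodule.zero_mem _
      | tmul v z =>
        rw [TensorProduct.map_tmul, rest_i horth]
        exact ⟨v ⊗ₜ[ℂ] z, TensorProduct.map_tmul _ _ _ _⟩
      | add x y hx hy =>
        rw [map_add, map_add]
        exact Submodule.add_mem _ hx hy
  exact h1 hc

theorem recover_gr (hinj : Function.Injective i) (hi : ∀ v, i (Ψ v) = F (i v))
    (hw : ∀ k, F (w k) = w k)
    (hspan : Submodule.span ℂ (Set.range w) ⊔ LinearMap.range i = ⊤)
    (hdual : ∀ k l, BX (ws k) (w l) = if k = l then 1 else 0)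
    (horth : ∀ k v, BX (ws k) (i v) = 0) {r : ℤ}
    (hY : ∀ z ∈ gr (r - 1), G z ∈ gr (r - 1)) {g : Module.End ℂ S}
    (hno : ∀ μ, g.HasEigenvalue μ →
      ¬ Module.End.HasEigenvalue (TensorProduct.map Ψ (G.restrict hY)) μ)
    (c : S →ₗ[ℂ] H ⊗[ℂ] T) (hc : ∀ s, c (g s) = TensorProduct.map F G (c s))
    (hp : ∀ s, c s ∈ piece w d i gr r) (s : S) :
    c s = ∑ k, w k ⊗ₜ[ℂ] push T BX (ws k) (c s) := by
  obtain ⟨J, hJ⟩ : ∃ J : V ⊗[ℂ] (gr (r - 1)) →ₗ[ℂ] H ⊗[ℂ] T,
    J = TensorProduct.map i (gr (r - 1)).subtype := ⟨_, rfl⟩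
  have hJinj : Function.Injective J := by
    have h1 : J = (LinearMap.lTensor H (gr (r - 1)).subtype) ∘ₗ
        (LinearMap.rTensor (gr (r - 1)) i) := by
      rw [hJ]
      apply TensorProduct.ext'
      intro v z
      rw [TensorProduct.map_tmul, LinearMap.comp_apply, LinearMap.rTensor_tmul,
        LinearMap.lTensor_tmul]
    rw [h1, LinearMap.coe_comp]
    exact (Module.Flat.lTensor_preserves_injective_linearMap _ (Submodule.injective_subtype _)).comp
      (Module.Flat.rTensor_preserves_injective_linearMap i hinj)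
  obtain ⟨J', hJ'⟩ := J.exists_leftInverse_of_injective (LinearMap.ker_eq_bot.2 hJinj)
  have hJ'a : ∀ y, J' (J y) = y := fun y => LinearMap.congr_fun hJ' y
  obtain ⟨u, hu⟩ : ∃ u : S →ₗ[ℂ] V ⊗[ℂ] (gr (r - 1)), u = J' ∘ₗ rest T BX w ws ∘ₗ c := ⟨_, rfl⟩
  have hJu : ∀ s, J (u s) = rest T BX w ws (c s) := by
    intro s
    obtain ⟨y, hy⟩ := rest_piece hdual horth r (hp s)
    rw [← hJ] at hy
    rw [hu, LinearMap.comp_apply, LinearMap.comp_apply, ← hy, hJ'a]
  have hJc : ∀ y, J (TensorProduct.map Ψ (G.restrict hY) y) = TensorProduct.map F G (J y) := by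
    intro y
    induction y using TensorProduct.induction_on with
    | zero => simp
    | tmul v z =>
      rw [hJ, TensorProduct.map_tmul, TensorProduct.map_tmul, TensorProduct.map_tmul,
        TensorProduct.map_tmul, hi]
      rfl
    | add x y hx hy => rw [map_add, map_add, hx, hy, map_add, map_add]
  have h0 : u = 0 := by
    refine intertwiner_zero u (fun s => hJinj ?_) hno
    rw [hJu, hc, rest_comm hi hw hspan hdual horth, ← hJu, hJc]
  have h1 := hJu s
  rw [h0, LinearMap.zero_apply, map_zero, rest_apply] at h1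
  exact sub_eq_zero.1 h1.symm

theorem sup_map_eq_iff (hdual : ∀ k l, BX (ws k) (w l) = if k = l then 1 else 0)
    {A B : Fin n → Submodule ℂ T} :
    (⨆ k, Submodule.map (TensorProduct.mk ℂ H T (w k)) (A k)) =
      (⨆ k, Submodule.map (TensorProduct.mk ℂ H T (w k)) (B k)) ↔ ∀ k, A k = B k := by
  classical
  have key : ∀ A B : Fin n → Submodule ℂ T,
      (⨆ k, Submodule.map (TensorProduct.mk ℂ H T (w k)) (A k)) ≤
      (⨆ k, Submodule.map (TensorProduct.mk ℂ H T (w k)) (B k)) → ∀ k, A k ≤ B k := by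
    intro A B h k z hz
    have h1 : w k ⊗ₜ[ℂ] z ∈ ⨆ k, Submodule.map (TensorProduct.mk ℂ H T (w k)) (B k) :=
      h (Submodule.mem_iSup_of_mem k ⟨z, hz, rfl⟩)
    have h2 : (⨆ k, Submodule.map (TensorProduct.mk ℂ H T (w k)) (B k)) ≤
        Submodule.comap (push T BX (ws k)) (B k) := by
      refine iSup_le fun l => ?_
      rw [Submodule.map_le_iff_le_comap]
      intro z hz
      change push T BX (ws k) (w l ⊗ₜ[ℂ] z) ∈ B k
      rw [push_tmul, hdual]
      by_cases h : k = l
      · rw [if_pos h, one_smul, h]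
        exact hz
      · rw [if_neg h, zero_smul]
        exact Submodule.zero_mem _
    have h3 := h2 h1
    rw [Submodule.mem_comap, push_tmul, hdual, if_pos rfl, one_smul] at h3
    exact h3
  constructor
  · exact fun h k => le_antisymm (key A B h.le k) (key B A h.ge k)
  · intro h
    rw [funext h]

end lin

section rep

variable {Γ : Type} [Group Γ] {H V T S : Type} [AddCommGroup H] [Module ℂ H]
  [FiniteDimensional ℂ H] [AddCommGroup V] [Module ℂ V] [FiniteDimensional ℂ V]
  [AddCommGroup T] [Module ℂ T] [FiniteDimensional ℂ T] [AddCommGroup S] [Module ℂ S]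
  [FiniteDimensional ℂ S]

/-- equivariant maps with values in a subspace, evaluated at `s` -/
def evals {M : Type} [AddCommGroup M] [Module ℂ M] (ρS : Representation ℂ Γ S)
    (ρ : Representation ℂ Γ M) (N : Submodule ℂ M) (s : S) : Submodule ℂ M where
  carrier := {x | ∃ f : S →ₗ[ℂ] M, (∀ γ y, f (ρS γ y) = ρ γ (f y)) ∧ (∀ y, f y ∈ N) ∧ f s = x}
  add_mem' := by
    rintro x y ⟨f, hf1, hf2, rfl⟩ ⟨g, hg1, hg2, rfl⟩
    refine ⟨f + g, fun γ y => ?_, fun y => ?_, rfl⟩
    · rw [LinearMap.add_apply, LinearMap.add_apply, hf1, hg1, map_add]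
    · exact N.add_mem (hf2 y) (hg2 y)
  zero_mem' := ⟨0, fun γ y => by simp, fun y => N.zero_mem, rfl⟩
  smul_mem' := by
    rintro a x ⟨f, hf1, hf2, rfl⟩
    refine ⟨a • f, fun γ y => ?_, fun y => ?_, rfl⟩
    · rw [LinearMap.smul_apply, LinearMap.smul_apply, hf1, map_smul]
    · exact N.smul_mem a (hf2 y)

variable {ρS : Representation ℂ Γ S} {ρV : Representation ℂ Γ V} {ρH : Representation ℂ Γ H}
  {ρT : Representation ℂ Γ T} {n : ℕ} {w ws : Fin n → H} {BX : H →ₗ[ℂ] H →ₗ[ℂ] ℂ}
  {i : V →ₗ[ℂ] H} {d : Fin n → ℤ} {gr : ℤ → Submodule ℂ T} {φ : Γ}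

/-- the evaluations of the product -/
theorem evals_product (hinj : Function.Injective i) (hi : ∀ γ v, i (ρV γ v) = ρH γ (i v))
    (hw : ∀ γ k, ρH γ (w k) = w k)
    (hspan : Submodule.span ℂ (Set.range w) ⊔ LinearMap.range i = ⊤)
    (hdual : ∀ k l, BX (ws k) (w l) = if k = l then 1 else 0)
    (horth : ∀ k v, BX (ws k) (i v) = 0) {r : ℤ}
    (hY : ∀ z ∈ gr (r - 1), ρT φ z ∈ gr (r - 1))
    (hno : ∀ μ, Module.End.HasEigenvalue (ρS φ) μ →
      ¬ Module.End.HasEigenvalue (TensorProduct.map (ρV φ) ((ρT φ).restrict hY)) μ) (s : S) :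
    evals ρS (ρH.tprod ρT) (piece w d i gr r) s =
      ⨆ k, Submodule.map (TensorProduct.mk ℂ H T (w k)) (evals ρS ρT (gr (r - d k)) s) := by
  apply le_antisymm
  · rintro _ ⟨f, hf1, hf2, rfl⟩
    have h1 := recover_gr hinj (hi φ) (hw φ) hspan hdual horth hY hno f (hf1 φ) hf2 s
    rw [h1]
    refine Submodule.sum_mem _ fun k _ => Submodule.mem_iSup_of_mem k ⟨_, ?_, rfl⟩
    refine ⟨(push T BX (ws k)) ∘ₗ f, fun γ y => ?_, fun y => ?_, rfl⟩
    · rw [LinearMap.comp_apply, LinearMap.comp_apply, hf1]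
      exact push_end (hi γ) (hw γ) hspan hdual horth k (f y)
    · exact push_piece hdual horth r k (hf2 y)
  · refine iSup_le fun k => ?_
    rintro _ ⟨_, ⟨f, hf1, hf2, rfl⟩, rfl⟩
    refine ⟨(TensorProduct.mk ℂ H T (w k)) ∘ₗ f, fun γ y => ?_, fun y => ?_, rfl⟩
    · rw [LinearMap.comp_apply, LinearMap.comp_apply, hf1]
      change w k ⊗ₜ[ℂ] ρT γ (f y) = TensorProduct.map (ρH γ) (ρT γ) (w k ⊗ₜ[ℂ] f y)
      rw [TensorProduct.map_tmul, hw]
    · exact Submodule.mem_sup_left (Submodule.mem_iSup_of_mem k ⟨_, hf2 y, rfl⟩)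

/-- the invariants are the evaluations for the trivial representation -/
theorem evals_trivial {M : Type} [AddCommGroup M] [Module ℂ M] (ρ : Representation ℂ Γ M)
    (N : Submodule ℂ M) : evals (1 : Representation ℂ Γ ℂ) ρ N (1 : ℂ) = N ⊓ ρ.invariants := by
  ext x
  constructor
  · rintro ⟨f, hf1, hf2, rfl⟩
    refine ⟨hf2 1, ?_⟩
    rw [SetLike.mem_coe, Representation.mem_invariants]
    intro γ
    rw [← hf1]
    rfl
  · rintro ⟨hx1, hx2⟩
    rw [SetLike.mem_coe, Representation.mem_invariants] at hx2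
    refine ⟨LinearMap.toSpanSingleton ℂ M x, fun γ y => ?_, fun y => ?_, ?_⟩
    · rw [LinearMap.toSpanSingleton_apply, LinearMap.toSpanSingleton_apply, map_smul, hx2]
      rfl
    · rw [LinearMap.toSpanSingleton_apply]
      exact N.smul_mem y hx1
    · rw [LinearMap.toSpanSingleton_apply, one_smul]

theorem invariants_product (hinj : Function.Injective i) (hi : ∀ γ v, i (ρV γ v) = ρH γ (i v))
    (hw : ∀ γ k, ρH γ (w k) = w k)
    (hspan : Submodule.span ℂ (Set.range w) ⊔ LinearMap.range i = ⊤)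
    (hdual : ∀ k l, BX (ws k) (w l) = if k = l then 1 else 0)
    (horth : ∀ k v, BX (ws k) (i v) = 0) {r : ℤ}
    (hY : ∀ z ∈ gr (r - 1), ρT φ z ∈ gr (r - 1))
    (hno : ¬ Module.End.HasEigenvalue (TensorProduct.map (ρV φ) ((ρT φ).restrict hY)) 1) :
    piece w d i gr r ⊓ (ρH.tprod ρT).invariants =
      ⨆ k, Submodule.map (TensorProduct.mk ℂ H T (w k)) (gr (r - d k) ⊓ ρT.invariants) := by
  have h1 := evals_product (ρS := (1 : Representation ℂ Γ ℂ)) (φ := φ) (d := d) hinj hi hw hspan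
    hdual horth hY (fun μ hμ => by
      obtain ⟨x, hx⟩ := hμ.exists_hasEigenvector
      have h2 := Module.End.mem_eigenspace_iff.1 hx.1
      change x = μ • x at h2
      have h3 : μ = 1 := by
        have h4 : (1 - μ) • x = 0 := by rw [sub_smul, one_smul, ← h2, sub_self]
        rcases smul_eq_zero.1 h4 with h5 | h5
        · exact (sub_eq_zero.1 h5).symm
        · exact absurd h5 hx.2
      rw [h3]
      exact hno) 1
  rw [evals_trivial] at h1
  simp only [evals_trivial] at h1
  exact h1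

/-- the classes of the product -/
theorem classes_product_gr (hinj : Function.Injective i) (hi : ∀ γ v, i (ρV γ v) = ρH γ (i v))
    (hw : ∀ γ k, ρH γ (w k) = w k)
    (hspan : Submodule.span ℂ (Set.range w) ⊔ LinearMap.range i = ⊤)
    (hdual : ∀ k l, BX (ws k) (w l) = if k = l then 1 else 0)
    (horth : ∀ k v, BX (ws k) (i v) = 0) {r : ℤ}
    (hY : ∀ z ∈ gr (r - 1), ρT φ z ∈ gr (r - 1))
    (hno : ¬ Module.End.HasEigenvalue (TensorProduct.map (ρV φ) ((ρT φ).restrict hY)) 1)
    {A : ℤ → Submodule ℂ T} {C : Submodule ℂ (H ⊗[ℂ] T)}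
    (hC : C ≤ piece w d i gr r ⊓ (ρH.tprod ρT).invariants)
    (hprod : ∀ k, ∀ z ∈ A (r - d k), w k ⊗ₜ[ℂ] z ∈ C)
    (hpush : ∀ k, ∀ c ∈ C, push T BX (ws k) c ∈ A (r - d k)) :
    C = ⨆ k, Submodule.map (TensorProduct.mk ℂ H T (w k)) (A (r - d k)) := by
  classical
  apply le_antisymm
  · intro c hc
    have h1 := hC hc
    have h2 : c = ∑ k, w k ⊗ₜ[ℂ] push T BX (ws k) c := by
      rw [invariants_product hinj hi hw hspan hdual horth hY hno] at h1
      have h3 : (⨆ k, Submodule.map (TensorProduct.mk ℂ H T (w k))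
          (gr (r - d k) ⊓ ρT.invariants)) ≤ LinearMap.ker (rest T BX w ws) := by
        refine iSup_le fun k => ?_
        rintro _ ⟨z, _, rfl⟩
        exact rest_alg hdual k z
      have h4 := h3 h1
      rw [LinearMap.mem_ker, rest_apply] at h4
      exact sub_eq_zero.1 h4
    rw [h2]
    exact Submodule.sum_mem _ fun k _ => Submodule.mem_iSup_of_mem k ⟨_, hpush k c hc, rfl⟩
  · refine iSup_le fun k => ?_
    rw [Submodule.map_le_iff_le_comap]
    exact fun z hz => hprod k z hz

end rep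

section surface

variable {κ : Type} [Field κ] [Fintype κ] {p : ℕ} [hp : Fact p.Prime] [CharP κ p]
  {V T : Type} [AddCommGroup V] [Module ℂ V] [FiniteDimensional ℂ V] [AddCommGroup T]
  [Module ℂ T] [FiniteDimensional ℂ T] {Ψ : Module.End ℂ V} {G : Module.End ℂ T}

/-- no eigenvalue `q ^ j` on the product with the interesting part -/
theorem log_no {a b : ℕ} {f : κ[X][X]} (hf : Dg a b f) (hap : a ∣ p - 1) (hbp : b ∣ p - 1)
    (htr : ∀ m, m ≠ 0 → LinearMap.trace ℂ V (((Fintype.card κ : ℂ) • Ψ) ^ m) =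
      (Npts p f (Fintype.card κ ^ m) : ℂ) - ((Fintype.card κ : ℂ) ^ m) ^ 2)
    (hpure : ∀ α, Module.End.HasEigenvalue ((Fintype.card κ : ℂ) • Ψ) α →
      ‖α‖ = (Fintype.card κ : ℝ)) (e : ℤ)
    (hgood : ∀ β, G.HasEigenvalue β → ‖β‖ = (Fintype.card κ : ℝ) ^ e →
      ∃ τ : ℂ →+* PadicAlgCl p, ∀ (r : ℤ) (i j : ℕ),
        0 < i → i < a → 0 < j → j < b → sl p (Fintype.card κ) τ β ≠ r + i / a + j / b) :
    ¬ Module.End.HasEigenvalue (TensorProduct.map Ψ G) ((Fintype.card κ : ℂ) ^ e) := by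
  intro h
  have hq : (Fintype.card κ : ℂ) ≠ 0 := Nat.cast_ne_zero.2 Fintype.card_ne_zero
  obtain ⟨α, β, hα, hβ, hαβ⟩ := eigenvalue_tensor _ _ h
  have h1 : Module.End.HasEigenvalue ((Fintype.card κ : ℂ) • Ψ) ((Fintype.card κ : ℂ) * α) := by
    obtain ⟨v, hv⟩ := hα.exists_hasEigenvector
    refine Module.End.hasEigenvalue_of_hasEigenvector (x := v)
      ⟨Module.End.mem_eigenspace_iff.2 ?_, hv.2⟩
    rw [LinearMap.smul_apply, Module.End.mem_eigenspace_iff.1 hv.1, smul_smul]
  refine no_tate hf hap hbp htr hpure (e + 1) (fun β hβ hn => hgood β hβ ?_) 1 one_ne_zero _ β h1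
    hβ ?_
  · rw [hn, add_sub_cancel_right]
  · rw [pow_one, mul_assoc, ← hαβ, Nat.cast_one, one_mul, zpow_add₀ hq, zpow_one, mul_comm]

end surface

end Pool.Agent.U407.NP
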