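import Pool.Agent.U407.NP24

/-!
# Products and generic points
-/

set_option autoImplicit false
set_option maxHeartbeats 1000000
set_option linter.unusedSectionVars false

namespace Pool.Agent.U407.NP

open Polynomial Pool.Agent.N867.AS Pool.Agent.N867.AS.Trans Module TensorProduct

section gen

variable {H V T M Tg : Type} [AddCommGroup H] [Module ℂ H] [FiniteDimensional ℂ H]
  [AddCommGroup V] [Module ℂ V] [FiniteDimensional ℂ V] [AddCommGroup T] [Module ℂ T]
  [FiniteDimensional ℂ T] [AddCommGroup M] [Module ℂ M] [AddCommGroup Tg] [Module ℂ Tg]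
  {F : Module.End ℂ H} {Ψ : Module.End ℂ V} {G : Module.End ℂ T} {FM : Module.End ℂ M}
  {Fg : Module.End ℂ Tg} {n : ℕ} {w : Fin n → H} {i : V →ₗ[ℂ] H} {d : Fin n → ℤ}
  {gr : ℤ → Submodule ℂ T} {e : H} {P : H ⊗[ℂ] T →ₗ[ℂ] M} {PZ : T →ₗ[ℂ] Tg}
  {pull : Tg →ₗ[ℂ] M}

theorem aeval_intertwine {A B : Type} [AddCommGroup A] [Module ℂ A] [AddCommGroup B] [Module ℂ B]
    {g : Module.End ℂ A} {h : Module.End ℂ B} (u : A →ₗ[ℂ] B) (hu : ∀ s, u (g s) = h (u s))
    (Q : ℂ[X]) (s : A) : u (aeval g Q s) = aeval h Q (u s) := by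
  have h1 : ∀ (k : ℕ) (s : A), u ((g ^ k) s) = (h ^ k) (u s) := by
    intro k
    induction k with
    | zero => intro s; rfl
    | succ k ih => intro s; rw [pow_succ, pow_succ, Module.End.mul_apply, Module.End.mul_apply, ih, hu]
  induction Q using Polynomial.induction_on' generalizing s with
  | add P Q hP hQ => rw [map_add, map_add, LinearMap.add_apply, LinearMap.add_apply, map_add, hP, hQ]
  | monomial k c =>
    rw [aeval_monomial, aeval_monomial]
    change u (c • (g ^ k) s) = c • (h ^ k) (u s)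
    rw [map_smul, h1]

theorem pow_intertwine {A B : Type} [AddCommGroup A] [Module ℂ A] [AddCommGroup B] [Module ℂ B]
    {g : Module.End ℂ A} {h : Module.End ℂ B} (u : A →ₗ[ℂ] B) (hu : ∀ s, u (g s) = h (u s))
    (k : ℕ) (s : A) : u ((g ^ k) s) = (h ^ k) (u s) := by
  induction k generalizing s with
  | zero => rfl
  | succ k ih => rw [pow_succ, pow_succ, Module.End.mul_apply, Module.End.mul_apply, ih, hu]

/-- generalized invariants over an extension of degree `m` -/
noncomputable def ginv {A : Type} [AddCommGroup A] [Module ℂ A] (g : Module.End ℂ A) (m k : ℕ) :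
    Submodule ℂ A := LinearMap.ker ((g ^ m - 1) ^ k)

theorem ginv_eq {A : Type} [AddCommGroup A] [Module ℂ A] (g : Module.End ℂ A) (m k : ℕ) :
    (g ^ m - 1) ^ k = aeval (g ^ m) ((X - 1 : ℂ[X]) ^ k) := by
  rw [map_pow, map_sub, aeval_X, map_one]

theorem generic_main (hi : ∀ v, i (Ψ v) = F (i v))
    (hk : ∀ k, (d k = 0 ∧ w k = e) ∨ ∀ z, P (w k ⊗ₜ[ℂ] z) = 0) (hk₀ : ∃ k, d k = 0 ∧ w k = e)
    (hP : ∀ c, P (TensorProduct.map F G c) = FM (P c)) (hPZ : ∀ z, PZ (G z) = Fg (PZ z))
    (hpull : ∀ x, pull (Fg x) = FM (pull x)) (hpull' : ∀ z, P (e ⊗ₜ[ℂ] z) = pull (PZ z))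
    (hinj : Function.Injective pull) {r : ℤ}
    (hY : ∀ z ∈ gr (r - 1), G z ∈ gr (r - 1)) (hgr : ∀ z ∈ gr r, G z ∈ gr r) {m : ℕ}
    (hno : ¬ Module.End.HasEigenvalue (TensorProduct.map (Ψ ^ m) ((G.restrict hY) ^ m)) 1)
    (k : ℕ) :
    Submodule.map P (piece w d i gr r) ⊓ ginv FM m k =
      Submodule.map pull (Submodule.map PZ (gr r) ⊓ ginv Fg m k) := by
  obtain ⟨k₀, hd₀, hw₀⟩ := hk₀
  have hPm := fun c => pow_intertwine P hP m c
  have hpm := fun x => pow_intertwine pull hpull m x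
  have hZm := fun z => pow_intertwine PZ hPZ m z
  have hginv : ∀ x : Tg, x ∈ ginv Fg m k ↔ pull x ∈ ginv FM m k := by
    intro x
    rw [ginv, ginv, LinearMap.mem_ker, LinearMap.mem_ker, ginv_eq, ginv_eq,
      ← aeval_intertwine pull hpm]
    constructor
    · intro h
      rw [h, map_zero]
    · intro h
      exact hinj (h.trans (map_zero _).symm)
  apply le_antisymm
  · rintro y ⟨⟨c, hc, rfl⟩, hy⟩
    obtain ⟨E, hE⟩ : ∃ E : Module.End ℂ (V ⊗[ℂ] gr (r - 1)),
      E = TensorProduct.map (Ψ ^ m) ((G.restrict hY) ^ m) := ⟨_, rfl⟩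
    obtain ⟨J, hJ⟩ : ∃ J : V ⊗[ℂ] (gr (r - 1)) →ₗ[ℂ] H ⊗[ℂ] T,
      J = TensorProduct.map i (gr (r - 1)).subtype := ⟨_, rfl⟩
    -- decomposition of `P c`
    have hdec : ∃ (z : T) (u : V ⊗[ℂ] gr (r - 1)), z ∈ gr r ∧ P c = pull (PZ z) + P (J u) := by
      rw [SetLike.mem_coe, piece, Submodule.mem_sup] at hc
      obtain ⟨c1, hc1, c2, ⟨u, rfl⟩, rfl⟩ := hc
      have h1 : (⨆ k, Submodule.map (TensorProduct.mk ℂ H T (w k)) (gr (r - d k))) ≤
          Submodule.comap P (Submodule.map pull (Submodule.map PZ (gr r))) := by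
        refine iSup_le fun l => ?_
        rw [Submodule.map_le_iff_le_comap]
        intro z hz
        rw [Submodule.mem_comap]
        change P (w l ⊗ₜ[ℂ] z) ∈ (Submodule.map pull (Submodule.map PZ (gr r)))
        rcases hk l with ⟨h2, h3⟩ | h2
        · rw [h3, hpull']
          rw [h2, sub_zero] at hz
          exact ⟨_, ⟨z, hz, rfl⟩, rfl⟩
        · rw [h2]
          exact Submodule.zero_mem _
      obtain ⟨_, ⟨z, hz, rfl⟩, h2⟩ := h1 hc1
      refine ⟨z, u, hz, ?_⟩
      rw [map_add, h2, hJ]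
    obtain ⟨z, u, hz, hdec⟩ := hdec
    have hJE : ∀ u, J (E u) = (TensorProduct.map F G ^ m) (J u) := by
      intro u
      have hJ1 : ∀ u, J (TensorProduct.map Ψ (G.restrict hY) u) =
          TensorProduct.map F G (J u) := by
        intro y
        induction y using TensorProduct.induction_on with
        | zero => simp
        | tmul v z =>
          rw [hJ, TensorProduct.map_tmul, TensorProduct.map_tmul, TensorProduct.map_tmul,
            TensorProduct.map_tmul, hi]
          rfl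
        | add x y hx hy => rw [map_add, map_add, hx, hy, map_add, map_add]
      have h3 := pow_intertwine J hJ1 m u
      rw [map_pow'] at h3
      rw [hE]
      exact h3
    -- a polynomial which kills the interesting part and is prime to `X - 1`
    have hcop : IsCoprime (minpoly ℂ E) ((X - 1 : ℂ[X]) ^ k) := by
      have h4 : IsCoprime (X - 1 : ℂ[X]) (minpoly ℂ E) := by
        have h5 : Irreducible (X - 1 : ℂ[X]) := by
          have h6 := Polynomial.irreducible_X_sub_C (1 : ℂ)
          rwa [map_one] at h6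
        rw [h5.coprime_iff_not_dvd]
        intro h6
        have h7 : (X - C 1 : ℂ[X]) ∣ minpoly ℂ E := by rwa [map_one]
        rw [Polynomial.dvd_iff_isRoot] at h7
        exact hno (hE ▸ (Module.End.hasEigenvalue_iff_isRoot.2 h7))
      exact (h4.pow_left).symm
    obtain ⟨A, B, hAB⟩ := hcop
    have hy1 : aeval (FM ^ m) ((X - 1 : ℂ[X]) ^ k) (P c) = 0 := by
      rw [SetLike.mem_coe, ginv, LinearMap.mem_ker, ginv_eq] at hy
      exact hy
    have hy2 : aeval (FM ^ m) (A * minpoly ℂ E) (P c) = P c := by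
      have h5 : aeval (FM ^ m) (A * minpoly ℂ E + B * (X - 1 : ℂ[X]) ^ k) (P c) = P c := by
        rw [hAB, map_one]
        rfl
      rw [map_add, LinearMap.add_apply] at h5
      have h6 : aeval (FM ^ m) (B * (X - 1 : ℂ[X]) ^ k) (P c) = 0 := by
        rw [map_mul, Module.End.mul_apply, hy1, map_zero]
      rw [h6, add_zero] at h5
      exact h5
    have hu0 : aeval (FM ^ m) (A * minpoly ℂ E) (P (J u)) = 0 := by
      have h5 : ∀ u, (P ∘ₗ J) (E u) = (FM ^ m) ((P ∘ₗ J) u) := by
        intro u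
        rw [LinearMap.comp_apply, LinearMap.comp_apply, hJE, hPm]
      have h6 := aeval_intertwine (P ∘ₗ J) h5 (A * minpoly ℂ E) u
      rw [LinearMap.comp_apply, LinearMap.comp_apply] at h6
      rw [← h6, map_mul, minpoly.aeval, mul_zero, LinearMap.zero_apply, map_zero, map_zero]
    have hfin : P c = pull (PZ (aeval (G ^ m) (A * minpoly ℂ E) z)) := by
      rw [← hy2, hdec, map_add, hu0, add_zero, ← aeval_intertwine pull hpm,
        ← aeval_intertwine PZ hZm]
    have hz' : aeval (G ^ m) (A * minpoly ℂ E) z ∈ gr r := by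
      have h7 : ∀ (k : ℕ), ∀ z ∈ gr r, ((G ^ m) ^ k) z ∈ gr r := by
        intro k
        rw [← pow_mul]
        induction m * k with
        | zero => exact fun z hz => hz
        | succ j ih =>
          intro z hz
          rw [pow_succ, Module.End.mul_apply]
          exact ih _ (hgr z hz)
      induction (A * minpoly ℂ E) using Polynomial.induction_on' with
      | add P Q hP hQ =>
        rw [map_add, LinearMap.add_apply]
        exact Submodule.add_mem _ hP hQ
      | monomial k c =>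
        rw [aeval_monomial]
        change c • ((G ^ m) ^ k) z ∈ gr r
        exact Submodule.smul_mem _ _ (h7 k z hz)
    refine ⟨PZ (aeval (G ^ m) (A * minpoly ℂ E) z), ⟨⟨_, hz', rfl⟩, ?_⟩, hfin.symm⟩
    rw [SetLike.mem_coe, hginv, ← hfin]
    exact hy
  · rintro _ ⟨_, ⟨⟨z, hz, rfl⟩, hx⟩, rfl⟩
    refine ⟨⟨e ⊗ₜ[ℂ] z, ?_, hpull' z⟩, (hginv _).1 hx⟩
    refine Submodule.mem_sup_left (Submodule.mem_iSup_of_mem k₀ ⟨z, ?_, ?_⟩)
    · rw [hd₀, sub_zero]
      exact hz
    · rw [hw₀]
      rfl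

end gen

end Pool.Agent.U407.NP
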