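import Pool.Agent.U407.NP2

/-!
# Power sums, and the Galois group of the field of `p`-adic numbers acting on roots of unity
-/

set_option autoImplicit false

namespace Pool.Agent.U407.NP

open Polynomial Pool.Agent.N867.AS

section ps

variable {K : Type*} [Field K]

/-- the polynomial `∏ (1 - a X)` -/
noncomputable def lp (A : Multiset K) : K[X] := (A.map fun a => (1 - C a * X)).prod

theorem hasPS_lp (A : Multiset K) :
    HasPS ((lp A : K[X]) : PowerSeries K) (fun m => (A.map fun a => a ^ m).sum) := by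
  have h : ((lp A : K[X]) : PowerSeries K) =
      (A.map fun a => (1 - PowerSeries.C a * PowerSeries.X : PowerSeries K)).prod := by
    unfold lp
    rw [← Polynomial.coeToPowerSeries.ringHom_apply, map_multiset_prod, Multiset.map_map]
    congr 1
    refine Multiset.map_congr rfl fun a _ => ?_
    simp
  rw [h]
  exact hasPS_multiset A

theorem lp_ne_zero (A : Multiset K) : lp A ≠ 0 := by
  intro h
  have h1 := (hasPS_lp A).1
  rw [h] at h1
  simp at h1

theorem roots_lp (A : Multiset K) (hA : ∀ a ∈ A, a ≠ 0) :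
    (lp A).roots = A.map fun a => a⁻¹ := by
  induction A using Multiset.induction_on with
  | empty => simp [lp]
  | cons a A ih =>
    have ha := hA a (Multiset.mem_cons_self a A)
    have h1 : lp (a ::ₘ A) = (1 - C a * X) * lp A := by
      unfold lp
      rw [Multiset.map_cons, Multiset.prod_cons]
    have h2 : (1 - C a * X : K[X]) = C (-a) * (X - C a⁻¹) := by
      rw [mul_sub, ← C_mul, neg_mul, mul_inv_cancel₀ ha, C_neg, C_neg, C_1]
      ring
    have h3 : (1 - C a * X : K[X]) ≠ 0 := by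
      intro h
      have := congrArg (fun P => P.coeff 0) h
      simp at this
    rw [h1, roots_mul (mul_ne_zero h3 (lp_ne_zero A)),
      ih fun b hb => hA b (Multiset.mem_cons_of_mem hb), h2,
      roots_C_mul _ (neg_ne_zero.2 ha), roots_X_sub_C, Multiset.map_cons,
      Multiset.singleton_add]

theorem eq_of_ps [CharZero K] {A B : Multiset K} (hA : ∀ a ∈ A, a ≠ 0) (hB : ∀ a ∈ B, a ≠ 0)
    (h : ∀ m, m ≠ 0 → (A.map fun a => a ^ m).sum = (B.map fun a => a ^ m).sum) : A = B := by
  have h1 : (lp A : PowerSeries K) = (lp B : PowerSeries K) :=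
    (hasPS_lp A).unique ((hasPS_lp B).congr fun m hm => (h m hm).symm)
  have h2 : lp A = lp B := Polynomial.coe_injective K h1
  have h3 : A.map (fun a => a⁻¹) = B.map (fun a => a⁻¹) := by
    rw [← roots_lp A hA, ← roots_lp B hB, h2]
  exact Multiset.map_injective inv_injective h3

/-- rational power sums, rational polynomial -/
theorem exists_rat [CharZero K] {A : Multiset K} (N : ℕ → ℚ)
    (h : ∀ m, m ≠ 0 → (A.map fun a => a ^ m).sum = (N m : K)) :
    ∃ P : ℚ[X], P.map (algebraMap ℚ K) = lp A := by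
  have hps : HasPS ((lp A : K[X]) : PowerSeries K) (fun m => (N m : K)) :=
    (hasPS_lp A).congr h
  have hc : ∀ n, ∃ x : ℚ, (x : K) = (lp A).coeff n := by
    intro n
    induction n using Nat.strong_induction_on with
    | _ n ih =>
      rcases Nat.eq_zero_or_pos n with rfl | hn
      · refine ⟨1, ?_⟩
        have h1 := hps.1
        rw [← PowerSeries.coeff_zero_eq_constantCoeff_apply, Polynomial.coeff_coe] at h1
        rw [h1, Rat.cast_one]
      · have h1 := hps.coeff_eq n
        choose! x hx using ih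
        refine ⟨(n : ℚ)⁻¹ * -∑ j ∈ Finset.range n, N (j + 1) * x (n - 1 - j), ?_⟩
        have hn' : (n : K) ≠ 0 := Nat.cast_ne_zero.2 hn.ne'
        rw [Polynomial.coeff_coe] at h1
        have h2 : (lp A).coeff n = (n : K)⁻¹ *
            -∑ j ∈ Finset.range n, (N (j + 1) : K) * PowerSeries.coeff (n - 1 - j)
              ((lp A : K[X]) : PowerSeries K) := by
          rw [← h1, inv_mul_cancel_left₀ hn']
        rw [h2]
        push_cast
        congr 2
        refine Finset.sum_congr rfl fun j hj => ?_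
        rw [hx (n - 1 - j) (by
          have := Finset.mem_range.1 hj
          omega)]
  choose x hx using hc
  refine ⟨∑ i ∈ Finset.range ((lp A).natDegree + 1), monomial i (x i), ?_⟩
  rw [Polynomial.map_sum]
  conv_rhs => rw [Polynomial.as_sum_range (lp A)]
  refine Finset.sum_congr rfl fun i _ => ?_
  rw [Polynomial.map_monomial, ← hx i]
  rfl

theorem isAlgebraic_of_rat [CharZero K] {A : Multiset K} (hA : ∀ a ∈ A, a ≠ 0) (N : ℕ → ℚ)
    (h : ∀ m, m ≠ 0 → (A.map fun a => a ^ m).sum = (N m : K)) {a : K} (ha : a ∈ A) :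
    IsAlgebraic ℚ a := by
  obtain ⟨P, hP⟩ := exists_rat N h
  have h0 : P ≠ 0 := by
    rintro rfl
    rw [Polynomial.map_zero] at hP
    exact lp_ne_zero A hP.symm
  have h1 : a⁻¹ ∈ (lp A).roots := by
    rw [roots_lp A hA]
    exact Multiset.mem_map_of_mem _ ha
  have h2 : IsAlgebraic ℚ a⁻¹ := by
    refine ⟨P, h0, ?_⟩
    rw [Polynomial.aeval_def, ← Polynomial.eval_map, hP]
    exact (mem_roots'.1 h1).2
  have h3 := h2.inv
  rwa [inv_inv] at h3

end ps

section gal

variable {p : ℕ} [hp : Fact p.Prime]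

theorem irreducible_cyclotomic : Irreducible (cyclotomic p ℚ_[p]) := by
  have hprime : (Ideal.span {(p : ℤ_[p])}).IsPrime :=
    (Ideal.span_singleton_prime (by exact_mod_cast hp.1.ne_zero)).2 PadicInt.prime_p
  have hE : ((cyclotomic p ℤ_[p]).comp (X + 1)).IsEisensteinAt (Ideal.span {(p : ℤ_[p])}) := by
    have h0 := cyclotomic_comp_X_add_one_isEisensteinAt p
    have hmap : (cyclotomic p ℤ_[p]).comp (X + 1) =
        ((cyclotomic p ℤ).comp (X + 1)).map (Int.castRingHom ℤ_[p]) := by
      rw [Polynomial.map_comp, map_cyclotomic, Polynomial.map_add, Polynomial.map_X,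
        Polynomial.map_one]
    have hmon : ((cyclotomic p ℤ).comp (X + 1)).Monic := by
      rw [show (X + 1 : ℤ[X]) = X + C 1 by simp]
      refine (cyclotomic.monic p ℤ).comp (monic_X_add_C 1) fun h => ?_
      rw [natDegree_X_add_C] at h
      exact zero_ne_one h.symm
    refine Monic.isEisensteinAt_of_mem_of_notMem ?_ hprime.ne_top (fun {i hi} => ?_) ?_
    · rw [hmap]
      exact hmon.map _
    · rw [hmap, hmon.natDegree_map] at hi
      have h1 := h0.mem hi
      rw [Ideal.submodule_span_eq, Ideal.mem_span_singleton] at h1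
      obtain ⟨z, hz⟩ := h1
      rw [hmap, coeff_map, hz, Ideal.mem_span_singleton]
      exact ⟨(z : ℤ_[p]), by simp⟩
    · have h1 : ((cyclotomic p ℤ_[p]).comp (X + 1)).coeff 0 = (p : ℤ_[p]) := by
        rw [coeff_zero_eq_eval_zero, eval_comp, cyclotomic_prime, eval_add, eval_X, eval_one,
          zero_add, eval_geom_sum, one_geom_sum]
      rw [h1, Ideal.span_singleton_pow, Ideal.mem_span_singleton]
      rintro ⟨z, hz⟩
      have hpne : (p : ℤ_[p]) ≠ 0 := by exact_mod_cast hp.1.ne_zero
      have h2 : (p : ℤ_[p]) * 1 = (p : ℤ_[p]) * ((p : ℤ_[p]) * z) := by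
        rw [mul_one, ← mul_assoc, ← pow_two]
        exact hz
      have h3 := mul_left_cancel₀ hpne h2
      exact PadicInt.prime_p.not_unit (IsUnit.of_mul_eq_one z h3.symm)
  have hirr : Irreducible ((cyclotomic p ℤ_[p]).comp (X + 1)) := by
    refine hE.irreducible hprime ?_ ?_
    · refine Monic.isPrimitive ?_
      rw [show (X + 1 : ℤ_[p][X]) = X + C 1 by simp]
      refine (cyclotomic.monic p _).comp (monic_X_add_C 1) fun h => ?_
      rw [natDegree_X_add_C] at h
      exact zero_ne_one h.symm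
    · rw [natDegree_comp, show (X + 1 : ℤ_[p][X]) = X + C 1 by simp, natDegree_X_add_C, mul_one,
        natDegree_cyclotomic, Nat.totient_prime hp.1]
      have := hp.1.two_le
      omega
  have hirr2 : Irreducible (cyclotomic p ℤ_[p]) := by
    have h1 : algEquivAevalXAddC (1 : ℤ_[p]) (cyclotomic p ℤ_[p]) =
        (cyclotomic p ℤ_[p]).comp (X + 1) := by
      rw [show (X + 1 : ℤ_[p][X]) = X + C 1 by simp]
      rfl
    rw [← h1] at hirr
    exact (MulEquiv.irreducible_iff (algEquivAevalXAddC (1 : ℤ_[p]))).1 hirr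
  rw [(cyclotomic.monic p ℤ_[p]).irreducible_iff_irreducible_map_fraction_map (K := ℚ_[p]),
    map_cyclotomic] at hirr2
  exact hirr2

theorem exists_gal {ζ ζ' : PadicAlgCl p} (h : IsPrimitiveRoot ζ p) (h' : IsPrimitiveRoot ζ' p) :
    ∃ σ : PadicAlgCl p ≃ₐ[ℚ_[p]] PadicAlgCl p, σ ζ = ζ' ∧ ∀ x, ‖σ x‖ = ‖x‖ := by
  have hne : NeZero ((p : ℕ) : ℚ_[p]) := ⟨Nat.cast_ne_zero.2 hp.1.ne_zero⟩
  have h1 := h.minpoly_eq_cyclotomic_of_irreducible (K := ℚ_[p]) irreducible_cyclotomic
  have h2 := h'.minpoly_eq_cyclotomic_of_irreducible (K := ℚ_[p]) irreducible_cyclotomic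
  have h3 : IsConjRoot ℚ_[p] ζ' ζ := by
    unfold IsConjRoot
    rw [← h1, ← h2]
  obtain ⟨σ, hσ⟩ := isConjRoot_iff_exists_algEquiv.1 h3
  exact ⟨σ, hσ, fun x => (spectralNorm_eq_of_equiv σ x).symm⟩

/-- the numbers of elements of given norm in two multisets with conjugate power sums agree -/
theorem count_conj {ζ ζ' : PadicAlgCl p} (h : IsPrimitiveRoot ζ p) (h' : IsPrimitiveRoot ζ' p)
    {A A' : Multiset (PadicAlgCl p)} (hA : ∀ a ∈ A, a ≠ 0) (hA' : ∀ a ∈ A', a ≠ 0)
    (R : ℕ → ℚ[X])
    (hps : ∀ m, m ≠ 0 → (A.map fun a => a ^ m).sum = aeval ζ (R m))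
    (hps' : ∀ m, m ≠ 0 → (A'.map fun a => a ^ m).sum = aeval ζ' (R m)) :
    A.map (fun a => ‖a‖) = A'.map (fun a => ‖a‖) := by
  obtain ⟨σ, hσ, hn⟩ := exists_gal h h'
  have h1 : A.map σ = A' := by
    refine eq_of_ps ?_ hA' fun m hm => ?_
    · intro x hx
      obtain ⟨a, ha, rfl⟩ := Multiset.mem_map.1 hx
      exact (map_ne_zero σ).2 (hA a ha)
    · rw [Multiset.map_map, hps' m hm, ← hσ]
      have h2 : aeval (σ ζ) (R m) = σ (aeval ζ (R m)) := by
        have := Polynomial.aeval_algHom_apply ((σ : PadicAlgCl p →ₐ[ℚ_[p]]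
          PadicAlgCl p).restrictScalars ℚ) ζ (R m)
        exact this
      rw [h2, ← hps m hm, map_multiset_sum, Multiset.map_map]
      congr 1
      refine Multiset.map_congr rfl fun a _ => ?_
      simp
  rw [← h1, Multiset.map_map]
  exact Multiset.map_congr rfl fun a _ => (hn a).symm

end gal

end Pool.Agent.U407.NP
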