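import Pool.Agent.U407.NP3

/-!
# The slopes of `y ^ p - y = f(x, t)`, `f = u x ^ a + w t ^ b + ` lower terms
-/

set_option autoImplicit false
set_option maxHeartbeats 1000000

namespace Pool.Agent.U407.NP

open Polynomial Pool.Agent.N867.AS Pool.Agent.N867.AS.Trans Pool.Agent.N867.AS.Bd

/-- `f = u x ^ a + w t ^ b + ` terms `x ^ m t ^ n` with `b m + a n < a b`; `u`, `w` not zero -/
structure Dg {κ : Type} [Field κ] (a b : ℕ) (f : κ[X][X]) : Prop where
  ha : a ≠ 0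
  hb : b ≠ 0
  hx : (f.coeff a).coeff 0 ≠ 0
  ht : (f.coeff 0).coeff b ≠ 0
  rest : ∀ m n, (f.coeff m).coeff n ≠ 0 →
    (m = a ∧ n = 0) ∨ (m = 0 ∧ n = b) ∨ b * m + a * n < a * b

section diag

variable {κ : Type} [Field κ] {p : ℕ} [hp : Fact p.Prime]

theorem diag_Ψ {a b : ℕ} {f : κ[X][X]} (hf : Dg a b f) (φ : κ →+* Res.k p) :
    Diag (Ψ φ f) ![a, b] ![b, a] (a * b) := by
  refine ⟨?_, ?_, mul_ne_zero hf.ha hf.hb, ?_, ?_⟩
  · intro i
    fin_cases i
    · exact hf.ha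
    · exact hf.hb
  · intro i
    fin_cases i
    · rfl
    · exact Nat.mul_comm b a
  · intro i
    rw [coeff_Ψ]
    fin_cases i
    · simpa using hf.hx
    · simpa using hf.ht
  · intro μ hμ hne
    rw [MvPolynomial.mem_support_iff, coeff_Ψ] at hμ
    have h1 : (f.coeff (μ 0)).coeff (μ 1) ≠ 0 := fun h => hμ (by rw [h, map_zero])
    have hw : wt ![b, a] μ = b * μ 0 + a * μ 1 := by
      unfold wt
      rw [Fin.sum_univ_two]
      rfl
    rcases hf.rest _ _ h1 with ⟨h2, h3⟩ | ⟨h2, h3⟩ | h2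
    · exfalso
      apply hne 0
      ext i
      fin_cases i
      · simpa using h2
      · simpa using h3
    · exfalso
      apply hne 1
      ext i
      fin_cases i
      · simpa using h2
      · simpa using h3
    · rw [hw]
      exact h2

end diag

section comb

/-- the number of lattice points on a line -/
theorem card_line {a b : ℕ} (ha : a ≠ 0) (hb : b ≠ 0) (Q : ℕ → Prop)
    (h1 : ∀ w w', Q w → Q w' → w = w') (h2 : ∀ w, Q w → w ≤ a * b) :
    Nat.card {v : Fin 2 →₀ ℕ // (∀ i, v i ≠ 0) ∧ Q (wt ![b, a] v)} ≤ Nat.gcd a b ∧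
    (Q (a * b) → Nat.card {v : Fin 2 →₀ ℕ // (∀ i, v i ≠ 0) ∧ Q (wt ![b, a] v)} ≤
      Nat.gcd a b - 1) := by
  have hw : ∀ v : Fin 2 →₀ ℕ, wt ![b, a] v = b * v 0 + a * v 1 := by
    intro v
    unfold wt
    rw [Fin.sum_univ_two]
    rfl
  obtain ⟨g, hg⟩ : ∃ g, g = Nat.gcd a b := ⟨_, rfl⟩
  have hgpos : 0 < g := by rw [hg]; exact Nat.gcd_pos_of_pos_left _ (Nat.pos_of_ne_zero ha)
  obtain ⟨a', ha'⟩ : g ∣ a := by rw [hg]; exact Nat.gcd_dvd_left a b
  obtain ⟨b', hb'⟩ : g ∣ b := by rw [hg]; exact Nat.gcd_dvd_right a b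
  have hcop : Nat.Coprime a' b' := by
    have h3 : Nat.gcd (g * a') (g * b') = g * 1 := by rw [← ha', ← hb', ← hg, mul_one]
    rw [Nat.gcd_mul_left] at h3
    exact Nat.eq_of_mul_eq_mul_left hgpos h3
  have ha'pos : 0 < a' := Nat.pos_of_ne_zero fun h => ha (by rw [ha', h, mul_zero])
  have hb'pos : 0 < b' := Nat.pos_of_ne_zero fun h => hb (by rw [hb', h, mul_zero])
  have hlt : ∀ v : {v : Fin 2 →₀ ℕ // (∀ i, v i ≠ 0) ∧ Q (wt ![b, a] v)},
      v.1 0 / a' < g := by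
    intro v
    rw [Nat.div_lt_iff_lt_mul ha'pos, ← ha']
    have h3 := h2 _ v.2.2
    rw [hw] at h3
    have h4 := Nat.pos_of_ne_zero (v.2.1 1)
    have h5 : 0 < a * v.1 1 := Nat.mul_pos (Nat.pos_of_ne_zero ha) h4
    have h6 : b * v.1 0 < b * a := by rw [Nat.mul_comm b a]; omega
    exact Nat.lt_of_mul_lt_mul_left h6
  have hinj : ∀ v v' : {v : Fin 2 →₀ ℕ // (∀ i, v i ≠ 0) ∧ Q (wt ![b, a] v)},
      v.1 0 / a' = v'.1 0 / a' → v = v' := by
    intro v v' h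
    have h3 := h1 _ _ v.2.2 v'.2.2
    have hA : ∀ y : ℕ, a * y = g * (a' * y) := fun y => by rw [ha', mul_assoc]
    have hB : ∀ y : ℕ, b * y = g * (b' * y) := fun y => by rw [hb', mul_assoc]
    rw [hw, hw, hA, hA, hB, hB, ← Nat.mul_add, ← Nat.mul_add] at h3
    have h4 := Nat.eq_of_mul_eq_mul_left hgpos h3
    have h5 : v.1 0 ≡ v'.1 0 [MOD a'] := by
      have h6 : b' * v.1 0 ≡ b' * v'.1 0 [MOD a'] := by
        have h7 : b' * v.1 0 + a' * v.1 1 ≡ b' * v'.1 0 + a' * v'.1 1 [MOD a'] := by rw [h4]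
        have h8 : ∀ x y : ℕ, x + a' * y ≡ x [MOD a'] := fun x y => by
          unfold Nat.ModEq
          rw [Nat.add_mul_mod_self_left]
        exact (h8 _ _).symm.trans (h7.trans (h8 _ _))
      exact Nat.ModEq.cancel_left_of_coprime hcop h6
    have h6 : v.1 0 = v'.1 0 := by
      rw [← Nat.div_add_mod (v.1 0) a', ← Nat.div_add_mod (v'.1 0) a', h, h5]
    have h7 : v.1 1 = v'.1 1 := by
      rw [h6] at h4
      exact Nat.eq_of_mul_eq_mul_left ha'pos (Nat.add_left_cancel h4)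
    apply Subtype.ext
    ext i
    fin_cases i
    · exact h6
    · exact h7
  constructor
  · have h3 := Nat.card_le_card_of_injective
      (fun v : {v : Fin 2 →₀ ℕ // (∀ i, v i ≠ 0) ∧ Q (wt ![b, a] v)} =>
        (⟨v.1 0 / a', hlt v⟩ : Fin g)) (fun v v' h => hinj v v' (Fin.mk.inj_iff.1 h))
    rwa [Nat.card_eq_fintype_card (α := Fin g), Fintype.card_fin, hg] at h3
  · intro hQ
    have hpos : ∀ v : {v : Fin 2 →₀ ℕ // (∀ i, v i ≠ 0) ∧ Q (wt ![b, a] v)},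
        1 ≤ v.1 0 / a' := by
      intro v
      have h3 := h1 _ _ v.2.2 hQ
      rw [hw] at h3
      have h4 : a' ∣ v.1 0 := by
        have h5 : a' ∣ b' * v.1 0 := by
          have h6 : b' * v.1 0 + a' * v.1 1 = a' * b := by
            apply Nat.eq_of_mul_eq_mul_left hgpos
            calc g * (b' * v.1 0 + a' * v.1 1) = (g * b') * v.1 0 + (g * a') * v.1 1 := by ring
              _ = a * b := by rw [← ha', ← hb', h3]
              _ = g * (a' * b) := by rw [ha']; ring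
          have h7 : a' ∣ b' * v.1 0 + a' * v.1 1 := h6 ▸ dvd_mul_right _ _
          exact (Nat.dvd_add_left (dvd_mul_right _ _)).1 h7
        exact hcop.dvd_of_dvd_mul_left h5
      exact Nat.div_pos (Nat.le_of_dvd (Nat.pos_of_ne_zero (v.2.1 0)) h4) ha'pos
    have h3 := Nat.card_le_card_of_injective
      (fun v : {v : Fin 2 →₀ ℕ // (∀ i, v i ≠ 0) ∧ Q (wt ![b, a] v)} =>
        (⟨v.1 0 / a' - 1, by
          have := hlt v
          have := hpos v
          omega⟩ : Fin (g - 1))) (fun v v' h => hinj v v' (by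
        have h4 := Fin.mk.inj_iff.1 h
        have := hpos v
        have := hpos v'
        omega))
    rwa [Nat.card_eq_fintype_card (α := Fin (g - 1)), Fintype.card_fin, hg] at h3

end comb

section main

variable {κ : Type} [Field κ] [Fintype κ] {p : ℕ} [hp : Fact p.Prime] [CharP κ p]

/-- the number of inverse roots of given absolute value, slope at most one -/
theorem count_total {a b s : ℕ} {f : κ[X][X]} (hf : Dg a b f) (hap : a ∣ p - 1)
    (hbp : b ∣ p - 1) (hs : Fintype.card κ = p ^ s) (B : Multiset (PadicAlgCl p))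
    (hB0 : ∀ x ∈ B, x ≠ 0)
    (hB : ∀ m, m ≠ 0 → (B.map fun x => x ^ m).sum =
      (Npts p f (p ^ (s * m)) : PadicAlgCl p) - ((p ^ (s * m) : ℕ) : PadicAlgCl p) ^ 2)
    {x : PadicAlgCl p} (hx0 : x ≠ 0) (hx : ‖(p : PadicAlgCl p)‖ ^ s ≤ ‖x‖) [DecidableEq ℝ] :
    B.countP (fun y => ‖y‖ = ‖x‖) ≤ (p - 1) * Nat.gcd a b ∧
    (‖(p : PadicAlgCl p)‖ ^ s = ‖x‖ →
      B.countP (fun y => ‖y‖ = ‖x‖) ≤ (p - 1) * (Nat.gcd a b - 1)) := by
  classical
  have hp2 := hp.1.two_le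
  have hs0 : s ≠ 0 := by
    rintro rfl
    rw [pow_zero] at hs
    exact absurd hs (Fintype.one_lt_card (α := κ)).ne'
  have hpne : (p : PadicAlgCl p) ≠ 0 := Nat.cast_ne_zero.2 hp.1.ne_zero
  have hpn : ‖(p : PadicAlgCl p)‖ < 1 := Res.norm_p_lt p
  have hpn0 : 0 < ‖(p : PadicAlgCl p)‖ := norm_pos_iff.2 hpne
  have hxn : 0 < ‖x‖ := norm_pos_iff.2 hx0
  -- the embedding of the algebraic closure
  obtain ⟨φ⟩ : Nonempty (AlgebraicClosure κ →+* Res.k p) := by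
    have hch : CharP (AlgebraicClosure κ) p :=
      charP_of_injective_algebraMap (algebraMap κ (AlgebraicClosure κ)).injective p
    let _ : Algebra (ZMod p) κ := ZMod.algebra κ p
    have _ : IsScalarTower (ZMod p) κ (AlgebraicClosure κ) := inferInstance
    have _ : Algebra.IsAlgebraic (ZMod p) κ := Algebra.IsAlgebraic.of_finite _ _
    have _ : Algebra.IsAlgebraic (ZMod p) (AlgebraicClosure κ) :=
      Algebra.IsAlgebraic.trans (ZMod p) κ (AlgebraicClosure κ)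
    let _ : Algebra (ZMod p) (Res.k p) := ZMod.algebra _ p
    exact ⟨(IsAlgClosed.lift (R := ZMod p) (S := AlgebraicClosure κ) (M := Res.k p)).toRingHom⟩
  obtain ⟨φκ, hφκ⟩ : ∃ φκ : κ →+* Res.k p, φκ = φ.comp (algebraMap κ (AlgebraicClosure κ)) :=
    ⟨_, rfl⟩
  have hD := diag_Ψ hf φκ
  have hfs : ∀ μ, MvPolynomial.coeff μ (Ψ φκ f) ^ p ^ s = MvPolynomial.coeff μ (Ψ φκ f) := by
    intro μ
    rw [coeff_Ψ, ← map_pow, ← hs, FiniteField.pow_card]
  have hPS : HasPS ((lp B : (PadicAlgCl p)[X]) : PowerSeries (PadicAlgCl p)) (fun m =>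
      (Res.npts (Ψ φκ f) (p ^ (s * m)) : PadicAlgCl p) -
      ((p ^ (s * m) : ℕ) : PadicAlgCl p) ^ Fintype.card (Fin 2)) := by
    refine (hasPS_lp B).congr fun m hm => ?_
    have hQ : 1 < p ^ (s * m) := Nat.one_lt_pow (mul_ne_zero hs0 hm) hp.1.one_lt
    rw [hB m hm, hφκ, npts_eq_Npts p φ f hQ, Fintype.card_fin]
  obtain ⟨c, hc⟩ := IsAlgClosed.exists_pow_nat_eq x⁻¹ (Nat.pos_of_ne_zero hs0)
  have hc0 : c ≠ 0 := by
    rintro rfl
    rw [zero_pow hs0] at hc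
    exact inv_ne_zero hx0 hc.symm
  have hcs : ‖c‖ ^ s = ‖x‖⁻¹ := by rw [← norm_pow, hc, norm_inv]
  have hcn : 0 < ‖c‖ := norm_pos_iff.2 hc0
  have hcle : ‖c‖ ≤ ‖(p : PadicAlgCl p)⁻¹‖ := by
    refine le_of_pow_le_pow_left₀ hs0 (norm_nonneg _) ?_
    rw [hcs, norm_inv, inv_pow]
    exact inv_anti₀ (by positivity) hx
  have hcount := count_at hD (s := s) (fun i => by
      fin_cases i
      · exact hap
      · exact hbp) (by simp) (by simp) hc0 hcle hs0 hfs (lp B) hPS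
  rw [roots_lp B hB0, Multiset.countP_map, ← Multiset.countP_eq_card_filter] at hcount
  have hiff : ∀ y ∈ B, (‖y⁻¹‖ = ‖c ^ s‖) = (‖y‖ = ‖x‖) := by
    intro y _
    rw [hc, norm_inv, norm_inv, inv_inj]
  rw [Multiset.countP_congr rfl hiff] at hcount
  have hQ1 : ∀ w w' : ℕ, ‖(p : PadicAlgCl p)‖ ^ w * ‖c‖ ^ (a * b) = 1 →
      ‖(p : PadicAlgCl p)‖ ^ w' * ‖c‖ ^ (a * b) = 1 → w = w' := by
    intro w w' h h'
    have h1 := mul_right_cancel₀ (pow_pos hcn (a * b)).ne' (h.trans h'.symm)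
    exact (pow_right_strictAnti₀ hpn0 hpn).injective h1
  have hQ2 : ∀ w : ℕ, ‖(p : PadicAlgCl p)‖ ^ w * ‖c‖ ^ (a * b) = 1 → w ≤ a * b := by
    intro w hw
    have h1 : 1 ≤ ‖(p : PadicAlgCl p)‖ ^ w * ‖(p : PadicAlgCl p)⁻¹‖ ^ (a * b) :=
      hw.ge.trans (mul_le_mul_of_nonneg_left (pow_le_pow_left₀ hcn.le hcle _) (by positivity))
    rw [norm_inv, inv_pow, ← div_eq_mul_inv, one_le_div (by positivity),
      pow_le_pow_iff_right_of_lt_one₀ hpn0 hpn] at h1
    exact h1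
  have hline := card_line hf.ha hf.hb
    (fun w => ‖(p : PadicAlgCl p)‖ ^ w * ‖c‖ ^ (a * b) = 1) hQ1 hQ2
  rw [hcount]
  refine ⟨Nat.mul_le_mul_left _ hline.1, fun h => Nat.mul_le_mul_left _ (hline.2 ?_)⟩
  have h1 : ‖c‖ = ‖(p : PadicAlgCl p)‖⁻¹ := by
    refine (pow_left_inj₀ hcn.le (by positivity) hs0).1 ?_
    rw [hcs, ← h, inv_pow]
  rw [h1, inv_pow, mul_inv_cancel₀ (by positivity)]

end main

end Pool.Agent.U407.NP
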