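import Pool.Agent.U407.NP4

/-!
# The multiplicities for one character
-/

set_option autoImplicit false
set_option maxHeartbeats 1000000

namespace Pool.Agent.U407.NP

open Polynomial Pool.Agent.N867.AS Pool.Agent.N867.AS.Trans

theorem countP_eq_count {α β : Type*} [DecidableEq β] (M : Multiset α) (F : α → β) (t : β)
    [DecidablePred fun y => F y = t] :
    M.countP (fun y => F y = t) = (M.map F).count t := by
  induction M using Multiset.induction_on with
  | empty => simp
  | cons x M ih =>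
    rw [Multiset.countP_cons, Multiset.map_cons, Multiset.count_cons, ih]
    congr 1
    by_cases h : F x = t
    · rw [if_pos h, if_pos h.symm]
    · rw [if_neg h, if_neg (Ne.symm h)]

theorem countP_le {α : Type*} (M : Multiset α) (P Q : α → Prop) [DecidablePred P]
    [DecidablePred Q] (h : ∀ x ∈ M, P x → Q x) : M.countP P ≤ M.countP Q := by
  induction M using Multiset.induction_on with
  | empty => simp
  | cons x M ih =>
    rw [Multiset.countP_cons, Multiset.countP_cons]
    refine Nat.add_le_add (ih fun y hy => h y (Multiset.mem_cons_of_mem hy)) ?_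
    by_cases hx : P x
    · rw [if_pos hx, if_pos (h x (Multiset.mem_cons_self x M) hx)]
    · rw [if_neg hx]
      exact Nat.zero_le _

theorem sum_ps {K : Type*} [Field K] {ι : Type*} (S : Finset ι) (A : ι → Multiset K) (m : ℕ) :
    ((∑ i ∈ S, A i).map fun x => x ^ m).sum = ∑ i ∈ S, ((A i).map fun x => x ^ m).sum := by
  classical
  induction S using Finset.induction_on with
  | empty => simp
  | insert i S hi ih =>
    rw [Finset.sum_insert hi, Finset.sum_insert hi, Multiset.map_add, Multiset.sum_add, ih]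

theorem map_sum' {α β : Type*} {ι : Type*} (S : Finset ι) (A : ι → Multiset α) (F : α → β) :
    (∑ i ∈ S, A i).map F = ∑ i ∈ S, (A i).map F := by
  classical
  induction S using Finset.induction_on with
  | empty => simp
  | insert i S hi ih =>
    rw [Finset.sum_insert hi, Finset.sum_insert hi, Multiset.map_add, ih]

open Classical in
theorem main {κ : Type} [Field κ] [Fintype κ] {p : ℕ} [hp : Fact p.Prime] [CharP κ p]
    {a b s : ℕ} {f : κ[X][X]} (hf : Dg a b f) (hap : a ∣ p - 1) (hbp : b ∣ p - 1)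
    (hs : Fintype.card κ = p ^ s) (R : ℕ → ℚ[X]) (A : ℂ → Multiset ℂ)
    (habs : ∀ ω : ℂ, ω ^ p = 1 → ω ≠ 1 → ∀ α ∈ A ω, ‖α‖ = (p : ℝ) ^ s)
    (hA : ∀ ω : ℂ, ω ^ p = 1 → ω ≠ 1 → ∀ m, m ≠ 0 →
      ((A ω).map fun α => α ^ m).sum = aeval ω (R m))
    (hN : ∀ m, m ≠ 0 → ∑ ω ∈ (nthRootsFinset p (1 : ℂ)).erase 1,
      ((A ω).map fun α => α ^ m).sum = (Npts p f (p ^ (s * m)) : ℂ) -
        ((p ^ (s * m) : ℕ) : ℂ) ^ 2)
    (ω : ℂ) (hω : ω ^ p = 1) (hω1 : ω ≠ 1) (m : ℕ) (hm : m ≠ 0) :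
    (∀ x : ℂ, (A ω).countP (fun α => α ^ m = x) ≤ Nat.gcd a b) ∧
    (A ω).countP (fun α => α ^ m = ((p : ℂ) ^ s) ^ m) ≤ Nat.gcd a b - 1 := by
  have hp0 : 0 < p := hp.1.pos
  have hq0 : ((p : ℂ) ^ s) ≠ 0 := pow_ne_zero _ (Nat.cast_ne_zero.2 hp.1.ne_zero)
  have hpne : (p : PadicAlgCl p) ≠ 0 := Nat.cast_ne_zero.2 hp.1.ne_zero
  have hpn0 : 0 < ‖(p : PadicAlgCl p)‖ := norm_pos_iff.2 hpne
  obtain ⟨S, hS⟩ : ∃ S : Finset ℂ, S = (nthRootsFinset p (1 : ℂ)).erase 1 := ⟨_, rfl⟩
  have hmem : ∀ w, w ∈ S ↔ w ≠ 1 ∧ w ^ p = 1 := by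
    intro w
    rw [hS, Finset.mem_erase, mem_nthRootsFinset hp0]
  have hprim : ∀ w ∈ S, IsPrimitiveRoot w p := by
    intro w hw
    obtain ⟨h1, h2⟩ := (hmem w).1 hw
    have h3 := IsPrimitiveRoot.orderOf w
    rwa [orderOf_eq_prime h2 h1] at h3
  have hcardS : S.card = p - 1 := by
    have h1 : IsPrimitiveRoot ω p := hprim ω ((hmem ω).2 ⟨hω1, hω⟩)
    rw [hS, Finset.card_erase_of_mem ((mem_nthRootsFinset hp0 1).2 (one_pow p)),
      h1.card_nthRootsFinset]
  have hωS : ω ∈ S := (hmem ω).2 ⟨hω1, hω⟩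
  have hne0 : ∀ w ∈ S, ∀ α ∈ A w, α ≠ 0 := by
    intro w hw α hα h0
    obtain ⟨h1, h2⟩ := (hmem w).1 hw
    have h3 := habs w h2 h1 α hα
    rw [h0, norm_zero] at h3
    exact (pow_ne_zero s (Nat.cast_ne_zero.2 hp.1.ne_zero)) h3.symm
  -- algebraicity
  obtain ⟨N, hNdef⟩ : ∃ N : ℕ → ℚ, N = fun m => (Npts p f (p ^ (s * m)) : ℚ) -
    ((p ^ (s * m) : ℕ) : ℚ) ^ 2 := ⟨_, rfl⟩
  have hNC : ∀ {K : Type} [Field K] [CharZero K] (m : ℕ), ((N m : ℚ) : K) =
      (Npts p f (p ^ (s * m)) : K) - ((p ^ (s * m) : ℕ) : K) ^ 2 := by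
    intro K _ _ m
    rw [hNdef]
    push_cast
    rfl
  have halg : ∀ w ∈ S, ∀ α ∈ A w, IsAlgebraic ℚ α := by
    intro w hw α hα
    refine isAlgebraic_of_rat (A := ∑ w ∈ S, A w) ?_ N ?_
      (Multiset.mem_sum.2 ⟨w, hw, hα⟩)
    · intro x hx
      obtain ⟨w', hw', hx'⟩ := Multiset.mem_sum.1 hx
      exact hne0 w' hw' x hx'
    · intro m hm
      rw [sum_ps, hNC, hS]
      exact hN m hm
  -- the embedding in the `p`-adic numbers
  let K : IntermediateField ℚ ℂ := algebraicClosure ℚ ℂ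
  have hKalg : Algebra.IsAlgebraic ℚ K := algebraicClosure.isAlgebraic ℚ ℂ
  let j : K →ₐ[ℚ] PadicAlgCl p := IsAlgClosed.lift
  have hinjK : Function.Injective (algebraMap K ℂ) := (algebraMap K ℂ).injective
  have hlift : ∀ w, ∃ A' : Multiset K, w ∈ S → A'.map (algebraMap K ℂ) = A w := by
    intro w
    by_cases hw : w ∈ S
    · refine ⟨(A w).attach.map fun α => ⟨α.1, mem_algebraicClosure_iff.2
        (halg w hw α.1 α.2)⟩, fun _ => ?_⟩
      rw [Multiset.map_map]
      exact Multiset.attach_map_val (A w)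
    · exact ⟨0, fun h => absurd h hw⟩
  choose A' hA' using hlift
  have hwK : ∀ w, ∃ z : K, w ∈ S → algebraMap K ℂ z = w := by
    intro w
    by_cases hw : w ∈ S
    · refine ⟨⟨w, mem_algebraicClosure_iff.2 ?_⟩, fun _ => rfl⟩
      exact ((hprim w hw).isIntegral hp0).tower_top.isAlgebraic
    · exact ⟨0, fun h => absurd h hw⟩
  choose z hz using hwK
  have hA'ne : ∀ w ∈ S, ∀ x ∈ A' w, x ≠ 0 := by
    intro w hw x hx h0
    refine hne0 w hw (algebraMap K ℂ x) ?_ (by rw [h0, map_zero])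
    rw [← hA' w hw]
    exact Multiset.mem_map_of_mem _ hx
  have hps : ∀ w ∈ S, ∀ m, m ≠ 0 → ((A' w).map fun x => x ^ m).sum = aeval (z w) (R m) := by
    intro w hw m hm
    apply hinjK
    obtain ⟨h1, h2⟩ := (hmem w).1 hw
    have h3 := hA w h2 h1 m hm
    rw [← hA' w hw, Multiset.map_map] at h3
    rw [map_multiset_sum, Multiset.map_map]
    have h4 : algebraMap K ℂ (aeval (z w) (R m)) = aeval (algebraMap K ℂ (z w)) (R m) :=
      (Polynomial.aeval_algebraMap_apply ℂ (z w) (R m)).symm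
    rw [h4, hz w hw, ← h3]
    congr 1
  have hjps : ∀ w ∈ S, ∀ m, m ≠ 0 → (((A' w).map j).map fun x => x ^ m).sum =
      aeval (j (z w)) (R m) := by
    intro w hw m hm
    rw [Polynomial.aeval_algHom_apply, ← hps w hw m hm, map_multiset_sum, Multiset.map_map,
      Multiset.map_map]
    congr 1
    refine Multiset.map_congr rfl fun x _ => ?_
    simp
  have hjprim : ∀ w ∈ S, IsPrimitiveRoot (j (z w)) p := by
    intro w hw
    have h1 : IsPrimitiveRoot (z w) p := by
      have h2 := hprim w hw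
      rw [← hz w hw] at h2
      exact IsPrimitiveRoot.of_map_of_injective h2 hinjK
    exact h1.map_of_injective (f := j) j.injective
  let W : K → ℝ := fun x => ‖j x‖
  have hWmap : ∀ M : Multiset K, (M.map j).map (fun y => ‖y‖) = M.map W := by
    intro M
    rw [Multiset.map_map]
    rfl
  have hsame : ∀ w ∈ S, ∀ w' ∈ S, (A' w).map W = (A' w').map W := by
    intro w hw w' hw'
    rw [← hWmap, ← hWmap]
    refine count_conj (hjprim w hw) (hjprim w' hw') ?_ ?_ R (hjps w hw) (hjps w' hw')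
    · intro y hy
      obtain ⟨x, hx, rfl⟩ := Multiset.mem_map.1 hy
      exact (map_ne_zero j).2 (hA'ne w hw x hx)
    · intro y hy
      obtain ⟨x, hx, rfl⟩ := Multiset.mem_map.1 hy
      exact (map_ne_zero j).2 (hA'ne w' hw' x hx)
  -- the total
  obtain ⟨B, hB⟩ : ∃ B : Multiset K, B = ∑ w ∈ S, A' w := ⟨_, rfl⟩
  have hB0 : ∀ y ∈ B.map j, y ≠ 0 := by
    intro y hy
    obtain ⟨x, hx, rfl⟩ := Multiset.mem_map.1 hy
    rw [hB] at hx
    obtain ⟨w, hw, hx⟩ := Multiset.mem_sum.1 hx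
    exact (map_ne_zero j).2 (hA'ne w hw x hx)
  have hBps : ∀ m, m ≠ 0 → ((B.map j).map fun x => x ^ m).sum =
      (Npts p f (p ^ (s * m)) : PadicAlgCl p) - ((p ^ (s * m) : ℕ) : PadicAlgCl p) ^ 2 := by
    intro m hm
    have h1 : (B.map fun x => x ^ m).sum = ((N m : ℚ) : K) := by
      apply hinjK
      rw [map_ratCast, hNC, ← hN m hm, hB, sum_ps, map_sum, ← hS]
      refine Finset.sum_congr rfl fun w hw => ?_
      rw [← hA' w hw, map_multiset_sum, Multiset.map_map, Multiset.map_map]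
      congr 1
    rw [← hNC, ← map_ratCast j (N m), ← h1, map_multiset_sum, Multiset.map_map, Multiset.map_map]
    congr 1
    refine Multiset.map_congr rfl fun x _ => ?_
    simp
  have hcount : ∀ x : K, x ≠ 0 → ‖(p : PadicAlgCl p)‖ ^ s ≤ W x → ∀ w ∈ S,
      ((A' w).map W).count (W x) ≤ Nat.gcd a b ∧ (‖(p : PadicAlgCl p)‖ ^ s = W x →
        ((A' w).map W).count (W x) ≤ Nat.gcd a b - 1) := by
    intro x hx0 hx w hw
    have h1 := count_total hf hap hbp hs (B.map j) hB0 hBps (x := j x)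
      ((map_ne_zero j).2 hx0) hx
    have h2 : (B.map j).countP (fun y => ‖y‖ = ‖j x‖) =
        (p - 1) * ((A' w).map W).count (W x) := by
      rw [countP_eq_count, hWmap, hB, map_sum', Multiset.count_sum',
        Finset.sum_congr rfl (fun w' hw' => by rw [hsame w' hw' w hw]), Finset.sum_const, hcardS,
        smul_eq_mul]
    have hp1 : 0 < p - 1 := by
      have := hp.1.two_le
      omega
    rw [h2] at h1
    exact ⟨Nat.le_of_mul_le_mul_left h1.1 hp1,
      fun h => Nat.le_of_mul_le_mul_left (h1.2 h) hp1⟩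
  -- duality
  obtain ⟨qK, hqK⟩ : ∃ qK : K, qK = (p : K) ^ s := ⟨_, rfl⟩
  have hqK0 : qK ≠ 0 := by rw [hqK]; exact pow_ne_zero _ (Nat.cast_ne_zero.2 hp.1.ne_zero)
  have hqC : algebraMap K ℂ qK = (p : ℂ) ^ s := by rw [hqK, map_pow, map_natCast]
  have hWq : W qK = ‖(p : PadicAlgCl p)‖ ^ s := by
    change ‖j qK‖ = _
    rw [hqK, map_pow, map_natCast, norm_pow]
  have hstar : (starRingEnd ℂ) ω ∈ S := by
    rw [hmem]
    constructor
    · intro h
      apply hω1
      have := congrArg (starRingEnd ℂ) h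
      rwa [Complex.conj_conj, map_one] at this
    · rw [← map_pow, hω, map_one]
  have hdual : A' ((starRingEnd ℂ) ω) = (A' ω).map fun x => qK ^ 2 / x := by
    apply Multiset.map_injective hinjK
    rw [hA' _ hstar]
    have h1 : A ((starRingEnd ℂ) ω) = (A ω).map (starRingEnd ℂ) := by
      refine eq_of_ps (hne0 _ hstar) ?_ fun m hm => ?_
      · intro y hy
        obtain ⟨x, hx, rfl⟩ := Multiset.mem_map.1 hy
        exact (_root_.map_ne_zero _).2 (hne0 ω hωS x hx)
      · obtain ⟨h2, h3⟩ := (hmem _).1 hstar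
        rw [hA _ h3 h2 m hm, Multiset.map_map]
        have h4 : aeval ((starRingEnd ℂ) ω) (R m) = (starRingEnd ℂ) (aeval ω (R m)) := by
          rw [aeval_def, aeval_def, hom_eval₂]
          congr 1
          exact Subsingleton.elim _ _
        rw [h4, ← hA ω hω hω1 m hm, map_multiset_sum, Multiset.map_map]
        congr 1
        refine Multiset.map_congr rfl fun x _ => ?_
        simp
    rw [h1, ← hA' ω hωS, Multiset.map_map, Multiset.map_map]
    refine Multiset.map_congr rfl fun x hx => ?_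
    have hxA : algebraMap K ℂ x ∈ A ω := by
      rw [← hA' ω hωS]
      exact Multiset.mem_map_of_mem _ hx
    have hx0 : algebraMap K ℂ x ≠ 0 := hne0 ω hωS _ hxA
    simp only [Function.comp_apply]
    rw [map_div₀, map_pow, hqC, eq_div_iff hx0, mul_comm, Complex.mul_conj,
      Complex.normSq_eq_norm_sq, habs ω hω hω1 _ hxA]
    push_cast
    rfl
  have hall : ∀ x ∈ A' ω, ((A' ω).map W).count (W x) ≤ Nat.gcd a b := by
    intro x hx
    have hx0 := hA'ne ω hωS x hx
    have hWx : 0 < W x := norm_pos_iff.2 ((map_ne_zero j).2 hx0)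
    by_cases h : ‖(p : PadicAlgCl p)‖ ^ s ≤ W x
    · exact (hcount x hx0 h ω hωS).1
    · push Not at h
      have hW2 : ∀ y : K, W (qK ^ 2 / y) = (‖(p : PadicAlgCl p)‖ ^ s) ^ 2 / W y := by
        intro y
        change ‖j (qK ^ 2 / y)‖ = _
        rw [map_div₀, map_pow, norm_div, norm_pow]
        change W qK ^ 2 / W y = _
        rw [hWq]
      have h1 := (hcount (qK ^ 2 / x) (div_ne_zero (pow_ne_zero 2 hqK0) hx0) (by
        rw [hW2, le_div_iff₀ hWx, pow_two]
        exact mul_le_mul_of_nonneg_left h.le (by positivity)) _ hstar).1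
      rw [hdual, Multiset.map_map] at h1
      refine le_trans (le_of_eq ?_) h1
      have h2 : (A' ω).map (W ∘ fun x => qK ^ 2 / x) =
          ((A' ω).map W).map fun t => (‖(p : PadicAlgCl p)‖ ^ s) ^ 2 / t := by
        rw [Multiset.map_map]
        exact Multiset.map_congr rfl fun y _ => hW2 y
      rw [h2, hW2]
      have hinj : Function.Injective fun t : ℝ => (‖(p : PadicAlgCl p)‖ ^ s) ^ 2 / t := by
        intro t t' ht
        have h3 : (‖(p : PadicAlgCl p)‖ ^ s) ^ 2 ≠ 0 := by positivity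
        simp only [div_eq_mul_inv] at ht
        exact inv_injective (mul_left_cancel₀ h3 ht)
      exact (Multiset.count_map_eq_count' _ _ hinj _).symm
  have hWpow : ∀ x y : K, x ^ m = y ^ m → W x = W y := by
    intro x y h
    have h1 := congrArg (fun t => ‖j t‖) h
    simp only [map_pow, norm_pow] at h1
    exact (pow_left_inj₀ (norm_nonneg _) (norm_nonneg _) hm).1 h1
  constructor
  · intro x
    by_cases hex : ∃ α ∈ A ω, α ^ m = x
    · obtain ⟨α, hα, rfl⟩ := hex
      rw [← hA' ω hωS] at hα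
      obtain ⟨y, hy, rfl⟩ := Multiset.mem_map.1 hα
      refine le_trans ?_ (hall y hy)
      rw [← countP_eq_count, ← hA' ω hωS, Multiset.countP_map, ← Multiset.countP_eq_card_filter]
      refine countP_le _ _ _ fun t _ ht => hWpow t y (hinjK ?_)
      rw [map_pow, map_pow]
      exact ht
    · push Not at hex
      rw [Multiset.countP_eq_zero.2 fun α hα => hex α hα]
      exact Nat.zero_le _
  · refine le_trans ?_ ((hcount qK hqK0 (le_of_eq hWq.symm) ω hωS).2 hWq.symm)
    rw [← countP_eq_count, ← hA' ω hωS, Multiset.countP_map, ← Multiset.countP_eq_card_filter]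
    refine countP_le _ _ _ fun t _ ht => hWpow t qK (hinjK ?_)
    rw [map_pow, map_pow, hqC]
    exact ht

end Pool.Agent.U407.NP
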