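import Pool.Agent.U407.NP5
import Pool.Agent.N867.AS.Eig
import Pool.Agent.TH117.HS.Glue

/-!
# The cohomology of `y ^ p - y = f(x, t)`: generalized eigenspaces of Frobenius
-/

set_option autoImplicit false
set_option maxHeartbeats 1000000

namespace Pool.Agent.U407.NP

open Polynomial Pool.Agent.N867.AS Pool.Agent.N867.AS.Trans Pool.Agent.TH117.HS Module

section lin

variable {V : Type} [AddCommGroup V] [Module ℂ V] [FiniteDimensional ℂ V]

theorem charpoly_pow' (φ : Module.End ℂ V) (m : ℕ) (hm : m ≠ 0) :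
    (φ ^ m).charpoly.roots = φ.charpoly.roots.map fun x => x ^ m := by
  classical
  let b := Module.finBasis ℂ V
  rw [← LinearMap.charpoly_toMatrix (φ ^ m) b, ← LinearMap.charpoly_toMatrix φ b,
    ← LinearMap.toMatrix_pow, Pool.Agent.N867.AS.Eig.charpoly_pow _ m hm]
  have h1 : ((LinearMap.toMatrix b b φ).charpoly.roots.map fun l => X - C (l ^ m)).prod =
      (((LinearMap.toMatrix b b φ).charpoly.roots.map fun l => l ^ m).map
        fun a => X - C a).prod := by
    rw [Multiset.map_map]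
    rfl
  rw [h1, Polynomial.roots_multiset_prod_X_sub_C]

theorem trace_pow' (φ : Module.End ℂ V) (m : ℕ) :
    LinearMap.trace ℂ V (φ ^ m) = (φ.charpoly.roots.map fun x => x ^ m).sum := by
  classical
  let b := Module.finBasis ℂ V
  rw [LinearMap.trace_eq_matrix_trace ℂ b, ← LinearMap.toMatrix_pow,
    Pool.Agent.N867.AS.Eig.trace_pow, LinearMap.charpoly_toMatrix]

end lin

/-- sums over roots of unity -/
theorem sum_roots {p : ℕ} (hp : 0 < p) {ζ : ℂ} (hζ : IsPrimitiveRoot ζ p) {j : ℕ}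
    (hj : 0 < j) (hjp : j < p) : ∑ w ∈ nthRootsFinset p (1 : ℂ), w⁻¹ ^ j = 0 := by
  have hζ0 : ζ ≠ 0 := hζ.ne_zero hp.ne'
  have h1 : ∑ w ∈ nthRootsFinset p (1 : ℂ), (ζ * w)⁻¹ ^ j =
      ∑ w ∈ nthRootsFinset p (1 : ℂ), w⁻¹ ^ j := by
    refine Finset.sum_nbij' (fun w => ζ * w) (fun w => ζ⁻¹ * w) ?_ ?_ ?_ ?_ ?_
    · intro w hw
      rw [mem_nthRootsFinset hp] at hw ⊢
      rw [mul_pow, hw, hζ.pow_eq_one, one_mul]
    · intro w hw
      rw [mem_nthRootsFinset hp] at hw ⊢
      rw [mul_pow, hw, inv_pow, hζ.pow_eq_one, inv_one, one_mul]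
    · intro w _
      rw [inv_mul_cancel_left₀ hζ0]
    · intro w _
      rw [mul_inv_cancel_left₀ hζ0]
    · intro w _
      rfl
  simp only [mul_inv, mul_pow] at h1
  rw [← Finset.mul_sum] at h1
  have h2 : (ζ⁻¹ ^ j - 1) * ∑ w ∈ nthRootsFinset p (1 : ℂ), w⁻¹ ^ j = 0 := by
    rw [sub_mul, one_mul, h1, sub_self]
  refine (mul_eq_zero.1 h2).resolve_left fun h3 => ?_
  have h4 : ζ ^ j = 1 := by
    have h5 := sub_eq_zero.1 h3
    rw [inv_pow, inv_eq_one] at h5
    exact h5
  exact hζ.pow_ne_one_of_pos_of_lt hj.ne' hjp h4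

/-- the number of fixed points of the composition of Frobenius and a power of the translation -/
noncomputable def fixed {κ : Type} [Field κ] (p : ℕ) (f : κ[X][X]) (Q i : ℕ) : ℕ :=
  Nat.card {v : AlgebraicClosure κ × AlgebraicClosure κ × AlgebraicClosure κ //
    v.1 ^ Q = v.1 ∧ v.2.1 ^ Q = v.2.1 ∧ v.2.2 ^ Q = v.2.2 + (i : AlgebraicClosure κ) ∧
    v.2.2 ^ p - v.2.2 =
      f.eval₂ (eval₂RingHom (algebraMap κ (AlgebraicClosure κ)) v.1) v.2.1}

theorem fixed_zero {κ : Type} [Field κ] (p : ℕ) (f : κ[X][X]) (Q : ℕ) :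
    fixed p f Q 0 = Npts p f Q := by
  unfold fixed Npts
  simp only [Nat.cast_zero, add_zero]

section main

variable {κ : Type} [Field κ] [Fintype κ] {p : ℕ} [hp : Fact p.Prime] [CharP κ p]
  {V : Type} [AddCommGroup V] [Module ℂ V] [FiniteDimensional ℂ V] {Φ g : Module.End ℂ V}

/-- the multiset of eigenvalues on the eigenspace of `g` -/
noncomputable def AA (hc : Commute Φ g) (w : ℂ) : Multiset ℂ :=
  (Φ.restrict (mapsTo_eig hc w)).charpoly.roots

/-- the polynomial which gives the power sums -/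
noncomputable def RR (p : ℕ) (f : κ[X][X]) (m : ℕ) : ℚ[X] :=
  C (p : ℚ)⁻¹ * ∑ i ∈ Finset.range p, X ^ ((p - 1) * i) *
    C ((fixed p f (Fintype.card κ ^ m) i : ℚ) - ((Fintype.card κ : ℚ) ^ m) ^ 2)

open Classical in
theorem eigen {a b : ℕ} {f : κ[X][X]} (hf : Dg a b f) (hap : a ∣ p - 1) (hbp : b ∣ p - 1)
    (hc : Commute Φ g) (hg : g ^ p = 1) (hinv : ∀ v, g v = v → v = 0)
    (hfix : ∀ m i, m ≠ 0 → i < p → LinearMap.trace ℂ V (Φ ^ m * g ^ i) =
      (fixed p f (Fintype.card κ ^ m) i : ℂ) - ((Fintype.card κ : ℂ) ^ m) ^ 2)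
    (hpure : ∀ α, Φ.HasEigenvalue α → ‖α‖ = (Fintype.card κ : ℝ))
    (w : ℂ) (hw : w ^ p = 1) (hw1 : w ≠ 1) (m : ℕ) (hm : m ≠ 0) :
    (∀ x : ℂ, (AA hc w).countP (fun α => α ^ m = x) ≤ Nat.gcd a b) ∧
    (AA hc w).countP (fun α => α ^ m = (Fintype.card κ : ℂ) ^ m) ≤ Nat.gcd a b - 1 := by
  have hp0 : 0 < p := hp.1.pos
  have hpC : (p : ℂ) ≠ 0 := Nat.cast_ne_zero.2 hp0.ne'
  obtain ⟨s, hs⟩ : ∃ s : ℕ, Fintype.card κ = p ^ s := by
    obtain ⟨s, _, hs⟩ := FiniteField.card κ p
    exact ⟨s, hs⟩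
  have hpow : ∀ w : ℂ, ∀ m, m ≠ 0 → w ^ p = 1 → ((AA hc w).map fun α => α ^ m).sum =
      aeval w (RR p f m) := by
    intro w m hm hw
    have hw0 : w ≠ 0 := by
      rintro rfl
      rw [zero_pow hp0.ne'] at hw
      exact zero_ne_one hw
    have h1 := trace_eig hc hp0 hg hw m
    unfold AA
    rw [← trace_pow', ← mul_right_inj' hpC, h1]
    unfold RR
    rw [map_mul, aeval_C, ← mul_assoc, map_inv₀, map_natCast, mul_inv_cancel₀ hpC, one_mul,
      map_sum]
    refine Finset.sum_congr rfl fun i hi => ?_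
    rw [hfix m i hm (Finset.mem_range.1 hi), map_mul, map_pow, aeval_X, aeval_C]
    have h2 : w⁻¹ = w ^ (p - 1) := by
      have h3 : p - 1 + 1 = p := by omega
      refine (eq_inv_of_mul_eq_one_left ?_).symm
      rw [← pow_succ, h3, hw]
    rw [h2, ← pow_mul]
    congr 1
    simp
  have hV1 : ∀ m, ((AA hc 1).map fun α => α ^ m).sum = 0 := by
    intro m
    unfold AA
    rw [← trace_pow']
    have h1 : g.eigenspace 1 = ⊥ := by
      rw [eq_bot_iff]
      intro v hv
      rw [Module.End.mem_eigenspace_iff, one_smul] at hv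
      rw [hinv v hv]
      exact Submodule.zero_mem _
    have h2 : Subsingleton (g.eigenspace 1) := by
      rw [h1]
      infer_instance
    have h3 : (Φ.restrict (mapsTo_eig hc 1)) ^ m = 0 := Subsingleton.elim _ _
    rw [h3, map_zero]
  have hmain := main hf hap hbp hs (RR p f) (AA hc) ?_ ?_ ?_ w hw hw1 m hm
  · refine ⟨hmain.1, ?_⟩
    have h1 := hmain.2
    have h2 : ((p : ℂ) ^ s) = (Fintype.card κ : ℂ) := by rw [hs, Nat.cast_pow]
    rw [h2] at h1
    exact h1
  · intro w hw hw1 α hα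
    rw [← Nat.cast_pow, ← hs]
    apply hpure
    have h1 : Module.End.HasEigenvalue (Φ.restrict (mapsTo_eig hc w)) α :=
      (Module.End.hasEigenvalue_iff_isRoot_charpoly _ _).2 ((mem_roots'.1 hα).2)
    obtain ⟨v, hv⟩ := h1.exists_hasEigenvector
    refine Module.End.hasEigenvalue_of_hasEigenvector (x := (v : V)) ⟨?_, ?_⟩
    · rw [Module.End.mem_eigenspace_iff]
      exact congrArg Subtype.val (Module.End.mem_eigenspace_iff.1 hv.1)
    · intro h0
      exact hv.2 (Subtype.ext h0)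
  · intro w hw _ m hm
    exact hpow w m hm hw
  · intro m hm
    obtain ⟨ζ, hζ⟩ : ∃ ζ : ℂ, IsPrimitiveRoot ζ p :=
      ⟨_, Complex.isPrimitiveRoot_exp p hp0.ne'⟩
    have h1mem : (1 : ℂ) ∈ nthRootsFinset p (1 : ℂ) := (mem_nthRootsFinset hp0 1).2 (one_pow p)
    have h1 := Finset.add_sum_erase (nthRootsFinset p (1 : ℂ))
      (fun w => ((AA hc w).map fun α => α ^ m).sum) h1mem
    rw [hV1 m, zero_add] at h1
    rw [h1, ← mul_right_inj' hpC, Finset.mul_sum]
    have h2 : ∀ w ∈ nthRootsFinset p (1 : ℂ), (p : ℂ) * ((AA hc w).map fun α => α ^ m).sum =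
        ∑ i ∈ Finset.range p, w⁻¹ ^ i * LinearMap.trace ℂ V (Φ ^ m * g ^ i) := by
      intro w hw
      unfold AA
      rw [← trace_pow']
      exact trace_eig hc hp0 hg ((mem_nthRootsFinset hp0 _).1 hw) m
    rw [Finset.sum_congr rfl h2, Finset.sum_comm]
    have h3 : ∀ i ∈ Finset.range p, ∑ w ∈ nthRootsFinset p (1 : ℂ),
        w⁻¹ ^ i * LinearMap.trace ℂ V (Φ ^ m * g ^ i) =
        if i = 0 then (p : ℂ) * LinearMap.trace ℂ V (Φ ^ m * g ^ i) else 0 := by
      intro i hi
      rw [← Finset.sum_mul]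
      split_ifs with h
      · rw [h]
        simp only [pow_zero, Finset.sum_const, nsmul_eq_mul, mul_one]
        rw [hζ.card_nthRootsFinset]
      · rw [sum_roots hp0 hζ (Nat.pos_of_ne_zero h) (Finset.mem_range.1 hi), zero_mul]
    rw [Finset.sum_congr rfl h3, Finset.sum_ite_eq' (Finset.range p) 0,
      if_pos (Finset.mem_range.2 hp0), hfix m 0 hm hp0, fixed_zero, hs]
    push_cast
    rw [pow_mul (p : ℂ) s m, pow_mul p s m]

/-- **generalized eigenspaces** -/
theorem dims {a b : ℕ} {f : κ[X][X]} (hf : Dg a b f) (hap : a ∣ p - 1) (hbp : b ∣ p - 1)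
    (hc : Commute Φ g) (hg : g ^ p = 1) (hinv : ∀ v, g v = v → v = 0)
    (hfix : ∀ m i, m ≠ 0 → i < p → LinearMap.trace ℂ V (Φ ^ m * g ^ i) =
      (fixed p f (Fintype.card κ ^ m) i : ℂ) - ((Fintype.card κ : ℂ) ^ m) ^ 2)
    (hpure : ∀ α, Φ.HasEigenvalue α → ‖α‖ = (Fintype.card κ : ℝ))
    (w : ℂ) (hw : w ^ p = 1) (hw1 : w ≠ 1) (m : ℕ) (hm : m ≠ 0) :
    (∀ x : ℂ, finrank ℂ ((Φ ^ m).maxGenEigenspace x ⊓ g.eigenspace w : Submodule ℂ V) ≤
      Nat.gcd a b) ∧
    finrank ℂ ((Φ ^ m).maxGenEigenspace ((Fintype.card κ : ℂ) ^ m) ⊓ g.eigenspace w :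
      Submodule ℂ V) ≤ Nat.gcd a b - 1 := by
  classical
  have key : ∀ x : ℂ, finrank ℂ ((Φ ^ m).maxGenEigenspace x ⊓ g.eigenspace w :
      Submodule ℂ V) = (AA hc w).countP (fun α => α ^ m = x) := by
    intro x
    have hmaps := mapsTo_eig hc w
    have hmaps' : ∀ v ∈ g.eigenspace w, (Φ ^ m) v ∈ g.eigenspace w :=
      mapsTo_eig (hc.pow_left m) w
    have h1 : (Φ.restrict hmaps) ^ m = (Φ ^ m).restrict hmaps' := by
      rw [Module.End.pow_restrict m hmaps hmaps']
    have h2 : Module.End.maxGenEigenspace ((Φ ^ m).restrict hmaps') x =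
        Submodule.comap (g.eigenspace w).subtype ((Φ ^ m).maxGenEigenspace x) :=
      Module.End.genEigenspace_restrict (Φ ^ m) (g.eigenspace w) ⊤ x hmaps'
    have h3 := LinearMap.finrank_maxGenEigenspace_eq ((Φ ^ m).restrict hmaps') x
    rw [h2, ← h1, ← count_roots, charpoly_pow' _ m hm] at h3
    rw [countP_eq_count]
    unfold AA
    rw [← h3]
    have h4 : finrank ℂ (Submodule.comap (g.eigenspace w).subtype
        ((Φ ^ m).maxGenEigenspace x)) = finrank ℂ (Submodule.map (g.eigenspace w).subtype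
        (Submodule.comap (g.eigenspace w).subtype ((Φ ^ m).maxGenEigenspace x))) :=
      (LinearEquiv.finrank_eq (Submodule.equivMapOfInjective _
        (g.eigenspace w).injective_subtype _))
    rw [h4, Submodule.map_comap_subtype, inf_comm]
  have h := eigen hf hap hbp hc hg hinv hfix hpure w hw hw1 m hm
  refine ⟨fun x => ?_, ?_⟩
  · rw [key x]
    exact h.1 x
  · rw [key]
    exact h.2

/-- **semisimplicity** -/
theorem semisimple {a b : ℕ} {f : κ[X][X]} (hf : Dg a b f) (hap : a ∣ p - 1) (hbp : b ∣ p - 1)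
    (hab : Nat.gcd a b = 1)
    (hc : Commute Φ g) (hg : g ^ p = 1) (hinv : ∀ v, g v = v → v = 0)
    (hfix : ∀ m i, m ≠ 0 → i < p → LinearMap.trace ℂ V (Φ ^ m * g ^ i) =
      (fixed p f (Fintype.card κ ^ m) i : ℂ) - ((Fintype.card κ : ℂ) ^ m) ^ 2)
    (hpure : ∀ α, Φ.HasEigenvalue α → ‖α‖ = (Fintype.card κ : ℝ)) :
    Φ.IsSemisimple ∧ ∀ m, m ≠ 0 → ¬ (Φ ^ m).HasEigenvalue ((Fintype.card κ : ℂ) ^ m) := by
  classical
  have hp0 : 0 < p := hp.1.pos
  have hsub : Subsingleton (g.eigenspace 1) := by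
    have h1 : g.eigenspace 1 = ⊥ := by
      rw [eq_bot_iff]
      intro v hv
      rw [Module.End.mem_eigenspace_iff, one_smul] at hv
      rw [hinv v hv]
      exact Submodule.zero_mem _
    rw [h1]
    infer_instance
  constructor
  · refine semisimple_glue hc hp0 hg fun w hw => ?_
    by_cases hw1 : w = 1
    · subst hw1
      have h3 : Φ.restrict (mapsTo_eig hc 1) = 0 := Subsingleton.elim _ _
      rw [h3]
      exact Module.End.isSemisimple_zero
    · have h := (eigen hf hap hbp hc hg hinv hfix hpure w hw hw1 1 one_ne_zero).1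
      simp only [pow_one, hab] at h
      have hs : (Φ.restrict (mapsTo_eig hc w)).charpoly.Separable := by
        rw [← nodup_roots_iff_of_splits (LinearMap.charpoly_monic _).ne_zero
          (IsAlgClosed.splits _)]
        refine Multiset.nodup_iff_count_le_one.2 fun x => ?_
        refine le_trans (le_of_eq ?_) (h x)
        unfold AA
        rw [countP_eq_count, Multiset.map_id']
      exact Module.End.isSemisimple_of_squarefree_aeval_eq_zero hs.squarefree
        (LinearMap.aeval_self_charpoly _)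
  · intro m hm hev
    -- an eigenvector in some eigenspace of `g`
    obtain ⟨E, hE⟩ : ∃ E, E = (Φ ^ m).eigenspace ((Fintype.card κ : ℂ) ^ m) := ⟨_, rfl⟩
    have hEne : E ≠ ⊥ := by rw [hE]; exact hev
    have hmaps : ∀ v ∈ E, g v ∈ E := by
      intro v hv
      rw [hE, Module.End.mem_eigenspace_iff] at hv ⊢
      have h1 : (Φ ^ m) (g v) = g ((Φ ^ m) v) := LinearMap.congr_fun (hc.pow_left m) v
      rw [h1, hv, map_smul]
    have hnt : Nontrivial E := Submodule.nontrivial_iff_ne_bot.2 hEne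
    obtain ⟨w, hw⟩ := Module.End.exists_eigenvalue (g.restrict hmaps)
    obtain ⟨v, hv⟩ := hw.exists_hasEigenvector
    have hv0 : (v : V) ≠ 0 := fun h => hv.2 (Subtype.ext h)
    have hgv : g (v : V) = w • (v : V) :=
      congrArg Subtype.val (Module.End.mem_eigenspace_iff.1 hv.1)
    have hwp : w ^ p = 1 := by
      have h1 : ∀ i : ℕ, (g ^ i) (v : V) = w ^ i • (v : V) := by
        intro i
        induction i with
        | zero => rw [pow_zero, pow_zero, one_smul]; rfl
        | succ i ih =>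
          rw [pow_succ]
          change (g ^ i) (g v) = _
          rw [hgv, map_smul, ih, smul_smul, pow_succ, mul_comm]
      have h2 := h1 p
      rw [hg] at h2
      have h3 : (1 - w ^ p) • (v : V) = 0 := by
        rw [sub_smul, one_smul, ← h2]
        exact sub_self _
      rcases smul_eq_zero.1 h3 with h4 | h4
      · exact (sub_eq_zero.1 h4).symm
      · exact absurd h4 hv0
    have hw1 : w ≠ 1 := by
      rintro rfl
      rw [one_smul] at hgv
      exact hv0 (hinv _ hgv)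
    have h := (dims hf hap hbp hc hg hinv hfix hpure w hwp hw1 m hm).2
    rw [hab, Nat.sub_self, Nat.le_zero, Submodule.finrank_eq_zero] at h
    have hmem : (v : V) ∈ ((Φ ^ m).maxGenEigenspace ((Fintype.card κ : ℂ) ^ m) ⊓
        g.eigenspace w : Submodule ℂ V) := by
      refine ⟨?_, ?_⟩
      · have h1 : (v : V) ∈ (Φ ^ m).eigenspace ((Fintype.card κ : ℂ) ^ m) := by
          rw [← hE]
          exact v.2
        exact (Module.End.genEigenspace_le_maximal (Φ ^ m) _ 1) h1
      · exact Module.End.mem_eigenspace_iff.2 hgv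
    rw [h] at hmem
    exact hv0 ((Submodule.mem_bot ℂ).1 hmem)

end main

end Pool.Agent.U407.NP
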