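import Pool.Agent.U407.NP6

/-!
# From the cohomology with compact supports to smooth projective surfaces
-/

set_option autoImplicit false
set_option maxHeartbeats 1000000

namespace Pool.Agent.U407.NP

open Polynomial Module

variable {V : Type} [AddCommGroup V] [Module ℂ V] [FiniteDimensional ℂ V]
  {H : Type} [AddCommGroup H] [Module ℂ H] [FiniteDimensional ℂ H]
  {Φ : Module.End ℂ V} {F : Module.End ℂ H} {ι : V →ₗ[ℂ] H} {W : Submodule ℂ H} {q : ℂ}

theorem comm_pow (hcomm : ∀ v, ι (Φ v) = F (ι v)) (m : ℕ) (v : V) :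
    ι ((Φ ^ m) v) = (F ^ m) (ι v) := by
  induction m with
  | zero => rfl
  | succ m ih =>
    rw [pow_succ', pow_succ', Module.End.mul_apply, Module.End.mul_apply, hcomm, ih]

theorem comm_aeval (hcomm : ∀ v, ι (Φ v) = F (ι v)) (P : ℂ[X]) (v : V) :
    ι (aeval Φ P v) = aeval F P (ι v) := by
  induction P using Polynomial.induction_on' with
  | add P Q hP hQ =>
    rw [map_add, map_add, LinearMap.add_apply, LinearMap.add_apply, map_add, hP, hQ]
  | monomial n c =>
    rw [aeval_monomial, aeval_monomial, Module.End.mul_apply, Module.End.mul_apply,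
      Module.algebraMap_end_apply, Module.algebraMap_end_apply, map_smul, comm_pow hcomm]

theorem semisimple_of_span (hq : q ≠ 0) (hcomm : ∀ v, ι (Φ v) = F (ι v))
    (hW : ∃ N : ℕ, N ≠ 0 ∧ ∀ w ∈ W, (F ^ N) w = q ^ N • w)
    (hspan : W ⊔ LinearMap.range ι = ⊤) (hΦ : Φ.IsSemisimple) : F.IsSemisimple := by
  classical
  obtain ⟨N, hN, hWN⟩ := hW
  have hsq1 : Squarefree (minpoly ℂ Φ) := hΦ.minpoly_squarefree
  have hne1 : minpoly ℂ Φ ≠ 0 := hsq1.ne_zero
  have hmon2 : (X ^ N - C (q ^ N) : ℂ[X]).Monic := monic_X_pow_sub_C _ hN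
  have hsep2 : (X ^ N - C (q ^ N) : ℂ[X]).Separable :=
    separable_X_pow_sub_C _ (Nat.cast_ne_zero.2 hN) (pow_ne_zero _ hq)
  obtain ⟨S, hS⟩ : ∃ S : Finset ℂ, S = (minpoly ℂ Φ).roots.toFinset ∪
    (X ^ N - C (q ^ N) : ℂ[X]).roots.toFinset := ⟨_, rfl⟩
  obtain ⟨P, hP⟩ : ∃ P : ℂ[X], P = ∏ x ∈ S, (X - C x) := ⟨_, rfl⟩
  have hPsep : P.Separable := by
    rw [hP]
    exact separable_prod_X_sub_C_iff'.2 fun x _ y _ h => h
  have hdvd : ∀ A : ℂ[X], A.Monic → Squarefree A → A.roots.toFinset ⊆ S → A ∣ P := by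
    intro A hA hsq hsub
    have h1 : A = (A.roots.map fun x => X - C x).prod :=
      (IsAlgClosed.splits A).eq_prod_roots_of_monic hA
    have h2 : A.roots.Nodup := by
      have h3 : A.Separable := PerfectField.separable_iff_squarefree.2 hsq
      exact nodup_roots h3
    have h3 : (A.roots.map fun x => X - C x).prod = ∏ x ∈ A.roots.toFinset, (X - C x) := by
      rw [Finset.prod, Multiset.toFinset_val, Multiset.dedup_eq_self.2 h2]
    rw [h1, h3, hP]
    exact Finset.prod_dvd_prod_of_subset _ _ _ hsub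
  have hd1 : minpoly ℂ Φ ∣ P :=
    hdvd _ (minpoly.monic (Algebra.IsIntegral.isIntegral Φ)) hsq1 (by
      rw [hS]; exact Finset.subset_union_left)
  have hd2 : (X ^ N - C (q ^ N) : ℂ[X]) ∣ P :=
    hdvd _ hmon2 hsep2.squarefree (by rw [hS]; exact Finset.subset_union_right)
  refine Module.End.isSemisimple_of_squarefree_aeval_eq_zero hPsep.squarefree ?_
  have htop : (⊤ : Submodule ℂ H) ≤ LinearMap.ker (aeval F P) := by
    rw [← hspan, sup_le_iff]
    constructor
    · intro w hw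
      obtain ⟨A, hA⟩ := hd2
      rw [LinearMap.mem_ker, hA, mul_comm, map_mul, Module.End.mul_apply, map_sub, map_pow, aeval_X,
        aeval_C, LinearMap.sub_apply, Module.algebraMap_end_apply, hWN w hw, sub_self, map_zero]
    · rintro _ ⟨v, rfl⟩
      rw [LinearMap.mem_ker, ← comm_aeval hcomm]
      obtain ⟨A, hA⟩ := hd1
      rw [hA, map_mul, minpoly.aeval, zero_mul, LinearMap.zero_apply, map_zero]
  refine LinearMap.ext fun x => ?_
  exact LinearMap.mem_ker.1 (htop Submodule.mem_top)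

theorem le_of_span (hinj : Function.Injective ι) (hcomm : ∀ v, ι (Φ v) = F (ι v))
    (hW : ∃ N : ℕ, N ≠ 0 ∧ ∀ w ∈ W, (F ^ N) w = q ^ N • w)
    (hspan : W ⊔ LinearMap.range ι = ⊤) (hF : F.IsSemisimple)
    (hΦ : ∀ m, m ≠ 0 → ¬ (Φ ^ m).HasEigenvalue (q ^ m)) (m : ℕ) (hm : m ≠ 0) :
    (F ^ m).maxGenEigenspace (q ^ m) ≤ W := by
  obtain ⟨N, hN, hWN⟩ := hW
  have hFm : (F ^ m).IsFinitelySemisimple := (hF.pow m).isFinitelySemisimple
  rw [hFm.maxGenEigenspace_eq_eigenspace]
  intro x hx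
  have hx1 : (F ^ m) x = q ^ m • x := Module.End.mem_eigenspace_iff.1 hx
  have hx2 : ∀ k, (F ^ (m * k)) x = q ^ (m * k) • x := by
    intro k
    induction k with
    | zero => rw [mul_zero, pow_zero, pow_zero, one_smul]; rfl
    | succ k ih =>
      rw [mul_add, mul_one, pow_add, pow_add, Module.End.mul_apply, hx1, map_smul, ih, smul_smul,
        mul_comm]
  have hw2 : ∀ w ∈ W, ∀ k, (F ^ (N * k)) w = q ^ (N * k) • w := by
    intro w hw k
    induction k with
    | zero => rw [mul_zero, pow_zero, pow_zero, one_smul]; rfl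
    | succ k ih =>
      rw [mul_add, mul_one, pow_add, pow_add, Module.End.mul_apply, hWN w hw, map_smul, ih,
        smul_smul, mul_comm]
  have hxt : x ∈ W ⊔ LinearMap.range ι := by
    rw [hspan]
    exact Submodule.mem_top
  obtain ⟨w, hw, _, ⟨v, rfl⟩, rfl⟩ := Submodule.mem_sup.1 hxt
  have h1 : (F ^ (m * N)) (ι v) = q ^ (m * N) • ι v := by
    have h2 := hx2 N
    have h3 := hw2 w hw m
    rw [mul_comm N m] at h3
    rw [map_add, smul_add, h3] at h2
    exact add_left_cancel h2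
  have h2 : (Φ ^ (m * N)) v = q ^ (m * N) • v := by
    apply hinj
    rw [comm_pow hcomm, h1, map_smul]
  have h3 : v = 0 := by
    by_contra hv
    exact hΦ (m * N) (mul_ne_zero hm hN)
      (Module.End.hasEigenvalue_of_hasEigenvector (x := v)
        ⟨Module.End.mem_eigenspace_iff.2 h2, hv⟩)
  rw [h3, map_zero, add_zero]
  exact hw

end Pool.Agent.U407.NP
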