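import Pool.Agent.U407.NP6

/-!
# The slopes of the eigenvalues of Frobenius
-/

set_option autoImplicit false
set_option maxHeartbeats 1000000

namespace Pool.Agent.U407.NP

open Polynomial Pool.Agent.N867.AS Pool.Agent.N867.AS.Trans Pool.Agent.N867.AS.Bd Module

section slopes

variable {κ : Type} [Field κ] [Fintype κ] {p : ℕ} [hp : Fact p.Prime] [CharP κ p]

/-- the absolute values which occur, slope at most one -/
theorem exists_lattice {a b s : ℕ} {f : κ[X][X]} (hf : Dg a b f) (hap : a ∣ p - 1)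
    (hbp : b ∣ p - 1) (hs : Fintype.card κ = p ^ s) (B : Multiset (PadicAlgCl p))
    (hB0 : ∀ x ∈ B, x ≠ 0)
    (hB : ∀ m, m ≠ 0 → (B.map fun x => x ^ m).sum =
      (Npts p f (p ^ (s * m)) : PadicAlgCl p) - ((p ^ (s * m) : ℕ) : PadicAlgCl p) ^ 2)
    {x : PadicAlgCl p} (hxB : x ∈ B) (hx : ‖(p : PadicAlgCl p)‖ ^ s ≤ ‖x‖) :
    ∃ i j : ℕ, 0 < i ∧ i < a ∧ 0 < j ∧ j < b ∧
      ‖x‖ ^ (a * b) = (‖(p : PadicAlgCl p)‖ ^ s) ^ (b * i + a * j) := by
  classical
  have hx0 := hB0 x hxB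
  have hp2 := hp.1.two_le
  have hs0 : s ≠ 0 := by
    rintro rfl
    rw [pow_zero] at hs
    exact absurd hs (Fintype.one_lt_card (α := κ)).ne'
  have hpne : (p : PadicAlgCl p) ≠ 0 := Nat.cast_ne_zero.2 hp.1.ne_zero
  have hpn : ‖(p : PadicAlgCl p)‖ < 1 := Res.norm_p_lt p
  have hpn0 : 0 < ‖(p : PadicAlgCl p)‖ := norm_pos_iff.2 hpne
  have hxn : 0 < ‖x‖ := norm_pos_iff.2 hx0
  -- the embedding of the algebraic closure
  obtain ⟨φ⟩ : Nonempty (AlgebraicClosure κ →+* Res.k p) := by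
    have hch : CharP (AlgebraicClosure κ) p :=
      charP_of_injective_algebraMap (algebraMap κ (AlgebraicClosure κ)).injective p
    let _ : Algebra (ZMod p) κ := ZMod.algebra κ p
    have _ : IsScalarTower (ZMod p) κ (AlgebraicClosure κ) := inferInstance
    have _ : Algebra.IsAlgebraic (ZMod p) κ := Algebra.IsAlgebraic.of_finite _ _
    have _ : Algebra.IsAlgebraic (ZMod p) (AlgebraicClosure κ) :=
      Algebra.IsAlgebraic.trans (ZMod p) κ (AlgebraicClosure κ)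
    let _ : Algebra (ZMod p) (Res.k p) := ZMod.algebra _ p
    exact ⟨(IsAlgClosed.lift (R := ZMod p) (S := AlgebraicClosure κ) (M := Res.k p)).toRingHom⟩
  obtain ⟨φκ, hφκ⟩ : ∃ φκ : κ →+* Res.k p, φκ = φ.comp (algebraMap κ (AlgebraicClosure κ)) :=
    ⟨_, rfl⟩
  have hD := diag_Ψ hf φκ
  have hfs : ∀ μ, MvPolynomial.coeff μ (Ψ φκ f) ^ p ^ s = MvPolynomial.coeff μ (Ψ φκ f) := by
    intro μ
    rw [coeff_Ψ, ← map_pow, ← hs, FiniteField.pow_card]
  have hPS : HasPS ((lp B : (PadicAlgCl p)[X]) : PowerSeries (PadicAlgCl p)) (fun m =>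
      (Res.npts (Ψ φκ f) (p ^ (s * m)) : PadicAlgCl p) -
      ((p ^ (s * m) : ℕ) : PadicAlgCl p) ^ Fintype.card (Fin 2)) := by
    refine (hasPS_lp B).congr fun m hm => ?_
    have hQ : 1 < p ^ (s * m) := Nat.one_lt_pow (mul_ne_zero hs0 hm) hp.1.one_lt
    rw [hB m hm, hφκ, npts_eq_Npts p φ f hQ, Fintype.card_fin]
  obtain ⟨c, hc⟩ := IsAlgClosed.exists_pow_nat_eq x⁻¹ (Nat.pos_of_ne_zero hs0)
  have hc0 : c ≠ 0 := by
    rintro rfl
    rw [zero_pow hs0] at hc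
    exact inv_ne_zero hx0 hc.symm
  have hcs : ‖c‖ ^ s = ‖x‖⁻¹ := by rw [← norm_pow, hc, norm_inv]
  have hcn : 0 < ‖c‖ := norm_pos_iff.2 hc0
  have hcle : ‖c‖ ≤ ‖(p : PadicAlgCl p)⁻¹‖ := by
    refine le_of_pow_le_pow_left₀ hs0 (norm_nonneg _) ?_
    rw [hcs, norm_inv, inv_pow]
    exact inv_anti₀ (by positivity) hx
  have hcount := count_at hD (s := s) (fun i => by
      fin_cases i
      · exact hap
      · exact hbp) (by simp) (by simp) hc0 hcle hs0 hfs (lp B) hPS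
  rw [roots_lp B hB0, Multiset.countP_map, ← Multiset.countP_eq_card_filter] at hcount
  have hpos : 0 < B.countP (fun y => ‖y⁻¹‖ = ‖c ^ s‖) := by
    rw [Multiset.countP_pos]
    exact ⟨x, hxB, by rw [hc]⟩
  rw [hcount] at hpos
  have hcard := (Nat.pos_of_mul_pos_left hpos)
  obtain ⟨⟨v, hv0, hv⟩⟩ := (Nat.card_pos_iff.1 hcard).1
  have hw : ∀ v : Fin 2 →₀ ℕ, wt ![b, a] v = b * v 0 + a * v 1 := by
    intro v
    unfold wt
    rw [Fin.sum_univ_two]
    rfl
  rw [hw] at hv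
  have hle : b * v 0 + a * v 1 ≤ a * b := by
    have h1 : 1 ≤ ‖(p : PadicAlgCl p)‖ ^ (b * v 0 + a * v 1) *
        ‖(p : PadicAlgCl p)⁻¹‖ ^ (a * b) :=
      hv.ge.trans (mul_le_mul_of_nonneg_left (pow_le_pow_left₀ hcn.le hcle _) (by positivity))
    rw [norm_inv, inv_pow, ← div_eq_mul_inv, one_le_div (by positivity),
      pow_le_pow_iff_right_of_lt_one₀ hpn0 hpn] at h1
    exact h1
  have hv00 := Nat.pos_of_ne_zero (hv0 0)
  have hv10 := Nat.pos_of_ne_zero (hv0 1)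
  have ha := Nat.pos_of_ne_zero hf.ha
  have hb := Nat.pos_of_ne_zero hf.hb
  refine ⟨v 0, v 1, hv00, ?_, hv10, ?_, ?_⟩
  · have h1 : b * v 0 < b * a := by
      have := Nat.mul_pos ha hv10
      rw [mul_comm b a]
      omega
    exact Nat.lt_of_mul_lt_mul_left h1
  · have h1 : a * v 1 < a * b := by
      have := Nat.mul_pos hb hv00
      omega
    exact Nat.lt_of_mul_lt_mul_left h1
  · have h1 : (‖(p : PadicAlgCl p)‖ ^ (b * v 0 + a * v 1) * ‖c‖ ^ (a * b)) ^ s = 1 := by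
      rw [hv, one_pow]
    rw [mul_pow, ← pow_mul, ← pow_mul, mul_comm (a * b) s, pow_mul ‖c‖ s, hcs, inv_pow,
      ← div_eq_mul_inv, div_eq_one_iff_eq (by positivity)] at h1
    rw [← h1, ← pow_mul, mul_comm s]

/-- the slopes of the complex eigenvalues, for every embedding -/
theorem slopes {a b s : ℕ} {f : κ[X][X]} (hf : Dg a b f) (hap : a ∣ p - 1)
    (hbp : b ∣ p - 1) (hs : Fintype.card κ = p ^ s) (B : Multiset ℂ)
    (hB : ∀ m, m ≠ 0 → (B.map fun x => x ^ m).sum =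
      (Npts p f (p ^ (s * m)) : ℂ) - ((p ^ (s * m) : ℕ) : ℂ) ^ 2)
    (habs : ∀ α ∈ B, ‖α‖ = (p : ℝ) ^ s) (τ : ℂ →+* PadicAlgCl p) {α : ℂ} (hα : α ∈ B) :
    ∃ i j : ℕ, 0 < i ∧ i < a ∧ 0 < j ∧ j < b ∧
      ‖τ α‖ ^ (a * b) = (‖(p : PadicAlgCl p)‖ ^ s) ^ (b * i + a * j) := by
  have hpn : ‖(p : PadicAlgCl p)‖ < 1 := Res.norm_p_lt p
  have hpne : (p : PadicAlgCl p) ≠ 0 := Nat.cast_ne_zero.2 hp.1.ne_zero
  have hpn0 : 0 < ‖(p : PadicAlgCl p)‖ := norm_pos_iff.2 hpne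
  have hB0 : ∀ x ∈ B, x ≠ 0 := by
    intro x hx h0
    have h3 := habs x hx
    rw [h0, norm_zero] at h3
    exact (pow_ne_zero s (Nat.cast_ne_zero.2 hp.1.ne_zero)) h3.symm
  have hτ0 : ∀ x ∈ B.map τ, x ≠ 0 := by
    intro x hx
    obtain ⟨y, hy, rfl⟩ := Multiset.mem_map.1 hx
    exact (map_ne_zero τ).2 (hB0 y hy)
  have hτ : ∀ m, m ≠ 0 → ((B.map τ).map fun x => x ^ m).sum =
      (Npts p f (p ^ (s * m)) : PadicAlgCl p) - ((p ^ (s * m) : ℕ) : PadicAlgCl p) ^ 2 := by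
    intro m hm
    have h1 := congrArg τ (hB m hm)
    rw [map_multiset_sum, Multiset.map_map] at h1
    rw [Multiset.map_map]
    simp only [map_sub, map_pow, map_natCast] at h1
    rw [← h1]
    congr 1
    refine Multiset.map_congr rfl fun x _ => ?_
    simp
  by_cases h : ‖(p : PadicAlgCl p)‖ ^ s ≤ ‖τ α‖
  · exact exists_lattice hf hap hbp hs (B.map τ) hτ0 hτ (Multiset.mem_map_of_mem _ hα) h
  · push Not at h
    -- the conjugate eigenvalue
    have hconj : (starRingEnd ℂ) α ∈ B := by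
      have h1 : B.map (starRingEnd ℂ) = B := by
        refine eq_of_ps ?_ hB0 fun m hm => ?_
        · intro y hy
          obtain ⟨x, hx, rfl⟩ := Multiset.mem_map.1 hy
          exact (_root_.map_ne_zero _).2 (hB0 x hx)
        · rw [hB m hm, Multiset.map_map]
          have h2 := congrArg (starRingEnd ℂ) (hB m hm)
          rw [map_multiset_sum, Multiset.map_map] at h2
          simp only [map_sub, map_pow, map_natCast] at h2
          rw [← h2]
          congr 1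
          refine Multiset.map_congr rfl fun x _ => ?_
          simp
      rw [← h1]
      exact Multiset.mem_map_of_mem _ hα
    have hα0 := hB0 α hα
    have hmul : α * (starRingEnd ℂ) α = ((p : ℂ) ^ s) ^ 2 := by
      rw [Complex.mul_conj, Complex.normSq_eq_norm_sq, habs α hα]
      push_cast
      rfl
    have hn : ‖τ α‖ * ‖τ ((starRingEnd ℂ) α)‖ = (‖(p : PadicAlgCl p)‖ ^ s) ^ 2 := by
      have h1 := congrArg (fun z => ‖τ z‖) hmul
      simp only [map_mul, map_pow, map_natCast, norm_mul, norm_pow] at h1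
      exact h1
    have hτα : 0 < ‖τ α‖ := norm_pos_iff.2 ((map_ne_zero τ).2 hα0)
    obtain ⟨i, j, hi0, hia, hj0, hjb, hij⟩ := exists_lattice hf hap hbp hs (B.map τ) hτ0 hτ
      (Multiset.mem_map_of_mem τ hconj) (by
        by_contra h1
        push Not at h1
        have h2 : ‖τ α‖ * ‖τ ((starRingEnd ℂ) α)‖ <
            (‖(p : PadicAlgCl p)‖ ^ s) * (‖(p : PadicAlgCl p)‖ ^ s) :=
          mul_lt_mul'' h h1 hτα.le (norm_nonneg _)
        rw [hn, pow_two] at h2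
        exact lt_irrefl _ h2)
    refine ⟨a - i, b - j, by omega, by omega, by omega, by omega, ?_⟩
    have h1 : ‖τ α‖ ^ (a * b) * ‖τ ((starRingEnd ℂ) α)‖ ^ (a * b) =
        (‖(p : PadicAlgCl p)‖ ^ s) ^ (2 * (a * b)) := by
      rw [← mul_pow, hn, ← pow_mul]
    have h2 : b * (a - i) + a * (b - j) + (b * i + a * j) = 2 * (a * b) := by
      obtain ⟨a', rfl⟩ : ∃ a', a = i + a' := ⟨a - i, by omega⟩
      obtain ⟨b', rfl⟩ : ∃ b', b = j + b' := ⟨b - j, by omega⟩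
      rw [Nat.add_sub_cancel_left, Nat.add_sub_cancel_left]
      ring
    have h3 : (‖(p : PadicAlgCl p)‖ ^ s) ^ (b * (a - i) + a * (b - j) + (b * i + a * j)) =
        (‖(p : PadicAlgCl p)‖ ^ s) ^ (b * (a - i) + a * (b - j)) *
          (‖(p : PadicAlgCl p)‖ ^ s) ^ (b * i + a * j) := pow_add _ _ _
    rw [hij, ← h2, h3] at h1
    exact mul_right_cancel₀ (pow_ne_zero _ (pow_ne_zero _ hpn0.ne')) h1

end slopes

end Pool.Agent.U407.NP
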