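import Mathlib

/-!
# The number of monic irreducible polynomials of a given degree over a finite field: bounds
-/

set_option autoImplicit false

namespace Pool.Agent.U407.PF

open Polynomial UniqueFactorizationMonoid

variable (κ : Type) [Field κ] [Fintype κ]

/-- `X ^ (q ^ n) - X` -/
noncomputable def frobPoly (n : ℕ) : κ[X] := X ^ (Nat.card κ) ^ n - X

theorem frobPoly_ne {n : ℕ} (hn : n ≠ 0) : frobPoly κ n ≠ 0 :=
  FiniteField.X_pow_card_pow_sub_X_ne_zero κ hn Finite.one_lt_card

theorem natDegree_frobPoly {n : ℕ} (hn : n ≠ 0) : (frobPoly κ n).natDegree = Nat.card κ ^ n :=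
  FiniteField.X_pow_card_pow_sub_X_natDegree_eq κ hn Finite.one_lt_card

theorem frobPoly_squarefree {n : ℕ} (hn : n ≠ 0) : Squarefree (frobPoly κ n) := by
  obtain ⟨p, hp⟩ := CharP.exists κ
  have hpp : p.Prime := CharP.char_is_prime κ p
  have : Fact p.Prime := ⟨hpp⟩
  obtain ⟨s, hpp', hs⟩ := FiniteField.card κ p
  refine Separable.squarefree ?_
  unfold frobPoly
  rw [Nat.card_eq_fintype_card]
  refine galois_poly_separable p _ ?_
  rw [hs]
  exact dvd_pow (dvd_pow_self p s.ne_zero) hn

open Classical in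
/-- the monic irreducible polynomials of degree dividing `n` -/
noncomputable def fac (n : ℕ) : Finset κ[X] := (normalizedFactors (frobPoly κ n)).toFinset

open Classical in
/-- the monic irreducible polynomials of degree `k` -/
noncomputable def irr (k : ℕ) : Finset κ[X] := (fac κ k).filter fun P => P.natDegree = k

variable {κ}

theorem mem_fac {n : ℕ} (hn : n ≠ 0) {P : κ[X]} :
    P ∈ fac κ n ↔ P.Monic ∧ Irreducible P ∧ P.natDegree ∣ n := by
  classical
  unfold fac
  rw [Multiset.mem_toFinset, Polynomial.mem_normalizedFactors_iff (frobPoly_ne κ hn)]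
  constructor
  · rintro ⟨h1, h2, h3⟩
    exact ⟨h2, h1, h1.natDegree_dvd_iff_dvd_X_pow_card_pow_sub_X.2 h3⟩
  · rintro ⟨h1, h2, h3⟩
    exact ⟨h2, h1, h2.natDegree_dvd_iff_dvd_X_pow_card_pow_sub_X.1 h3⟩

theorem mem_irr {k : ℕ} (hk : k ≠ 0) {P : κ[X]} :
    P ∈ irr κ k ↔ P.Monic ∧ Irreducible P ∧ P.natDegree = k := by
  classical
  unfold irr
  rw [Finset.mem_filter, mem_fac hk]
  constructor
  · rintro ⟨⟨h1, h2, -⟩, h3⟩
    exact ⟨h1, h2, h3⟩
  · rintro ⟨h1, h2, h3⟩
    exact ⟨⟨h1, h2, by rw [h3]⟩, h3⟩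

theorem sum_natDegree {n : ℕ} (hn : n ≠ 0) :
    ∑ P ∈ fac κ n, P.natDegree = Nat.card κ ^ n := by
  classical
  have hnd : (normalizedFactors (frobPoly κ n)).Nodup :=
    (squarefree_iff_nodup_normalizedFactors (frobPoly_ne κ hn)).1 (frobPoly_squarefree κ hn)
  have h1 : (normalizedFactors (frobPoly κ n)).prod.natDegree = Nat.card κ ^ n := by
    rw [← natDegree_frobPoly κ hn]
    exact natDegree_eq_of_degree_eq
      (degree_eq_degree_of_associated (prod_normalizedFactors (frobPoly_ne κ hn)))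
  have h2 : (normalizedFactors (frobPoly κ n)).prod.natDegree =
      ((normalizedFactors (frobPoly κ n)).map natDegree).sum := by
    refine natDegree_multiset_prod _ ?_
    intro h0
    exact zero_notMem_normalizedFactors _ h0
  unfold fac
  rw [← h1, h2, Finset.sum_eq_multiset_sum, Multiset.toFinset_val, hnd.dedup]

theorem mul_card_irr {k : ℕ} (hk : k ≠ 0) : k * (irr κ k).card = ∑ P ∈ irr κ k, P.natDegree := by
  rw [mul_comm, ← smul_eq_mul, ← Finset.sum_const]
  exact Finset.sum_congr rfl fun P hP => ((mem_irr hk).1 hP).2.2.symm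

theorem card_irr_le {k : ℕ} (hk : k ≠ 0) : k * (irr κ k).card ≤ Nat.card κ ^ k := by
  classical
  rw [← sum_natDegree hk, mul_card_irr hk]
  exact Finset.sum_le_sum_of_subset (Finset.filter_subset _ _)

theorem le_card_irr {k : ℕ} (hk : k ≠ 0) :
    Nat.card κ ^ k ≤ k * (irr κ k).card + ∑ e ∈ Finset.Icc 1 (k / 2), Nat.card κ ^ e := by
  classical
  rw [← sum_natDegree hk]
  have hmaps : ∀ P ∈ fac κ k, P.natDegree ∈ insert k (Finset.Icc 1 (k / 2)) := by
    intro P hP
    rw [mem_fac hk] at hP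
    obtain ⟨-, h2, h3⟩ := hP
    rw [Finset.mem_insert, Finset.mem_Icc]
    obtain ⟨c, hc⟩ := h3
    rcases Nat.lt_or_ge c 2 with h4 | h4
    · left
      interval_cases c
      · rw [mul_zero] at hc
        exact absurd hc hk
      · rw [mul_one] at hc
        exact hc.symm
    · right
      refine ⟨h2.natDegree_pos, ?_⟩
      rw [Nat.le_div_iff_mul_le (by norm_num), hc]
      exact Nat.mul_le_mul_left _ h4
  rw [← Finset.sum_fiberwise_of_maps_to hmaps]
  have hnot : k ∉ Finset.Icc 1 (k / 2) := by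
    rw [Finset.mem_Icc]
    omega
  rw [Finset.sum_insert hnot]
  refine Nat.add_le_add ?_ ?_
  · rw [mul_card_irr hk]
    refine le_of_eq (Finset.sum_congr ?_ fun _ _ => rfl)
    ext P
    unfold irr
    simp only [Finset.mem_filter]
  · refine Finset.sum_le_sum fun e he => ?_
    rw [Finset.mem_Icc] at he
    have he0 : e ≠ 0 := by omega
    refine le_trans ?_ (card_irr_le (κ := κ) he0)
    rw [mul_card_irr he0]
    refine Finset.sum_le_sum_of_subset ?_
    intro P hP
    rw [Finset.mem_filter, mem_fac hk] at hP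
    rw [mem_irr he0]
    exact ⟨hP.1.1, hP.1.2.1, hP.2⟩

end Pool.Agent.U407.PF
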