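import Pool.Agent.U407.PF1

/-!
# Monic polynomials of degree `g` over a finite field: divisors, squarefree ones, irreducible ones
-/

set_option autoImplicit false

namespace Pool.Agent.U407.PF

open Polynomial UniqueFactorizationMonoid

variable {κ : Type} [Field κ]

/-- the monic polynomial `X ^ g + ∑ α_i X ^ i` -/
noncomputable def mon {g : ℕ} (α : Fin g → κ) : κ[X] := X ^ g + ∑ i : Fin g, C (α i) * X ^ (i : ℕ)

theorem degree_low {g : ℕ} (α : Fin g → κ) :
    (∑ i : Fin g, C (α i) * X ^ (i : ℕ) : κ[X]).degree < g := by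
  rw [← Polynomial.mem_degreeLT]
  refine Submodule.sum_mem _ fun i _ => ?_
  rw [Polynomial.mem_degreeLT]
  exact (degree_C_mul_X_pow_le _ _).trans_lt (by exact_mod_cast i.2)

theorem mon_monic {g : ℕ} (α : Fin g → κ) : (mon α).Monic :=
  monic_X_pow_add (degree_low α)

theorem mon_natDegree {g : ℕ} (α : Fin g → κ) : (mon α).natDegree = g := by
  refine natDegree_eq_of_degree_eq_some ?_
  unfold mon
  rw [degree_add_eq_left_of_degree_lt, degree_X_pow]
  rw [degree_X_pow]
  exact degree_low α

theorem mon_coeff {g : ℕ} (α : Fin g → κ) (i : Fin g) : (mon α).coeff i = α i := by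
  unfold mon
  rw [coeff_add, coeff_X_pow, if_neg i.2.ne, zero_add, finsetSum_coeff, Finset.sum_eq_single i]
  · rw [coeff_C_mul, coeff_X_pow, if_pos rfl, mul_one]
  · intro j _ hj
    rw [coeff_C_mul, coeff_X_pow, if_neg, mul_zero]
    exact fun h => hj (Fin.ext h.symm)
  · intro h
    exact absurd (Finset.mem_univ i) h

theorem eq_of_monic {g : ℕ} {P Q : κ[X]} (hP : P.Monic) (hQ : Q.Monic) (hPg : P.natDegree = g)
    (hQg : Q.natDegree = g) (h : ∀ i < g, P.coeff i = Q.coeff i) : P = Q := by
  ext i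
  rcases lt_trichotomy i g with h1 | h1 | h1
  · exact h i h1
  · have h2 := hP.coeff_natDegree
    have h3 := hQ.coeff_natDegree
    rw [hPg] at h2
    rw [hQg] at h3
    rw [h1, h2, h3]
  · rw [coeff_eq_zero_of_natDegree_lt (by omega), coeff_eq_zero_of_natDegree_lt (by omega)]

theorem mon_surj {g : ℕ} {P : κ[X]} (hP : P.Monic) (hPg : P.natDegree = g) :
    mon (fun i : Fin g => P.coeff i) = P :=
  eq_of_monic (mon_monic _) hP (mon_natDegree _) hPg fun i hi => mon_coeff _ ⟨i, hi⟩

theorem mon_inj {g : ℕ} {α β : Fin g → κ} (h : mon α = mon β) : α = β := by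
  funext i
  rw [← mon_coeff α i, ← mon_coeff β i, h]

variable [Fintype κ]

/-- the number of the multiples of `P` -/
theorem card_multiples {g : ℕ} {P : κ[X]} (hP : P.Monic) :
    Nat.card {α : Fin g → κ // P ∣ mon α} ≤ Nat.card κ ^ (g - P.natDegree) := by
  have h1 : Nat.card (Fin (g - P.natDegree) → κ) = Nat.card κ ^ (g - P.natDegree) := by
    rw [Nat.card_fun, Nat.card_eq_fintype_card (α := Fin _), Fintype.card_fin]
  rw [← h1]
  refine Nat.card_le_card_of_injective
    (fun (α : {α : Fin g → κ // P ∣ mon α}) (i : Fin (g - P.natDegree)) =>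
      (mon α.1 /ₘ P).coeff i) ?_
  intro α β h
  have key : ∀ γ : {α : Fin g → κ // P ∣ mon α}, (mon γ.1 /ₘ P).Monic ∧
      (mon γ.1 /ₘ P).natDegree = g - P.natDegree ∧ P * (mon γ.1 /ₘ P) = mon γ.1 := by
    intro γ
    have h2 : P * (mon γ.1 /ₘ P) = mon γ.1 := by
      have h3 := modByMonic_add_div (mon γ.1) P
      rw [(modByMonic_eq_zero_iff_dvd hP).2 γ.2, zero_add] at h3
      exact h3
    refine ⟨?_, ?_, h2⟩
    · exact hP.of_mul_monic_left (by rw [h2]; exact mon_monic _)
    · rw [natDegree_divByMonic _ hP, mon_natDegree]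
  obtain ⟨a1, a2, a3⟩ := key α
  obtain ⟨b1, b2, b3⟩ := key β
  have h4 : mon α.1 /ₘ P = mon β.1 /ₘ P :=
    eq_of_monic a1 b1 a2 b2 fun i hi => congrFun h ⟨i, hi⟩
  apply Subtype.ext
  apply mon_inj
  rw [← a3, ← b3, h4]

/-- the distinct irreducible factors, sorted by degrees -/
theorem card_factors_squarefree {g : ℕ} {Φ : κ[X]} (hΦ : Φ.Monic) (hg : Φ.natDegree = g)
    (hsq : Squarefree Φ) [DecidableEq κ[X]] [∀ P : κ[X], Decidable (P ∣ Φ)] :
    (factors Φ).card = ∑ k ∈ Finset.Icc 1 g, ((irr κ k).filter fun P => P ∣ Φ).card := by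
  classical
  have h0 : Φ ≠ 0 := hΦ.ne_zero
  have hnd : (normalizedFactors Φ).Nodup := (squarefree_iff_nodup_normalizedFactors h0).1 hsq
  have h1 : (factors Φ).card = (normalizedFactors Φ).card := by
    unfold normalizedFactors
    rw [Multiset.card_map]
  have h2 : (normalizedFactors Φ).card = (normalizedFactors Φ).toFinset.card :=
    (Multiset.toFinset_card_of_nodup hnd).symm
  rw [h1, h2, ← Finset.card_biUnion]
  · congr 1
    ext P
    rw [Multiset.mem_toFinset, Polynomial.mem_normalizedFactors_iff h0, Finset.mem_biUnion]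
    constructor
    · rintro ⟨h3, h4, h5⟩
      have h6 := h3.natDegree_pos
      refine ⟨P.natDegree, ?_, ?_⟩
      · rw [Finset.mem_Icc]
        exact ⟨h6, by rw [← hg]; exact natDegree_le_of_dvd h5 h0⟩
      · rw [Finset.mem_filter, mem_irr h6.ne']
        exact ⟨⟨h4, h3, rfl⟩, h5⟩
    · rintro ⟨k, hk, h3⟩
      rw [Finset.mem_Icc] at hk
      rw [Finset.mem_filter, mem_irr (by omega)] at h3
      exact ⟨h3.1.2.1, h3.1.1, h3.2⟩
  · intro i hi j hj hij
    rw [Finset.mem_coe, Finset.mem_Icc] at hi hj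
    rw [Function.onFun, Finset.disjoint_left]
    intro P hP hP'
    rw [Finset.mem_filter, mem_irr (by omega)] at hP hP'
    exact hij (hP.1.2.2.symm.trans hP'.1.2.2)

omit [Fintype κ] in
/-- a monic squarefree polynomial is the product of distinct monic irreducible ones -/
theorem exists_factors {Φ : κ[X]} (hΦ : Φ.Monic) (hsq : Squarefree Φ) :
    ∃ H : Fin (factors Φ).card → κ[X], (∀ i, Irreducible (H i)) ∧ (∀ i, (H i).Monic) ∧
      Function.Injective H ∧ ∏ i, H i = Φ := by
  classical
  have h0 : Φ ≠ 0 := hΦ.ne_zero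
  have hnd : (normalizedFactors Φ).Nodup := (squarefree_iff_nodup_normalizedFactors h0).1 hsq
  have h1 : (factors Φ).card = (normalizedFactors Φ).card := by
    unfold normalizedFactors
    rw [Multiset.card_map]
  have h2 : (normalizedFactors Φ).toFinset.card = (factors Φ).card := by
    rw [h1]
    exact Multiset.toFinset_card_of_nodup hnd
  let e := (Finset.equivFinOfCardEq h2).symm
  have hmem : ∀ i, ((e i : (normalizedFactors Φ).toFinset) : κ[X]) ∈ normalizedFactors Φ :=
    fun i => Multiset.mem_toFinset.1 (e i).2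
  refine ⟨fun i => (e i : κ[X]), fun i => ?_, fun i => ?_, ?_, ?_⟩
  · exact ((Polynomial.mem_normalizedFactors_iff h0).1 (hmem i)).1
  · exact ((Polynomial.mem_normalizedFactors_iff h0).1 (hmem i)).2.1
  · exact Subtype.val_injective.comp e.injective
  · rw [e.prod_comp fun x : (normalizedFactors Φ).toFinset => (x : κ[X]),
      Finset.prod_coe_sort (normalizedFactors Φ).toFinset fun x => x, Finset.prod_eq_multiset_prod,
      Multiset.toFinset_val, hnd.dedup, Multiset.map_id']
    rw [prod_normalizedFactors_eq h0, hΦ.normalize_eq_self]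

end Pool.Agent.U407.PF
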