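import Pool.Agent.U407.PF2

/-!
# Monic polynomials of degree `g` over a finite field: counting
-/

set_option autoImplicit false

namespace Pool.Agent.U407.PF

open Polynomial UniqueFactorizationMonoid

variable {κ : Type} [Field κ] [Fintype κ]

theorem one_lt_q : 1 < Nat.card κ := Finite.one_lt_card

open Classical in
/-- the sum of the numbers of the distinct irreducible factors -/
theorem sum_factors_le (g : ℕ) :
    ((∑ α : Fin g → κ, ∑ k ∈ Finset.Icc 1 g, ((irr κ k).filter fun P => P ∣ mon α).card : ℕ) : ℚ) ≤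
      (Nat.card κ : ℚ) ^ g * ∑ k ∈ Finset.Icc 1 g, (1 : ℚ) / k := by
  have hq : (Nat.card κ : ℚ) ≠ 0 := by
    have := one_lt_q (κ := κ)
    positivity
  rw [Finset.sum_comm, Nat.cast_sum, Finset.mul_sum]
  refine Finset.sum_le_sum fun k hk => ?_
  rw [Finset.mem_Icc] at hk
  have hk0 : k ≠ 0 := by omega
  have h1 : ∑ α : Fin g → κ, ((irr κ k).filter fun P => P ∣ mon α).card =
      ∑ P ∈ irr κ k, Nat.card {α : Fin g → κ // P ∣ mon α} := by
    have h2 : ∀ α : Fin g → κ, ((irr κ k).filter fun P => P ∣ mon α).card =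
        ∑ P ∈ irr κ k, if P ∣ mon α then 1 else 0 := fun α => Finset.card_filter _ _
    rw [Finset.sum_congr rfl fun α _ => h2 α, Finset.sum_comm]
    refine Finset.sum_congr rfl fun P _ => ?_
    rw [← Finset.card_filter, Nat.card_eq_fintype_card, Fintype.card_subtype]
  have h3 : ∑ P ∈ irr κ k, Nat.card {α : Fin g → κ // P ∣ mon α} ≤
      (irr κ k).card * Nat.card κ ^ (g - k) := by
    rw [← smul_eq_mul, ← Finset.sum_const]
    refine Finset.sum_le_sum fun P hP => ?_
    rw [mem_irr hk0] at hP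
    have h4 := card_multiples (g := g) hP.1
    rwa [hP.2.2] at h4
  have h5 : ((irr κ k).card : ℚ) ≤ (Nat.card κ : ℚ) ^ k / k := by
    rw [le_div_iff₀ (by exact_mod_cast (show 0 < k by omega)), mul_comm]
    exact_mod_cast card_irr_le (κ := κ) hk0
  calc ((∑ α : Fin g → κ, ((irr κ k).filter fun P => P ∣ mon α).card : ℕ) : ℚ)
      ≤ ((irr κ k).card : ℚ) * (Nat.card κ : ℚ) ^ (g - k) := by
        rw [h1]
        exact_mod_cast h3
    _ ≤ (Nat.card κ : ℚ) ^ k / k * (Nat.card κ : ℚ) ^ (g - k) :=
        mul_le_mul_of_nonneg_right h5 (by positivity)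
    _ = (Nat.card κ : ℚ) ^ g * (1 / k) := by
        have h6 : (Nat.card κ : ℚ) ^ g = (Nat.card κ : ℚ) ^ k * (Nat.card κ : ℚ) ^ (g - k) := by
          rw [← pow_add, Nat.add_sub_cancel' hk.2]
        rw [h6]
        ring

theorem geom_bound {q g : ℕ} (hq : 2 ≤ q) :
    ∀ m, 1 ≤ m → m ≤ g → (∑ k ∈ Finset.Icc 1 m, q ^ (g - k)) + q ^ (g - m) ≤ 2 * q ^ (g - 1) := by
  intro m hm
  induction m, hm using Nat.le_induction with
  | base =>
    intro _
    simp
    omega
  | succ m hm ih =>
    intro hmg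
    have h1 := ih (by omega)
    rw [Finset.sum_Icc_succ_top (by omega)]
    have h2 : q ^ (g - m) = q ^ (g - (m + 1)) * q := by
      rw [← pow_succ]
      congr 1
      omega
    have h3 : q ^ (g - (m + 1)) * 2 ≤ q ^ (g - (m + 1)) * q := Nat.mul_le_mul_left _ hq
    omega

/-- the number of the monic polynomials which are not squarefree -/
theorem card_not_squarefree {g : ℕ} (hg : 1 ≤ g) :
    Nat.card {α : Fin g → κ // ¬ Squarefree (mon α)} ≤ 2 * Nat.card κ ^ (g - 1) := by
  classical
  rw [Nat.card_eq_fintype_card, Fintype.card_subtype]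
  have hsub : (Finset.univ.filter fun α : Fin g → κ => ¬ Squarefree (mon α)) ⊆
      (Finset.Icc 1 (g / 2)).biUnion fun k => (irr κ k).biUnion fun P =>
        Finset.univ.filter fun α : Fin g → κ => P * P ∣ mon α := by
    intro α hα
    rw [Finset.mem_filter] at hα
    have h0 : mon α ≠ 0 := (mon_monic α).ne_zero
    have h1 := hα.2
    rw [squarefree_iff_irreducible_sq_not_dvd_of_ne_zero h0] at h1
    push Not at h1
    obtain ⟨P, hP, hdvd⟩ := h1
    have hP0 := hP.ne_zero
    have hu : IsUnit (C (P.leadingCoeff⁻¹)) := isUnit_C.2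
      (inv_ne_zero (leadingCoeff_ne_zero.2 hP0)).isUnit
    have hass : Associated P (normalize P) := (normalize_associated P).symm
    have hN : (normalize P).Monic := monic_normalize hP0
    have hNi : Irreducible (normalize P) := hass.irreducible hP
    have hNd : normalize P * normalize P ∣ mon α :=
      (hass.mul_mul hass).dvd_iff_dvd_left.1 hdvd
    have hdeg : 2 * (normalize P).natDegree ≤ g := by
      have h2 := natDegree_le_of_dvd hNd h0
      rw [natDegree_mul hNi.ne_zero hNi.ne_zero, mon_natDegree] at h2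
      omega
    have hpos := hNi.natDegree_pos
    rw [Finset.mem_biUnion]
    refine ⟨(normalize P).natDegree, ?_, ?_⟩
    · rw [Finset.mem_Icc]
      omega
    · rw [Finset.mem_biUnion]
      refine ⟨normalize P, (mem_irr hpos.ne').2 ⟨hN, hNi, rfl⟩, ?_⟩
      rw [Finset.mem_filter]
      exact ⟨Finset.mem_univ _, hNd⟩
  refine (Finset.card_le_card hsub).trans (Finset.card_biUnion_le.trans ?_)
  have hk : ∀ k ∈ Finset.Icc 1 (g / 2), ((irr κ k).biUnion fun P =>
        Finset.univ.filter fun α : Fin g → κ => P * P ∣ mon α).card ≤ Nat.card κ ^ (g - k) := by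
    intro k hk
    rw [Finset.mem_Icc] at hk
    have hk0 : k ≠ 0 := by omega
    refine Finset.card_biUnion_le.trans ?_
    have h1 : ∀ P ∈ irr κ k, (Finset.univ.filter fun α : Fin g → κ => P * P ∣ mon α).card ≤
        Nat.card κ ^ (g - 2 * k) := by
      intro P hP
      rw [mem_irr hk0] at hP
      have h4 := card_multiples (g := g) (hP.1.mul hP.1)
      rw [natDegree_mul hP.2.1.ne_zero hP.2.1.ne_zero, hP.2.2, ← two_mul, Nat.card_eq_fintype_card,
        Fintype.card_subtype] at h4
      exact h4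
    refine (Finset.sum_le_sum h1).trans ?_
    rw [Finset.sum_const, smul_eq_mul]
    have h2 : (irr κ k).card ≤ Nat.card κ ^ k :=
      (Nat.le_mul_of_pos_left _ (by omega)).trans (card_irr_le (κ := κ) hk0)
    refine (Nat.mul_le_mul_right _ h2).trans ?_
    rw [← pow_add]
    exact le_of_eq (by congr 1; omega)
  refine (Finset.sum_le_sum hk).trans ?_
  rcases Nat.eq_zero_or_pos (g / 2) with h0 | h0
  · rw [h0]
    simp
  · have h1 := geom_bound (q := Nat.card κ) (g := g) one_lt_q (g / 2) h0 (Nat.div_le_self _ _)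
    omega

/-- the number of the irreducible monic polynomials -/
theorem card_irreducible {g : ℕ} (hg : 1 ≤ g) :
    (Nat.card κ : ℚ) ^ g * (1 / g) - (Nat.card κ : ℚ) ^ (g - 1) ≤
      Nat.card {α : Fin g → κ // Irreducible (mon α)} := by
  classical
  have h1 : Nat.card {α : Fin g → κ // Irreducible (mon α)} = (irr κ g).card := by
    have h2 : Nat.card {α : Fin g → κ // Irreducible (mon α)} = Nat.card (irr κ g) := by
      refine Nat.card_congr (Equiv.ofBijective (fun α => ⟨mon α.1, ?_⟩) ⟨?_, ?_⟩)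
      · exact (mem_irr (by omega)).2 ⟨mon_monic _, α.2, mon_natDegree _⟩
      · intro α β h
        exact Subtype.ext (mon_inj (congrArg (fun z => z.1) h))
      · rintro ⟨P, hP⟩
        have h3 := (mem_irr (by omega)).1 hP
        refine ⟨⟨fun i => P.coeff i, ?_⟩, Subtype.ext (mon_surj h3.1 h3.2.2)⟩
        rw [mon_surj h3.1 h3.2.2]
        exact h3.2.1
    rw [h2, Nat.card_eq_fintype_card, Fintype.card_coe]
  rw [h1]
  have h2 := le_card_irr (κ := κ) (k := g) (by omega)
  have h3 : ∑ e ∈ Finset.Icc 1 (g / 2), Nat.card κ ^ e ≤ g * Nat.card κ ^ (g - 1) := by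
    have h4 : ∀ e ∈ Finset.Icc 1 (g / 2), Nat.card κ ^ e ≤ Nat.card κ ^ (g - 1) := by
      intro e he
      rw [Finset.mem_Icc] at he
      exact Nat.pow_le_pow_right (by have := one_lt_q (κ := κ); omega) (by omega)
    refine (Finset.sum_le_sum h4).trans ?_
    rw [Finset.sum_const, smul_eq_mul, Nat.card_Icc]
    exact Nat.mul_le_mul_right _ (by omega)
  have h5 : (Nat.card κ : ℚ) ^ g ≤ g * ((irr κ g).card : ℚ) + g * (Nat.card κ : ℚ) ^ (g - 1) := by
    exact_mod_cast h2.trans (Nat.add_le_add_left h3 _)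
  have hg0 : (0 : ℚ) < g := by exact_mod_cast hg
  rw [mul_one_div, sub_le_iff_le_add, div_le_iff₀ hg0]
  linarith

end Pool.Agent.U407.PF
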