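import Pool.Agent.U407.PF3
import Pool.Agent.N867.AS.X4

/-!
# The number of the monic polynomials of degree `g` which are not ordinary
-/

set_option autoImplicit false

namespace Pool.Agent.U407.PF

open Polynomial Pool.Agent.N867.AS Pool.Agent.N867.AS.LP Pool.Agent.N867.AS.TV

section

variable (κ : Type) [Field κ]

/-- the generic monic polynomial -/
noncomputable def gen (g : ℕ) : (MvPolynomial (Fin g) κ)[X] :=
  X ^ g + ∑ i : Fin g, C (MvPolynomial.X i) * X ^ (i : ℕ)

variable {κ}

theorem gen_map {g : ℕ} (α : Fin g → κ) : (gen κ g).map (MvPolynomial.eval α) = mon α := by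
  unfold gen mon
  rw [Polynomial.map_add, Polynomial.map_pow, Polynomial.map_X, Polynomial.map_sum]
  congr 1
  refine Finset.sum_congr rfl fun i _ => ?_
  rw [Polynomial.map_mul, Polynomial.map_pow, Polynomial.map_X, Polynomial.map_C,
    MvPolynomial.eval_X]

theorem totalDegree_coeff_gen {g : ℕ} (j : ℕ) : ((gen κ g).coeff j).totalDegree ≤ 1 := by
  unfold gen
  rw [coeff_add, finsetSum_coeff]
  refine (MvPolynomial.totalDegree_add _ _).trans (max_le ?_ ?_)
  · rw [coeff_X_pow]
    split_ifs
    · rw [MvPolynomial.totalDegree_one]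
      exact Nat.zero_le _
    · rw [MvPolynomial.totalDegree_zero]
      exact Nat.zero_le _
  · refine MvPolynomial.totalDegree_finsetSum_le fun i _ => ?_
    rw [coeff_C_mul, coeff_X_pow]
    split_ifs
    · rw [mul_one]
      exact (MvPolynomial.totalDegree_X _).le
    · rw [mul_zero, MvPolynomial.totalDegree_zero]
      exact Nat.zero_le _

theorem totalDegree_coeff_pow {g : ℕ} (n : ℕ) :
    ∀ j : ℕ, ((gen κ g ^ n).coeff j).totalDegree ≤ n := by
  induction n with
  | zero =>
    intro j
    rw [pow_zero, coeff_one]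
    split_ifs
    · rw [MvPolynomial.totalDegree_one]
    · rw [MvPolynomial.totalDegree_zero]
  | succ n ih =>
    intro j
    rw [pow_succ, coeff_mul]
    refine MvPolynomial.totalDegree_finsetSum_le fun x _ => ?_
    exact (MvPolynomial.totalDegree_mul _ _).trans
      (Nat.add_le_add (ih _) (totalDegree_coeff_gen _))

theorem totalDegree_det_le {ι σ : Type} [Fintype ι] [DecidableEq ι]
    (M : Matrix ι ι (MvPolynomial σ κ)) (n : ℕ) (h : ∀ i j, (M i j).totalDegree ≤ n) :
    M.det.totalDegree ≤ Fintype.card ι * n := by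
  rw [Matrix.det_apply]
  refine MvPolynomial.totalDegree_finsetSum_le fun π _ => ?_
  have h1 : (∏ i, M (π i) i).totalDegree ≤ Fintype.card ι * n := by
    refine (MvPolynomial.totalDegree_finsetProd _ _).trans ?_
    refine (Finset.sum_le_sum fun i _ => h (π i) i).trans ?_
    rw [Finset.sum_const, Finset.card_univ, smul_eq_mul]
  rcases Int.units_eq_one_or (Equiv.Perm.sign π) with h2 | h2
  · rw [h2, one_smul]
    exact h1
  · rw [h2, Units.neg_smul, one_smul, MvPolynomial.totalDegree_neg]
    exact h1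

variable [Fintype κ]

theorem sz {g d : ℕ} (hg : 1 ≤ g) {P : MvPolynomial (Fin g) κ} (hP : P ≠ 0)
    (hd : P.totalDegree ≤ d) :
    Nat.card {α : Fin g → κ // MvPolynomial.eval α P = 0} ≤ d * Nat.card κ ^ (g - 1) := by
  classical
  have h := MvPolynomial.schwartz_zippel_totalDegree hP (Finset.univ : Finset κ)
  have h1 : (Fintype.piFinset fun _ : Fin g => (Finset.univ : Finset κ)) = Finset.univ := by
    ext x
    simp
  rw [h1, Finset.card_univ] at h
  rw [Nat.card_eq_fintype_card, Fintype.card_subtype, Nat.card_eq_fintype_card]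
  have hq : (0 : ℚ≥0) < Fintype.card κ := by exact_mod_cast Fintype.card_pos
  rw [div_le_div_iff₀ (by positivity) hq] at h
  have h2 : (Finset.univ.filter fun α : Fin g → κ => MvPolynomial.eval α P = 0).card *
      Fintype.card κ ≤ P.totalDegree * Fintype.card κ ^ g := by
    exact_mod_cast h
  have h3 : Fintype.card κ ^ g = Fintype.card κ ^ (g - 1) * Fintype.card κ := by
    rw [← pow_succ, Nat.sub_add_cancel hg]
  rw [h3, ← mul_assoc] at h2
  exact (Nat.le_of_mul_le_mul_right h2 Fintype.card_pos).trans (Nat.mul_le_mul_right _ hd)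

end

/-- the degree bound -/
def bnd (p a b g : ℕ) : ℕ :=
  ∑ w ∈ Finset.range (g * (a * b)), Fintype.card (Lat a b w) * ((p - 1) * w / (g * (a * b)))

variable {κ : Type} [Field κ] [Fintype κ]

/-- the number of the polynomials which are not ordinary -/
theorem card_not_ordinary {p : ℕ} [CharP κ p] (hp : p.Prime) {a b g : ℕ} (ha : a ≠ 0) (hb : b ≠ 0)
    (hab : a.Coprime b) (hg : g ≠ 0) (hM : g * (a * b) ∣ p - 1) :
    Nat.card {α : Fin g → κ // ¬ OrdP p a b g (mon α)} ≤ bnd p a b g * Nat.card κ ^ (g - 1) := by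
  classical
  have hg1 : 1 ≤ g := Nat.one_le_iff_ne_zero.2 hg
  let gm : ∀ w : ℕ, Matrix (Lat a b w) (Lat a b w) (MvPolynomial (Fin g) κ) := fun w =>
    Matrix.of fun u v =>
      (gen κ g ^ ((p - 1) * w / (g * (a * b)))).coeff ((p * (v.1.1 : ℕ) - (u.1.1 : ℕ)) / a)
  have hev : ∀ (w : ℕ) (α : Fin g → κ), MvPolynomial.eval α (gm w).det =
      (hws p a b w ((p - 1) * w / (g * (a * b))) (mon α)).det := by
    intro w α
    rw [RingHom.map_det]
    congr 1
    ext u v
    simp only [gm, hws, RingHom.mapMatrix_apply, Matrix.map_apply, Matrix.of_apply]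
    rw [← gen_map α, ← Polynomial.map_pow, coeff_map]
  have hne : ∀ w, 0 < w → w < g * (a * b) → (gm w).det ≠ 0 := by
    intro w hw0 hw h0
    have h1 := ord_diag (κ := κ) hp ha hb hab hg hM one_ne_zero w hw0 hw
    have h2 : (X ^ g - C 1 : κ[X]) = mon (fun i : Fin g => (X ^ g - C 1 : κ[X]).coeff i) :=
      (mon_surj (monic_X_pow_sub_C 1 hg) (natDegree_X_pow_sub_C)).symm
    rw [h2, ← hev, h0, map_zero] at h1
    exact h1 rfl
  rw [Nat.card_eq_fintype_card, Fintype.card_subtype]
  have hsub : (Finset.univ.filter fun α : Fin g → κ => ¬ OrdP p a b g (mon α)) ⊆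
      ((Finset.range (g * (a * b))).filter fun w => 0 < w).biUnion fun w =>
        Finset.univ.filter fun α : Fin g → κ => MvPolynomial.eval α (gm w).det = 0 := by
    intro α hα
    rw [Finset.mem_filter] at hα
    have h1 := hα.2
    unfold OrdP at h1
    push Not at h1
    obtain ⟨w, hw0, hw, h2⟩ := h1
    rw [Finset.mem_biUnion]
    refine ⟨w, ?_, ?_⟩
    · rw [Finset.mem_filter, Finset.mem_range]
      exact ⟨hw, hw0⟩
    · rw [Finset.mem_filter, hev]
      exact ⟨Finset.mem_univ _, h2⟩
  refine (Finset.card_le_card hsub).trans (Finset.card_biUnion_le.trans ?_)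
  unfold bnd
  rw [Finset.sum_mul]
  refine le_trans (Finset.sum_le_sum (g := fun w =>
    Fintype.card (Lat a b w) * ((p - 1) * w / (g * (a * b))) * Nat.card κ ^ (g - 1)) ?_)
    (Finset.sum_le_sum_of_subset (Finset.filter_subset _ _))
  intro w hw
  rw [Finset.mem_filter, Finset.mem_range] at hw
  have h1 := sz (d := Fintype.card (Lat a b w) * ((p - 1) * w / (g * (a * b)))) hg1
    (hne w hw.2 hw.1) (totalDegree_det_le _ _ fun u v => totalDegree_coeff_pow _ _)
  rw [Nat.card_eq_fintype_card, Fintype.card_subtype] at h1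
  exact h1

end Pool.Agent.U407.PF
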