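import Pool.Agent.U407.PS1
import Pool.Agent.U407.LF

/-!
# One curve with a half-plane polygon, over the function fields of Artin–Schreier towers
-/

set_option autoImplicit false

namespace Pool.Agent.U407.PS

open Pool.Agent.N867.AS Pool.Agent.N867.AS.Pg Pool.Agent.N867.AS.Tow Polynomial
  UniqueFactorizationMonoid

/-- the number of the indices -/
theorem card_Ix {p r : ℕ} (hp : 0 < p) : Fintype.card (Ix p 1 r) = p ^ r * (p - 1) := by
  classical
  have e : Ix p 1 r ≃ {a : Fin p // (a : ℕ) ≠ 0} × (Fin r → Fin p) :=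
    { toFun := fun v => (⟨v.1.1 0, by
        obtain ⟨j, hj⟩ := v.2
        rwa [Subsingleton.elim 0 j]⟩, v.1.2)
      invFun := fun w => ⟨(fun _ => w.1.1, w.2), ⟨0, w.1.2⟩⟩
      left_inv := fun v => by
        apply Subtype.ext
        apply Prod.ext
        · funext j
          rw [Subsingleton.elim j 0]
        · rfl
      right_inv := fun w => rfl }
  rw [Fintype.card_congr e, Fintype.card_prod, Fintype.card_fun, Fintype.card_fin, Fintype.card_fin,
    mul_comm]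
  congr 1
  have h1 := Fintype.card_subtype_compl (fun a : Fin p => (a : ℕ) = 0)
  have h2 : Fintype.card {a : Fin p // (a : ℕ) = 0} = 1 := by
    rw [Fintype.card_eq_one_iff]
    exact ⟨⟨⟨0, hp⟩, rfl⟩, fun y => Subtype.ext (Fin.ext y.2)⟩
  rw [h2, Fintype.card_fin] at h1
  exact h1

variable {κ : Type} [Field κ]

theorem coA_comb {p c r : ℕ} (f : κ[X][X]) (h : Fin r → κ[X])
    (w : (Fin 1 → Fin p) × (Fin r → Fin p)) (u : ℤ × ℕ) :
    coA (combC (fun _ => f) h w) c u = ((w.1 0 : ℕ) : κ) * coA f c u +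
      ∑ l, ((w.2 l : ℕ) : κ) * coA ((h l).map C) c u := by
  unfold coA
  split_ifs with h0
  · unfold combC
    rw [Fin.sum_univ_one, coeff_add, coeff_add, finsetSum_coeff, finsetSum_coeff]
    have h1 : ∀ (a : ℕ) (g : κ[X][X]), (((a : κ[X][X]) * g).coeff (u.1 + c).toNat).coeff u.2 =
        (a : κ) * (g.coeff (u.1 + c).toNat).coeff u.2 := by
      intro a g
      rw [← C_eq_natCast, coeff_C_mul, ← C_eq_natCast, coeff_C_mul]
    rw [h1]
    congr 1
    exact Finset.sum_congr rfl fun l _ => h1 _ _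
  · simp

theorem coA_base {c : ℕ} {h : κ[X]} {u : ℤ × ℕ} (hu : coA (h.map C) c u ≠ 0) :
    u.2 = 0 ∧ ∃ e : ℕ, (e : ℤ) - c = u.1 ∧ h.coeff e ≠ 0 := by
  unfold coA at hu
  split_ifs at hu with h0
  · rw [coeff_map, coeff_C] at hu
    split_ifs at hu with h1
    · refine ⟨h1, (u.1 + c).toNat, ?_, hu⟩
      rw [Int.toNat_of_nonneg h0]
      ring
    · exact absurd rfl hu
  · exact absurd rfl hu

theorem one (p : ℕ) (hp : p.Prime) [Fintype κ] [CharP κ p] (s : ℕ)
    (hs : Fintype.card κ = p ^ s) (c : ℕ) (hc : c ≠ 0) (r : ℕ) (f : κ[X][X])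
    (h : Fin r → κ[X]) (n : ℕ) (V : ℕ → ℤ × ℕ)
    (h0 : (V 0).2 = 0 ∧ 0 < (V 0).1) (hn : (V n).2 = 0 ∧ (V n).1 < 0)
    (hm : ∀ i, 0 < i → i < n → 0 < (V i).2)
    (hd : ∀ i < n, 0 < DV V i ∧ DV V i ∣ ((p - 1 : ℕ) : ℤ))
    (hv : ∀ i ≤ n, coA f c (V i) ≠ 0)
    (hf : ∀ u, coA f c u ≠ 0 → ∀ i < n, ell V i u.1 u.2 ≤ DV V i ∧
      (ell V i u.1 u.2 = DV V i → u = V i ∨ u = V (i + 1)))
    (hh : ∀ l e, (h l).coeff e ≠ 0 → (V n).1 < (e : ℤ) - c ∧ (e : ℤ) - c < (V 0).1) (L : ℚ[X])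
    (hL0 : L.coeff 0 = 1)
    (hL : PowerSeries.X * PowerSeries.derivative ℚ (L : PowerSeries ℚ) =
      (L : PowerSeries ℚ) * PowerSeries.mk (fun n => if n = 0 then 0 else
        (Fintype.card κ : ℚ) ^ n * (NSC p c h (Fintype.card κ ^ n) : ℚ) -
          (NDC p c (fun _ : Fin 1 => f) h (Fintype.card κ ^ n) : ℚ)))
    (ρ : ℕ) (M : ℚ[X]) (hLM : L = (1 - C (Fintype.card κ : ℚ) * X) ^ ρ * M)
    (hM : M.eval (1 / (Fintype.card κ : ℚ)) ≠ 0) {R : ℕ}
    (hR : R = p ^ r * (p - 1) * (∑ i ∈ Finset.range n,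
      (factors (C (coA f c (V (i + 1))) * X ^ gE V i + C (coA f c (V i)))).card - 2)) :
    ρ ≤ R ∧
      -((s * (p ^ r * (p - 1 : ℕ)) : ℕ) : ℚ) * hodgeP V n ≤
        (padicValRat p (M.eval (1 / (Fintype.card κ : ℚ))) : ℚ) ∧
      ((padicValRat p (M.eval (1 / (Fintype.card κ : ℚ))) : ℚ) =
        -((s * (p ^ r * (p - 1 : ℕ)) : ℕ) : ℚ) * hodgeP V n ↔ ρ = R) := by
  have : Fact p.Prime := ⟨hp⟩
  have hnpos : 0 < n := by
    rcases Nat.eq_zero_or_pos n with hn0 | hn0
    · rw [hn0] at hn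
      have := h0.2
      have := hn.2
      omega
    · exact hn0
  have ha : ∀ v : Ix p 1 r, ((v.1.1 0 : ℕ) : κ) ≠ 0 := by
    intro v
    obtain ⟨j, hj⟩ := v.2
    rw [Subsingleton.elim j 0] at hj
    rw [Ne, CharP.cast_eq_zero_iff κ p]
    exact fun hdvd => (Nat.le_of_dvd (Nat.pos_of_ne_zero hj) hdvd).not_gt (v.1.1 0).2
  have hbase : ∀ (l : Fin r) (u : ℤ × ℕ), coA ((h l).map C) c u ≠ 0 →
      u.2 = 0 ∧ (V n).1 < u.1 ∧ u.1 < (V 0).1 := by
    intro l u hu
    obtain ⟨h1, e, he, he'⟩ := coA_base hu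
    obtain ⟨h2, h3⟩ := hh l e he'
    rw [he] at h2 h3
    exact ⟨h1, h2, h3⟩
  have hV : ∀ (v : Ix p 1 r) (i : ℕ), i ≤ n → coA (combC (fun _ => f) h v.1) c (V i) =
      ((v.1.1 0 : ℕ) : κ) * coA f c (V i) := by
    intro v i hi
    rw [coA_comb]
    rw [Finset.sum_eq_zero, add_zero]
    intro l _
    have h1 : coA ((h l).map C) c (V i) = 0 := by
      by_contra h1
      obtain ⟨h2, h3, h4⟩ := hbase l _ h1
      rcases Nat.eq_zero_or_pos i with h5 | h5
      · rw [h5] at h4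
        exact lt_irrefl _ h4
      · rcases hi.lt_or_eq with h6 | h6
        · have := hm i h5 h6
          omega
        · rw [h6] at h3
          exact lt_irrefl _ h3
    rw [h1, mul_zero]
  have hstrict : ∀ u : ℤ × ℕ, u.2 = 0 → (V n).1 < u.1 → u.1 < (V 0).1 → ∀ i < n,
      ell V i u.1 u.2 < DV V i := by
    intro u hu h1 h2 i hi
    have e0 := (hf _ (hv 0 (Nat.zero_le _)) i hi).1
    have en := (hf _ (hv n le_rfl) i hi).1
    have hpos := (hd i hi).1
    unfold ell at e0 en ⊢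
    rw [h0.1] at e0
    rw [hn.1] at en
    rw [hu]
    generalize (((V (i + 1)).2 : ℤ) - (V i).2) = d at e0 en ⊢
    simp only [Nat.cast_zero, zero_mul, sub_zero] at e0 en ⊢
    rcases lt_trichotomy d 0 with h3 | h3 | h3
    · nlinarith
    · rw [h3, mul_zero]
      exact hpos
    · nlinarith
  have key := mainP p hp κ s hs c hc 1 r (fun _ => f) h (fun _ => n) (fun _ => V)
    (fun _ => h0) (fun _ => hn) (fun _ => hm) (fun _ => hd)
    (fun v i hi => by
      rw [hV v i hi]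
      exact mul_ne_zero (ha v) (hv i hi))
    (fun v u hu i hi => by
      by_cases h1 : coA f c u = 0
      · rw [coA_comb, h1, mul_zero, zero_add] at hu
        obtain ⟨l, -, hl⟩ := Finset.exists_ne_zero_of_sum_ne_zero hu
        obtain ⟨h2, h3, h4⟩ := hbase l u (right_ne_zero_of_mul hl)
        have h5 := hstrict u h2 h3 h4 i hi
        exact ⟨h5.le, fun h6 => absurd h6 h5.ne⟩
      · exact hf u h1 i hi)
    L hL0 hL ρ M hLM hM (R := R) ?_
  · rw [Finset.sum_const, Finset.card_univ, card_Ix hp.pos, nsmul_eq_mul] at key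
    have e1 : -((s * (p ^ r * (p - 1 : ℕ)) : ℕ) : ℚ) * hodgeP V n =
        -((s : ℚ) * (((p ^ r * (p - 1) : ℕ) : ℚ) * hodgeP V n)) := by
      rw [Nat.cast_mul s]
      ring
    rw [e1]
    exact key
  · rw [hR]
    have hpoly : IsPoly p c f n V := isPoly_of hc h0 hn hm hd hv hf
    have e2 : ∀ v ∈ (Finset.univ : Finset (Ix p 1 r)), (∑ i ∈ Finset.range n,
        (factors (C (coA (combC (fun _ => f) h v.1) c (V (i + 1))) * X ^ gE V i +
          C (coA (combC (fun _ => f) h v.1) c (V i)))).card - 2) = (∑ i ∈ Finset.range n,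
        (factors (C (coA f c (V (i + 1))) * X ^ gE V i + C (coA f c (V i)))).card - 2) := by
      intro v _
      congr 1
      refine Finset.sum_congr rfl fun i hi => ?_
      rw [Finset.mem_range] at hi
      obtain ⟨hg0, hgd⟩ := gE_dvd hpoly hi
      have hgd' : gE V i ∣ Fintype.card κ - 1 := by
        refine hgd.trans ?_
        rw [hs]
        exact Nat.sub_one_dvd_pow_sub_one p s
      rw [hV v i hi.le, hV v (i + 1) hi, card_factors hg0.ne' hgd' (mul_ne_zero (ha v) (hv i hi.le))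
        (mul_ne_zero (ha v) (hv (i + 1) hi)), card_factors hg0.ne' hgd' (hv i hi.le)
        (hv (i + 1) hi), ← mul_neg, mul_div_mul_left _ _ (ha v)]
    rw [Finset.sum_congr rfl e2, Finset.sum_const, Finset.card_univ, card_Ix hp.pos, smul_eq_mul]

end Pool.Agent.U407.PS
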