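import Pool.Agent.U407.PF4
import Pool.Agent.U407.PS2

/-!
# One curve `y^p - y = f` with an ordinary squarefree leading form, over the function fields of
# Artin–Schreier towers
-/

set_option autoImplicit false

namespace Pool.Agent.U407.PF

open Polynomial Pool.Agent.N867.AS Pool.Agent.N867.AS.LP Pool.Agent.N867.AS.TV
open Pool.Agent.N867.AS.Tow UniqueFactorizationMonoid

variable {κ : Type} [Field κ]

theorem lead_of {a b g : ℕ} {Ψ : κ[X]} {f : κ[X][X]} (hΨ : Ψ.natDegree ≤ g)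
    (wt : ∀ m n, (f.coeff m).coeff n ≠ 0 → b * m + a * n ≤ g * (a * b))
    (top : ∀ r ≤ g, (f.coeff (a * r)).coeff (b * (g - r)) = Ψ.coeff r) :
    Final2.Lead a b g Ψ f := by
  refine ⟨wt, ?_⟩
  ext r
  rcases Nat.lt_or_ge g r with hr | hr
  · have h1 : Ψ.coeff r = 0 := coeff_eq_zero_of_natDegree_lt (hΨ.trans_lt hr)
    rw [h1, TV.topPoly, finsetSum_coeff]
    refine Finset.sum_eq_zero fun i hi => ?_
    rw [coeff_C_mul, coeff_X_pow, if_neg, mul_zero]
    have := Finset.mem_range.1 hi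
    omega
  · rw [RG.top_coeff a b g f hr, top r hr]

theorem coeff_comb {p r : ℕ} (f : κ[X][X]) (h : Fin r → κ[X])
    (w : (Fin 1 → Fin p) × (Fin r → Fin p)) (m n : ℕ) :
    ((comb (fun _ => f) h w).coeff m).coeff n = ((w.1 0 : ℕ) : κ) * (f.coeff m).coeff n +
      ∑ l, ((w.2 l : ℕ) : κ) * if m = 0 then (h l).coeff n else 0 := by
  unfold comb
  rw [Fin.sum_univ_one, coeff_add, coeff_add, finsetSum_coeff, finsetSum_coeff]
  have h1 : ∀ (a : ℕ) (g : κ[X][X]), (((a : κ[X][X]) * g).coeff m).coeff n =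
      (a : κ) * (g.coeff m).coeff n := by
    intro a g
    rw [← C_eq_natCast, coeff_C_mul, ← C_eq_natCast, coeff_C_mul]
  rw [h1]
  congr 1
  refine Finset.sum_congr rfl fun l _ => ?_
  rw [h1, coeff_C]
  split_ifs
  · rfl
  · rw [coeff_zero]

theorem one (p : ℕ) (hp : p.Prime) [Fintype κ] [CharP κ p] (s : ℕ)
    (hs : Fintype.card κ = p ^ s) (r a b g : ℕ) (hab : a.Coprime b) (hga : g * a ∣ p - 1)
    (hgb : g * b ∣ p - 1) (u : κ) (hu : u ≠ 0) (Φ : κ[X]) (hΦ : Φ.Monic) (hdeg : Φ.natDegree = g)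
    (hsq : Squarefree Φ) (hord : OrdP p a b g Φ) (f : κ[X][X])
    (wt : ∀ m n, (f.coeff m).coeff n ≠ 0 → b * m + a * n ≤ g * (a * b))
    (top : ∀ r ≤ g, (f.coeff (a * r)).coeff (b * (g - r)) = (C u * Φ).coeff r)
    (h : Fin r → κ[X]) (hh : ∀ l, (h l).natDegree < b * g) (L : ℚ[X])
    (hL0 : L.coeff 0 = 1)
    (hL : PowerSeries.X * PowerSeries.derivative ℚ (L : PowerSeries ℚ) =
      (L : PowerSeries ℚ) * PowerSeries.mk (fun n => if n = 0 then 0 else
        (Fintype.card κ : ℚ) ^ n * (NS p h (Fintype.card κ ^ n) : ℚ) -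
          (ND p (fun _ : Fin 1 => f) h (Fintype.card κ ^ n) : ℚ)))
    (ρ : ℕ) (M : ℚ[X]) (hLM : L = (1 - C (Fintype.card κ : ℚ) * X) ^ ρ * M)
    (hM : M.eval (1 / (Fintype.card κ : ℚ)) ≠ 0) :
    ρ ≤ p ^ r * (p - 1) * ((factors Φ).card - 1) ∧
      -((s * (p ^ r * (p - 1)) : ℕ) : ℚ) * hg a b g ≤
        (padicValRat p (M.eval (1 / (Fintype.card κ : ℚ))) : ℚ) ∧
      ((padicValRat p (M.eval (1 / (Fintype.card κ : ℚ))) : ℚ) =
        -((s * (p ^ r * (p - 1)) : ℕ) : ℚ) * hg a b g ↔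
          ρ = p ^ r * (p - 1) * ((factors Φ).card - 1)) := by
  have : Fact p.Prime := ⟨hp⟩
  have hp1 : p - 1 ≠ 0 := by
    have := hp.two_le
    omega
  have hga0 : g * a ≠ 0 := fun h => hp1 (by rwa [h, zero_dvd_iff] at hga)
  have hgb0 : g * b ≠ 0 := fun h => hp1 (by rwa [h, zero_dvd_iff] at hgb)
  have hg0 : g ≠ 0 := left_ne_zero_of_mul hga0
  have ha : a ≠ 0 := right_ne_zero_of_mul hga0
  have hb : b ≠ 0 := right_ne_zero_of_mul hgb0
  have hv : ∀ v : Ix p 1 r, ((v.1.1 0 : ℕ) : κ) ≠ 0 := by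
    intro v
    obtain ⟨j, hj⟩ := v.2
    rw [Subsingleton.elim j 0] at hj
    rw [Ne, CharP.cast_eq_zero_iff κ p]
    exact fun hdvd => (Nat.le_of_dvd (Nat.pos_of_ne_zero hj) hdvd).not_gt (v.1.1 0).2
  obtain ⟨H, hirr, hmon, hinj, hprod⟩ := exists_factors hΦ hsq
  have hlead : ∀ v : Ix p 1 r, Final2.Lead a b g (C (((v.1.1 0 : ℕ) : κ) * u) * ∏ i, H i)
      (comb (fun _ => f) h v.1) := by
    intro v
    rw [hprod]
    refine lead_of ?_ ?_ ?_
    · rw [natDegree_C_mul (mul_ne_zero (hv v) hu), hdeg]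
    · intro m n hmn
      rw [coeff_comb] at hmn
      by_cases h1 : (f.coeff m).coeff n = 0
      · rw [h1, mul_zero, zero_add] at hmn
        obtain ⟨l, -, hl⟩ := Finset.exists_ne_zero_of_sum_ne_zero hmn
        have h2 := right_ne_zero_of_mul hl
        split_ifs at h2 with h3
        · have h4 := le_natDegree_of_ne_zero h2
          have h5 := hh l
          rw [h3, mul_zero, zero_add]
          have h6 : n ≤ b * g := by omega
          calc a * n ≤ a * (b * g) := Nat.mul_le_mul_left _ h6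
            _ = g * (a * b) := by ring
        · exact absurd rfl h2
      · exact wt m n h1
    · intro i hi
      rw [coeff_comb, top i hi, Finset.sum_eq_zero, add_zero, coeff_C_mul, coeff_C_mul, mul_assoc]
      intro l _
      split_ifs with h3
      · have h4 : i = 0 := by
          rcases Nat.mul_eq_zero.1 h3 with h5 | h5
          · exact absurd h5 ha
          · exact h5
        rw [h4, Nat.sub_zero, coeff_eq_zero_of_natDegree_lt (hh l), mul_zero]
      · rw [mul_zero]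
  have key := main2 p hp κ s hs 1 r (fun _ => f) h (fun _ => a) (fun _ => b) (fun _ => g)
    (fun _ => (factors Φ).card) (fun _ => hab) (fun _ => hga) (fun _ => hgb)
    (fun v => ((v.1.1 0 : ℕ) : κ) * u) (fun v => mul_ne_zero (hv v) hu) (fun _ => H)
    (fun _ => hirr) (fun _ => hmon) (fun _ => hinj) (fun _ => by rw [hprod, hdeg])
    (fun _ => by rw [hprod]; exact hord) hlead L hL0 hL ρ M hLM hM
  rw [Finset.sum_const, Finset.sum_const, Finset.card_univ, PS.card_Ix hp.pos, smul_eq_mul,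
    nsmul_eq_mul] at key
  have e1 : -((s * (p ^ r * (p - 1)) : ℕ) : ℚ) * hg a b g =
      -((s : ℚ) * (((p ^ r * (p - 1) : ℕ) : ℚ) * hg a b g)) := by
    rw [Nat.cast_mul s]
    ring
  rw [e1]
  exact key

end Pool.Agent.U407.PF
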