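import Pool.Agent.U407.PF3

/-!
# The variance of the number of the irreducible factors of a monic polynomial of degree `g`
-/

set_option autoImplicit false

namespace Pool.Agent.U407.PF

open Polynomial UniqueFactorizationMonoid

variable {κ : Type} [Field κ] [Fintype κ]

theorem card_multiples_eq {g : ℕ} {P : κ[X]} (hP : P.Monic) (hg : P.natDegree ≤ g) :
    Nat.card {α : Fin g → κ // P ∣ mon α} = Nat.card κ ^ (g - P.natDegree) := by
  refine le_antisymm (card_multiples hP) ?_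
  have h1 : Nat.card (Fin (g - P.natDegree) → κ) = Nat.card κ ^ (g - P.natDegree) := by
    rw [Nat.card_fun, Nat.card_eq_fintype_card (α := Fin _), Fintype.card_fin]
  rw [← h1]
  have hm : ∀ β : Fin (g - P.natDegree) → κ, (P * mon β).Monic ∧ (P * mon β).natDegree = g := by
    intro β
    refine ⟨hP.mul (mon_monic β), ?_⟩
    rw [hP.natDegree_mul (mon_monic β), mon_natDegree]
    omega
  refine Nat.card_le_card_of_injective
    (fun β => (⟨fun i => (P * mon β).coeff i, by
      rw [mon_surj (hm β).1 (hm β).2]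
      exact dvd_mul_right _ _⟩ : {α : Fin g → κ // P ∣ mon α})) ?_
  intro β γ h
  have h2 := congrArg (fun z => mon z.1) h
  simp only at h2
  rw [mon_surj (hm β).1 (hm β).2, mon_surj (hm γ).1 (hm γ).2] at h2
  exact mon_inj (mul_left_cancel₀ hP.ne_zero h2)

variable (κ) in
open Classical in
/-- the monic irreducible polynomials of degree at most `g` -/
noncomputable def small (g : ℕ) : Finset κ[X] := (Finset.Icc 1 g).biUnion (irr κ)

theorem mem_small {g : ℕ} {P : κ[X]} :
    P ∈ small κ g ↔ P.Monic ∧ Irreducible P ∧ P.natDegree ≤ g := by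
  classical
  unfold small
  rw [Finset.mem_biUnion]
  constructor
  · rintro ⟨k, hk, hP⟩
    rw [Finset.mem_Icc] at hk
    rw [mem_irr (by omega)] at hP
    exact ⟨hP.1, hP.2.1, by rw [hP.2.2]; exact hk.2⟩
  · rintro ⟨h1, h2, h3⟩
    have h4 := h2.natDegree_pos
    refine ⟨P.natDegree, ?_, (mem_irr h4.ne').2 ⟨h1, h2, rfl⟩⟩
    rw [Finset.mem_Icc]
    exact ⟨h4, h3⟩

open Classical in
/-- the number of the distinct monic irreducible factors -/
noncomputable def om {g : ℕ} (α : Fin g → κ) : ℚ := ∑ P ∈ small κ g, if P ∣ mon α then 1 else 0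

variable (κ) in
/-- the expected value -/
noncomputable def ex (g : ℕ) : ℚ := ∑ P ∈ small κ g, 1 / (Nat.card κ : ℚ) ^ P.natDegree

theorem q_ne : (Nat.card κ : ℚ) ≠ 0 := by
  have := one_lt_q (κ := κ)
  positivity

theorem q_pos : 0 < (Nat.card κ : ℚ) := by
  have := one_lt_q (κ := κ)
  positivity

omit [Field κ] in
theorem sum_ind [DecidableEq κ] {g : ℕ} (Q : (Fin g → κ) → Prop) [DecidablePred Q] :
    ∑ α : Fin g → κ, (if Q α then (1 : ℚ) else 0) = Nat.card {α : Fin g → κ // Q α} := by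
  rw [Finset.sum_boole, Nat.card_eq_fintype_card, Fintype.card_subtype]

theorem card_div {g : ℕ} {P : κ[X]} (hP : P.Monic) (hg : P.natDegree ≤ g) :
    (Nat.card {α : Fin g → κ // P ∣ mon α} : ℚ) =
      (Nat.card κ : ℚ) ^ g * (1 / (Nat.card κ : ℚ) ^ P.natDegree) := by
  rw [card_multiples_eq hP hg, Nat.cast_pow, mul_one_div, eq_div_iff (pow_ne_zero _ q_ne),
    ← pow_add, Nat.sub_add_cancel hg]

theorem sum_om (g : ℕ) : ∑ α : Fin g → κ, om α = (Nat.card κ : ℚ) ^ g * ex κ g := by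
  classical
  unfold om ex
  rw [Finset.sum_comm, Finset.mul_sum]
  refine Finset.sum_congr rfl fun P hP => ?_
  rw [mem_small] at hP
  rw [← card_div hP.1 hP.2.2, ← sum_ind]

theorem card_two {g : ℕ} {P Q : κ[X]} (hP : P.Monic) (hPi : Irreducible P) (hQ : Q.Monic)
    (hQi : Irreducible Q) (hne : P ≠ Q) :
    (Nat.card {α : Fin g → κ // P ∣ mon α ∧ Q ∣ mon α} : ℚ) ≤
      (Nat.card κ : ℚ) ^ g *
        (1 / (Nat.card κ : ℚ) ^ P.natDegree * (1 / (Nat.card κ : ℚ) ^ Q.natDegree)) := by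
  have hcop : IsCoprime P Q := by
    refine hPi.coprime_iff_not_dvd.2 fun hdvd => hne ?_
    exact eq_of_monic_of_associated hP hQ (hPi.associated_of_dvd hQi hdvd)
  have hsub : Nat.card {α : Fin g → κ // P ∣ mon α ∧ Q ∣ mon α} ≤
      Nat.card {α : Fin g → κ // P * Q ∣ mon α} :=
    Nat.card_le_card_of_injective (fun α => ⟨α.1, hcop.mul_dvd α.2.1 α.2.2⟩) fun x y h =>
      Subtype.ext (congrArg (fun z => z.1) h)
  have hmon := hP.mul hQ
  have hdeg : (P * Q).natDegree = P.natDegree + Q.natDegree := hP.natDegree_mul hQ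
  rcases Nat.lt_or_ge g (P.natDegree + Q.natDegree) with h1 | h1
  · have h2 : Nat.card {α : Fin g → κ // P * Q ∣ mon α} = 0 := by
      rw [Nat.card_eq_zero]
      left
      constructor
      rintro ⟨α, hα⟩
      have h3 := natDegree_le_of_dvd hα (mon_monic α).ne_zero
      rw [hdeg, mon_natDegree] at h3
      omega
    rw [h2] at hsub
    have h4 : (Nat.card {α : Fin g → κ // P ∣ mon α ∧ Q ∣ mon α} : ℚ) = 0 := by
      exact_mod_cast Nat.le_zero.1 hsub
    rw [h4]
    have := q_pos (κ := κ)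
    positivity
  · have h2 := card_div (g := g) hmon (by rw [hdeg]; exact h1)
    rw [hdeg, pow_add] at h2
    have h3 : (Nat.card {α : Fin g → κ // P ∣ mon α ∧ Q ∣ mon α} : ℚ) ≤
        Nat.card {α : Fin g → κ // P * Q ∣ mon α} := by exact_mod_cast hsub
    rw [h2] at h3
    refine h3.trans (le_of_eq ?_)
    rw [one_div_mul_one_div]

theorem sum_om_sq (g : ℕ) :
    ∑ α : Fin g → κ, om α ^ 2 ≤ (Nat.card κ : ℚ) ^ g * (ex κ g + ex κ g ^ 2) := by
  classical
  have h1 : ∀ α : Fin g → κ, om α ^ 2 = ∑ P ∈ small κ g, ∑ Q ∈ small κ g,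
      if P ∣ mon α ∧ Q ∣ mon α then (1 : ℚ) else 0 := by
    intro α
    unfold om
    rw [sq, Finset.sum_mul_sum]
    refine Finset.sum_congr rfl fun P _ => Finset.sum_congr rfl fun Q _ => ?_
    by_cases h2 : P ∣ mon α
    · by_cases h3 : Q ∣ mon α
      · rw [if_pos h2, if_pos h3, if_pos ⟨h2, h3⟩, one_mul]
      · rw [if_neg h3, if_neg (fun h : P ∣ mon α ∧ Q ∣ mon α => h3 h.2), mul_zero]
    · rw [if_neg h2, if_neg (fun h : P ∣ mon α ∧ Q ∣ mon α => h2 h.1), zero_mul]
  rw [Finset.sum_congr rfl fun α _ => h1 α, Finset.sum_comm]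
  have h2 : ∀ P ∈ small κ g, ∑ α : Fin g → κ, ∑ Q ∈ small κ g,
      (if P ∣ mon α ∧ Q ∣ mon α then (1 : ℚ) else 0) ≤
      (Nat.card κ : ℚ) ^ g * (1 / (Nat.card κ : ℚ) ^ P.natDegree +
        1 / (Nat.card κ : ℚ) ^ P.natDegree * ex κ g) := by
    intro P hP
    have hP' := mem_small.1 hP
    rw [Finset.sum_comm, ← Finset.add_sum_erase _ _ hP, mul_add]
    refine add_le_add ?_ ?_
    · rw [sum_ind]
      have h3 : Nat.card {α : Fin g → κ // P ∣ mon α ∧ P ∣ mon α} =
          Nat.card {α : Fin g → κ // P ∣ mon α} :=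
        Nat.card_congr (Equiv.subtypeEquivRight fun α => and_self_iff)
      rw [h3, card_div hP'.1 hP'.2.2]
    · unfold ex
      rw [Finset.mul_sum, Finset.mul_sum]
      refine (Finset.sum_le_sum (g := fun Q => (Nat.card κ : ℚ) ^ g *
        (1 / (Nat.card κ : ℚ) ^ P.natDegree * (1 / (Nat.card κ : ℚ) ^ Q.natDegree)))
        fun Q hQ => ?_).trans (Finset.sum_le_sum_of_subset_of_nonneg (Finset.erase_subset _ _)
          fun Q _ _ => by
            have := q_pos (κ := κ)
            positivity)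
      rw [Finset.mem_erase] at hQ
      have hQ' := mem_small.1 hQ.2
      rw [sum_ind]
      exact card_two hP'.1 hP'.2.1 hQ'.1 hQ'.2.1 hQ.1.symm
  refine (Finset.sum_le_sum h2).trans (le_of_eq ?_)
  rw [← Finset.mul_sum, Finset.sum_add_distrib, ← Finset.sum_mul]
  unfold ex
  ring

/-- the variance -/
theorem variance (g : ℕ) :
    ∑ α : Fin g → κ, (om α - ex κ g) ^ 2 ≤ (Nat.card κ : ℚ) ^ g * ex κ g := by
  have h1 : ∑ α : Fin g → κ, (om α - ex κ g) ^ 2 =
      ∑ α : Fin g → κ, om α ^ 2 - 2 * ex κ g * ∑ α : Fin g → κ, om α +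
        (Nat.card κ : ℚ) ^ g * ex κ g ^ 2 := by
    have h2 : ∀ α : Fin g → κ, (om α - ex κ g) ^ 2 =
        om α ^ 2 - 2 * ex κ g * om α + ex κ g ^ 2 := fun α => by ring
    rw [Finset.sum_congr rfl fun α _ => h2 α, Finset.sum_add_distrib, Finset.sum_sub_distrib,
      ← Finset.mul_sum, Finset.sum_const, Finset.card_univ, nsmul_eq_mul, ← Nat.card_eq_fintype_card,
      Nat.card_fun, Nat.card_eq_fintype_card (α := Fin g), Fintype.card_fin, Nat.cast_pow]
  rw [h1, sum_om]
  have h3 := sum_om_sq (κ := κ) g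
  linarith [h3, (by ring : (Nat.card κ : ℚ) ^ g * (ex κ g + ex κ g ^ 2) -
    2 * ex κ g * ((Nat.card κ : ℚ) ^ g * ex κ g) + (Nat.card κ : ℚ) ^ g * ex κ g ^ 2 =
    (Nat.card κ : ℚ) ^ g * ex κ g)]

theorem ex_le (g : ℕ) : ex κ g ≤ ∑ k ∈ Finset.Icc 1 g, (1 : ℚ) / k := by
  classical
  unfold ex small
  rw [Finset.sum_biUnion]
  · refine Finset.sum_le_sum fun k hk => ?_
    rw [Finset.mem_Icc] at hk
    have hk0 : k ≠ 0 := by omega
    have h1 : ∑ P ∈ irr κ k, 1 / (Nat.card κ : ℚ) ^ P.natDegree =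
        (irr κ k).card / (Nat.card κ : ℚ) ^ k := by
      rw [Finset.sum_congr rfl fun P hP => by rw [((mem_irr hk0).1 hP).2.2], Finset.sum_const,
        nsmul_eq_mul, mul_one_div]
    rw [h1, div_le_div_iff₀ (pow_pos q_pos _) (by exact_mod_cast (show 0 < k by omega)), one_mul,
      mul_comm]
    exact_mod_cast card_irr_le (κ := κ) hk0
  · intro i hi j hj hij
    rw [Finset.mem_coe, Finset.mem_Icc] at hi hj
    rw [Function.onFun, Finset.disjoint_left]
    intro P hP hP'
    rw [mem_irr (by omega)] at hP hP'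
    exact hij (hP.2.2.symm.trans hP'.2.2)

theorem ex_nonneg (g : ℕ) : 0 ≤ ex κ g := by
  unfold ex
  have := q_pos (κ := κ)
  exact Finset.sum_nonneg fun P _ => by positivity

/-- Chebyshev's inequality -/
theorem chebyshev (g : ℕ) {t : ℚ} (ht : 0 < t) :
    (Nat.card {α : Fin g → κ // (∑ k ∈ Finset.Icc 1 g, (1 : ℚ) / k) + t ≤ om α} : ℚ) ≤
      (Nat.card κ : ℚ) ^ g * ((∑ k ∈ Finset.Icc 1 g, (1 : ℚ) / k) / t ^ 2) := by
  classical
  obtain ⟨H, hH⟩ : ∃ H : ℚ, H = ∑ k ∈ Finset.Icc 1 g, (1 : ℚ) / k := ⟨_, rfl⟩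
  rw [← hH]
  have hex : ex κ g ≤ H := by
    rw [hH]
    exact ex_le g
  have h1 : (Nat.card {α : Fin g → κ // H + t ≤ om α} : ℚ) * t ^ 2 ≤
      (Nat.card κ : ℚ) ^ g * ex κ g := by
    refine le_trans ?_ (variance (κ := κ) g)
    rw [Nat.card_eq_fintype_card, Fintype.card_subtype, ← nsmul_eq_mul, ← Finset.sum_const]
    refine (Finset.sum_le_sum (g := fun α : Fin g → κ => (om α - ex κ g) ^ 2) ?_).trans
      (Finset.sum_le_sum_of_subset_of_nonneg (Finset.subset_univ _) fun α _ _ => sq_nonneg _)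
    intro α hα
    rw [Finset.mem_filter] at hα
    have h2 : t ≤ om α - ex κ g := by linarith [hα.2]
    exact pow_le_pow_left₀ ht.le h2 2
  rw [← mul_div_assoc, le_div_iff₀ (by positivity)]
  refine h1.trans (mul_le_mul_of_nonneg_left hex ?_)
  exact (pow_pos q_pos _).le

/-- for squarefree polynomials -/
theorem om_eq {g : ℕ} (α : Fin g → κ) (h : Squarefree (mon α)) :
    om α = ((factors (mon α)).card : ℚ) := by
  classical
  rw [card_factors_squarefree (mon_monic α) (mon_natDegree α) h]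
  unfold om small
  rw [Finset.sum_biUnion]
  · rw [Nat.cast_sum]
    refine Finset.sum_congr rfl fun k _ => ?_
    rw [Finset.sum_boole]
  · intro i hi j hj hij
    rw [Finset.mem_coe, Finset.mem_Icc] at hi hj
    rw [Function.onFun, Finset.disjoint_left]
    intro P hP hP'
    rw [mem_irr (by omega)] at hP hP'
    exact hij (hP.2.2.symm.trans hP'.2.2)

end Pool.Agent.U407.PF
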