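import Pool.Agent.N867.AS.K15

/-!
# Elementary abelian covers with a simple pole: assembly
-/

set_option autoImplicit false
set_option linter.unusedSectionVars false

namespace Pool.Agent.U407.SP

open Polynomial Pool.Agent.N867.AS Pool.Agent.N867.AS.Tow Pool.Agent.N867.AS.Lau

/-- `∑_{i, j} (1 - (b i + a j)/M)` over `i ≥ 0`, `j > 0` with `b i + a j < M` -/
noncomputable def hl (a b M : ℕ) : ℚ :=
  ∑ i ∈ Finset.range M, ∑ j ∈ Finset.range M,
    if 0 < j ∧ b * i + a * j < M then 1 - ((b * i + a * j : ℕ) : ℚ) / (M : ℚ) else 0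

theorem hl_eq {p a b M : ℕ} (hM0 : M ≠ 0) (hM : M ∣ p - 1) (s : ℕ) :
    (((p - 1) / M * (s * SL a b M) : ℕ) : ℚ) = ((p - 1 : ℕ) : ℚ) * ((s : ℚ) * hl a b M) := by
  obtain ⟨e, he⟩ := hM
  have hM' : (M : ℚ) ≠ 0 := Nat.cast_ne_zero.2 hM0
  rw [he, Nat.mul_div_cancel_left _ (Nat.pos_of_ne_zero hM0)]
  have h1 : (SL a b M : ℚ) = (M : ℚ) * hl a b M := by
    rw [SL, hl]
    push_cast
    rw [Finset.mul_sum]
    refine Finset.sum_congr rfl fun i _ => ?_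
    rw [Finset.mul_sum]
    refine Finset.sum_congr rfl fun j _ => ?_
    by_cases hj : 0 < j
    · rw [if_pos hj]
      by_cases hlt : b * i + a * j < M
      · rw [if_pos ⟨hj, hlt⟩, Nat.cast_sub hlt.le]
        push_cast
        field_simp
      · rw [if_neg (fun h => hlt h.2), Nat.sub_eq_zero_of_le (not_lt.1 hlt), mul_zero,
          Nat.cast_zero]
    · rw [if_neg hj, if_neg (fun h => hj h.1), mul_zero]
  push_cast
  rw [h1]
  ring

theorem mainL (p : ℕ) (hp : p.Prime) (κ : Type) [Field κ] [Fintype κ] [CharP κ p] (s : ℕ)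
    (hs : Fintype.card κ = p ^ s) (m r : ℕ) (F : Fin m → κ[X][X]) (h : Fin r → κ[X])
    (a b e : Ix p m r → ℕ) (ha : ∀ v, 2 ≤ a v) (hb : ∀ v, 1 ≤ b v)
    (hab : ∀ v, (a v).Coprime (b v))
    (hMp : ∀ v, b v * (a v - 1) ∣ p - 1) (u : Ix p m r → κ) (hu : ∀ v, u v ≠ 0)
    (P : ∀ v, Fin (e v) → κ[X]) (hirr : ∀ v i, Irreducible (P v i))
    (hmon : ∀ v i, (P v i).Monic) (hinj : ∀ v, Function.Injective (P v))
    (hdeg : ∀ v, (∏ i, P v i).natDegree = b v)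
    (hwt : ∀ v i j, ((combL F h v.1).coeff i).coeff j ≠ 0 → b v * i + a v * j ≤ a v * b v)
    (hca : ∀ v, ((combL F h v.1).coeff (a v)).coeff 0 ≠ 0)
    (htop : ∀ v, (combL F h v.1).coeff 0 = C (u v) * ∏ i, P v i) (L : ℚ[X])
    (hL0 : L.coeff 0 = 1)
    (hL : PowerSeries.X * PowerSeries.derivative ℚ (L : PowerSeries ℚ) =
      (L : PowerSeries ℚ) * PowerSeries.mk (fun n => if n = 0 then 0 else
        ((Fintype.card κ : ℚ) ^ n - 1) * (NS p h (Fintype.card κ ^ n) : ℚ) -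
          (NDL p F h (Fintype.card κ ^ n) : ℚ)))
    (ρ : ℕ) (M : ℚ[X]) (hLM : L = (1 - C (Fintype.card κ : ℚ) * X) ^ ρ * M)
    (hM : M.eval (1 / (Fintype.card κ : ℚ)) ≠ 0) :
    ρ ≤ ∑ v, (e v - 1) ∧
      -((s : ℚ) * ∑ v, hl (a v) (b v) (b v * (a v - 1))) ≤
        (padicValRat p (M.eval (1 / (Fintype.card κ : ℚ))) : ℚ) ∧
      ((padicValRat p (M.eval (1 / (Fintype.card κ : ℚ))) : ℚ) =
        -((s : ℚ) * ∑ v, hl (a v) (b v) (b v * (a v - 1))) ↔ ρ = ∑ v, (e v - 1)) := by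
  have : Fact p.Prime := ⟨hp⟩
  have hp1 : p - 1 ≠ 0 := by
    have := hp.two_le
    omega
  have hp1' : 0 < p - 1 := Nat.pos_of_ne_zero hp1
  have hMab : ∀ v, b v * (a v - 1) + b v = a v * b v := by
    intro v
    obtain ⟨d, hd⟩ : ∃ d, a v = d + 1 := ⟨a v - 1, by have := ha v; omega⟩
    rw [hd, Nat.add_sub_cancel]
    ring
  have hM0 : ∀ v, b v * (a v - 1) ≠ 0 := fun v => by
    have h1 := ha v
    have h2 := hb v
    exact mul_ne_zero (by omega) (by omega)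
  have hs0 : s ≠ 0 := by
    rintro rfl
    rw [pow_zero] at hs
    exact absurd hs (Fintype.one_lt_card (α := κ)).ne'
  have hcop : ∀ v, Pairwise fun i j => IsCoprime (P v i) (P v j) := by
    intro v i j hij
    refine (hirr v i).coprime_iff_not_dvd.2 fun hdvd => hij (hinj v ?_)
    exact eq_of_monic_of_associated (hmon v i) (hmon v j)
      ((hirr v i).associated_of_dvd (hirr v j) hdvd)
  have hq : (Fintype.card κ : ℚ) = (p : ℚ) ^ s := by rw [hs]; push_cast; rfl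
  have hpq : ((p : ℚ) - 1) = ((p - 1 : ℕ) : ℚ) := by
    rw [Nat.cast_sub hp.one_le, Nat.cast_one]
  have hL2 : PowerSeries.X * PowerSeries.derivative ℚ ((L ^ (p - 1) : ℚ[X]) : PowerSeries ℚ) =
      ((L ^ (p - 1) : ℚ[X]) : PowerSeries ℚ) * PowerSeries.mk (fun n => if n = 0 then 0 else
        ∑ v : Ix p m r, (((Fintype.card κ : ℚ) ^ n - 1) * (Fintype.card κ : ℚ) ^ n -
          (Nptl p (combL F h v.1) (Fintype.card κ ^ n) : ℚ))) := by
    have h1 : PowerSeries.mk (fun n => if n = 0 then 0 else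
        ∑ v : Ix p m r, (((Fintype.card κ : ℚ) ^ n - 1) * (Fintype.card κ : ℚ) ^ n -
          (Nptl p (combL F h v.1) (Fintype.card κ ^ n) : ℚ))) =
        ((p - 1 : ℕ) : PowerSeries ℚ) * PowerSeries.mk (fun n => if n = 0 then 0 else
        ((Fintype.card κ : ℚ) ^ n - 1) * (NS p h (Fintype.card κ ^ n) : ℚ) -
          (NDL p F h (Fintype.card κ ^ n) : ℚ)) := by
      ext n
      have h2 : ((p - 1 : ℕ) : PowerSeries ℚ) = PowerSeries.C ((p - 1 : ℕ) : ℚ) := by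
        rw [map_natCast]
      rw [h2, PowerSeries.coeff_C_mul, PowerSeries.coeff_mk, PowerSeries.coeff_mk]
      split_ifs with hn
      · rw [mul_zero]
      · rw [← hpq]
        exact (double_countL hs hs0 F h hn).symm
    obtain ⟨d, hd⟩ : ∃ d, p - 1 = d + 1 := ⟨p - 2, by have := hp.two_le; omega⟩
    rw [h1, Polynomial.coe_pow, Derivation.leibniz_pow, hd, Nat.add_sub_cancel]
    rw [smul_eq_mul, nsmul_eq_mul]
    have h3 : PowerSeries.X * (((d + 1 : ℕ) : PowerSeries ℚ) *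
        ((L : PowerSeries ℚ) ^ d * PowerSeries.derivative ℚ (L : PowerSeries ℚ))) =
        ((d + 1 : ℕ) : PowerSeries ℚ) * (L : PowerSeries ℚ) ^ d *
          (PowerSeries.X * PowerSeries.derivative ℚ (L : PowerSeries ℚ)) := by ring
    rw [h3, hL]
    ring
  have hLp0 : (L ^ (p - 1)).coeff 0 = 1 := by
    rw [coeff_zero_eq_eval_zero, eval_pow, ← coeff_zero_eq_eval_zero, hL0, one_pow]
  have hMp' : (M ^ (p - 1)).eval (1 / (p : ℚ) ^ s) ≠ 0 := by
    rw [eval_pow, ← hq]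
    exact pow_ne_zero _ hM
  obtain ⟨N, hN⟩ : ∃ N : ℕ, N = ∑ c, ((p - 1) / (b c * (a c - 1)) * (s *
      SL (a c) (b c) (b c * (a c - 1)))) := ⟨_, rfl⟩
  obtain ⟨R, hR⟩ : ∃ R : ℕ, R = (p - 1) * ∑ v, (e v - 1) := ⟨_, rfl⟩
  obtain ⟨h1, h2, h3⟩ := famL (p := p) ha hb hab hMab hMp (fun v => combL F h v.1)
    hwt hca e P hirr hmon hcop u hu htop hdeg hs
    (L ^ (p - 1)) hLp0 hL2
    (r := ρ * (p - 1)) (M' := M ^ (p - 1)) (by rw [← hq, hLM, mul_pow, ← pow_mul]) hMp' hN hR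
  rw [eval_pow, ← hq, padicValRat.pow] at h2 h3
  have hNq : (N : ℚ) = ((p - 1 : ℕ) : ℚ) *
      ((s : ℚ) * ∑ v, hl (a v) (b v) (b v * (a v - 1))) := by
    rw [hN, Nat.cast_sum, Finset.mul_sum, Finset.mul_sum]
    exact Finset.sum_congr rfl fun v _ => hl_eq (hM0 v) (hMp v) s
  obtain ⟨v, hv⟩ : ∃ v, v = padicValRat p (M.eval (1 / (Fintype.card κ : ℚ))) := ⟨_, rfl⟩
  rw [← hv] at h2 h3 ⊢
  obtain ⟨E, hE⟩ : ∃ E : ℚ, E = (s : ℚ) * ∑ v, hl (a v) (b v) (b v * (a v - 1)) := ⟨_, rfl⟩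
  rw [← hE] at hNq ⊢
  have hp1q : 0 < ((p - 1 : ℕ) : ℚ) := by exact_mod_cast hp1'
  refine ⟨?_, ?_, ?_⟩
  · rw [hR, mul_comm] at h1
    exact Nat.le_of_mul_le_mul_left h1 hp1'
  · have h4 : (-(N : ℤ) : ℚ) ≤ (((p - 1 : ℕ) : ℤ) * v : ℤ) := by exact_mod_cast h2
    push_cast at h4
    rw [hNq] at h4
    have h5 : ((p - 1 : ℕ) : ℚ) * (-E) ≤ ((p - 1 : ℕ) : ℚ) * (v : ℚ) := by
      rw [mul_neg]
      exact h4
    exact le_of_mul_le_mul_left h5 hp1q
  · have h4 : (v : ℚ) = -E ↔ ((p - 1 : ℕ) : ℤ) * v = -(N : ℤ) := by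
      constructor
      · intro h5
        have h6 : (((p - 1 : ℕ) : ℤ) * v : ℚ) = ((-(N : ℤ) : ℤ) : ℚ) := by
          push_cast
          rw [hNq, h5]
          ring
        exact_mod_cast h6
      · intro h5
        have h6 : ((((p - 1 : ℕ) : ℤ) * v : ℤ) : ℚ) = ((-(N : ℤ) : ℤ) : ℚ) := by rw [h5]
        push_cast at h6
        rw [hNq, ← mul_neg] at h6
        exact mul_left_cancel₀ hp1q.ne' h6
    rw [h4, h3, hR, mul_comm]
    constructor
    · exact fun h5 => Nat.eq_of_mul_eq_mul_left hp1' h5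
    · exact fun h5 => by rw [h5]

end Pool.Agent.U407.SP
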