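import Pool.Agent.U407.PF7
import Pool.Agent.U407.SP
import Pool.Agent.U407.PS2

/-!
# One surface `(y^p - y) x = f(x, t)` over Artin–Schreier towers over the `t`-line
-/

set_option autoImplicit false

namespace Pool.Agent.U407.PF

open Polynomial Pool.Agent.N867.AS Pool.Agent.N867.AS.Tow Pool.Agent.N867.AS.Lau
  UniqueFactorizationMonoid

variable {κ : Type} [Field κ]

theorem coeff_combL {p r : ℕ} (f : κ[X][X]) (h : Fin r → κ[X])
    (w : (Fin 1 → Fin p) × (Fin r → Fin p)) (i : ℕ) :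
    (combL (fun _ => f) h w).coeff i = C ((w.1 0 : ℕ) : κ) * f.coeff i +
      ∑ l, C ((w.2 l : ℕ) : κ) * if i = 1 then h l else 0 := by
  unfold combL
  rw [Fin.sum_univ_one, coeff_add, finsetSum_coeff]
  have h1 : ∀ (a : ℕ) (g : κ[X][X]), ((a : κ[X][X]) * g).coeff i = C (a : κ) * g.coeff i := by
    intro a g
    rw [← C_eq_natCast, coeff_C_mul, C_eq_natCast]
  rw [h1]
  congr 1
  refine Finset.sum_congr rfl fun l _ => ?_
  rw [h1, coeff_C_mul, coeff_X]
  by_cases h2 : i = 1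
  · rw [if_pos h2, if_pos h2.symm, mul_one]
  · rw [if_neg h2, if_neg fun h => h2 h.symm, mul_zero]

theorem onePole (p : ℕ) (hp : p.Prime) [Fintype κ] [CharP κ p] (s : ℕ)
    (hs : Fintype.card κ = p ^ s) (r a b : ℕ) (ha : 2 ≤ a) (hb : 1 ≤ b) (hab : a.Coprime b)
    (hMp : b * (a - 1) ∣ p - 1) (u : κ) (hu : u ≠ 0) (Φ : κ[X]) (hΦ : Φ.Monic)
    (hdeg : Φ.natDegree = b) (hsq : Squarefree Φ) (f : κ[X][X])
    (wt : ∀ i j, (f.coeff i).coeff j ≠ 0 → b * i + a * j ≤ a * b)
    (ca : (f.coeff a).coeff 0 ≠ 0) (top : f.coeff 0 = C u * Φ)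
    (h : Fin r → κ[X]) (hh : ∀ l, a * (h l).natDegree ≤ b * (a - 1)) (L : ℚ[X])
    (hL0 : L.coeff 0 = 1)
    (hL : PowerSeries.X * PowerSeries.derivative ℚ (L : PowerSeries ℚ) =
      (L : PowerSeries ℚ) * PowerSeries.mk (fun n => if n = 0 then 0 else
        ((Fintype.card κ : ℚ) ^ n - 1) * (NS p h (Fintype.card κ ^ n) : ℚ) -
          (NDL p (fun _ : Fin 1 => f) h (Fintype.card κ ^ n) : ℚ)))
    (ρ : ℕ) (M : ℚ[X]) (hLM : L = (1 - C (Fintype.card κ : ℚ) * X) ^ ρ * M)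
    (hM : M.eval (1 / (Fintype.card κ : ℚ)) ≠ 0) :
    ρ ≤ p ^ r * (p - 1) * ((factors Φ).card - 1) ∧
      -((s * (p ^ r * (p - 1)) : ℕ) : ℚ) * SP.hl a b (b * (a - 1)) ≤
        (padicValRat p (M.eval (1 / (Fintype.card κ : ℚ))) : ℚ) ∧
      ((padicValRat p (M.eval (1 / (Fintype.card κ : ℚ))) : ℚ) =
        -((s * (p ^ r * (p - 1)) : ℕ) : ℚ) * SP.hl a b (b * (a - 1)) ↔
          ρ = p ^ r * (p - 1) * ((factors Φ).card - 1)) := by
  have : Fact p.Prime := ⟨hp⟩
  have hv : ∀ v : Ix p 1 r, ((v.1.1 0 : ℕ) : κ) ≠ 0 := by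
    intro v
    obtain ⟨j, hj⟩ := v.2
    rw [Subsingleton.elim j 0] at hj
    rw [Ne, CharP.cast_eq_zero_iff κ p]
    exact fun hdvd => (Nat.le_of_dvd (Nat.pos_of_ne_zero hj) hdvd).not_gt (v.1.1 0).2
  have hMab : b + b * (a - 1) = a * b := by
    obtain ⟨d, hd⟩ : ∃ d, a = d + 1 := ⟨a - 1, by omega⟩
    rw [hd, Nat.add_sub_cancel]
    ring
  obtain ⟨H, hirr, hmon, hinj, hprod⟩ := exists_factors hΦ hsq
  have key := SP.mainL p hp κ s hs 1 r (fun _ => f) h (fun _ => a) (fun _ => b)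
    (fun _ => (factors Φ).card) (fun _ => ha) (fun _ => hb) (fun _ => hab) (fun _ => hMp)
    (fun v => ((v.1.1 0 : ℕ) : κ) * u) (fun v => mul_ne_zero (hv v) hu) (fun _ => H)
    (fun _ => hirr) (fun _ => hmon) (fun _ => hinj) (fun _ => by rw [hprod, hdeg])
    (fun v i j hij => by
      rw [coeff_combL, coeff_add, coeff_C_mul, finsetSum_coeff] at hij
      by_cases h1 : (f.coeff i).coeff j = 0
      · rw [h1, mul_zero, zero_add] at hij
        obtain ⟨l, -, hl⟩ := Finset.exists_ne_zero_of_sum_ne_zero hij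
        rw [coeff_C_mul] at hl
        have h2 := right_ne_zero_of_mul hl
        split_ifs at h2 with h3
        · have h4 := le_natDegree_of_ne_zero h2
          have h5 := hh l
          rw [h3, mul_one]
          calc b + a * j ≤ b + a * (h l).natDegree :=
                Nat.add_le_add_left (Nat.mul_le_mul_left _ h4) _
            _ ≤ b + b * (a - 1) := Nat.add_le_add_left h5 _
            _ = a * b := hMab
        · rw [coeff_zero] at h2
          exact absurd rfl h2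
      · exact wt i j h1)
    (fun v => by
      rw [coeff_combL, coeff_add, coeff_C_mul, Finset.sum_eq_zero, coeff_zero, add_zero]
      · exact mul_ne_zero (hv v) ca
      · intro l _
        rw [if_neg (by omega), mul_zero])
    (fun v => by
      rw [coeff_combL, top, hprod, Finset.sum_eq_zero, add_zero, ← mul_assoc, ← C_mul]
      intro l _
      rw [if_neg (by norm_num), mul_zero])
    L hL0 hL ρ M hLM hM
  rw [Finset.sum_const, Finset.sum_const, Finset.card_univ, PS.card_Ix hp.pos, smul_eq_mul,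
    nsmul_eq_mul] at key
  have e1 : -((s * (p ^ r * (p - 1)) : ℕ) : ℚ) * SP.hl a b (b * (a - 1)) =
      -((s : ℚ) * (((p ^ r * (p - 1) : ℕ) : ℚ) * SP.hl a b (b * (a - 1)))) := by
    rw [Nat.cast_mul s]
    ring
  rw [e1]
  exact key

end Pool.Agent.U407.PF
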