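import Pool.Agent.N867.AS.Y20

/-!
# Statistics of the number of irreducible factors of the binomials `c' X^g + c` over a finite field,
# `g ∣ q - 1`

* `eC_sum`: the sum over all the values of `-c / c'`, in terms of the sum of the `gcd (j, g)`;
* `card_eC_one`: the number of the values of `-c / c'` with an irreducible binomial;
* `sum_prod_ratio`: the successive ratios of the coefficients are independent and uniformly
  distributed.
-/

set_option autoImplicit false

namespace Pool.Agent.U407.PS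

open Pool.Agent.N867.AS Pool.Agent.N867.AS.Pg Polynomial

/-- the sum of the `gcd (j, g)` over `j < g` -/
def pillai (g : ℕ) : ℕ := ∑ j ∈ Finset.range g, Nat.gcd j g

section units

variable {κ : Type} [Field κ] [Fintype κ]

theorem card_units' : Nat.card κˣ = Fintype.card κ - 1 := by
  classical
  rw [Nat.card_eq_fintype_card, Fintype.card_units]

/-- the number of the roots of unity in `κˣ` -/
theorem card_pow_one (d : ℕ) :
    Nat.card {ρ : κˣ // ρ ^ d = 1} = Nat.gcd (Fintype.card κ - 1) d := by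
  classical
  have h := IsCyclic.card_powMonoidHom_ker (G := κˣ) d
  rw [card_units'] at h
  rw [← h]
  refine Nat.card_congr (Equiv.subtypeEquivRight fun ρ => ?_)
  rw [MonoidHom.mem_ker, powMonoidHom_apply]

omit [Fintype κ] in
theorem eC_unit (q : ℕ) (ρ : κˣ) (g : ℕ) :
    eC q (ρ : κ) g = Nat.card {j : Fin g // ρ ^ ((j : ℕ) * ((q - 1) / g)) = 1} := by
  unfold eC
  refine Nat.card_congr (Equiv.subtypeEquivRight fun j => ?_)
  rw [← Units.val_pow_eq_pow_val, Units.val_eq_one]

theorem eC_eq_sum (q : ℕ) (ρ : κˣ) (g : ℕ) [DecidableEq κˣ] :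
    eC q (ρ : κ) g = ∑ j ∈ Finset.range g, if ρ ^ (j * ((q - 1) / g)) = 1 then 1 else 0 := by
  rw [eC_unit, Nat.card_eq_fintype_card, Fintype.card_subtype, Finset.card_filter,
    Finset.sum_range fun j => if ρ ^ (j * ((q - 1) / g)) = 1 then 1 else 0]

theorem eC_pos (q : ℕ) (ρ : κˣ) {g : ℕ} (hg : 0 < g) : 1 ≤ eC q (ρ : κ) g := by
  rw [eC_unit]
  have : Nonempty {j : Fin g // ρ ^ ((j : ℕ) * ((q - 1) / g)) = 1} :=
    ⟨⟨⟨0, hg⟩, by simp⟩⟩
  exact Nat.card_pos

/-- the sum over all units -/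
theorem eC_sum {g : ℕ} (hg0 : 0 < g) (hg : g ∣ Fintype.card κ - 1) [Fintype κˣ] :
    ∑ ρ : κˣ, eC (Fintype.card κ) (ρ : κ) g = (Fintype.card κ - 1) / g * pillai g := by
  classical
  have h1 : ∀ ρ : κˣ, eC (Fintype.card κ) (ρ : κ) g = ∑ j ∈ Finset.range g,
      if ρ ^ (j * ((Fintype.card κ - 1) / g)) = 1 then 1 else 0 := fun ρ => eC_eq_sum _ _ _
  rw [Finset.sum_congr rfl fun ρ _ => h1 ρ, Finset.sum_comm, pillai, Finset.mul_sum]
  refine Finset.sum_congr rfl fun j _ => ?_
  rw [← Finset.card_filter, ← Fintype.card_subtype, ← Nat.card_eq_fintype_card, card_pow_one]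
  obtain ⟨d, hd⟩ := hg
  rw [hd, Nat.mul_div_cancel_left _ hg0, Nat.gcd_mul_right, Nat.gcd_comm, mul_comm]

theorem eC_eq_one_iff {g : ℕ} (hg0 : 0 < g) (hg : g ∣ Fintype.card κ - 1) (ρ : κˣ) :
    eC (Fintype.card κ) (ρ : κ) g = 1 ↔ orderOf (ρ ^ ((Fintype.card κ - 1) / g)) = g := by
  classical
  obtain ⟨d, hd⟩ := hg
  have hd' : (Fintype.card κ - 1) / g = d := by rw [hd, Nat.mul_div_cancel_left _ hg0]
  rw [eC_unit, hd']
  have hpow : (ρ ^ d) ^ g = 1 := by
    rw [← pow_mul, mul_comm, ← hd, ← card_units', pow_card_eq_one']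
  have hiff : ∀ j : ℕ, ρ ^ (j * d) = 1 ↔ orderOf (ρ ^ d) ∣ j := by
    intro j
    rw [orderOf_dvd_iff_pow_eq_one, ← pow_mul, mul_comm]
  obtain ⟨e, he⟩ : ∃ e, e = orderOf (ρ ^ d) := ⟨_, rfl⟩
  have heg : e ∣ g := by rw [he]; exact orderOf_dvd_of_pow_eq_one hpow
  have he0 : 0 < e := Nat.pos_of_dvd_of_pos heg hg0
  rw [← he] at hiff ⊢
  obtain ⟨k, hk⟩ := heg
  have h2 := card_mult (k := k) (c := fun j : ℕ => ρ ^ (j * d) = 1) he0 hiff
  rw [mul_comm, ← hk] at h2
  rw [h2]
  constructor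
  · rintro rfl
    rw [hk, mul_one]
  · intro h
    rw [h] at hk
    exact (Nat.eq_of_mul_eq_mul_left hg0 (by rw [mul_one]; exact hk)).symm

/-- the number of the units with an irreducible binomial -/
theorem card_eC_one {g : ℕ} (hg0 : 0 < g) (hg : g ∣ Fintype.card κ - 1) :
    Nat.card {ρ : κˣ // eC (Fintype.card κ) (ρ : κ) g = 1} =
      (Fintype.card κ - 1) / g * Nat.totient g := by
  classical
  obtain ⟨d, hd⟩ := id hg
  have hd' : (Fintype.card κ - 1) / g = d := by rw [hd, Nat.mul_div_cancel_left _ hg0]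
  have hq1 : 0 < Fintype.card κ - 1 := by
    have := Fintype.one_lt_card (α := κ)
    omega
  have hd0 : 0 < d := by
    rw [Nat.pos_iff_ne_zero]
    rintro rfl
    rw [mul_zero] at hd
    omega
  rw [Nat.card_congr (Equiv.subtypeEquivRight fun ρ => eC_eq_one_iff hg0 hg ρ), hd']
  rw [Nat.card_eq_fintype_card, Fintype.card_subtype]
  -- fibres of `ρ ↦ ρ ^ d` over the elements of order `g`
  have hT := IsCyclic.card_orderOf_eq_totient (α := κˣ) (d := g)
    (by rw [← Nat.card_eq_fintype_card, card_units']; exact hg)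
  have hfib : ∀ τ ∈ (Finset.univ.filter fun τ : κˣ => orderOf τ = g),
      ((Finset.univ.filter fun ρ : κˣ => orderOf (ρ ^ d) = g).filter fun ρ => ρ ^ d = τ).card
        = d := by
    intro τ hτ
    rw [Finset.mem_filter] at hτ
    obtain ⟨ζ, hζ⟩ := IsCyclic.exists_generator (α := κˣ)
    obtain ⟨e, he⟩ := (Submonoid.mem_powers_iff _ _).1 (mem_powers_iff_mem_zpowers.2 (hζ τ))
    have hord : orderOf ζ = g * d := by
      rw [orderOf_eq_card_of_forall_mem_zpowers hζ, card_units', hd]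
    have hde : d ∣ e := by
      have h1 : ζ ^ (e * g) = 1 := by
        rw [pow_mul, he]
        have := pow_orderOf_eq_one τ
        rwa [hτ.2] at this
      rw [← orderOf_dvd_iff_pow_eq_one, hord, mul_comm] at h1
      exact Nat.dvd_of_mul_dvd_mul_right hg0 h1
    obtain ⟨e', rfl⟩ := hde
    have hρ0 : (ζ ^ e') ^ d = τ := by rw [← pow_mul, mul_comm, he]
    have h3 : Nat.gcd (Fintype.card κ - 1) d = d := by
      rw [hd, Nat.gcd_mul_left_left]
    have hk : (Finset.univ.filter fun x : κˣ => x ^ d = 1).card = d := by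
      have h4 := card_pow_one (κ := κ) d
      rw [h3, Nat.card_eq_fintype_card, Fintype.card_subtype] at h4
      exact h4
    refine Eq.trans ?_ hk
    refine Finset.card_bij' (fun ρ _ => ρ / ζ ^ e') (fun ρ _ => ρ * ζ ^ e') ?_ ?_ ?_ ?_
    · intro ρ hρ
      rw [Finset.mem_filter] at hρ
      rw [Finset.mem_filter]
      refine ⟨Finset.mem_univ _, ?_⟩
      rw [div_pow, hρ.2, hρ0, div_self']
    · intro ρ hρ
      rw [Finset.mem_filter] at hρ
      rw [Finset.mem_filter, Finset.mem_filter, mul_pow, hρ.2, one_mul, hρ0]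
      exact ⟨⟨Finset.mem_univ _, hτ.2⟩, rfl⟩
    · intro ρ _
      exact div_mul_cancel _ _
    · intro ρ _
      exact mul_div_cancel_right _ _
  rw [Finset.card_eq_sum_card_fiberwise (f := fun ρ : κˣ => ρ ^ d)
    (t := Finset.univ.filter fun τ : κˣ => orderOf τ = g), Finset.sum_congr rfl hfib,
    Finset.sum_const, smul_eq_mul, hT, mul_comm]
  intro ρ hρ
  rw [Finset.mem_coe, Finset.mem_filter] at hρ ⊢
  exact ⟨Finset.mem_univ _, hρ.2⟩

end units

/-- the successive ratios are independent and uniformly distributed -/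
theorem sum_prod_ratio {G : Type} [CommGroup G] [Fintype G] :
    ∀ (n : ℕ) (w : Fin n → G → ℚ),
      ∑ γ : Fin (n + 1) → G, ∏ i : Fin n, w i (γ i.castSucc / γ i.succ) =
        Fintype.card G * ∏ i : Fin n, ∑ ρ : G, w i ρ := by
  intro n
  induction n with
  | zero =>
    intro w
    simp
  | succ n ih =>
    intro w
    have h1 : ∀ (x : G) (γ : Fin (n + 1) → G),
        ∏ i : Fin (n + 1), w i ((Fin.cons x γ : Fin (n + 2) → G) i.castSucc /
          (Fin.cons x γ : Fin (n + 2) → G) i.succ) =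
        w 0 (x / γ 0) * ∏ i : Fin n, w i.succ (γ i.castSucc / γ i.succ) := by
      intro x γ
      rw [Fin.prod_univ_succ]
      congr 1
    rw [← (Fin.consEquiv fun _ : Fin (n + 2) => G).sum_comp, Fintype.sum_prod_type]
    simp only [Fin.consEquiv_apply, h1]
    rw [Finset.sum_comm]
    have h2 : ∀ γ : Fin (n + 1) → G, ∑ x : G, w 0 (x / γ 0) *
        ∏ i : Fin n, w i.succ (γ i.castSucc / γ i.succ) =
        (∑ ρ : G, w 0 ρ) * ∏ i : Fin n, w i.succ (γ i.castSucc / γ i.succ) := by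
      intro γ
      rw [← Finset.sum_mul]
      congr 1
      exact (Equiv.divRight (γ 0)).sum_comp (w 0)
    rw [Finset.sum_congr rfl fun γ _ => h2 γ, ← Finset.mul_sum, ih, Fin.prod_univ_succ]
    ring

end Pool.Agent.U407.PS
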