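import Pool.Agent.U407.PS2

/-!
# The average and the proportion over all vertex coefficients
-/

set_option autoImplicit false

namespace Pool.Agent.U407.PS

open Pool.Agent.N867.AS Pool.Agent.N867.AS.Pg Polynomial UniqueFactorizationMonoid

/-- one ratio is uniformly distributed -/
theorem sum_one_ratio {G : Type} [CommGroup G] [Fintype G] (n : ℕ) (i : Fin n) (w : G → ℚ) :
    ∑ γ : Fin (n + 1) → G, w (γ i.castSucc / γ i.succ) =
      (Fintype.card G : ℚ) ^ n * ∑ ρ : G, w ρ := by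
  classical
  have h := sum_prod_ratio n (fun (l : Fin n) (ρ : G) => if l = i then w ρ else 1)
  have h1 : ∀ γ : Fin (n + 1) → G, ∏ l : Fin n,
      (if l = i then w (γ l.castSucc / γ l.succ) else 1) = w (γ i.castSucc / γ i.succ) := by
    intro γ
    rw [Finset.prod_ite_eq' Finset.univ i fun l => w (γ l.castSucc / γ l.succ),
      if_pos (Finset.mem_univ _)]
  rw [Finset.sum_congr rfl fun γ _ => h1 γ] at h
  rw [h]
  have h2 : ∏ l : Fin n, ∑ ρ : G, (if l = i then w ρ else 1) =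
      (∑ ρ : G, w ρ) * (Fintype.card G : ℚ) ^ (n - 1) := by
    rw [← Finset.mul_prod_erase Finset.univ _ (Finset.mem_univ i)]
    simp only [if_true]
    congr 1
    have h3 : ∀ l ∈ Finset.univ.erase i, ∑ ρ : G, (if l = i then w ρ else (1 : ℚ)) =
        Fintype.card G := by
      intro l hl
      rw [Finset.mem_erase] at hl
      simp only [if_neg hl.1]
      simp
    rw [Finset.prod_congr rfl h3, Finset.prod_const, Finset.card_erase_of_mem (Finset.mem_univ _),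
      Finset.card_univ, Fintype.card_fin]
  rw [h2]
  have hn : n = (n - 1) + 1 := by
    have := i.2
    omega
  conv_rhs => rw [hn]
  rw [pow_succ]
  ring

variable {κ : Type} [Field κ] [Fintype κ]

/-- the number of the irreducible factors of the binomial with the ratio `ρ` of the coefficients -/
noncomputable def nf (g : ℕ) (ρ : κˣ) : ℕ := eC (Fintype.card κ) (((-ρ : κˣ)) : κ) g

theorem nf_sum {g : ℕ} (hg0 : 0 < g) (hg : g ∣ Fintype.card κ - 1) [Fintype κˣ] :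
    ∑ ρ : κˣ, (nf g ρ : ℚ) = (Fintype.card κ - 1 : ℕ) * ((pillai g : ℚ) / g) := by
  have h1 : ∑ ρ : κˣ, nf g ρ = ∑ ρ : κˣ, eC (Fintype.card κ) (ρ : κ) g :=
    Equiv.sum_comp (Equiv.neg κˣ) fun ρ : κˣ => eC (Fintype.card κ) (ρ : κ) g
  have h2 : ((∑ ρ : κˣ, nf g ρ : ℕ) : ℚ) =
      (((Fintype.card κ - 1) / g * pillai g : ℕ) : ℚ) := by
    rw [h1, eC_sum hg0 hg]
  have hg0' : (g : ℚ) ≠ 0 := by exact_mod_cast hg0.ne'
  rw [Nat.cast_sum] at h2
  rw [h2, Nat.cast_mul, Nat.cast_div hg hg0']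
  field_simp

theorem nf_one {g : ℕ} (hg0 : 0 < g) (hg : g ∣ Fintype.card κ - 1) [Fintype κˣ]
    [DecidableEq κˣ] :
    ∑ ρ : κˣ, (if nf g ρ = 1 then (1 : ℚ) else 0) =
      (Fintype.card κ - 1 : ℕ) * ((Nat.totient g : ℚ) / g) := by
  have h1 : ∑ ρ : κˣ, (if nf g ρ = 1 then (1 : ℚ) else 0) =
      ∑ ρ : κˣ, (if eC (Fintype.card κ) (ρ : κ) g = 1 then (1 : ℚ) else 0) :=
    Equiv.sum_comp (Equiv.neg κˣ) fun ρ : κˣ =>
      if eC (Fintype.card κ) (ρ : κ) g = 1 then (1 : ℚ) else 0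
  have h2 := card_eC_one (κ := κ) hg0 hg
  rw [Nat.card_eq_fintype_card, Fintype.card_subtype] at h2
  have hg0' : (g : ℚ) ≠ 0 := by exact_mod_cast hg0.ne'
  rw [h1, Finset.sum_boole, h2, Nat.cast_mul, Nat.cast_div hg hg0']
  field_simp

theorem avg (n : ℕ) (g : Fin n → ℕ) (hg0 : ∀ i, 0 < g i) (hg : ∀ i, g i ∣ Fintype.card κ - 1)
    [Fintype κˣ] :
    ∑ γ : Fin (n + 1) → κˣ, ∑ i : Fin n, (nf (g i) (γ i.castSucc / γ i.succ) : ℚ) =
      (Fintype.card κ - 1 : ℕ) ^ (n + 1) * ∑ i, (pillai (g i) : ℚ) / g i := by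
  rw [Finset.sum_comm, Finset.mul_sum]
  refine Finset.sum_congr rfl fun i _ => ?_
  rw [sum_one_ratio n i fun ρ => (nf (g i) ρ : ℚ), nf_sum (hg0 i) (hg i), ← Nat.card_eq_fintype_card,
    card_units', pow_succ]
  ring

theorem proportion (n : ℕ) (g : Fin n → ℕ) (hg0 : ∀ i, 0 < g i)
    (hg : ∀ i, g i ∣ Fintype.card κ - 1) [Fintype κˣ] [DecidableEq κˣ] :
    (((Finset.univ : Finset (Fin (n + 1) → κˣ)).filter fun γ =>
      ∀ i : Fin n, nf (g i) (γ i.castSucc / γ i.succ) = 1).card : ℚ) =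
      (Fintype.card κ - 1 : ℕ) ^ (n + 1) * ∏ i, (Nat.totient (g i) : ℚ) / g i := by
  have h := sum_prod_ratio n (fun (l : Fin n) (ρ : κˣ) => if nf (g l) ρ = 1 then (1 : ℚ) else 0)
  have h1 : ∀ γ : Fin (n + 1) → κˣ, ∏ l : Fin n,
      (if nf (g l) (γ l.castSucc / γ l.succ) = 1 then (1 : ℚ) else 0) =
      if (∀ i : Fin n, nf (g i) (γ i.castSucc / γ i.succ) = 1) then 1 else 0 := by
    intro γ
    by_cases h2 : ∀ i : Fin n, nf (g i) (γ i.castSucc / γ i.succ) = 1
    · rw [if_pos h2]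
      exact Finset.prod_eq_one fun i _ => if_pos (h2 i)
    · rw [if_neg h2]
      push Not at h2
      obtain ⟨i, hi⟩ := h2
      exact Finset.prod_eq_zero (Finset.mem_univ i) (if_neg hi)
  rw [Finset.sum_congr rfl fun γ _ => h1 γ, Finset.sum_boole] at h
  rw [h, Finset.prod_congr rfl fun i _ => nf_one (hg0 i) (hg i), Finset.prod_mul_distrib,
    Finset.prod_const, Finset.card_univ, Fintype.card_fin, ← Nat.card_eq_fintype_card,
    card_units', pow_succ]
  ring

end Pool.Agent.U407.PS
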