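import Pool.Agent.TH639.SC.Bnd

/-!
Multiplicities of the roots of the reduction of the `L`-function of a superelliptic surface.
-/

set_option autoImplicit false
set_option maxHeartbeats 1000000

open Polynomial

namespace Pool.Agent.U407.SS

open Pool.Agent.W313.Hyp Pool.Agent.TH639.SC
open Pool.Agent.TH943.HJ (comp_ne)

section alg

variable {R : Type} [Field R]

/-- The power series is a polynomial, not zero, with multiplicity `n` of the root `x`. -/
def IsMx (x : R) (p : PowerSeries R) (n : ℕ) : Prop :=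
  ∃ P : R[X], (P : PowerSeries R) = p ∧ P ≠ 0 ∧ P.rootMultiplicity x = n

theorem IsMx.one (x : R) : IsMx x (1 : PowerSeries R) 0 := by
  refine ⟨1, Polynomial.coe_one, one_ne_zero, ?_⟩
  rw [Polynomial.rootMultiplicity_eq_zero]
  intro h
  rw [IsRoot.def, eval_one] at h
  exact one_ne_zero h

theorem IsMx.mul {x : R} {p q : PowerSeries R} {m n : ℕ} (hp : IsMx x p m) (hq : IsMx x q n) :
    IsMx x (p * q) (m + n) := by
  obtain ⟨P, rfl, hP, rfl⟩ := hp
  obtain ⟨Q, rfl, hQ, rfl⟩ := hq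
  exact ⟨P * Q, Polynomial.coe_mul P Q, mul_ne_zero hP hQ,
    Polynomial.rootMultiplicity_mul (mul_ne_zero hP hQ)⟩

theorem IsMx.pow {x : R} {p : PowerSeries R} {m : ℕ} (hp : IsMx x p m) (n : ℕ) :
    IsMx x (p ^ n) (n * m) := by
  induction n with
  | zero => rw [pow_zero, Nat.zero_mul]; exact IsMx.one x
  | succ n ih => rw [pow_succ, Nat.succ_mul]; exact ih.mul hp

theorem IsMx.prod {x : R} {ι : Type*} (s : Finset ι) {p : ι → PowerSeries R} {m : ι → ℕ}
    (h : ∀ i ∈ s, IsMx x (p i) (m i)) : IsMx x (∏ i ∈ s, p i) (∑ i ∈ s, m i) := by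
  classical
  induction s using Finset.induction_on with
  | empty => exact IsMx.one x
  | insert i s hi ih =>
    rw [Finset.prod_insert hi, Finset.sum_insert hi]
    exact (h i (Finset.mem_insert_self i s)).mul
      (ih fun j hj => h j (Finset.mem_insert_of_mem hj))

variable {ℓ : ℕ} [hp : Fact ℓ.Prime] [CharP R ℓ]

/-- the multiplicity of a root of unity of order `m` as a zero of `1 - X ^ n` in characteristic
`ℓ` -/
noncomputable def gn (ℓ m n : ℕ) : ℕ := if m ∣ n then ℓ ^ padicValNat ℓ n else 0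

theorem IsMx.zf (x : R) {n : ℕ} (hn : 0 < n) :
    IsMx x (1 - PowerSeries.X ^ n : PowerSeries R) (gn ℓ (orderOf x) n) := by
  refine ⟨1 - Polynomial.X ^ n, ?_, ?_, ?_⟩
  · rw [Polynomial.coe_sub, Polynomial.coe_one, Polynomial.coe_pow, Polynomial.coe_X]
  · exact (rm_zf (R := R) (ℓ := ℓ) hn).1
  · unfold gn
    obtain ⟨hne, hone⟩ := rm_zf (R := R) (ℓ := ℓ) hn
    split_ifs with h
    · have hx : x ^ n = 1 := orderOf_dvd_iff_pow_eq_one.1 h
      have hx0 : x ≠ 0 := by
        rintro rfl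
        rw [zero_pow hn.ne'] at hx
        exact zero_ne_one hx
      have h1 := Pool.Agent.W309.T3.rm_comp (F := R) hx0 hne 1
      have h2 : (1 - Polynomial.X ^ n : R[X]).comp (C x * X) = 1 - Polynomial.X ^ n := by
        rw [sub_comp, one_comp, pow_comp, X_comp, mul_pow, ← C_pow, hx, C_1, one_mul]
      rw [h2, mul_one, hone] at h1
      exact h1.symm
    · rw [Polynomial.rootMultiplicity_eq_zero]
      intro hr
      rw [IsRoot.def, eval_sub, eval_one, eval_pow, eval_X] at hr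
      exact h (orderOf_dvd_iff_pow_eq_one.2 (sub_eq_zero.1 hr).symm)

theorem IsMx.oneX (x : R) : IsMx x (1 - PowerSeries.X : PowerSeries R)
    (gn ℓ (orderOf x) 1) := by
  have h := IsMx.zf (ℓ := ℓ) x one_pos
  rwa [pow_one] at h

/-- the order of an element of a field of characteristic `ℓ` is prime to `ℓ` or zero -/
theorem order_coprime (x : R) (h : orderOf x ≠ 0) : Nat.Coprime (orderOf x) ℓ := by
  rw [Nat.coprime_comm, Nat.Prime.coprime_iff_not_dvd hp.out]
  rintro ⟨c, hc⟩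
  have h1 : x ^ c = 1 := by
    have h2 : (x ^ c) ^ ℓ = 1 ^ ℓ := by
      rw [← pow_mul, Nat.mul_comm c ℓ, ← hc, pow_orderOf_eq_one, one_pow]
    exact frobenius_inj R ℓ h2
  have h3 := Nat.le_of_dvd (by
    rcases Nat.eq_zero_or_pos c with h0 | h0
    · rw [h0, mul_zero] at hc; exact absurd hc h
    · exact h0) (orderOf_dvd_of_pow_eq_one h1)
  have h4 := hp.out.one_lt
  have h5 : 0 < c := by
    rcases Nat.eq_zero_or_pos c with h0 | h0
    · rw [h0, mul_zero] at hc; exact absurd hc h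
    · exact h0
  nlinarith

end alg

section

variable {k : Type} [Field k] [Finite k] {R : Type} [Field R] {ℓ : ℕ} [hp : Fact ℓ.Prime]
  [CharP R ℓ]

/-- the contribution of the points over the prime factors -/
noncomputable def mPhi (ℓ m : ℕ) (f D : k[X]) : ℕ :=
  ∑ P ∈ facs D, ∑ S ∈ facs (P.1.comp f), gn ℓ m S.1.natDegree

/-- the contribution of the lines -/
noncomputable def mPsi (ℓ m : ℕ) (u D : k[X]) : ℕ :=
  ∑ P ∈ facs D, ∑ S ∈ facs u, Nat.gcd P.1.natDegree S.1.natDegree *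
    gn ℓ m (Nat.lcm P.1.natDegree S.1.natDegree)

/-- the contribution of the prime factors -/
noncomputable def mD (ℓ m : ℕ) (D : k[X]) : ℕ :=
  ∑ P ∈ facs D, gn ℓ m P.1.natDegree

omit [Finite k] in
theorem isMx_facs (x : R) (s : Finset (MI k)) :
    IsMx x (∏ S ∈ s, (1 - PowerSeries.X ^ S.1.natDegree) : PowerSeries R)
      (∑ S ∈ s, gn ℓ (orderOf x) S.1.natDegree) :=
  IsMx.prod _ fun S _ => IsMx.zf x (MI.deg_pos S)

omit [Finite k] in
theorem isMx_Psi (x : R) (u : k[X]) {n : ℕ} (hn : 0 < n) :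
    IsMx x (Psi R u n) (∑ S ∈ facs u, Nat.gcd n S.1.natDegree *
      gn ℓ (orderOf x) (Nat.lcm n S.1.natDegree)) :=
  IsMx.prod _ fun S _ => (IsMx.zf x (Nat.lcm_pos hn (MI.deg_pos S))).pow _

theorem isMx_right (x : R) (u f D : k[X]) :
    IsMx x (∏ P ∈ facs D, (Psi R u P.1.natDegree * Phi R f P))
      (mPsi ℓ (orderOf x) u D + mPhi ℓ (orderOf x) f D) := by
  unfold mPsi mPhi
  rw [← Finset.sum_add_distrib]
  exact IsMx.prod _ fun P _ => (isMx_Psi x u (MI.deg_pos P)).mul (isMx_facs x _)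

open Classical in
/-- **the multiplicities of the roots of the reduction** -/
theorem mult_red {A : Type} [CommRing A] (ρ : A →+* R) {χ : MulChar k A} (hχ : χ ^ ℓ = 1)
    (hq : ((Nat.card k : ℕ) : R) = 1) {u f D : k[X]}
    (hu : u ≠ 0) (hf : 0 < f.natDegree) (hD : D ≠ 0) (hcop : IsCoprime (D.comp f) u)
    {G : R[X]} (hG : (G : PowerSeries R) = PowerSeries.map ρ (LB ℓ χ u f D)) (hG0 : G ≠ 0)
    (x : R) :
    G.rootMultiplicity x + (mD ℓ (orderOf x) D + (mD ℓ (orderOf x) D +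
      (if ℓ ∣ D.natDegree + 1 then ∑ S ∈ facs u, gn ℓ (orderOf x) S.1.natDegree else 0))) =
    (mPsi ℓ (orderOf x) u D + mPhi ℓ (orderOf x) f D) + (gn ℓ (orderOf x) 1 +
      (if ℓ ∣ D.natDegree + 1 then gn ℓ (orderOf x) 1 else 0)) := by
  have h1 := identity_LB ρ hχ hq hu hf hD hcop
  have hU : IsMx x ((∏ P ∈ facs D, (1 - PowerSeries.X ^ P.1.natDegree)) *
      ((∏ P ∈ facs D, (1 - PowerSeries.X ^ P.1.natDegree)) *
      (if ℓ ∣ D.natDegree + 1 then ∏ S ∈ facs u, (1 - PowerSeries.X ^ S.1.natDegree) else 1)) :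
      PowerSeries R) (mD ℓ (orderOf x) D + (mD ℓ (orderOf x) D +
      (if ℓ ∣ D.natDegree + 1 then ∑ S ∈ facs u, gn ℓ (orderOf x) S.1.natDegree else 0))) := by
    refine (isMx_facs x _).mul ((isMx_facs x _).mul ?_)
    split_ifs
    · exact isMx_facs x _
    · exact IsMx.one x
  have hV : IsMx x ((∏ P ∈ facs D, (Psi R u P.1.natDegree * Phi R f P)) *
      ((1 - PowerSeries.X) * (if ℓ ∣ D.natDegree + 1 then 1 - PowerSeries.X else 1)))
      ((mPsi ℓ (orderOf x) u D + mPhi ℓ (orderOf x) f D) + (gn ℓ (orderOf x) 1 +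
      (if ℓ ∣ D.natDegree + 1 then gn ℓ (orderOf x) 1 else 0))) := by
    refine (isMx_right x u f D).mul ((IsMx.oneX x).mul ?_)
    split_ifs
    · exact IsMx.oneX x
    · exact IsMx.one x
  obtain ⟨U, hU1, hU0, hUm⟩ := hU
  obtain ⟨V, hV1, hV0, hVm⟩ := hV
  rw [← hG, ← hU1, ← hV1, ← Polynomial.coe_mul] at h1
  have hpoly := Polynomial.coe_injective R h1
  have hrm := congrArg (Polynomial.rootMultiplicity x) hpoly
  rw [Polynomial.rootMultiplicity_mul (mul_ne_zero hG0 hU0), hUm, hVm] at hrm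
  exact hrm

end

section mult

variable {k : Type} [Field k]

/-- the integral version of `gn` -/
noncomputable def gz (ℓ m n : ℕ) : ℤ := if m ∣ n then (ℓ : ℤ) ^ padicValNat ℓ n else 0

theorem gn_cast (ℓ m n : ℕ) : ((gn ℓ m n : ℕ) : ℤ) = gz ℓ m n := by
  unfold gn gz
  split_ifs
  · push_cast
    rfl
  · rfl

open Classical in
/-- the multiplicity of the roots of unity of order `m` -/
noncomputable def mlt (ℓ : ℕ) (u f D : k[X]) (m : ℕ) : ℤ :=
  gz ℓ m 1 + ∑ P ∈ primes D, (∑ S ∈ primes (P.comp f), gz ℓ m S.natDegree +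
      ∑ S ∈ primes u, (Nat.gcd P.natDegree S.natDegree : ℤ) *
        gz ℓ m (Nat.lcm P.natDegree S.natDegree) - 2 * gz ℓ m P.natDegree) +
    (if ℓ ∣ D.natDegree + 1 then gz ℓ m 1 - ∑ S ∈ primes u, gz ℓ m S.natDegree else 0)

variable [Finite k]

theorem mlt_eq (ℓ m : ℕ) {u f D : k[X]} (hu : u ≠ 0) (hf : 0 < f.natDegree) (hD : D ≠ 0) :
    (((mPsi ℓ m u D + mPhi ℓ m f D) + (gn ℓ m 1 +
      (if ℓ ∣ D.natDegree + 1 then gn ℓ m 1 else 0)) : ℕ) : ℤ) -
      ((mD ℓ m D + (mD ℓ m D +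
      (if ℓ ∣ D.natDegree + 1 then ∑ S ∈ facs u, gn ℓ m S.1.natDegree else 0)) : ℕ) : ℤ) =
      mlt ℓ u f D m := by
  classical
  have h1 : ((mD ℓ m D : ℕ) : ℤ) = ∑ P ∈ primes D, gz ℓ m P.natDegree := by
    unfold mD
    push_cast
    simp only [gn_cast]
    exact sum_primes hD (fun P => gz ℓ m P.natDegree)
  have h2 : ((mPhi ℓ m f D : ℕ) : ℤ) =
      ∑ P ∈ primes D, ∑ S ∈ primes (P.comp f), gz ℓ m S.natDegree := by
    unfold mPhi
    push_cast
    simp only [gn_cast]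
    rw [← sum_primes hD (fun P => ∑ S ∈ primes (P.comp f), gz ℓ m S.natDegree)]
    refine Finset.sum_congr rfl fun P _ => ?_
    exact sum_primes (comp_ne hf P) (fun S => gz ℓ m S.natDegree)
  have h3 : ((mPsi ℓ m u D : ℕ) : ℤ) = ∑ P ∈ primes D, ∑ S ∈ primes u,
      (Nat.gcd P.natDegree S.natDegree : ℤ) * gz ℓ m (Nat.lcm P.natDegree S.natDegree) := by
    unfold mPsi
    push_cast
    simp only [gn_cast]
    rw [← sum_primes hD (fun P => ∑ S ∈ primes u, (Nat.gcd P.natDegree S.natDegree : ℤ) *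
        gz ℓ m (Nat.lcm P.natDegree S.natDegree))]
    refine Finset.sum_congr rfl fun P _ => ?_
    exact sum_primes hu (fun S => (Nat.gcd P.1.natDegree S.natDegree : ℤ) *
        gz ℓ m (Nat.lcm P.1.natDegree S.natDegree))
  have h4 : ((∑ S ∈ facs u, gn ℓ m S.1.natDegree : ℕ) : ℤ) =
      ∑ S ∈ primes u, gz ℓ m S.natDegree := by
    push_cast
    simp only [gn_cast]
    exact sum_primes hu (fun P => gz ℓ m P.natDegree)
  unfold mlt
  rw [Finset.sum_sub_distrib, Finset.sum_add_distrib, ← Finset.mul_sum, ← h1, ← h2, ← h3, ← h4,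
    ← gn_cast ℓ m 1]
  split_ifs
  · push_cast
    ring
  · push_cast
    ring

end mult

end Pool.Agent.U407.SS
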